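import Mathlib

set_option autoImplicit false

/-! Truncated inclusion-exclusion. -/

namespace Helper13.Om

open Finset

/-- Truncated inclusion-exclusion product. -/
noncomputable def Atr (r : ℕ) (P : Finset ℕ) (g : ℕ → ℝ) : ℝ :=
  ∑ T ∈ P.powerset, if T.card ≤ r then (-1 : ℝ) ^ T.card * ∏ q ∈ T, g q else 0

/-- Truncated sum of products. -/
noncomputable def Ntr (r : ℕ) (P : Finset ℕ) (z : ℕ → ℝ) : ℝ :=
  ∑ T ∈ P.powerset, if T.card ≤ r then ∏ q ∈ T, z q else 0

lemma Atr_empty (r : ℕ) (g : ℕ → ℝ) : Atr r ∅ g = 1 := by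
  simp [Atr]

lemma Ntr_empty (r : ℕ) (g : ℕ → ℝ) : Ntr r ∅ g = 1 := by
  simp [Ntr]

lemma Atr_zero (P : Finset ℕ) (g : ℕ → ℝ) : Atr 0 P g = 1 := by
  classical
  unfold Atr
  rw [Finset.sum_eq_single ∅]
  · simp
  · intro T hT hne
    rw [if_neg]
    intro h
    exact hne (Finset.card_eq_zero.mp (by omega))
  · intro h
    exact absurd (Finset.empty_mem_powerset P) h

lemma Ntr_zero (P : Finset ℕ) (g : ℕ → ℝ) : Ntr 0 P g = 1 := by
  classical
  unfold Ntr
  rw [Finset.sum_eq_single ∅]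
  · simp
  · intro T hT hne
    rw [if_neg]
    intro h
    exact hne (Finset.card_eq_zero.mp (by omega))
  · intro h
    exact absurd (Finset.empty_mem_powerset P) h

lemma Atr_insert (r : ℕ) (P : Finset ℕ) (q : ℕ) (hq : q ∉ P) (g : ℕ → ℝ) :
    Atr (r + 1) (insert q P) g = Atr (r + 1) P g - g q * Atr r P g := by
  classical
  unfold Atr
  rw [Finset.sum_powerset_insert hq, sub_eq_add_neg, ← neg_mul, Finset.mul_sum]
  congr 1
  refine Finset.sum_congr rfl fun T hT => ?_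
  have hqT : q ∉ T := fun h => hq (Finset.mem_powerset.mp hT h)
  rw [Finset.card_insert_of_notMem hqT, Finset.prod_insert hqT]
  by_cases h : T.card ≤ r
  · rw [if_pos (by omega), if_pos h, pow_succ]
    ring
  · rw [if_neg (by omega), if_neg h, mul_zero]

lemma Ntr_insert (r : ℕ) (P : Finset ℕ) (q : ℕ) (hq : q ∉ P) (g : ℕ → ℝ) :
    Ntr (r + 1) (insert q P) g = Ntr (r + 1) P g + g q * Ntr r P g := by
  classical
  unfold Ntr
  rw [Finset.sum_powerset_insert hq, Finset.mul_sum]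
  congr 1
  refine Finset.sum_congr rfl fun T hT => ?_
  have hqT : q ∉ T := fun h => hq (Finset.mem_powerset.mp hT h)
  rw [Finset.card_insert_of_notMem hqT, Finset.prod_insert hqT]
  by_cases h : T.card ≤ r
  · rw [if_pos (by omega), if_pos h]
  · rw [if_neg (by omega), if_neg h, mul_zero]

lemma pow_add_ge (G x : ℝ) (hG : 0 ≤ G) (hx : 0 ≤ x) (n : ℕ) :
    G ^ (n + 1) + (n + 1) * x * G ^ n ≤ (G + x) ^ (n + 1) := by
  induction n with
  | zero => simp
  | succ n ih =>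
    have h1 : 0 ≤ G ^ n := pow_nonneg hG n
    have h2 : (G + x) * (G ^ (n + 1) + (n + 1) * x * G ^ n) ≤ (G + x) ^ (n + 1 + 1) := by
      rw [pow_succ (G + x) (n + 1), mul_comm ((G + x) ^ (n + 1))]
      exact mul_le_mul_of_nonneg_left ih (by positivity)
    refine le_trans ?_ h2
    push_cast
    have h3 : 0 ≤ (n + 1) * x ^ 2 * G ^ n := by positivity
    have h4 : (G + x) * (G ^ (n + 1) + (n + 1) * x * G ^ n) =
        G ^ (n + 1 + 1) + (n + 1 + 1) * x * G ^ (n + 1) + (n + 1) * x ^ 2 * G ^ n := by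
      rw [pow_succ G (n + 1), pow_succ G n]
      ring
    rw [h4]
    linarith

lemma Atr_bonf (P : Finset ℕ) (g : ℕ → ℝ) (h0 : ∀ q ∈ P, 0 ≤ g q) (h1 : ∀ q ∈ P, g q ≤ 1) :
    ∀ r : ℕ, 0 ≤ (-1 : ℝ) ^ r * (Atr r P g - ∏ q ∈ P, (1 - g q)) ∧
      (-1 : ℝ) ^ r * (Atr r P g - ∏ q ∈ P, (1 - g q)) ≤
        (∑ q ∈ P, g q) ^ (r + 1) / (r + 1).factorial := by
  classical
  induction P using Finset.induction_on with
  | empty =>
    intro r
    simp [Atr_empty]
  | insert q P hq ih =>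
    have h0' : ∀ r ∈ P, 0 ≤ g r := fun r hr => h0 r (Finset.mem_insert_of_mem hr)
    have h1' : ∀ r ∈ P, g r ≤ 1 := fun r hr => h1 r (Finset.mem_insert_of_mem hr)
    have ih' := ih h0' h1'
    have hg0 := h0 q (Finset.mem_insert_self _ _)
    have hg1 := h1 q (Finset.mem_insert_self _ _)
    have hG : 0 ≤ ∑ r ∈ P, g r := Finset.sum_nonneg h0'
    have hprod0 : 0 ≤ ∏ r ∈ P, (1 - g r) :=
      Finset.prod_nonneg fun r hr => by linarith [h1' r hr]
    have hprod1 : ∏ r ∈ P, (1 - g r) ≤ 1 :=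
      Finset.prod_le_one (fun r hr => by linarith [h1' r hr]) fun r hr => by linarith [h0' r hr]
    intro r
    cases r with
    | zero =>
      have h2 := ih' 0
      rw [Atr_zero] at h2 ⊢
      rw [Finset.prod_insert hq, Finset.sum_insert hq]
      simp only [pow_zero, one_mul, zero_add, pow_one, Nat.factorial_one, Nat.cast_one,
        div_one] at h2 ⊢
      constructor
      · nlinarith
      · nlinarith
    | succ r =>
      rw [Atr_insert r P q hq, Finset.prod_insert hq, Finset.sum_insert hq]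
      have hA := ih' (r + 1)
      have hB := ih' r
      have e : (-1 : ℝ) ^ (r + 1) * (Atr (r + 1) P g - g q * Atr r P g -
          (1 - g q) * ∏ x ∈ P, (1 - g x)) =
          (-1 : ℝ) ^ (r + 1) * (Atr (r + 1) P g - ∏ x ∈ P, (1 - g x)) +
          g q * ((-1 : ℝ) ^ r * (Atr r P g - ∏ x ∈ P, (1 - g x))) := by
        rw [pow_succ]
        ring
      rw [e]
      constructor
      · have := mul_nonneg hg0 hB.1
        linarith [hA.1]
      · have h3 := pow_add_ge (∑ x ∈ P, g x) (g q) hG hg0 (r + 1)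
        have hf1 : (0 : ℝ) < ((r + 1).factorial : ℝ) := by positivity
        have hf2 : (0 : ℝ) < ((r + 1 + 1).factorial : ℝ) := by positivity
        have hfac : ((r + 1 + 1).factorial : ℝ) = (r + 2) * ((r + 1).factorial : ℝ) := by
          rw [Nat.factorial_succ (r + 1)]
          push_cast
          ring
        have h4 : g q * ((-1 : ℝ) ^ r * (Atr r P g - ∏ x ∈ P, (1 - g x))) ≤
            g q * ((∑ x ∈ P, g x) ^ (r + 1) / (r + 1).factorial) :=
          mul_le_mul_of_nonneg_left hB.2 hg0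
        have h5 : (∑ x ∈ P, g x) ^ (r + 1 + 1) / ((r + 1 + 1).factorial : ℝ) +
            g q * ((∑ x ∈ P, g x) ^ (r + 1) / (r + 1).factorial) ≤
            (g q + ∑ x ∈ P, g x) ^ (r + 1 + 1) / ((r + 1 + 1).factorial : ℝ) := by
          rw [div_add' _ _ _ hf2.ne', div_le_div_iff_of_pos_right hf2, hfac]
          have : g q * ((∑ x ∈ P, g x) ^ (r + 1) / ((r + 1).factorial : ℝ)) *
              ((r + 2) * ((r + 1).factorial : ℝ)) = (r + 2) * g q * (∑ x ∈ P, g x) ^ (r + 1) := by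
            field_simp
          rw [this, add_comm (g q)]
          push_cast at h3
          linarith
        linarith [hA.2]

lemma Atr_even_ge (P : Finset ℕ) (g : ℕ → ℝ) (h0 : ∀ q ∈ P, 0 ≤ g q) (h1 : ∀ q ∈ P, g q ≤ 1)
    (b : ℕ) : ∏ q ∈ P, (1 - g q) ≤ Atr (2 * b) P g := by
  have h := (Atr_bonf P g h0 h1 (2 * b)).1
  rw [pow_mul, neg_one_sq, one_pow, one_mul] at h
  linarith

lemma Atr_even_le (P : Finset ℕ) (g : ℕ → ℝ) (h0 : ∀ q ∈ P, 0 ≤ g q) (h1 : ∀ q ∈ P, g q ≤ 1)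
    (b : ℕ) : Atr (2 * b) P g ≤
      ∏ q ∈ P, (1 - g q) + (∑ q ∈ P, g q) ^ (2 * b + 1) / (2 * b + 1).factorial := by
  have h := (Atr_bonf P g h0 h1 (2 * b)).2
  rw [pow_mul, neg_one_sq, one_pow, one_mul] at h
  linarith

lemma Ntr_nonneg (r : ℕ) (P : Finset ℕ) (z : ℕ → ℝ) (h0 : ∀ q ∈ P, 0 ≤ z q) : 0 ≤ Ntr r P z := by
  unfold Ntr
  refine Finset.sum_nonneg fun T hT => ?_
  split_ifs
  · exact Finset.prod_nonneg fun q hq => h0 q (Finset.mem_powerset.mp hT hq)
  · exact le_rfl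

lemma Ntr_le (P : Finset ℕ) (z : ℕ → ℝ) (h0 : ∀ q ∈ P, 0 ≤ z q) :
    ∀ r : ℕ, Ntr r P z ≤ (1 + ∑ q ∈ P, z q) ^ r := by
  classical
  induction P using Finset.induction_on with
  | empty =>
    intro r
    simp [Ntr_empty]
  | insert q P hq ih =>
    have h0' : ∀ r ∈ P, 0 ≤ z r := fun r hr => h0 r (Finset.mem_insert_of_mem hr)
    have ih' := ih h0'
    have hz0 := h0 q (Finset.mem_insert_self _ _)
    have hZ : 0 ≤ ∑ r ∈ P, z r := Finset.sum_nonneg h0'
    intro r
    cases r with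
    | zero => simp [Ntr_zero]
    | succ r =>
      rw [Ntr_insert r P q hq, Finset.sum_insert hq]
      have hA := ih' (r + 1)
      have hB := mul_le_mul_of_nonneg_left (ih' r) hz0
      have h1 : (1 + ∑ x ∈ P, z x) ^ r ≤ (1 + (z q + ∑ x ∈ P, z x)) ^ r :=
        pow_le_pow_left₀ (by positivity) (by linarith) r
      have h2 : (1 + ∑ x ∈ P, z x) ^ (r + 1) + z q * (1 + ∑ x ∈ P, z x) ^ r =
          (1 + (z q + ∑ x ∈ P, z x)) * (1 + ∑ x ∈ P, z x) ^ r := by
        rw [pow_succ]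
        ring
      have h3 : (1 + (z q + ∑ x ∈ P, z x)) * (1 + ∑ x ∈ P, z x) ^ r ≤
          (1 + (z q + ∑ x ∈ P, z x)) * (1 + (z q + ∑ x ∈ P, z x)) ^ r :=
        mul_le_mul_of_nonneg_left h1 (by positivity)
      rw [pow_succ (1 + (z q + ∑ x ∈ P, z x)) r, mul_comm ((1 + (z q + ∑ x ∈ P, z x)) ^ r)]
      linarith

end Helper13.Om
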