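import Mathlib

set_option autoImplicit false

/-! Chebyshev type estimates over dyadic shells. -/

namespace Helper13.Om

open Finset

lemma log2_pos_of_prime {q : ℕ} (hq : q.Prime) : 1 ≤ Nat.log 2 q :=
  Nat.log_pos one_lt_two hq.two_le

lemma pow_log2_le {q : ℕ} (hq : q.Prime) : 2 ^ Nat.log 2 q ≤ q :=
  Nat.pow_log_le_self 2 hq.pos.ne'

lemma lt_pow_log2 (q : ℕ) : q < 2 ^ (Nat.log 2 q + 1) :=
  Nat.lt_pow_succ_log_self one_lt_two q

lemma shell_card (P : Finset ℕ) (hP : ∀ q ∈ P, q.Prime) (e : ℕ) (he : 1 ≤ e) :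
    ((P.filter (fun q => Nat.log 2 q = e)).card : ℝ) ≤ 4 * 2 ^ e / e := by
  classical
  set S := P.filter (fun q => Nat.log 2 q = e) with hS
  have hlog2 : 0 < Real.log 2 := Real.log_pos one_lt_two
  have heR : (0 : ℝ) < e := by exact_mod_cast he
  have h1 : ∑ q ∈ S, Real.log q ≤ Chebyshev.theta ((2 : ℝ) ^ (e + 1)) := by
    rw [Chebyshev.theta_eq_sum_Icc]
    refine Finset.sum_le_sum_of_subset_of_nonneg ?_ ?_
    · intro q hq
      rw [hS, Finset.mem_filter] at hq
      rw [Finset.mem_filter, Finset.mem_Icc]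
      refine ⟨⟨Nat.zero_le _, ?_⟩, hP q hq.1⟩
      apply Nat.le_floor
      have := lt_pow_log2 q
      rw [hq.2] at this
      exact_mod_cast this.le
    · intro q _ _
      exact Real.log_natCast_nonneg q
  have h2 : Chebyshev.theta ((2 : ℝ) ^ (e + 1)) ≤ Real.log 4 * (2 : ℝ) ^ (e + 1) :=
    Chebyshev.theta_le_log4_mul_x (by positivity)
  have h3 : (S.card : ℝ) * (e * Real.log 2) ≤ ∑ q ∈ S, Real.log q := by
    rw [← nsmul_eq_mul]
    refine Finset.card_nsmul_le_sum S _ _ fun q hq => ?_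
    rw [hS, Finset.mem_filter] at hq
    have hle := pow_log2_le (hP q hq.1)
    rw [hq.2] at hle
    rw [← Real.log_pow]
    apply Real.log_le_log (by positivity)
    exact_mod_cast hle
  have h4 : Real.log 4 = 2 * Real.log 2 := by
    rw [show (4 : ℝ) = 2 ^ 2 by norm_num, Real.log_pow]
    norm_num
  rw [le_div_iff₀ heR]
  have h5 : (S.card : ℝ) * (e * Real.log 2) ≤ 2 * Real.log 2 * (2 : ℝ) ^ (e + 1) := by
    calc _ ≤ _ := h3
      _ ≤ _ := h1
      _ ≤ _ := h2
      _ = _ := by rw [h4]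
  have h6 : (S.card : ℝ) * e * Real.log 2 ≤ 4 * 2 ^ e * Real.log 2 := by
    rw [pow_succ] at h5
    linarith
  exact le_of_mul_le_mul_right h6 hlog2

/-- Sums over primes with weights depending on the dyadic shell. -/
lemma shell_sum (P : Finset ℕ) (hP : ∀ q ∈ P, q.Prime) (Es : Finset ℕ)
    (hEs : ∀ q ∈ P, Nat.log 2 q ∈ Es) (w : ℕ → ℝ) (hw : ∀ e, 0 ≤ w e) :
    ∑ q ∈ P, w (Nat.log 2 q) / q ≤ ∑ e ∈ Es, w e * (4 / e) := by
  classical
  rw [← Finset.sum_fiberwise_of_maps_to (g := Nat.log 2) (t := Es) hEs]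
  refine Finset.sum_le_sum fun e _ => ?_
  rcases Nat.eq_zero_or_pos e with he | he
  · rw [Finset.sum_eq_zero]
    · subst he
      simp
    · intro q hq
      rw [Finset.mem_filter] at hq
      have := log2_pos_of_prime (hP q hq.1)
      omega
  · have heR : (0 : ℝ) < e := by exact_mod_cast he
    have h1 : ∑ q ∈ P.filter (fun q => Nat.log 2 q = e), w (Nat.log 2 q) / q ≤
        ∑ q ∈ P.filter (fun q => Nat.log 2 q = e), w e / 2 ^ e := by
      refine Finset.sum_le_sum fun q hq => ?_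
      rw [Finset.mem_filter] at hq
      rw [hq.2]
      have hle := pow_log2_le (hP q hq.1)
      rw [hq.2] at hle
      apply div_le_div_of_nonneg_left (hw e) (by positivity)
      exact_mod_cast hle
    refine h1.trans ?_
    rw [Finset.sum_const, nsmul_eq_mul]
    have h2 := shell_card P hP e he
    have h3 : 0 ≤ w e / 2 ^ e := div_nonneg (hw e) (by positivity)
    calc ((P.filter (fun q => Nat.log 2 q = e)).card : ℝ) * (w e / 2 ^ e)
        ≤ (4 * 2 ^ e / e) * (w e / 2 ^ e) := mul_le_mul_of_nonneg_right h2 h3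
      _ = w e * (4 / e) := by
          field_simp

/-- The reciprocal sum over a block. -/
lemma block_sum (P : Finset ℕ) (hP : ∀ q ∈ P, q.Prime) (E j : ℕ)
    (hb : ∀ q ∈ P, 2 ^ j * Nat.log 2 q ≤ E ∧ E < 2 ^ (j + 1) * Nat.log 2 q) :
    ∑ q ∈ P, (1 : ℝ) / q ≤ 4 := by
  classical
  set K := E / 2 ^ j with hK
  have hmem : ∀ q ∈ P, Nat.log 2 q ∈ Finset.Icc ((K + 2) / 2) K := by
    intro q hq
    obtain ⟨h1, h2⟩ := hb q hq
    rw [Finset.mem_Icc]
    have h3 : Nat.log 2 q ≤ K := by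
      rw [hK, Nat.le_div_iff_mul_le (by positivity)]
      rwa [mul_comm]
    have h4 : K < 2 * Nat.log 2 q := by
      rw [hK, Nat.div_lt_iff_lt_mul (by positivity)]
      calc E < 2 ^ (j + 1) * Nat.log 2 q := h2
        _ = 2 * Nat.log 2 q * 2 ^ j := by ring
    constructor
    · omega
    · exact h3
  have h := shell_sum P hP _ hmem (fun _ => 1) (fun _ => zero_le_one)
  simp only [one_mul] at h
  refine h.trans ?_
  have h2 : ∀ e ∈ Finset.Icc ((K + 2) / 2) K, (4 : ℝ) / e ≤ 8 / (K + 1) := by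
    intro e he
    rw [Finset.mem_Icc] at he
    have h3 : K + 1 ≤ 2 * e := by omega
    have h4 : 0 < e := by omega
    have h4R : (0 : ℝ) < e := by exact_mod_cast h4
    have h3R : (K : ℝ) + 1 ≤ 2 * e := by exact_mod_cast h3
    rw [div_le_div_iff₀ h4R (by positivity)]
    linarith
  refine (Finset.sum_le_card_nsmul _ _ _ h2).trans ?_
  rw [nsmul_eq_mul, Nat.card_Icc]
  have h5 : 2 * (K + 1 - (K + 2) / 2) ≤ K + 1 := by
    have h6 : ∀ K : ℕ, 2 * (K + 1 - (K + 2) / 2) ≤ K + 1 := by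
      intro K
      omega
    exact h6 K
  have h5R : 2 * ((K + 1 - (K + 2) / 2 : ℕ) : ℝ) ≤ (K : ℝ) + 1 := by exact_mod_cast h5
  have hK1 : (0 : ℝ) < (K : ℝ) + 1 := by positivity
  rw [mul_div_assoc', div_le_iff₀ hK1]
  linarith

/-- The sum of `log q / q`, in bit lengths. -/
lemma log_sum (P : Finset ℕ) (hP : ∀ q ∈ P, q.Prime) (E : ℕ) (hE : ∀ q ∈ P, Nat.log 2 q ≤ E) :
    ∑ q ∈ P, ((Nat.log 2 q : ℝ) + 1) / q ≤ 8 * E := by
  classical
  have hmem : ∀ q ∈ P, Nat.log 2 q ∈ Finset.Icc 1 E := by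
    intro q hq
    rw [Finset.mem_Icc]
    exact ⟨log2_pos_of_prime (hP q hq), hE q hq⟩
  have h := shell_sum P hP _ hmem (fun e => (e : ℝ) + 1) (fun e => by positivity)
  refine h.trans ?_
  have h2 : ∀ e ∈ Finset.Icc 1 E, ((e : ℝ) + 1) * (4 / e) ≤ 8 := by
    intro e he
    rw [Finset.mem_Icc] at he
    have h4R : (1 : ℝ) ≤ e := by exact_mod_cast he.1
    rw [mul_div_assoc', div_le_iff₀ (by linarith)]
    linarith
  refine (Finset.sum_le_card_nsmul _ _ _ h2).trans ?_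
  rw [nsmul_eq_mul, Nat.card_Icc, Nat.add_sub_cancel]
  linarith

end Helper13.Om
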