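import Mathlib

set_option autoImplicit false

/-! Finite combinations of residue class indicators. -/

namespace Helper13.Om

open Finset

/-- `f` is a combination of indicators of residue classes to moduli whose prime factors lie in `S`,
with total coefficient mass at most `A` and mean value `E`. -/
def Nice (S : Finset ℕ) (A E : ℝ) (f : ℕ → ℝ) : Prop :=
  ∃ (ι : Type) (_ : Fintype ι) (c : ι → ℝ) (a d : ι → ℕ),
    (∀ i, 0 < d i ∧ ∀ p, p.Prime → p ∣ d i → p ∈ S) ∧
    (∀ m, f m = ∑ i, c i * (if m ≡ a i [MOD d i] then 1 else 0)) ∧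
    (∑ i, |c i| ≤ A) ∧ (∑ i, c i / d i = E)

lemma Nice.mono {S S' : Finset ℕ} {A A' E : ℝ} {f : ℕ → ℝ} (h : Nice S A E f) (hS : S ⊆ S')
    (hA : A ≤ A') : Nice S' A' E f := by
  obtain ⟨ι, _, c, a, d, h1, h2, h3, h4⟩ := h
  exact ⟨ι, _, c, a, d, fun i => ⟨(h1 i).1, fun p hp hd => hS ((h1 i).2 p hp hd)⟩, h2,
    h3.trans hA, h4⟩

lemma Nice.nonneg {S : Finset ℕ} {A E : ℝ} {f : ℕ → ℝ} (h : Nice S A E f) : 0 ≤ A := by
  obtain ⟨ι, _, c, a, d, h1, h2, h3, h4⟩ := h
  exact le_trans (Finset.sum_nonneg fun i _ => abs_nonneg _) h3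

lemma nice_one : Nice ∅ 1 1 (fun _ => 1) := by
  refine ⟨Unit, inferInstance, fun _ => 1, fun _ => 0, fun _ => 1, ?_, ?_, ?_, ?_⟩
  · intro _
    refine ⟨one_pos, fun p hp hd => ?_⟩
    exact absurd (Nat.dvd_one.mp hd) hp.one_lt.ne'
  · intro m
    simp [Nat.modEq_one]
  · simp
  · simp

/-- A single class. -/
lemma nice_class {S : Finset ℕ} (a d : ℕ) (hd : 0 < d) (hS : ∀ p, p.Prime → p ∣ d → p ∈ S) :
    Nice S 1 (1 / d) (fun m => if m ≡ a [MOD d] then 1 else 0) := by
  refine ⟨Unit, inferInstance, fun _ => 1, fun _ => a, fun _ => d, ?_, ?_, ?_, ?_⟩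
  · intro _
    exact ⟨hd, hS⟩
  · intro m
    simp
  · simp
  · simp

lemma nice_lin {J : Type} (s : Finset J) {S : Finset ℕ} (A E w : J → ℝ) (f : J → ℕ → ℝ)
    (h : ∀ j ∈ s, Nice S (A j) (E j) (f j)) :
    Nice S (∑ j ∈ s, |w j| * A j) (∑ j ∈ s, w j * E j) (fun m => ∑ j ∈ s, w j * f j m) := by
  classical
  have h' : ∀ j : s, Nice S (A j) (E j) (f j) := fun j => h j j.2
  choose ι inst c a d h1 h2 h3 h4 using h'
  refine ⟨Σ j : s, ι j, inferInstance, fun x => w x.1 * c x.1 x.2, fun x => a x.1 x.2,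
    fun x => d x.1 x.2, ?_, ?_, ?_, ?_⟩
  · intro x
    exact h1 x.1 x.2
  · intro m
    show ∑ j ∈ s, w j * f j m = _
    rw [← Finset.sum_coe_sort s, Fintype.sum_sigma]
    refine Finset.sum_congr rfl fun j _ => ?_
    rw [h2 j m, Finset.mul_sum]
    refine Finset.sum_congr rfl fun i _ => ?_
    ring
  · rw [Fintype.sum_sigma, ← Finset.sum_coe_sort s]
    refine Finset.sum_le_sum fun j _ => ?_
    simp only [abs_mul]
    rw [← Finset.mul_sum]
    exact mul_le_mul_of_nonneg_left (h3 j) (abs_nonneg _)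
  · rw [Fintype.sum_sigma, ← Finset.sum_coe_sort s]
    refine Finset.sum_congr rfl fun j _ => ?_
    rw [← h4 j, Finset.mul_sum]
    refine Finset.sum_congr rfl fun i _ => ?_
    ring

lemma Nice.mul {S S' : Finset ℕ} {A A' E E' : ℝ} {f f' : ℕ → ℝ} (hS : Disjoint S S')
    (h : Nice S A E f) (h' : Nice S' A' E' f') :
    Nice (S ∪ S') (A * A') (E * E') (fun m => f m * f' m) := by
  classical
  have hA := h.nonneg
  have hA' := h'.nonneg
  obtain ⟨ι, _, c, a, d, h1, h2, h3, h4⟩ := h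
  obtain ⟨ι', _, c', a', d', h1', h2', h3', h4'⟩ := h'
  have hcop : ∀ i i', Nat.Coprime (d i) (d' i') := by
    intro i i'
    rw [Nat.coprime_iff_gcd_eq_one]
    by_contra hne
    obtain ⟨p, hp, hpd⟩ := Nat.exists_prime_and_dvd hne
    have m1 := (h1 i).2 p hp (hpd.trans (Nat.gcd_dvd_left _ _))
    have m2 := (h1' i').2 p hp (hpd.trans (Nat.gcd_dvd_right _ _))
    exact (Finset.disjoint_left.mp hS) m1 m2
  refine ⟨ι × ι', inferInstance, fun x => c x.1 * c' x.2,
    fun x => (Nat.chineseRemainder (hcop x.1 x.2) (a x.1) (a' x.2) : ℕ),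
    fun x => d x.1 * d' x.2, ?_, ?_, ?_, ?_⟩
  · intro x
    refine ⟨Nat.mul_pos (h1 x.1).1 (h1' x.2).1, fun p hp hd => ?_⟩
    rcases (Nat.Prime.dvd_mul hp).mp hd with hd | hd
    · exact Finset.mem_union_left _ ((h1 x.1).2 p hp hd)
    · exact Finset.mem_union_right _ ((h1' x.2).2 p hp hd)
  · intro m
    show f m * f' m = _
    rw [h2, h2', Fintype.sum_prod_type, Finset.sum_mul_sum]
    refine Finset.sum_congr rfl fun i _ => Finset.sum_congr rfl fun i' _ => ?_
    have key : (m ≡ (Nat.chineseRemainder (hcop i i') (a i) (a' i') : ℕ) [MOD d i * d' i']) ↔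
        (m ≡ a i [MOD d i] ∧ m ≡ a' i' [MOD d' i']) := by
      have hc := (Nat.chineseRemainder (hcop i i') (a i) (a' i')).2
      rw [← Nat.modEq_and_modEq_iff_modEq_mul (hcop i i')]
      constructor
      · rintro ⟨e1, e2⟩
        exact ⟨e1.trans hc.1, e2.trans hc.2⟩
      · rintro ⟨e1, e2⟩
        exact ⟨e1.trans hc.1.symm, e2.trans hc.2.symm⟩
    by_cases e1 : m ≡ a i [MOD d i] <;> by_cases e2 : m ≡ a' i' [MOD d' i'] <;>
      simp [key, e1, e2]
  · rw [Fintype.sum_prod_type]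
    simp only [abs_mul]
    rw [← Finset.sum_mul_sum]
    exact mul_le_mul h3 h3' (Finset.sum_nonneg fun i _ => abs_nonneg _) hA
  · rw [Fintype.sum_prod_type, ← h4, ← h4', Finset.sum_mul_sum]
    refine Finset.sum_congr rfl fun i _ => Finset.sum_congr rfl fun i' _ => ?_
    rw [Nat.cast_mul, mul_div_mul_comm]

lemma card_Icc_modEq (M a d : ℕ) (hd : 0 < d) :
    |(((Finset.Icc 1 M).filter (fun m => m ≡ a [MOD d])).card : ℝ) - (M : ℝ) / d| ≤ 1 := by
  have h := Nat.Ioc_filter_modEq_card 0 M hd a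
  have hI : Finset.Icc 1 M = Finset.Ioc 0 M := rfl
  rw [hI]
  have hdR : (0 : ℝ) < d := by exact_mod_cast hd
  have hdQ : (0 : ℚ) < d := by exact_mod_cast hd
  set k := ((Finset.Ioc 0 M).filter (fun m => m ≡ a [MOD d])).card with hk
  have hk' : (k : ℤ) = max (⌊((M : ℚ) - a) / d⌋ - ⌊((0 : ℕ) - (a : ℚ)) / d⌋) 0 := by
    rw [h]
  have hsub : ((M : ℚ) - a) / d = ((0 : ℕ) - (a : ℚ)) / d + M / d := by
    push_cast
    field_simp
    ring
  have hMd : (0 : ℚ) ≤ (M : ℚ) / d := by positivity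
  have hnn : ⌊((0 : ℕ) - (a : ℚ)) / d⌋ ≤ ⌊((M : ℚ) - a) / d⌋ := by
    apply Int.floor_le_floor
    rw [hsub]
    linarith
  rw [max_eq_left (by linarith)] at hk'
  have e1 := Int.floor_le (((M : ℚ) - a) / d)
  have e2 := Int.lt_floor_add_one (((M : ℚ) - a) / d)
  have e3 := Int.floor_le ((((0 : ℕ) : ℚ) - (a : ℚ)) / d)
  have e4 := Int.lt_floor_add_one ((((0 : ℕ) : ℚ) - (a : ℚ)) / d)
  have hkQ : (k : ℚ) = (⌊((M : ℚ) - a) / d⌋ : ℚ) - (⌊((0 : ℕ) - (a : ℚ)) / d⌋ : ℚ) := by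
    have : ((k : ℤ) : ℚ) = ((⌊((M : ℚ) - a) / d⌋ - ⌊((0 : ℕ) - (a : ℚ)) / d⌋ : ℤ) : ℚ) := by
      rw [hk']
    push_cast at this
    push_cast
    exact this
  have hub : (k : ℚ) - M / d ≤ 1 := by
    rw [hkQ]
    linarith
  have hlb : -1 ≤ (k : ℚ) - M / d := by
    rw [hkQ]
    linarith
  rw [abs_le]
  constructor
  · have : ((-1 : ℚ) : ℝ) ≤ (((k : ℚ) - M / d : ℚ) : ℝ) := by exact_mod_cast hlb
    push_cast at this
    exact this
  · have : ((((k : ℚ) - M / d : ℚ)) : ℝ) ≤ ((1 : ℚ) : ℝ) := by exact_mod_cast hub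
    push_cast at this
    exact this

lemma Nice.sum_le {S : Finset ℕ} {A E : ℝ} {f : ℕ → ℝ} (h : Nice S A E f) (M : ℕ) :
    |∑ m ∈ Finset.Icc 1 M, f m - M * E| ≤ A := by
  classical
  obtain ⟨ι, _, c, a, d, h1, h2, h3, h4⟩ := h
  have e1 : ∑ m ∈ Finset.Icc 1 M, f m =
      ∑ i, c i * (((Finset.Icc 1 M).filter (fun m => m ≡ a i [MOD d i])).card : ℝ) := by
    simp only [h2]
    rw [Finset.sum_comm]
    refine Finset.sum_congr rfl fun i _ => ?_
    rw [← Finset.mul_sum, Finset.sum_boole]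
  have e2 : (M : ℝ) * E = ∑ i, c i * ((M : ℝ) / d i) := by
    rw [← h4, Finset.mul_sum]
    refine Finset.sum_congr rfl fun i _ => ?_
    ring
  rw [e1, e2, ← Finset.sum_sub_distrib]
  refine (Finset.abs_sum_le_sum_abs _ _).trans (le_trans ?_ h3)
  refine Finset.sum_le_sum fun i _ => ?_
  rw [← mul_sub, abs_mul]
  calc |c i| * _ ≤ |c i| * 1 :=
        mul_le_mul_of_nonneg_left (card_Icc_modEq M (a i) (d i) (h1 i).1) (abs_nonneg _)
    _ = |c i| := mul_one _

/-- Membership of the residue mod `q` in a set. -/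
lemma nice_mem (q : ℕ) (hq : q.Prime) (Z : Finset ℕ) (hZ : Z ⊆ Finset.range q) :
    Nice {q} (Z.card : ℝ) ((Z.card : ℝ) / q) (fun m => if m % q ∈ Z then 1 else 0) := by
  classical
  have hS : ∀ p, p.Prime → p ∣ q → p ∈ ({q} : Finset ℕ) := by
    intro p hp hd
    rw [Finset.mem_singleton]
    exact (Nat.prime_dvd_prime_iff_eq hp hq).mp hd
  have h := nice_lin Z (fun _ => 1) (fun _ => 1 / (q : ℝ)) (fun _ => 1)
    (fun z m => if m ≡ z [MOD q] then 1 else 0) (fun z _ => nice_class z q hq.pos hS)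
  have e1 : (∑ j ∈ Z, |(1 : ℝ)| * 1) = (Z.card : ℝ) := by simp
  have e2 : (∑ j ∈ Z, (1 : ℝ) * (1 / (q : ℝ))) = (Z.card : ℝ) / q := by
    simp [div_eq_mul_inv]
  rw [e1, e2] at h
  convert h using 2 with m
  simp only [one_mul]
  by_cases hm : m % q ∈ Z
  · rw [if_pos hm, Finset.sum_eq_single (m % q)]
    · rw [if_pos]
      exact (Nat.mod_modEq m q).symm
    · intro b hb hne
      rw [if_neg]
      intro hmod
      apply hne
      have hb' := Finset.mem_range.mp (hZ hb)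
      have : m % q = b % q := hmod
      rw [this, Nat.mod_eq_of_lt hb']
    · intro hne
      exact absurd hm hne
  · rw [if_neg hm, Finset.sum_eq_zero]
    intro b hb
    rw [if_neg]
    intro hmod
    apply hm
    have hb' := Finset.mem_range.mp (hZ hb)
    have : m % q = b % q := hmod
    rw [this, Nat.mod_eq_of_lt hb']
    exact hb

lemma nice_prod (T : Finset ℕ) (A E : ℕ → ℝ) (f : ℕ → ℕ → ℝ)
    (h : ∀ q ∈ T, Nice {q} (A q) (E q) (f q)) :
    Nice T (∏ q ∈ T, A q) (∏ q ∈ T, E q) (fun m => ∏ q ∈ T, f q m) := by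
  classical
  induction T using Finset.induction_on with
  | empty => simpa using nice_one
  | insert q T hq ih =>
    have h1 := h q (Finset.mem_insert_self _ _)
    have h2 := ih (fun r hr => h r (Finset.mem_insert_of_mem hr))
    have h3 := h1.mul (Finset.disjoint_singleton_left.mpr hq) h2
    have e : ({q} : Finset ℕ) ∪ T = insert q T := rfl
    rw [e] at h3
    simpa only [Finset.prod_insert hq] using h3

/-- Products over a disjoint family of prime sets. -/
lemma nice_prod_blocks (J : ℕ) (S : ℕ → Finset ℕ) (hS : ∀ i j, i ≠ j → Disjoint (S i) (S j))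
    (A E : ℕ → ℝ) (f : ℕ → ℕ → ℝ) (h : ∀ j, j < J → Nice (S j) (A j) (E j) (f j)) :
    Nice ((Finset.range J).biUnion S) (∏ j ∈ Finset.range J, A j) (∏ j ∈ Finset.range J, E j)
      (fun m => ∏ j ∈ Finset.range J, f j m) := by
  classical
  induction J with
  | zero => simpa using nice_one
  | succ J ih =>
    have h1 := ih (fun j hj => h j (by omega))
    have h2 := h J (by omega)
    have hd : Disjoint ((Finset.range J).biUnion S) (S J) := by
      rw [Finset.disjoint_biUnion_left]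
      intro i hi
      exact hS i J (by have := Finset.mem_range.mp hi; omega)
    have h3 := h1.mul hd h2
    have e : (Finset.range J).biUnion S ∪ S J = (Finset.range (J + 1)).biUnion S := by
      rw [Finset.range_add_one, Finset.biUnion_insert, Finset.union_comm]
    rw [e] at h3
    simpa only [Finset.prod_range_succ] using h3

end Helper13.Om
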