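import Mathlib
import Pool.Agent.Helper13.Om.Nice
import Pool.Agent.Helper13.Om.Bonf
import Pool.Agent.Helper13.Om.Cheb

set_option autoImplicit false

/-! The upper bound sieve (Brun-Hooley) in the fundamental lemma range. -/

namespace Helper13.Om

open Finset

lemma nice_Atr (r : ℕ) (P : Finset ℕ) (hP : ∀ q ∈ P, q.Prime) (Z : ℕ → Finset ℕ)
    (hZ : ∀ q ∈ P, Z q ⊆ Finset.range q) :
    Nice P (Ntr r P (fun q => ((Z q).card : ℝ))) (Atr r P (fun q => ((Z q).card : ℝ) / q))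
      (fun m => Atr r P (fun q => if m % q ∈ Z q then 1 else 0)) := by
  classical
  have h := nice_lin P.powerset (S := P) (fun T => ∏ q ∈ T, ((Z q).card : ℝ))
    (fun T => ∏ q ∈ T, ((Z q).card : ℝ) / q)
    (fun T => if T.card ≤ r then (-1 : ℝ) ^ T.card else 0)
    (fun T m => ∏ q ∈ T, (if m % q ∈ Z q then (1 : ℝ) else 0)) (by
      intro T hT
      have hTP := Finset.mem_powerset.mp hT
      exact (nice_prod T _ _ _ fun q hq =>
        nice_mem q (hP q (hTP hq)) (Z q) (hZ q (hTP hq))).mono hTP le_rfl)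
  have e1 : ∑ T ∈ P.powerset, |(if T.card ≤ r then (-1 : ℝ) ^ T.card else 0)| *
      ∏ q ∈ T, ((Z q).card : ℝ) = Ntr r P (fun q => ((Z q).card : ℝ)) := by
    unfold Ntr
    refine Finset.sum_congr rfl fun T _ => ?_
    split_ifs
    · rw [abs_pow, abs_neg, abs_one, one_pow, one_mul]
    · simp
  have e2 : ∑ T ∈ P.powerset, (if T.card ≤ r then (-1 : ℝ) ^ T.card else 0) *
      ∏ q ∈ T, ((Z q).card : ℝ) / q = Atr r P (fun q => ((Z q).card : ℝ) / q) := by
    unfold Atr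
    refine Finset.sum_congr rfl fun T _ => ?_
    split_ifs
    · rfl
    · simp
  rw [e1, e2] at h
  convert h using 2 with m
  unfold Atr
  refine Finset.sum_congr rfl fun T _ => ?_
  split_ifs
  · rfl
  · simp

lemma one_sub_ge_exp (t : ℕ) (x : ℝ) (hx0 : 0 ≤ x) (hx : x * (t + 1) ≤ t) :
    Real.exp (-((t + 1) * x)) ≤ 1 - x := by
  have ht : (0 : ℝ) ≤ t := Nat.cast_nonneg t
  have h1 : 0 < 1 - x := by
    by_contra h
    push Not at h
    have : (t : ℝ) + 1 ≤ x * (t + 1) := by nlinarith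
    linarith
  have h2 : x / (1 - x) ≤ (t + 1) * x := by
    rw [div_le_iff₀ h1]
    nlinarith
  have h3 : 1 / (1 - x) ≤ Real.exp ((t + 1) * x) := by
    have h4 := Real.add_one_le_exp (x / (1 - x))
    have h5 : x / (1 - x) + 1 = 1 / (1 - x) := by
      field_simp
      ring
    rw [h5] at h4
    exact h4.trans (Real.exp_le_exp.mpr h2)
  rw [Real.exp_neg, inv_le_comm₀ (Real.exp_pos _) h1, inv_eq_one_div]
  exact h3

lemma one_sub_prod_ge (P : Finset ℕ) (t : ℕ) (ht : ∀ q ∈ P, t < q) (z : ℕ → ℕ)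
    (hz : ∀ q ∈ P, z q ≤ t) :
    Real.exp (-((t + 1) * ∑ q ∈ P, (z q : ℝ) / q)) ≤ ∏ q ∈ P, (1 - (z q : ℝ) / q) := by
  classical
  rw [Finset.mul_sum, ← Finset.sum_neg_distrib, Real.exp_sum]
  refine Finset.prod_le_prod (fun q _ => (Real.exp_pos _).le) fun q hq => ?_
  have hq' : (t : ℝ) + 1 ≤ q := by exact_mod_cast ht q hq
  have hz' : (z q : ℝ) ≤ t := by exact_mod_cast hz q hq
  have hz0 : (0 : ℝ) ≤ z q := Nat.cast_nonneg _
  have hq0 : (0 : ℝ) < q := by
    have : (0 : ℝ) ≤ t := Nat.cast_nonneg t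
    linarith
  apply one_sub_ge_exp
  · positivity
  · rw [div_mul_eq_mul_div, div_le_iff₀ hq0]
    have : (0 : ℝ) ≤ t := Nat.cast_nonneg t
    nlinarith

/-- The constant in the error term. -/
noncomputable def Kt (t : ℕ) : ℝ := 8 * t ^ 2 * Real.exp (4 * t + 4 * t * (t + 1))

lemma Kt_nonneg (t : ℕ) : 0 ≤ Kt t := by
  unfold Kt
  positivity

lemma pow_div_fact_le (G : ℝ) (hG : 0 ≤ G) (n : ℕ) :
    G ^ (n + 2) / (n + 2).factorial ≤ G ^ 2 * Real.exp G / ((n + 2) * (n + 1)) := by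
  have h1 := Real.pow_div_factorial_le_exp G hG n
  have hf : ((n + 2).factorial : ℝ) = (n + 2) * ((n + 1) * (n.factorial : ℝ)) := by
    rw [Nat.factorial_succ, Nat.factorial_succ]
    push_cast
    ring
  have hn : (0 : ℝ) < n.factorial := by positivity
  rw [hf, pow_add]
  have e : G ^ n * G ^ 2 / ((n + 2) * ((n + 1) * (n.factorial : ℝ))) =
      G ^ 2 * (G ^ n / n.factorial) / ((n + 2) * (n + 1)) := by
    field_simp
  rw [e]
  apply div_le_div_of_nonneg_right _ (by positivity)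
  exact mul_le_mul_of_nonneg_left h1 (by positivity)

lemma tau_sum (G : ℝ) (hG : 0 ≤ G) (b : ℕ) (hb : 1 ≤ b) (J : ℕ) :
    ∑ j ∈ Finset.range J, G ^ (2 * (b + j) + 1) / (2 * (b + j) + 1).factorial ≤
      G ^ 2 * Real.exp G / (2 * b) := by
  have hbR : (1 : ℝ) ≤ b := by exact_mod_cast hb
  have key : ∀ J : ℕ, ∑ j ∈ Finset.range J,
      G ^ (2 * (b + j) + 1) / ((2 * (b + j) + 1).factorial : ℝ) ≤
      G ^ 2 * Real.exp G * (1 / (2 * b) - 1 / (2 * (b + J))) := by
    intro J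
    induction J with
    | zero => simp
    | succ J ih =>
      rw [Finset.sum_range_succ]
      obtain ⟨c, hc⟩ : ∃ c, b + J = c + 1 := ⟨b + J - 1, by omega⟩
      have h1 := pow_div_fact_le G hG (2 * c + 1)
      have e1 : 2 * (b + J) + 1 = 2 * c + 1 + 2 := by omega
      rw [e1]
      have hcR : (b : ℝ) + J = c + 1 := by exact_mod_cast hc
      have h2 : (1 : ℝ) / (((2 * c + 1 : ℕ) + 2) * ((2 * c + 1 : ℕ) + 1)) ≤
          1 / (2 * (b + J)) - 1 / (2 * (b + (J + 1 : ℕ))) := by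
        push_cast
        rw [← add_assoc, hcR]
        have hc0 : (0 : ℝ) ≤ c := Nat.cast_nonneg c
        rw [div_sub_div _ _ (by positivity) (by positivity), div_le_div_iff₀ (by positivity)
          (by positivity)]
        nlinarith
      have h3 : G ^ 2 * Real.exp G / (((2 * c + 1 : ℕ) + 2) * ((2 * c + 1 : ℕ) + 1)) ≤
          G ^ 2 * Real.exp G * (1 / (2 * (b + J)) - 1 / (2 * (b + (J + 1 : ℕ)))) := by
        rw [div_eq_mul_one_div]
        exact mul_le_mul_of_nonneg_left h2 (by positivity)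
      have h4 : G ^ 2 * Real.exp G * (1 / (2 * b) - 1 / (2 * (b + J))) +
          G ^ 2 * Real.exp G * (1 / (2 * (b + J)) - 1 / (2 * (b + (J + 1 : ℕ)))) =
          G ^ 2 * Real.exp G * (1 / (2 * b) - 1 / (2 * (b + (J + 1 : ℕ)))) := by
        ring
      linarith
  refine (key J).trans ?_
  have h0 : 0 ≤ G ^ 2 * Real.exp G := by positivity
  have h1 : (0 : ℝ) ≤ 1 / (2 * (b + J)) := by positivity
  calc G ^ 2 * Real.exp G * (1 / (2 * b) - 1 / (2 * (b + J)))
      ≤ G ^ 2 * Real.exp G * (1 / (2 * b)) := mul_le_mul_of_nonneg_left (by linarith) h0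
    _ = G ^ 2 * Real.exp G / (2 * b) := by ring

lemma exponent_sum (b J : ℕ) :
    ∑ j ∈ Finset.range J, ((b : ℝ) + j) / 2 ^ j = 2 * b + 2 - (2 * b + 2 * J + 2) / 2 ^ J := by
  induction J with
  | zero => simp
  | succ J ih =>
    rw [Finset.sum_range_succ, ih, pow_succ]
    push_cast
    field_simp
    ring

lemma exponent_sum_nat (E b J : ℕ) :
    ∑ j ∈ Finset.range J, 10 * (E / 2 ^ j) * (b + j) ≤ 20 * E * (b + 1) := by
  have h : ((∑ j ∈ Finset.range J, 10 * (E / 2 ^ j) * (b + j) : ℕ) : ℝ) ≤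
      ((20 * E * (b + 1) : ℕ) : ℝ) := by
    push_cast
    have h1 : ∀ j ∈ Finset.range J, (10 : ℝ) * ((E / 2 ^ j : ℕ) : ℝ) * (b + j) ≤
        10 * E * ((b + j) / 2 ^ j) := by
      intro j _
      have h2 : ((E / 2 ^ j : ℕ) : ℝ) ≤ (E : ℝ) / 2 ^ j := by
        have := @Nat.cast_div_le ℝ _ _ _ E (2 ^ j)
        push_cast at this
        exact this
      have h3 : (0 : ℝ) ≤ (b : ℝ) + j := by positivity
      calc (10 : ℝ) * ((E / 2 ^ j : ℕ) : ℝ) * (b + j) ≤ 10 * ((E : ℝ) / 2 ^ j) * (b + j) := by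
            gcongr
        _ = 10 * E * ((b + j) / 2 ^ j) := by ring
    refine (Finset.sum_le_sum h1).trans ?_
    rw [← Finset.mul_sum, exponent_sum]
    have h4 : (0 : ℝ) ≤ (2 * b + 2 * J + 2) / 2 ^ J := by positivity
    have h5 : (0 : ℝ) ≤ E := Nat.cast_nonneg E
    nlinarith
  exact_mod_cast h

lemma Ntr_block_le (S : Finset ℕ) (hS : ∀ q ∈ S, q.Prime) (t : ℕ) (ht : ∀ q ∈ S, t < q) (K : ℕ)
    (hK : ∀ q ∈ S, Nat.log 2 q ≤ K) (z : ℕ → ℕ) (hz : ∀ q ∈ S, z q ≤ t) (b : ℕ) :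
    Ntr (2 * b) S (fun q => (z q : ℝ)) ≤ 2 ^ (10 * K * b) := by
  refine (Ntr_le S _ (fun q _ => Nat.cast_nonneg _) _).trans ?_
  rcases Finset.eq_empty_or_nonempty S with he | ⟨q₀, hq₀⟩
  · rw [he]
    simp only [Finset.sum_empty, add_zero, one_pow]
    exact one_le_pow₀ (by norm_num)
  · have hK1 : 1 ≤ K := (log2_pos_of_prime (hS q₀ hq₀)).trans (hK q₀ hq₀)
    have hlt : ∀ q ∈ S, q < 2 ^ (K + 1) := by
      intro q hq
      refine (lt_pow_log2 q).trans_le ?_
      exact Nat.pow_le_pow_right (by norm_num) (by have := hK q hq; omega)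
    have hcS : S.card ≤ 2 ^ (K + 1) := by
      have h1 : S ⊆ Finset.range (2 ^ (K + 1)) := fun q hq => Finset.mem_range.mpr (hlt q hq)
      have h2 := Finset.card_le_card h1
      rwa [Finset.card_range] at h2
    have htK : t ≤ 2 ^ (K + 1) := ((ht q₀ hq₀).trans (hlt q₀ hq₀)).le
    have hsumZ : ∑ q ∈ S, (z q : ℝ) ≤ 2 ^ (K + 1) * 2 ^ (K + 1) := by
      have h1 : ∑ q ∈ S, (z q : ℝ) ≤ ∑ q ∈ S, (t : ℝ) := by
        refine Finset.sum_le_sum fun q hq => ?_
        exact Nat.cast_le.mpr (hz q hq)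
      rw [Finset.sum_const, nsmul_eq_mul] at h1
      have h2 : (S.card : ℝ) ≤ 2 ^ (K + 1) := by
        have := (Nat.cast_le (α := ℝ)).mpr hcS
        rwa [Nat.cast_pow, Nat.cast_ofNat] at this
      have h3 : (t : ℝ) ≤ 2 ^ (K + 1) := by
        have := (Nat.cast_le (α := ℝ)).mpr htK
        rwa [Nat.cast_pow, Nat.cast_ofNat] at this
      exact h1.trans (mul_le_mul h2 h3 (Nat.cast_nonneg _) (by positivity))
    have h5 : 1 + ∑ q ∈ S, (z q : ℝ) ≤ 2 ^ (5 * K) := by
      have h6 : (1 : ℝ) + 2 ^ (K + 1) * 2 ^ (K + 1) ≤ 2 ^ (2 * K + 3) := by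
        rw [← pow_add, show K + 1 + (K + 1) = 2 * K + 2 by ring, pow_succ 2 (2 * K + 2)]
        have : (1 : ℝ) ≤ 2 ^ (2 * K + 2) := one_le_pow₀ (by norm_num)
        linarith
      have h7 : (2 : ℝ) ^ (2 * K + 3) ≤ 2 ^ (5 * K) :=
        pow_le_pow_right₀ (by norm_num) (by omega)
      linarith
    calc (1 + ∑ q ∈ S, (z q : ℝ)) ^ (2 * b)
        ≤ (2 ^ (5 * K)) ^ (2 * b) := pow_le_pow_left₀ (by positivity) h5 _
      _ = 2 ^ (10 * K * b) := by
          rw [← pow_mul]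
          congr 1
          ring

theorem sieve_upper (P D : Finset ℕ) (hdisj : Disjoint D P) (hP : ∀ q ∈ P, q.Prime)
    (hD : ∀ q ∈ D, q.Prime) (t : ℕ) (ht : ∀ q ∈ P, t < q) (E : ℕ)
    (hE : ∀ q ∈ P, Nat.log 2 q ≤ E) (Z : ℕ → Finset ℕ)
    (hZP : ∀ q ∈ P, Z q ⊆ Finset.range q ∧ (Z q).card ≤ t)
    (hZD : ∀ q ∈ D, Z q ⊆ Finset.range q) (b : ℕ) (hb : 1 ≤ b) (M : ℕ) :
    (((Finset.Icc 1 M).filter
      (fun m => (∀ q ∈ D, m % q ∈ Z q) ∧ ∀ q ∈ P, m % q ∉ Z q)).card : ℝ) ≤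
      M * ((∏ q ∈ D, ((Z q).card : ℝ) / q) * ∏ q ∈ P, (1 - ((Z q).card : ℝ) / q)) *
        Real.exp (Kt t / b) + (∏ q ∈ D, ((Z q).card : ℝ)) * 2 ^ (20 * E * (b + 1)) := by
  classical
  set blk : ℕ → ℕ := fun q => Nat.log 2 (E / Nat.log 2 q) with hblk
  set S : ℕ → Finset ℕ := fun j => P.filter (fun q => blk q = j) with hS
  set J := E + 1 with hJ
  have hSP : ∀ j, S j ⊆ P := fun j => Finset.filter_subset _ _
  have hSd : ∀ i j, i ≠ j → Disjoint (S i) (S j) := by
    intro i j hij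
    rw [Finset.disjoint_left]
    intro q hq hq'
    rw [hS] at hq hq'
    simp only [Finset.mem_filter] at hq hq'
    exact hij (hq.2.symm.trans hq'.2)
  have hblkJ : ∀ q ∈ P, blk q ∈ Finset.range J := by
    intro q _
    rw [Finset.mem_range, hblk, hJ]
    have h1 : Nat.log 2 (E / Nat.log 2 q) ≤ E / Nat.log 2 q := Nat.log_le_self _ _
    have h2 : E / Nat.log 2 q ≤ E := Nat.div_le_self _ _
    simp only
    omega
  have hbS : ∀ j, ∀ q ∈ S j, 2 ^ j * Nat.log 2 q ≤ E ∧ E < 2 ^ (j + 1) * Nat.log 2 q := by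
    intro j q hq
    rw [hS] at hq
    simp only [Finset.mem_filter] at hq
    obtain ⟨hqP, hqj⟩ := hq
    have he := log2_pos_of_prime (hP q hqP)
    have heE := hE q hqP
    have hdiv : E / Nat.log 2 q ≠ 0 := by
      have := Nat.div_pos heE (by omega)
      omega
    constructor
    · have h1 := Nat.pow_log_le_self 2 hdiv
      rw [hblk] at hqj
      simp only at hqj
      rw [hqj, Nat.le_div_iff_mul_le (by omega)] at h1
      exact h1
    · have h1 := Nat.lt_pow_succ_log_self one_lt_two (E / Nat.log 2 q)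
      rw [hblk] at hqj
      simp only at hqj
      rw [hqj, Nat.div_lt_iff_lt_mul (by omega)] at h1
      exact h1
  -- the majorant
  have hniceS : ∀ j, j < J → Nice (S j) (Ntr (2 * (b + j)) (S j) (fun q => ((Z q).card : ℝ)))
      (Atr (2 * (b + j)) (S j) (fun q => ((Z q).card : ℝ) / q))
      (fun m => Atr (2 * (b + j)) (S j) (fun q => if m % q ∈ Z q then 1 else 0)) := by
    intro j _
    exact nice_Atr _ _ (fun q hq => hP q (hSP j hq)) Z (fun q hq => (hZP q (hSP j hq)).1)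
  have hnb := nice_prod_blocks J S hSd _ _ _ hniceS
  have hnD := nice_prod D _ _ _ (fun q hq => nice_mem q (hD q hq) (Z q) (hZD q hq))
  have hDb : Disjoint D ((Finset.range J).biUnion S) := by
    rw [Finset.disjoint_biUnion_right]
    intro j _
    exact Finset.disjoint_of_subset_right (hSP j) hdisj
  have hn := hnD.mul hDb hnb
  have hsum := hn.sum_le M
  -- pointwise majorisation
  have hpt : ∀ m, (if (∀ q ∈ D, m % q ∈ Z q) ∧ ∀ q ∈ P, m % q ∉ Z q then (1 : ℝ) else 0) ≤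
      (∏ q ∈ D, (if m % q ∈ Z q then (1 : ℝ) else 0)) *
        ∏ j ∈ Finset.range J, Atr (2 * (b + j)) (S j) (fun q => if m % q ∈ Z q then 1 else 0) := by
    intro m
    have hA : ∀ j ∈ Finset.range J, ∏ q ∈ S j, (1 - (if m % q ∈ Z q then (1 : ℝ) else 0)) ≤
        Atr (2 * (b + j)) (S j) (fun q => if m % q ∈ Z q then 1 else 0) := by
      intro j _
      apply Atr_even_ge
      · intro q _
        split_ifs <;> norm_num
      · intro q _
        split_ifs <;> norm_num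
    have hA0 : ∀ j ∈ Finset.range J, (0 : ℝ) ≤
        ∏ q ∈ S j, (1 - (if m % q ∈ Z q then (1 : ℝ) else 0)) := by
      intro j _
      apply Finset.prod_nonneg
      intro q _
      split_ifs <;> norm_num
    split_ifs with h
    · obtain ⟨h1, h2⟩ := h
      have e1 : ∏ q ∈ D, (if m % q ∈ Z q then (1 : ℝ) else 0) = 1 := by
        apply Finset.prod_eq_one
        intro q hq
        rw [if_pos (h1 q hq)]
      rw [e1, one_mul]
      have e2 : ∏ j ∈ Finset.range J, ∏ q ∈ S j, (1 - (if m % q ∈ Z q then (1 : ℝ) else 0)) = 1 := by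
        apply Finset.prod_eq_one
        intro j _
        apply Finset.prod_eq_one
        intro q hq
        rw [if_neg (h2 q (hSP j hq)), sub_zero]
      exact e2.symm.le.trans (Finset.prod_le_prod hA0 hA)
    · apply mul_nonneg
      · apply Finset.prod_nonneg
        intro q _
        split_ifs <;> norm_num
      · apply Finset.prod_nonneg
        intro j hj
        exact (hA0 j hj).trans (hA j hj)
  have hcard : (((Finset.Icc 1 M).filter
      (fun m => (∀ q ∈ D, m % q ∈ Z q) ∧ ∀ q ∈ P, m % q ∉ Z q)).card : ℝ) ≤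
      ∑ m ∈ Finset.Icc 1 M, (∏ q ∈ D, (if m % q ∈ Z q then (1 : ℝ) else 0)) *
        ∏ j ∈ Finset.range J, Atr (2 * (b + j)) (S j) (fun q => if m % q ∈ Z q then 1 else 0) := by
    rw [Finset.card_filter]
    push_cast
    exact Finset.sum_le_sum fun m _ => hpt m
  -- main term
  have hg0 : ∀ j, ∀ q ∈ S j, (0 : ℝ) ≤ ((Z q).card : ℝ) / q := fun j q _ => by positivity
  have hg1 : ∀ q ∈ P, ((Z q).card : ℝ) / q ≤ 1 := by
    intro q hq
    have hq0 : (0 : ℝ) < q := by exact_mod_cast (hP q hq).pos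
    rw [div_le_one hq0]
    have h1 := (hZP q hq).2
    have h2 := ht q hq
    exact_mod_cast h1.trans h2.le
  have hG : ∀ j, ∑ q ∈ S j, ((Z q).card : ℝ) / q ≤ 4 * t := by
    intro j
    have h1 : ∑ q ∈ S j, ((Z q).card : ℝ) / q ≤ ∑ q ∈ S j, (t : ℝ) * (1 / q) := by
      refine Finset.sum_le_sum fun q hq => ?_
      rw [div_eq_mul_one_div]
      apply mul_le_mul_of_nonneg_right _ (by positivity)
      exact_mod_cast (hZP q (hSP j hq)).2
    rw [← Finset.mul_sum] at h1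
    have h2 := block_sum (S j) (fun q hq => hP q (hSP j hq)) E j (hbS j)
    have h3 : (t : ℝ) * ∑ q ∈ S j, (1 : ℝ) / q ≤ t * 4 :=
      mul_le_mul_of_nonneg_left h2 (Nat.cast_nonneg t)
    linarith
  have hGnn : ∀ j, 0 ≤ ∑ q ∈ S j, ((Z q).card : ℝ) / q := fun j =>
    Finset.sum_nonneg (hg0 j)
  have hV : ∀ j, Real.exp (-(4 * t * (t + 1))) ≤ ∏ q ∈ S j, (1 - ((Z q).card : ℝ) / q) := by
    intro j
    refine le_trans ?_ (one_sub_prod_ge (S j) t (fun q hq => ht q (hSP j hq))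
      (fun q => (Z q).card) (fun q hq => (hZP q (hSP j hq)).2))
    rw [Real.exp_le_exp]
    have h1 := hG j
    have h2 : (0 : ℝ) ≤ t := Nat.cast_nonneg t
    nlinarith
  have hAtr : ∀ j ∈ Finset.range J, Atr (2 * (b + j)) (S j) (fun q => ((Z q).card : ℝ) / q) ≤
      (∏ q ∈ S j, (1 - ((Z q).card : ℝ) / q)) * Real.exp (Real.exp (4 * t * (t + 1)) *
        ((4 * t : ℝ) ^ (2 * (b + j) + 1) / (2 * (b + j) + 1).factorial)) := by
    intro j _
    have h1 := Atr_even_le (S j) (fun q => ((Z q).card : ℝ) / q) (hg0 j)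
      (fun q hq => hg1 q (hSP j hq)) (b + j)
    have h2 : (∑ q ∈ S j, ((Z q).card : ℝ) / q) ^ (2 * (b + j) + 1) /
        ((2 * (b + j) + 1).factorial : ℝ) ≤
        (4 * t : ℝ) ^ (2 * (b + j) + 1) / (2 * (b + j) + 1).factorial := by
      apply div_le_div_of_nonneg_right _ (by positivity)
      exact pow_le_pow_left₀ (hGnn j) (hG j) _
    set V := ∏ q ∈ S j, (1 - ((Z q).card : ℝ) / q) with hVdef
    set τ := (4 * t : ℝ) ^ (2 * (b + j) + 1) / ((2 * (b + j) + 1).factorial : ℝ) with hτ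
    have hτ0 : 0 ≤ τ := by positivity
    have hVj := hV j
    rw [← hVdef, Real.exp_neg] at hVj
    have h3 : 1 ≤ V * Real.exp (4 * t * (t + 1)) := by
      have := mul_le_mul_of_nonneg_right hVj (Real.exp_pos (4 * t * ((t : ℝ) + 1))).le
      rwa [inv_mul_cancel₀ (Real.exp_pos _).ne'] at this
    have hV0 : 0 < V := lt_of_lt_of_le (by positivity) hVj
    calc Atr (2 * (b + j)) (S j) (fun q => ((Z q).card : ℝ) / q) ≤ V + τ := by linarith
      _ ≤ V + (V * Real.exp (4 * t * (t + 1))) * τ := by nlinarith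
      _ = V * (Real.exp (4 * t * (t + 1)) * τ + 1) := by ring
      _ ≤ V * Real.exp (Real.exp (4 * t * (t + 1)) * τ) :=
          mul_le_mul_of_nonneg_left (Real.add_one_le_exp _) hV0.le
  have hAtr0 : ∀ j ∈ Finset.range J, 0 ≤ Atr (2 * (b + j)) (S j)
      (fun q => ((Z q).card : ℝ) / q) := by
    intro j _
    refine le_trans ?_ (Atr_even_ge (S j) _ (hg0 j) (fun q hq => hg1 q (hSP j hq)) (b + j))
    exact Finset.prod_nonneg fun q hq => by linarith [hg1 q (hSP j hq)]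
  have hmain : ∏ j ∈ Finset.range J, Atr (2 * (b + j)) (S j) (fun q => ((Z q).card : ℝ) / q) ≤
      (∏ q ∈ P, (1 - ((Z q).card : ℝ) / q)) * Real.exp (Kt t / b) := by
    refine (Finset.prod_le_prod hAtr0 hAtr).trans ?_
    rw [Finset.prod_mul_distrib]
    have e1 : ∏ j ∈ Finset.range J, ∏ q ∈ S j, (1 - ((Z q).card : ℝ) / q) =
        ∏ q ∈ P, (1 - ((Z q).card : ℝ) / q) :=
      Finset.prod_fiberwise_of_maps_to hblkJ _
    rw [e1, ← Real.exp_sum, ← Finset.mul_sum]
    have h0 : 0 ≤ ∏ q ∈ P, (1 - ((Z q).card : ℝ) / q) :=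
      Finset.prod_nonneg fun q hq => by linarith [hg1 q hq]
    apply mul_le_mul_of_nonneg_left _ h0
    rw [Real.exp_le_exp]
    have h1 := tau_sum (4 * t) (by positivity) b hb J
    calc Real.exp (4 * t * (t + 1)) * _ ≤ Real.exp (4 * t * (t + 1)) *
          ((4 * t : ℝ) ^ 2 * Real.exp (4 * t) / (2 * b)) :=
          mul_le_mul_of_nonneg_left h1 (Real.exp_pos _).le
      _ = Kt t / b := by
          unfold Kt
          rw [Real.exp_add]
          have hbR : (b : ℝ) ≠ 0 := by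
            have : (1 : ℝ) ≤ b := by exact_mod_cast hb
            linarith
          field_simp
          ring
  -- the number of classes
  have hNtr : ∀ j ∈ Finset.range J, Ntr (2 * (b + j)) (S j) (fun q => ((Z q).card : ℝ)) ≤
      2 ^ (10 * (E / 2 ^ j) * (b + j)) := by
    intro j _
    refine Ntr_block_le (S j) (fun q hq => hP q (hSP j hq)) t (fun q hq => ht q (hSP j hq))
      (E / 2 ^ j) ?_ (fun q => (Z q).card) (fun q hq => (hZP q (hSP j hq)).2) (b + j)
    intro q hq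
    rw [Nat.le_div_iff_mul_le (by positivity), mul_comm]
    exact (hbS j q hq).1
  have hNprod : ∏ j ∈ Finset.range J, Ntr (2 * (b + j)) (S j) (fun q => ((Z q).card : ℝ)) ≤
      2 ^ (20 * E * (b + 1)) := by
    refine (Finset.prod_le_prod (fun j _ => Ntr_nonneg _ _ _ fun q _ => Nat.cast_nonneg _)
      hNtr).trans ?_
    rw [Finset.prod_pow_eq_pow_sum]
    exact pow_le_pow_right₀ (by norm_num) (exponent_sum_nat E b J)
  -- conclusion
  have hDnn : 0 ≤ ∏ q ∈ D, ((Z q).card : ℝ) / q := Finset.prod_nonneg fun q _ => by positivity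
  have hDnn' : 0 ≤ ∏ q ∈ D, ((Z q).card : ℝ) := Finset.prod_nonneg fun q _ => by positivity
  have hM : (0 : ℝ) ≤ M := Nat.cast_nonneg M
  have h1 := (abs_le.mp hsum).2
  have h2 : (M : ℝ) * ((∏ q ∈ D, ((Z q).card : ℝ) / q) *
      ∏ j ∈ Finset.range J, Atr (2 * (b + j)) (S j) (fun q => ((Z q).card : ℝ) / q)) ≤
      M * ((∏ q ∈ D, ((Z q).card : ℝ) / q) * ∏ q ∈ P, (1 - ((Z q).card : ℝ) / q)) *
        Real.exp (Kt t / b) := by
    rw [mul_assoc (M : ℝ), mul_assoc (∏ q ∈ D, ((Z q).card : ℝ) / q)]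
    exact mul_le_mul_of_nonneg_left (mul_le_mul_of_nonneg_left hmain hDnn) hM
  have h3 : (∏ q ∈ D, ((Z q).card : ℝ)) *
      ∏ j ∈ Finset.range J, Ntr (2 * (b + j)) (S j) (fun q => ((Z q).card : ℝ)) ≤
      (∏ q ∈ D, ((Z q).card : ℝ)) * 2 ^ (20 * E * (b + 1)) :=
    mul_le_mul_of_nonneg_left hNprod hDnn'
  linarith

end Helper13.Om
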