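import Mathlib
import Pool.Agent.Helper13.Om.Sieve

set_option autoImplicit false

/-! Brun-Titchmarsh inequality over dyadic shells. -/

namespace Helper13.Om

open Finset

/-- reciprocal as a monoid hom -/
noncomputable def recHom : ℕ →* ℝ where
  toFun n := ((n : ℝ))⁻¹
  map_one' := by simp
  map_mul' m n := by
    push_cast
    rw [mul_inv]

lemma mertens_prod (N : ℕ) (hN : 2 ≤ N) :
    ∏ p ∈ N.primesBelow, (1 - 1 / (p : ℝ)) ≤ 1 / Real.log N := by
  have hlog : 0 < Real.log N := Real.log_pos (by exact_mod_cast hN)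
  have h := (EulerProduct.summable_and_hasSum_smoothNumbers_prod_primesBelow_geometric
    (f := recHom) (by
      intro p hp
      show ‖((p : ℝ))⁻¹‖ < 1
      rw [norm_inv, Real.norm_natCast]
      exact inv_lt_one_of_one_lt₀ (by exact_mod_cast hp.one_lt)) N).2
  have h1 : Real.log N ≤ ∏ p ∈ N.primesBelow, (1 - recHom p)⁻¹ := by
    have h2 := sum_le_hasSum ((Finset.Ico 1 N).subtype (· ∈ N.smoothNumbers))
      (fun m _ => by
        show 0 ≤ (((m : ℕ) : ℝ))⁻¹
        positivity) h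
    refine le_trans ?_ h2
    rw [Finset.sum_subtype_of_mem (fun n => recHom n) (by
      intro x hx
      rw [Finset.mem_Ico] at hx
      exact Nat.mem_smoothNumbers_of_lt hx.1 hx.2)]
    have h3 := log_add_one_le_harmonic (N - 1)
    have e1 : ((N - 1 : ℕ) : ℝ) + 1 = N := by
      have : N - 1 + 1 = N := by omega
      exact_mod_cast this
    have e2 : (((N - 1 : ℕ) + 1 : ℕ) : ℝ) = N := by
      push_cast
      exact e1
    have h4 : Real.log N ≤ ((harmonic (N - 1) : ℚ) : ℝ) := by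
      rw [← e2]
      exact h3
    refine h4.trans (le_of_eq ?_)
    unfold harmonic
    push_cast
    rw [Finset.sum_Ico_eq_sum_range]
    refine Finset.sum_congr rfl fun i _ => ?_
    show _ = (((1 + i : ℕ) : ℝ))⁻¹
    push_cast
    rw [add_comm]
  have h5 : ∏ p ∈ N.primesBelow, (1 - recHom p)⁻¹ =
      (∏ p ∈ N.primesBelow, (1 - 1 / (p : ℝ)))⁻¹ := by
    rw [Finset.prod_inv_distrib]
    congr 1
    refine Finset.prod_congr rfl fun p _ => ?_
    show 1 - ((p : ℝ))⁻¹ = _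
    rw [one_div]
  rw [h5] at h1
  have hpos : 0 < ∏ p ∈ N.primesBelow, (1 - 1 / (p : ℝ)) := by
    apply Finset.prod_pos
    intro p hp
    have hp' := Nat.prime_of_mem_primesBelow hp
    have h2 : (2 : ℝ) ≤ p := by exact_mod_cast hp'.two_le
    have : 1 / (p : ℝ) ≤ 1 / 2 := one_div_le_one_div_of_le (by norm_num) h2
    linarith
  rw [le_div_iff₀ hlog]
  calc _ ≤ (∏ p ∈ N.primesBelow, (1 - 1 / (p : ℝ))) *
        (∏ p ∈ N.primesBelow, (1 - 1 / (p : ℝ)))⁻¹ := mul_le_mul_of_nonneg_left h1 hpos.le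
    _ = 1 := mul_inv_cancel₀ hpos.ne'

/-- The constant in Brun-Titchmarsh. -/
noncomputable def Cbt : ℝ := 1280 * 2 * Real.exp (Kt 1) + 8

lemma Cbt_pos : 0 < Cbt := by
  unfold Cbt
  positivity

theorem brun_titchmarsh (e : ℕ) (he : 1 ≤ e) (q : ℕ) (hq : q.Prime) (hqe : 2 * Nat.log 2 q ≤ e)
    (a : ℕ) :
    (((Finset.Ico (2 ^ e) (2 ^ (e + 1))).filter (fun p => p.Prime ∧ p % q = a)).card : ℝ) ≤
      Cbt * 2 ^ e / (q * e) := by
  classical
  have heR : (0 : ℝ) < e := by exact_mod_cast he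
  have hqR : (0 : ℝ) < q := by exact_mod_cast hq.pos
  rcases lt_or_ge a q with haq | haq
  swap
  · have h0 : (Finset.Ico (2 ^ e) (2 ^ (e + 1))).filter (fun p => p.Prime ∧ p % q = a) = ∅ := by
      rw [Finset.filter_eq_empty_iff]
      rintro p _ ⟨_, h⟩
      have := Nat.mod_lt p hq.pos
      omega
    rw [h0, Finset.card_empty]
    have := Cbt_pos
    push_cast
    positivity
  set E' := e / 160 with hE'
  set P' := (2 ^ (E' + 1)).primesBelow.erase q with hP'
  have hP'p : ∀ p ∈ P', p.Prime := by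
    intro p hp
    exact Nat.prime_of_mem_primesBelow (Finset.mem_of_mem_erase hp)
  have hP'lt : ∀ p ∈ P', p < 2 ^ (E' + 1) := by
    intro p hp
    exact Nat.lt_of_mem_primesBelow (Finset.mem_of_mem_erase hp)
  set Z : ℕ → Finset ℕ := fun p => if p = q then {a} else {0} with hZ
  have h := sieve_upper P' {q} (by
      rw [Finset.disjoint_singleton_left, hP']
      exact Finset.notMem_erase _ _) hP'p (by
      intro p hp
      rw [Finset.mem_singleton.mp hp]
      exact hq) 1 (fun p hp => (hP'p p hp).one_lt) E' (by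
      intro p hp
      have h1 := hP'lt p hp
      have h2 := Nat.log_lt_of_lt_pow (hP'p p hp).pos.ne' h1
      omega) Z (by
      intro p hp
      have hpq : p ≠ q := Finset.ne_of_mem_erase hp
      simp only [hZ]
      rw [if_neg hpq]
      refine ⟨?_, by simp⟩
      intro x hx
      rw [Finset.mem_singleton.mp hx, Finset.mem_range]
      exact (hP'p p hp).pos) (by
      intro p hp
      rw [Finset.mem_singleton.mp hp]
      simp only [hZ]
      rw [if_pos trivial]
      intro x hx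
      rw [Finset.mem_singleton.mp hx, Finset.mem_range]
      exact haq) 1 le_rfl (2 ^ (e + 1))
  have hE'e : E' + 1 ≤ e := by omega
  have hcount : ((Finset.Ico (2 ^ e) (2 ^ (e + 1))).filter
      (fun p => p.Prime ∧ p % q = a)).card ≤
      ((Finset.Icc 1 (2 ^ (e + 1))).filter
        (fun m => (∀ r ∈ ({q} : Finset ℕ), m % r ∈ Z r) ∧ ∀ r ∈ P', m % r ∉ Z r)).card := by
    apply Finset.card_le_card
    intro p hp
    rw [Finset.mem_filter, Finset.mem_Ico] at hp
    obtain ⟨⟨h1, h2⟩, h3, h4⟩ := hp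
    rw [Finset.mem_filter, Finset.mem_Icc]
    refine ⟨⟨h3.one_lt.le, h2.le⟩, ?_, ?_⟩
    · intro r hr
      rw [Finset.mem_singleton.mp hr]
      simp only [hZ]
      rw [if_pos trivial, h4]
      exact Finset.mem_singleton_self _
    · intro r hr
      have hrq : r ≠ q := Finset.ne_of_mem_erase hr
      simp only [hZ]
      rw [if_neg hrq, Finset.mem_singleton]
      intro h5
      have h6 : r ∣ p := Nat.dvd_of_mod_eq_zero h5
      have h7 : r = p := (Nat.prime_dvd_prime_iff_eq (hP'p r hr) h3).mp h6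
      have h8 := hP'lt r hr
      have h9 : 2 ^ (E' + 1) ≤ 2 ^ e := Nat.pow_le_pow_right (by norm_num) hE'e
      omega
  have hcountR : (((Finset.Ico (2 ^ e) (2 ^ (e + 1))).filter
      (fun p => p.Prime ∧ p % q = a)).card : ℝ) ≤
      (((Finset.Icc 1 (2 ^ (e + 1))).filter
        (fun m => (∀ r ∈ ({q} : Finset ℕ), m % r ∈ Z r) ∧ ∀ r ∈ P', m % r ∉ Z r)).card : ℝ) := by
    exact_mod_cast hcount
  refine hcountR.trans (h.trans ?_)
  have e1 : ∏ r ∈ ({q} : Finset ℕ), ((Z r).card : ℝ) / r = 1 / q := by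
    rw [Finset.prod_singleton]
    simp only [hZ]
    rw [if_pos trivial]
    simp
  have e2 : ∏ r ∈ ({q} : Finset ℕ), ((Z r).card : ℝ) = 1 := by
    rw [Finset.prod_singleton]
    simp only [hZ]
    rw [if_pos trivial]
    simp
  have e3 : ∏ r ∈ P', (1 - ((Z r).card : ℝ) / r) = ∏ r ∈ P', (1 - 1 / (r : ℝ)) := by
    refine Finset.prod_congr rfl fun r hr => ?_
    have hrq : r ≠ q := Finset.ne_of_mem_erase hr
    simp only [hZ]
    rw [if_neg hrq]
    simp
  rw [e1, e2, e3]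
  -- the product
  have hfac : ∀ r : ℕ, r.Prime → (1 : ℝ) / 2 ≤ 1 - 1 / (r : ℝ) := by
    intro r hr
    have h2 : (2 : ℝ) ≤ r := by exact_mod_cast hr.two_le
    have : 1 / (r : ℝ) ≤ 1 / 2 := one_div_le_one_div_of_le (by norm_num) h2
    linarith
  have hprod0 : 0 ≤ ∏ r ∈ P', (1 - 1 / (r : ℝ)) :=
    Finset.prod_nonneg fun r hr => by linarith [hfac r (hP'p r hr)]
  have hprod : ∏ r ∈ P', (1 - 1 / (r : ℝ)) ≤
      2 * ∏ r ∈ Nat.primesBelow (2 ^ (E' + 1)), (1 - 1 / (r : ℝ)) := by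
    by_cases hmem : q ∈ Nat.primesBelow (2 ^ (E' + 1))
    · rw [← Finset.mul_prod_erase _ _ hmem, ← hP']
      have := hfac q hq
      nlinarith
    · have : P' = (2 ^ (E' + 1)).primesBelow := by
        rw [hP', Finset.erase_eq_of_notMem hmem]
      rw [← this]
      linarith
  have hmer := mertens_prod (2 ^ (E' + 1)) (by
    calc 2 = 2 ^ 1 := by norm_num
      _ ≤ 2 ^ (E' + 1) := Nat.pow_le_pow_right (by norm_num) (by omega))
  have hlog2 : (1 : ℝ) / 2 ≤ Real.log 2 := by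
    have := Real.log_two_gt_d9
    linarith
  have hlogE : (e : ℝ) / 320 ≤ Real.log ((2 ^ (E' + 1) : ℕ) : ℝ) := by
    push_cast
    rw [Real.log_pow]
    have h1 : e ≤ 160 * (E' + 1) := by omega
    have h2 : (e : ℝ) ≤ 160 * (E' + 1) := by exact_mod_cast h1
    push_cast
    have h3 : (0 : ℝ) ≤ (E' : ℝ) + 1 := by positivity
    nlinarith
  have hprod2 : ∏ r ∈ P', (1 - 1 / (r : ℝ)) ≤ 640 / e := by
    refine hprod.trans ?_
    have h1 : 1 / Real.log ((2 ^ (E' + 1) : ℕ) : ℝ) ≤ 320 / e := by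
      rw [div_le_div_iff₀ (by linarith [div_pos heR (show (0 : ℝ) < 320 by norm_num)]) heR]
      linarith
    have h2 : (640 : ℝ) / e = 2 * (320 / e) := by ring
    rw [h2]
    linarith
  -- the error term
  have herr : (2 : ℝ) ^ (20 * E' * (1 + 1)) ≤ 8 * 2 ^ e / (q * e) := by
    set n := e / 4 with hn
    have hen : e ≤ 4 * 2 ^ n := by
      have h1 : n + 1 ≤ 2 ^ n := Nat.lt_two_pow_self
      omega
    have hu : 20 * E' * (1 + 1) + n ≤ e / 2 := by omega
    have hu2 : 2 * (20 * E' * (1 + 1) + n) ≤ e := by omega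
    have hq2 : q ^ 2 ≤ 4 * 2 ^ e := by
      have h1 := lt_pow_log2 q
      calc q ^ 2 ≤ (2 ^ (Nat.log 2 q + 1)) ^ 2 := Nat.pow_le_pow_left h1.le 2
        _ = 2 ^ (2 * Nat.log 2 q + 2) := by rw [← pow_mul]; congr 1; ring
        _ ≤ 2 ^ (e + 2) := Nat.pow_le_pow_right (by norm_num) (by omega)
        _ = 4 * 2 ^ e := by rw [pow_add]; ring
    have hq2R : (q : ℝ) ^ 2 ≤ 4 * 2 ^ e := by exact_mod_cast hq2
    have h3 : ((q : ℝ) * 2 ^ (20 * E' * (1 + 1) + n)) ^ 2 ≤ (2 * 2 ^ e) ^ 2 := by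
      rw [mul_pow, ← pow_mul, mul_comm (20 * E' * (1 + 1) + n) 2]
      have h4 : (2 : ℝ) ^ (2 * (20 * E' * (1 + 1) + n)) ≤ 2 ^ e :=
        pow_le_pow_right₀ (by norm_num) hu2
      calc (q : ℝ) ^ 2 * 2 ^ (2 * (20 * E' * (1 + 1) + n)) ≤ (4 * 2 ^ e) * 2 ^ e :=
            mul_le_mul hq2R h4 (by positivity) (by positivity)
        _ = (2 * 2 ^ e) ^ 2 := by ring
    have h5 : (q : ℝ) * 2 ^ (20 * E' * (1 + 1) + n) ≤ 2 * 2 ^ e :=
      le_of_sq_le_sq h3 (by positivity)
    have henR : (e : ℝ) ≤ 4 * 2 ^ n := by exact_mod_cast hen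
    rw [le_div_iff₀ (by positivity)]
    calc (2 : ℝ) ^ (20 * E' * (1 + 1)) * (q * e) ≤ 2 ^ (20 * E' * (1 + 1)) * (q * (4 * 2 ^ n)) := by
          gcongr
      _ = 4 * (q * 2 ^ (20 * E' * (1 + 1) + n)) := by
          rw [pow_add]
          ring
      _ ≤ 4 * (2 * 2 ^ e) := by linarith
      _ = 8 * 2 ^ e := by ring
  have hmain : ((2 ^ (e + 1) : ℕ) : ℝ) * (1 / q * ∏ r ∈ P', (1 - 1 / (r : ℝ))) *
      Real.exp (Kt 1 / (1 : ℕ)) ≤ 1280 * 2 * Real.exp (Kt 1) * 2 ^ e / (q * e) := by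
    push_cast
    rw [div_one]
    have h1 : (2 : ℝ) ^ (e + 1) * (1 / q * ∏ r ∈ P', (1 - 1 / (r : ℝ))) ≤
        2 ^ (e + 1) * (1 / q * (640 / e)) := by
      gcongr
    have h2 := mul_le_mul_of_nonneg_right h1 (Real.exp_pos (Kt 1)).le
    refine h2.trans ?_
    have h3 : (0 : ℝ) ≤ Real.exp (Kt 1) * 2 ^ e / (q * e) := by positivity
    have e4 : (2 : ℝ) ^ (e + 1) * (1 / q * (640 / e)) * Real.exp (Kt 1) =
        1280 * (Real.exp (Kt 1) * 2 ^ e / (q * e)) := by
      rw [pow_succ]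
      field_simp
      ring
    have e5 : 1280 * 2 * Real.exp (Kt 1) * 2 ^ e / (q * e) =
        2560 * (Real.exp (Kt 1) * 2 ^ e / (q * e)) := by ring
    rw [e4, e5]
    linarith
  have e6 : Cbt * 2 ^ e / (q * e) = 1280 * 2 * Real.exp (Kt 1) * 2 ^ e / (q * e) +
      8 * 2 ^ e / (q * e) := by
    unfold Cbt
    ring
  rw [e6, one_mul]
  linarith

end Helper13.Om
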