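import Mathlib
import Pool.Agent.Helper13.Om.Sieve

set_option autoImplicit false

/-! The Kubilius model in total variation, for local features at primes. -/

namespace Helper13.Om

open Finset

set_option linter.unusedSectionVars false

variable {Y : Type} [Fintype Y] [DecidableEq Y]

/-- The local density of the feature value `y` at `q`. -/
noncomputable def rho (φ : ℕ → ℕ → Y) (q : ℕ) (y : Y) : ℝ :=
  (((Finset.range q).filter (fun r => φ q r = y)).card : ℝ) / q

lemma rho_nonneg (φ : ℕ → ℕ → Y) (q : ℕ) (y : Y) : 0 ≤ rho φ q y := by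
  unfold rho
  positivity

lemma rho_sum (φ : ℕ → ℕ → Y) (q : ℕ) (hq : 0 < q) : ∑ y, rho φ q y = 1 := by
  classical
  unfold rho
  rw [← Finset.sum_div]
  have h : ∑ y : Y, (((Finset.range q).filter (fun r => φ q r = y)).card : ℝ) = q := by
    have h1 : ∑ y : Y, ((Finset.range q).filter (fun r => φ q r = y)).card =
        (Finset.range q).card :=
      (Finset.card_eq_sum_card_fiberwise (f := fun r => φ q r) (t := Finset.univ)
        (fun r _ => Finset.mem_univ _)).symm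
    rw [Finset.card_range] at h1
    exact_mod_cast h1
  rw [h, div_self]
  exact_mod_cast hq.ne'

/-- Expectation in the model where the residues modulo the primes in `P` are independent. -/
noncomputable def Enu (P : Finset ℕ) (φ : ℕ → ℕ → Y) (H : (P → Y) → ℝ) : ℝ :=
  ∑ y : P → Y, (∏ q : P, rho φ q (y q)) * H y

lemma rho_prod_sum (P : Finset ℕ) (hP : ∀ q ∈ P, q.Prime) (φ : ℕ → ℕ → Y) :
    ∑ y : P → Y, ∏ q : P, rho φ q (y q) = 1 := by
  classical
  have h := (Finset.prod_univ_sum (fun _ : P => (Finset.univ : Finset Y))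
    (fun (q : P) (y : Y) => rho φ q y)).symm
  rw [Fintype.piFinset_univ] at h
  rw [h]
  exact Finset.prod_eq_one fun q _ => rho_sum φ q (hP q q.2).pos

/-- the modulus attached to a pattern -/
noncomputable def dmod (P : Finset ℕ) (y₀ : Y) (y : P → Y) : ℕ :=
  ∏ q : P, if y q ≠ y₀ then (q : ℕ) else 1

lemma count_pattern (P : Finset ℕ) (hP : ∀ q ∈ P, q.Prime) (φ : ℕ → ℕ → Y) (y₀ : Y) (t : ℕ)
    (ht : ∀ q ∈ P, t < q) (hper : ∀ q ∈ P, ∀ m, φ q m = φ q (m % q))
    (hcard : ∀ q ∈ P, ((Finset.range q).filter (fun r => φ q r ≠ y₀)).card ≤ t)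
    (E : ℕ) (hE : ∀ q ∈ P, Nat.log 2 q ≤ E) (b : ℕ) (hb : 1 ≤ b) (M : ℕ) (y : P → Y) :
    (((Finset.Icc 1 M).filter (fun m => (fun q : P => φ q m) = y)).card : ℝ) ≤
      M * (∏ q : P, rho φ q (y q)) * Real.exp (Kt t / b) +
        (∏ q : P, if y q ≠ y₀ then (t : ℝ) else 1) * 2 ^ (20 * E * (b + 1)) := by
  classical
  set y' : ℕ → Y := fun q => if h : q ∈ P then y ⟨q, h⟩ else y₀ with hy'
  have hy'P : ∀ q : P, y' q = y q := by
    intro q
    simp [hy', q.2]
  set D := P.filter (fun q => y' q ≠ y₀) with hD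
  set P' := P.filter (fun q => ¬ (y' q ≠ y₀)) with hP'
  set Z : ℕ → Finset ℕ := fun q => if y' q ≠ y₀ then
    (Finset.range q).filter (fun r => φ q r = y' q) else
    (Finset.range q).filter (fun r => φ q r ≠ y₀) with hZ
  have hdisj : Disjoint D P' := Finset.disjoint_filter_filter_not P P _
  have h := sieve_upper P' D hdisj (fun q hq => hP q (Finset.mem_filter.mp hq).1)
    (fun q hq => hP q (Finset.mem_filter.mp hq).1) t (fun q hq => ht q (Finset.mem_filter.mp hq).1)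
    E (fun q hq => hE q (Finset.mem_filter.mp hq).1) Z (by
      intro q hq
      rw [Finset.mem_filter] at hq
      simp only [hZ]
      rw [if_neg hq.2]
      exact ⟨Finset.filter_subset _ _, hcard q hq.1⟩) (by
      intro q hq
      rw [Finset.mem_filter] at hq
      simp only [hZ]
      rw [if_pos hq.2]
      exact Finset.filter_subset _ _) b hb M
  have hcount : ((Finset.Icc 1 M).filter (fun m => (fun q : P => φ q m) = y)).card ≤
      ((Finset.Icc 1 M).filter
        (fun m => (∀ q ∈ D, m % q ∈ Z q) ∧ ∀ q ∈ P', m % q ∉ Z q)).card := by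
    apply Finset.card_le_card
    intro m hm
    rw [Finset.mem_filter] at hm ⊢
    obtain ⟨hm1, hm2⟩ := hm
    refine ⟨hm1, ?_, ?_⟩
    · intro q hq
      rw [Finset.mem_filter] at hq
      simp only [hZ]
      rw [if_pos hq.2, Finset.mem_filter, Finset.mem_range]
      refine ⟨Nat.mod_lt _ (hP q hq.1).pos, ?_⟩
      rw [← hper q hq.1 m]
      have := congrFun hm2 ⟨q, hq.1⟩
      rw [← hy'P ⟨q, hq.1⟩] at this
      exact this
    · intro q hq
      rw [Finset.mem_filter] at hq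
      simp only [hZ]
      rw [if_neg hq.2, Finset.mem_filter, not_and]
      intro _
      rw [← hper q hq.1 m]
      have := congrFun hm2 ⟨q, hq.1⟩
      rw [← hy'P ⟨q, hq.1⟩] at this
      have h2 := hq.2
      push Not at h2 ⊢
      rw [← h2]
      exact this
  have hcountR : (((Finset.Icc 1 M).filter (fun m => (fun q : P => φ q m) = y)).card : ℝ) ≤
      (((Finset.Icc 1 M).filter
        (fun m => (∀ q ∈ D, m % q ∈ Z q) ∧ ∀ q ∈ P', m % q ∉ Z q)).card : ℝ) := by
    exact_mod_cast hcount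
  refine hcountR.trans (h.trans ?_)
  have e1 : (∏ q ∈ D, ((Z q).card : ℝ) / q) * ∏ q ∈ P', (1 - ((Z q).card : ℝ) / q) =
      ∏ q : P, rho φ q (y q) := by
    have e2 : ∏ q : P, rho φ q (y q) = ∏ q ∈ P, rho φ q (y' q) := by
      rw [← Finset.prod_coe_sort P]
      refine Finset.prod_congr rfl fun q _ => ?_
      rw [hy'P]
    rw [e2, ← Finset.prod_filter_mul_prod_filter_not P (fun q => y' q ≠ y₀)]
    congr 1
    · refine Finset.prod_congr rfl fun q hq => ?_
      have hq' := (Finset.mem_filter.mp hq).2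
      simp only [hZ]
      rw [if_pos hq']
      rfl
    · refine Finset.prod_congr rfl fun q hq => ?_
      have hq' := (Finset.mem_filter.mp hq).2
      have hqP := (Finset.mem_filter.mp hq).1
      have hq0 : (q : ℝ) ≠ 0 := by exact_mod_cast (hP q hqP).pos.ne'
      simp only [hZ]
      rw [if_neg hq']
      push Not at hq'
      unfold rho
      rw [hq']
      have h3 := Finset.card_filter_add_card_filter_not (s := Finset.range q)
        (fun r => φ q r = y₀)
      rw [Finset.card_range] at h3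
      have h3R : (((Finset.range q).filter (fun r => φ q r = y₀)).card : ℝ) +
          (((Finset.range q).filter (fun r => ¬ φ q r = y₀)).card : ℝ) = q := by
        exact_mod_cast h3
      field_simp
      linarith
  rw [e1]
  have e3 : ∏ q ∈ D, ((Z q).card : ℝ) ≤ ∏ q : P, if y q ≠ y₀ then (t : ℝ) else 1 := by
    have e4 : ∏ q : P, (if y q ≠ y₀ then (t : ℝ) else 1) =
        ∏ q ∈ P, if y' q ≠ y₀ then (t : ℝ) else 1 := by
      rw [← Finset.prod_coe_sort P]
      refine Finset.prod_congr rfl fun q _ => ?_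
      rw [hy'P]
    rw [e4, ← Finset.prod_filter]
    refine Finset.prod_le_prod (fun q _ => Nat.cast_nonneg _) fun q hq => ?_
    have hq' := (Finset.mem_filter.mp hq).2
    have hqP := (Finset.mem_filter.mp hq).1
    simp only [hZ]
    rw [if_pos hq']
    have h4 : ((Finset.range q).filter (fun r => φ q r = y' q)).card ≤ t := by
      refine le_trans (Finset.card_le_card ?_) (hcard q hqP)
      intro r hr
      rw [Finset.mem_filter] at hr ⊢
      refine ⟨hr.1, ?_⟩
      rw [hr.2]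
      exact hq'
    exact_mod_cast h4
  have h5 : (∏ q ∈ D, ((Z q).card : ℝ)) * 2 ^ (20 * E * (b + 1)) ≤
      (∏ q : P, if y q ≠ y₀ then (t : ℝ) else 1) * 2 ^ (20 * E * (b + 1)) :=
    mul_le_mul_of_nonneg_right e3 (pow_nonneg (by norm_num) _)
  linarith

/-- Rankin's trick for the number of patterns. -/
lemma pattern_rankin (P : Finset ℕ) (hP : ∀ q ∈ P, q.Prime) (y₀ : Y) (t : ℕ)
    (ht : ∀ q ∈ P, t < q) (hY : ∀ q ∈ P, Fintype.card Y ≤ q) (x : ℕ) :
    ∑ y : P → Y, (if dmod P y₀ y ≤ 2 ^ x then (∏ q : P, if y q ≠ y₀ then (t : ℝ) else 1) else 0)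
      ≤ 2 ^ (4 * x) * Real.exp 2 := by
  classical
  have h1 : ∀ y : P → Y, (if dmod P y₀ y ≤ 2 ^ x then
      (∏ q : P, if y q ≠ y₀ then (t : ℝ) else 1) else 0) ≤
      2 ^ (4 * x) * ∏ q : P, (if y q ≠ y₀ then (t : ℝ) / (q : ℝ) ^ 4 else 1) := by
    intro y
    have hnn : 0 ≤ ∏ q : P, (if y q ≠ y₀ then (t : ℝ) / (q : ℝ) ^ 4 else 1) := by
      apply Finset.prod_nonneg
      intro q _
      split_ifs <;> positivity
    split_ifs with h
    · have hd : (dmod P y₀ y : ℝ) = ∏ q : P, if y q ≠ y₀ then (q : ℝ) else 1 := by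
        unfold dmod
        push_cast
        refine Finset.prod_congr rfl fun q _ => ?_
        split_ifs <;> rfl
      have hd0 : (0 : ℝ) < dmod P y₀ y := by
        rw [hd]
        apply Finset.prod_pos
        intro q _
        have : (0 : ℝ) < (q : ℕ) := by exact_mod_cast (hP q q.2).pos
        split_ifs <;> [exact this; norm_num]
      have e : ∏ q : P, (if y q ≠ y₀ then (t : ℝ) / (q : ℝ) ^ 4 else 1) =
          (∏ q : P, if y q ≠ y₀ then (t : ℝ) else 1) / (dmod P y₀ y : ℝ) ^ 4 := by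
        rw [hd, ← Finset.prod_pow, ← Finset.prod_div_distrib]
        refine Finset.prod_congr rfl fun q _ => ?_
        split_ifs
        · rfl
        · simp
      rw [e, mul_div_assoc', le_div_iff₀ (by positivity), mul_comm]
      apply mul_le_mul_of_nonneg_right
      · have : (dmod P y₀ y : ℝ) ≤ 2 ^ x := by exact_mod_cast h
        calc (dmod P y₀ y : ℝ) ^ 4 ≤ (2 ^ x) ^ 4 := pow_le_pow_left₀ hd0.le this 4
          _ = 2 ^ (4 * x) := by rw [← pow_mul, mul_comm]
      · apply Finset.prod_nonneg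
        intro q _
        split_ifs <;> positivity
    · positivity
  refine (Finset.sum_le_sum fun y _ => h1 y).trans ?_
  rw [← Finset.mul_sum]
  apply mul_le_mul_of_nonneg_left _ (by positivity)
  have h2 := (Finset.prod_univ_sum (fun _ : P => (Finset.univ : Finset Y))
    (fun (q : P) (y : Y) => if y ≠ y₀ then (t : ℝ) / ((q : ℕ) : ℝ) ^ 4 else 1)).symm
  rw [Fintype.piFinset_univ] at h2
  rw [h2]
  have h3 : ∀ q : P, ∑ y : Y, (if y ≠ y₀ then (t : ℝ) / ((q : ℕ) : ℝ) ^ 4 else 1) ≤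
      1 + 1 / ((q : ℕ) : ℝ) ^ 2 := by
    intro q
    have hq0 : (0 : ℝ) < (q : ℕ) := by exact_mod_cast (hP q q.2).pos
    have e1 : ∑ y : Y, (if y ≠ y₀ then (t : ℝ) / ((q : ℕ) : ℝ) ^ 4 else 1) ≤
        ∑ y : Y, ((t : ℝ) / ((q : ℕ) : ℝ) ^ 4 + if y = y₀ then 1 else 0) := by
      refine Finset.sum_le_sum fun y _ => ?_
      by_cases hy : y = y₀
      · simp only [hy, ne_eq, not_true_eq_false, if_false, if_true]
        have : (0 : ℝ) ≤ (t : ℝ) / ((q : ℕ) : ℝ) ^ 4 := by positivity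
        linarith
      · simp [hy]
    refine e1.trans ?_
    rw [Finset.sum_add_distrib, Finset.sum_const, Finset.sum_ite_eq' Finset.univ y₀ (fun _ => (1 : ℝ)),
      if_pos (Finset.mem_univ _), nsmul_eq_mul, Finset.card_univ, add_comm]
    have h4 : (Fintype.card Y : ℝ) ≤ (q : ℕ) := by exact_mod_cast hY q q.2
    have h5 : (t : ℝ) ≤ (q : ℕ) := by exact_mod_cast (ht q q.2).le
    have h6 : (Fintype.card Y : ℝ) * ((t : ℝ) / ((q : ℕ) : ℝ) ^ 4) ≤ 1 / ((q : ℕ) : ℝ) ^ 2 := by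
      rw [mul_div_assoc', div_le_div_iff₀ (by positivity) (by positivity)]
      have h7 : (Fintype.card Y : ℝ) * t ≤ (q : ℕ) * (q : ℕ) :=
        mul_le_mul h4 h5 (Nat.cast_nonneg _) (Nat.cast_nonneg _)
      calc (Fintype.card Y : ℝ) * t * ((q : ℕ) : ℝ) ^ 2 ≤ ((q : ℕ) * (q : ℕ)) * ((q : ℕ) : ℝ) ^ 2 :=
            mul_le_mul_of_nonneg_right h7 (by positivity)
        _ = 1 * ((q : ℕ) : ℝ) ^ 4 := by ring
    linarith
  have h4 : ∏ q : P, ∑ y : Y, (if y ≠ y₀ then (t : ℝ) / ((q : ℕ) : ℝ) ^ 4 else 1) ≤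
      ∏ q : P, (1 + 1 / ((q : ℕ) : ℝ) ^ 2) := by
    refine Finset.prod_le_prod (fun q _ => ?_) fun q _ => h3 q
    apply Finset.sum_nonneg
    intro y _
    split_ifs <;> positivity
  refine h4.trans ?_
  have h5 : ∏ q : P, (1 + 1 / ((q : ℕ) : ℝ) ^ 2) ≤
      Real.exp (∑ q : P, 1 / ((q : ℕ) : ℝ) ^ 2) := by
    rw [Real.exp_sum]
    refine Finset.prod_le_prod (fun q _ => by positivity) fun q _ => ?_
    rw [add_comm]
    exact Real.add_one_le_exp _
  refine h5.trans ?_
  rw [Real.exp_le_exp]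
  have h6 : ∑ q : P, 1 / ((q : ℕ) : ℝ) ^ 2 = ∑ q ∈ P, 1 / (q : ℝ) ^ 2 :=
    Finset.sum_coe_sort P (fun q => 1 / (q : ℝ) ^ 2)
  rw [h6]
  obtain ⟨n, hn⟩ : ∃ n : ℕ, P ⊆ Finset.Ioc 0 n := by
    refine ⟨P.sup id, fun q hq => ?_⟩
    rw [Finset.mem_Ioc]
    exact ⟨(hP q hq).pos, Finset.le_sup (f := id) hq⟩
  refine (Finset.sum_le_sum_of_subset_of_nonneg hn (fun q _ _ => by positivity)).trans ?_
  rcases Nat.eq_zero_or_pos n with h0 | h0
  · subst h0
    simp
  have h7 : ∀ n : ℕ, 1 ≤ n →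
      (∑ q ∈ Finset.Ioc 0 n, (1 : ℝ) / (q : ℝ) ^ 2) ≤ (2 : ℝ) - (1 : ℝ) / (n : ℝ) := by
    intro n hn
    induction n, hn using Nat.le_induction with
    | base => norm_num
    | succ n hn ih =>
      rw [Finset.sum_Ioc_succ_top (by omega)]
      have hn0 : (0 : ℝ) < n := by exact_mod_cast hn
      have : 1 / ((n + 1 : ℕ) : ℝ) ^ 2 ≤ 1 / n - 1 / ((n + 1 : ℕ) : ℝ) := by
        push_cast
        rw [div_sub_div _ _ hn0.ne' (by positivity), div_le_div_iff₀ (by positivity)
          (by positivity)]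
        nlinarith
      linarith
  have h8 := h7 n h0
  have h9 : (0 : ℝ) ≤ (1 : ℝ) / (n : ℝ) := by positivity
  linarith

/-- Few integers have a large pattern modulus. -/
lemma large_modulus (P : Finset ℕ) (hP : ∀ q ∈ P, q.Prime) (φ : ℕ → ℕ → Y) (y₀ : Y) (t : ℕ)
    (hper : ∀ q ∈ P, ∀ m, φ q m = φ q (m % q))
    (hcard : ∀ q ∈ P, ((Finset.range q).filter (fun r => φ q r ≠ y₀)).card ≤ t)
    (E : ℕ) (hE : ∀ q ∈ P, Nat.log 2 q ≤ E) (M : ℕ) (hM : ∀ q ∈ P, q ≤ M) (x : ℕ) (hx : 1 ≤ x) :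
    (((Finset.Icc 1 M).filter (fun m => ¬ dmod P y₀ (fun q : P => φ q m) ≤ 2 ^ x)).card : ℝ) ≤
      16 * t * M * E / x := by
  classical
  have hxR : (0 : ℝ) < x := by exact_mod_cast hx
  rw [le_div_iff₀ hxR]
  -- weight
  have hw : ∀ m ∈ (Finset.Icc 1 M).filter (fun m => ¬ dmod P y₀ (fun q : P => φ q m) ≤ 2 ^ x),
      (x : ℝ) ≤ ∑ q ∈ P, if φ q m ≠ y₀ then (Nat.log 2 q : ℝ) + 1 else 0 := by
    intro m hm
    rw [Finset.mem_filter] at hm
    have h1 := hm.2
    push Not at h1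
    have h2 : dmod P y₀ (fun q : P => φ q m) ≤
        2 ^ (∑ q ∈ P, if φ q m ≠ y₀ then Nat.log 2 q + 1 else 0) := by
      unfold dmod
      rw [← Finset.prod_pow_eq_pow_sum, ← Finset.prod_coe_sort P]
      refine Finset.prod_le_prod' fun q _ => ?_
      split_ifs
      · exact (lt_pow_log2 _).le
      · simp
    have h3 := lt_of_lt_of_le h1 h2
    have h4 := (Nat.pow_lt_pow_iff_right (a := 2) (by norm_num)).mp h3
    have h5 : x ≤ ∑ q ∈ P, if φ q m ≠ y₀ then Nat.log 2 q + 1 else 0 := h4.le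
    calc (x : ℝ) ≤ ((∑ q ∈ P, if φ q m ≠ y₀ then Nat.log 2 q + 1 else 0 : ℕ) : ℝ) := by
          exact_mod_cast h5
      _ = _ := by
          push_cast
          rfl
  have h1 := Finset.card_nsmul_le_sum _ _ _ hw
  rw [nsmul_eq_mul] at h1
  refine h1.trans ?_
  have h2 : ∑ m ∈ (Finset.Icc 1 M).filter (fun m => ¬ dmod P y₀ (fun q : P => φ q m) ≤ 2 ^ x),
      ∑ q ∈ P, (if φ q m ≠ y₀ then (Nat.log 2 q : ℝ) + 1 else 0) ≤
      ∑ m ∈ Finset.Icc 1 M, ∑ q ∈ P, (if φ q m ≠ y₀ then (Nat.log 2 q : ℝ) + 1 else 0) := by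
    apply Finset.sum_le_sum_of_subset_of_nonneg (Finset.filter_subset _ _)
    intro m _ _
    apply Finset.sum_nonneg
    intro q _
    split_ifs <;> positivity
  refine h2.trans ?_
  rw [Finset.sum_comm]
  have h3 : ∀ q ∈ P, ∑ m ∈ Finset.Icc 1 M, (if φ q m ≠ y₀ then (Nat.log 2 q : ℝ) + 1 else 0) ≤
      2 * t * M * (((Nat.log 2 q : ℝ) + 1) / q) := by
    intro q hq
    have hq0 : (0 : ℝ) < q := by exact_mod_cast (hP q hq).pos
    set Z := (Finset.range q).filter (fun r => φ q r ≠ y₀) with hZ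
    have h4 := (nice_mem q (hP q hq) Z (Finset.filter_subset _ _)).sum_le M
    have h5 := (abs_le.mp h4).2
    have h6 : ∑ m ∈ Finset.Icc 1 M, (if φ q m ≠ y₀ then (Nat.log 2 q : ℝ) + 1 else 0) =
        ((Nat.log 2 q : ℝ) + 1) * ∑ m ∈ Finset.Icc 1 M, (if m % q ∈ Z then (1 : ℝ) else 0) := by
      rw [Finset.mul_sum]
      refine Finset.sum_congr rfl fun m _ => ?_
      have h7 : (m % q ∈ Z) ↔ φ q m ≠ y₀ := by
        rw [hZ, Finset.mem_filter, Finset.mem_range, ← hper q hq m]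
        exact ⟨fun h => h.2, fun h => ⟨Nat.mod_lt _ (hP q hq).pos, h⟩⟩
      by_cases h8 : φ q m ≠ y₀
      · rw [if_pos h8, if_pos (h7.mpr h8), mul_one]
      · rw [if_neg h8, if_neg (fun h => h8 (h7.mp h)), mul_zero]
    rw [h6]
    have hZt : (Z.card : ℝ) ≤ t := by exact_mod_cast hcard q hq
    have hqM : (q : ℝ) ≤ M := by exact_mod_cast hM q hq
    have h9 : ∑ m ∈ Finset.Icc 1 M, (if m % q ∈ Z then (1 : ℝ) else 0) ≤ 2 * t * (M / q) := by
      have h10 : (1 : ℝ) ≤ M / q := by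
        rw [le_div_iff₀ hq0]
        linarith
      have h11 : (M : ℝ) * ((Z.card : ℝ) / q) = Z.card * (M / q) := by ring
      have h12 : (Z.card : ℝ) * (M / q) ≤ t * (M / q) :=
        mul_le_mul_of_nonneg_right hZt (by positivity)
      have h13 : (Z.card : ℝ) ≤ t * (M / q) := by
        have : (0 : ℝ) ≤ t := Nat.cast_nonneg t
        nlinarith
      linarith
    have h14 : (0 : ℝ) ≤ (Nat.log 2 q : ℝ) + 1 := by positivity
    calc ((Nat.log 2 q : ℝ) + 1) * ∑ m ∈ Finset.Icc 1 M, (if m % q ∈ Z then (1 : ℝ) else 0)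
        ≤ ((Nat.log 2 q : ℝ) + 1) * (2 * t * (M / q)) := mul_le_mul_of_nonneg_left h9 h14
      _ = 2 * t * M * (((Nat.log 2 q : ℝ) + 1) / q) := by ring
  refine (Finset.sum_le_sum h3).trans ?_
  rw [← Finset.mul_sum]
  have h4 := log_sum P hP E hE
  calc 2 * (t : ℝ) * M * ∑ q ∈ P, ((Nat.log 2 q : ℝ) + 1) / q ≤ 2 * t * M * (8 * E) :=
        mul_le_mul_of_nonneg_left h4 (by positivity)
    _ = 16 * t * M * E := by ring

end Helper13.Om
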