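import Mathlib
import Pool.Agent.Helper13.Om.Kub

set_option autoImplicit false

/-! The Kubilius model: the final estimate. -/

namespace Helper13.Om

open Finset

/-- The constant. -/
noncomputable def Ck (t : ℕ) : ℝ := 480 * Kt t + 256 * t + 352

lemma Ck_pos (t : ℕ) : 0 < Ck t := by
  unfold Ck
  have := Kt_nonneg t
  positivity

lemma sum_comp_count {α β : Type} [Fintype β] [DecidableEq β] (s : Finset α) (f : α → β)
    (G : β → ℝ) :
    ∑ m ∈ s, G (f m) = ∑ y : β, G y * ((s.filter (fun m => f m = y)).card : ℝ) := by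
  classical
  have h1 : ∀ m ∈ s, G (f m) = ∑ y : β, if f m = y then G y else 0 := by
    intro m _
    rw [Finset.sum_ite_eq Finset.univ (f m) G, if_pos (Finset.mem_univ _)]
  rw [Finset.sum_congr rfl h1, Finset.sum_comm]
  refine Finset.sum_congr rfl fun y _ => ?_
  rw [← Finset.sum_filter, Finset.sum_const, nsmul_eq_mul, mul_comm]

theorem kub_upper (t : ℕ) (Y : Type) [Fintype Y] [DecidableEq Y] (P : Finset ℕ)
    (hP : ∀ q ∈ P, q.Prime) (φ : ℕ → ℕ → Y) (y₀ : Y) (ht : ∀ q ∈ P, t < q)
    (hY : ∀ q ∈ P, Fintype.card Y ≤ q) (hper : ∀ q ∈ P, ∀ m, φ q m = φ q (m % q))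
    (hcard : ∀ q ∈ P, ((Finset.range q).filter (fun r => φ q r ≠ y₀)).card ≤ t)
    (E : ℕ) (hE1 : 1 ≤ E) (hE : ∀ q ∈ P, Nat.log 2 q ≤ E) (M : ℕ) (hM : 2 ≤ M)
    (H : (P → Y) → ℝ) (hH0 : ∀ y, 0 ≤ H y) (hH1 : ∀ y, H y ≤ 1) :
    (∑ m ∈ Finset.Icc 1 M, H (fun q : P => φ q m)) / M ≤
      Enu P φ H + Ck t * E / Nat.log 2 M := by
  classical
  have hM0 : (0 : ℝ) < M := by
    have : (2 : ℝ) ≤ M := by exact_mod_cast hM
    linarith
  set A := Nat.log 2 M with hA
  have hA1 : 1 ≤ A := Nat.log_pos one_lt_two hM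
  have hAR : (1 : ℝ) ≤ A := by exact_mod_cast hA1
  have hER : (1 : ℝ) ≤ E := by exact_mod_cast hE1
  have hκ := Kt_nonneg t
  have htR : (0 : ℝ) ≤ t := Nat.cast_nonneg t
  have hEnu0 : 0 ≤ Enu P φ H := by
    unfold Enu
    exact Finset.sum_nonneg fun y _ =>
      mul_nonneg (Finset.prod_nonneg fun q _ => rho_nonneg φ q _) (hH0 y)
  have hEnu1 : Enu P φ H ≤ 1 := by
    unfold Enu
    rw [← rho_prod_sum P hP φ]
    refine Finset.sum_le_sum fun y _ => ?_
    have h1 : 0 ≤ ∏ q : P, rho φ q (y q) := Finset.prod_nonneg fun q _ => rho_nonneg φ q _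
    calc (∏ q : P, rho φ q (y q)) * H y ≤ (∏ q : P, rho φ q (y q)) * 1 :=
          mul_le_mul_of_nonneg_left (hH1 y) h1
      _ = _ := mul_one _
  rcases lt_or_ge (A : ℝ) ((320 + 160 * Kt t) * E) with hcase | hcase
  · -- trivial range
    have h1 : (∑ m ∈ Finset.Icc 1 M, H (fun q : P => φ q m)) / M ≤ 1 := by
      rw [div_le_one hM0]
      refine (Finset.sum_le_sum fun m _ => hH1 _).trans ?_
      simp
    have h2 : 1 ≤ Ck t * E / A := by
      rw [le_div_iff₀ (by linarith), one_mul]
      refine hcase.le.trans ?_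
      apply mul_le_mul_of_nonneg_right _ (by linarith)
      unfold Ck
      linarith
    linarith
  · have hA320 : 320 * E ≤ A := by
      have : (320 : ℝ) * E ≤ A := by nlinarith
      exact_mod_cast this
    have hAκ : 160 * Kt t * E ≤ A := by nlinarith
    obtain ⟨b, hb⟩ : ∃ b, A / (80 * E) = b + 1 := by
      refine ⟨A / (80 * E) - 1, ?_⟩
      have h1 : 4 ≤ A / (80 * E) := by
        rw [Nat.le_div_iff_mul_le (by positivity)]
        linarith
      omega
    have hb3 : 3 ≤ b := by
      have h1 : 4 ≤ A / (80 * E) := by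
        rw [Nat.le_div_iff_mul_le (by positivity)]
        linarith
      omega
    have hb1 : (b + 1) * (80 * E) ≤ A := by
      rw [← hb]
      exact Nat.div_mul_le_self _ _
    have hb2 : A < (b + 2) * (80 * E) := by
      have h1 := Nat.lt_div_mul_add (a := A) (b := 80 * E) (by positivity)
      rw [hb] at h1
      linarith
    set x := A / 8 with hx
    have hx1 : 8 * x ≤ A := by omega
    have hx2 : A ≤ 16 * x := by omega
    have hx0 : 1 ≤ x := by omega
    have hPM : ∀ q ∈ P, q ≤ M := by
      intro q hq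
      have h1 : q < 2 ^ (E + 1) := (lt_pow_log2 q).trans_le
        (Nat.pow_le_pow_right (by norm_num) (by have := hE q hq; omega))
      have h2 : 2 ^ (E + 1) ≤ 2 ^ A := Nat.pow_le_pow_right (by norm_num) (by omega)
      have h3 : 2 ^ A ≤ M := Nat.pow_log_le_self 2 (by omega)
      omega
    have hbR : (0 : ℝ) < b := by
      have : 0 < b := by omega
      exact_mod_cast this
    have hxR : (0 : ℝ) < x := by exact_mod_cast hx0
    -- the sum
    set G : (P → Y) → ℝ := fun y => if dmod P y₀ y ≤ 2 ^ x then H y else 0 with hG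
    have h1 : ∑ m ∈ Finset.Icc 1 M, H (fun q : P => φ q m) ≤
        ∑ m ∈ Finset.Icc 1 M, G (fun q : P => φ q m) +
        (((Finset.Icc 1 M).filter
          (fun m => ¬ dmod P y₀ (fun q : P => φ q m) ≤ 2 ^ x)).card : ℝ) := by
      rw [Finset.card_filter]
      push_cast
      rw [← Finset.sum_add_distrib]
      refine Finset.sum_le_sum fun m _ => ?_
      simp only [hG]
      split_ifs
      · simp
      · have := hH1 (fun q : P => φ q m)
        linarith
    have h2 : ∑ m ∈ Finset.Icc 1 M, G (fun q : P => φ q m) ≤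
        M * Real.exp (Kt t / b) * Enu P φ H +
          2 ^ (4 * x) * Real.exp 2 * 2 ^ (20 * E * (b + 1)) := by
      rw [sum_comp_count]
      have h3 : ∀ y : P → Y, G y *
          (((Finset.Icc 1 M).filter (fun m => (fun q : P => φ q m) = y)).card : ℝ) ≤
          M * Real.exp (Kt t / b) * ((∏ q : P, rho φ q (y q)) * H y) +
          (if dmod P y₀ y ≤ 2 ^ x then (∏ q : P, if y q ≠ y₀ then (t : ℝ) else 1) else 0) *
            2 ^ (20 * E * (b + 1)) := by
        intro y
        have h4 := count_pattern P hP φ y₀ t ht hper hcard E hE b (by omega) M y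
        have hρ : 0 ≤ ∏ q : P, rho φ q (y q) := Finset.prod_nonneg fun q _ => rho_nonneg φ q _
        have hT : 0 ≤ ∏ q : P, (if y q ≠ y₀ then (t : ℝ) else 1) := by
          apply Finset.prod_nonneg
          intro q _
          split_ifs <;> positivity
        have hpow : (0 : ℝ) ≤ 2 ^ (20 * E * (b + 1)) := pow_nonneg (by norm_num) _
        have hexp := (Real.exp_pos (Kt t / b)).le
        simp only [hG]
        split_ifs with hd
        · have hHy0 := hH0 y
          have hHy1 := hH1 y
          calc H y * (((Finset.Icc 1 M).filter (fun m => (fun q : P => φ q m) = y)).card : ℝ)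
              ≤ H y * (M * (∏ q : P, rho φ q (y q)) * Real.exp (Kt t / b) +
                (∏ q : P, if y q ≠ y₀ then (t : ℝ) else 1) * 2 ^ (20 * E * (b + 1))) :=
                mul_le_mul_of_nonneg_left h4 hHy0
            _ = M * Real.exp (Kt t / b) * ((∏ q : P, rho φ q (y q)) * H y) +
                H y * ((∏ q : P, if y q ≠ y₀ then (t : ℝ) else 1) *
                  2 ^ (20 * E * (b + 1))) := by ring
            _ ≤ M * Real.exp (Kt t / b) * ((∏ q : P, rho φ q (y q)) * H y) +
                1 * ((∏ q : P, if y q ≠ y₀ then (t : ℝ) else 1) *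
                  2 ^ (20 * E * (b + 1))) := by
                have := mul_le_mul_of_nonneg_right hHy1 (mul_nonneg hT hpow)
                linarith
            _ = _ := by rw [one_mul]
        · rw [zero_mul, zero_mul, add_zero]
          exact mul_nonneg (mul_nonneg hM0.le hexp) (mul_nonneg hρ (hH0 y))
      refine (Finset.sum_le_sum fun y _ => h3 y).trans ?_
      rw [Finset.sum_add_distrib, ← Finset.mul_sum, ← Finset.sum_mul]
      have h5 := pattern_rankin P hP y₀ t ht hY x
      have h6 := mul_le_mul_of_nonneg_right h5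
        (pow_nonneg (by norm_num : (0 : ℝ) ≤ 2) (20 * E * (b + 1)))
      have h7 : (M : ℝ) * Real.exp (Kt t / b) * ∑ y : P → Y,
          ((∏ q : P, rho φ q (y q)) * H y) = M * Real.exp (Kt t / b) * Enu P φ H := rfl
      linarith
    have h3 := large_modulus P hP φ y₀ t hper hcard E hE M hPM x hx0
    -- numerical estimates
    have hexp1 : Real.exp (Kt t / b) ≤ 1 + 320 * Kt t * E / A := by
      have hAb : (A : ℝ) ≤ 160 * E * b := by
        have : A ≤ 160 * E * b := by
          have h4 : (b + 2) * (80 * E) ≤ 160 * E * b := by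
            have : b + 2 ≤ 2 * b := by omega
            calc (b + 2) * (80 * E) ≤ (2 * b) * (80 * E) := Nat.mul_le_mul_right _ this
              _ = 160 * E * b := by ring
          omega
        exact_mod_cast this
      have h5 : Kt t / b ≤ 160 * Kt t * E / A := by
        rw [div_le_div_iff₀ hbR (by linarith)]
        have := mul_le_mul_of_nonneg_left hAb hκ
        linarith
      have h6 : 160 * Kt t * E / A ≤ 1 := by
        rw [div_le_one (by linarith)]
        exact hAκ
      have h7 : 0 ≤ Kt t / b := by positivity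
      have h8 := Real.abs_exp_sub_one_le (x := Kt t / b) (by rw [abs_of_nonneg h7]; linarith)
      rw [abs_of_nonneg h7] at h8
      have h9 := (abs_le.mp h8).2
      have h10 : 2 * (160 * Kt t * E / A) = 320 * Kt t * E / A := by ring
      linarith
    have hpow : 2 ^ (4 * x) * Real.exp 2 * 2 ^ (20 * E * (b + 1)) ≤ 32 * E / A * M := by
      set s := 4 * x + 20 * E * (b + 1) with hs
      have hs1 : 4 * s ≤ 3 * A := by
        have h4 : 4 * (20 * E * (b + 1)) = (b + 1) * (80 * E) := by ring
        rw [hs, mul_add, h4]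
        omega
      have e1 : (2 : ℝ) ^ (4 * x) * Real.exp 2 * 2 ^ (20 * E * (b + 1)) = Real.exp 2 * 2 ^ s := by
        rw [hs, pow_add]
        ring
      rw [e1]
      have he2 : Real.exp 2 ≤ 8 := by
        have h5 := Real.exp_one_lt_d9
        have h6 : Real.exp 2 = Real.exp 1 * Real.exp 1 := by
          rw [← Real.exp_add]
          norm_num
        rw [h6]
        have h7 := Real.exp_pos 1
        nlinarith
      have hMA : (2 : ℝ) ^ A ≤ M := by
        exact_mod_cast Nat.pow_log_le_self 2 (show M ≠ 0 by omega)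
      obtain ⟨r, hr⟩ : ∃ r, A = s + r := ⟨A - s, by omega⟩
      have hr4 : A ≤ 4 * r := by omega
      have hr2 : (r : ℝ) ≤ 2 ^ r := by
        exact_mod_cast (Nat.lt_two_pow_self (n := r)).le
      have hAr : (A : ℝ) ≤ 4 * r := by exact_mod_cast hr4
      have h8 : (2 : ℝ) ^ A = 2 ^ s * 2 ^ r := by rw [hr, pow_add]
      have h9 : (2 : ℝ) ^ s * A ≤ 4 * M := by
        have h10 : (0 : ℝ) < 2 ^ s := by positivity
        calc (2 : ℝ) ^ s * A ≤ 2 ^ s * (4 * 2 ^ r) := by
              apply mul_le_mul_of_nonneg_left _ h10.le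
              linarith
          _ = 4 * (2 ^ s * 2 ^ r) := by ring
          _ = 4 * 2 ^ A := by rw [h8]
          _ ≤ 4 * M := by linarith
      rw [div_mul_eq_mul_div, le_div_iff₀ (by linarith)]
      have h11 : (0 : ℝ) ≤ 2 ^ s * A := by positivity
      calc Real.exp 2 * 2 ^ s * A = Real.exp 2 * (2 ^ s * A) := by ring
        _ ≤ 8 * (2 ^ s * A) := mul_le_mul_of_nonneg_right he2 h11
        _ ≤ 8 * (4 * M) := by linarith
        _ = 32 * 1 * M := by ring
        _ ≤ 32 * E * M := by
            apply mul_le_mul_of_nonneg_right _ hM0.le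
            linarith
    have hlarge : 16 * (t : ℝ) * M * E / x ≤ 256 * t * E / A * M := by
      have hAx : (A : ℝ) ≤ 16 * x := by exact_mod_cast hx2
      rw [div_mul_eq_mul_div, div_le_div_iff₀ hxR (by linarith)]
      have h4 : (0 : ℝ) ≤ 16 * t * M * E := by positivity
      have := mul_le_mul_of_nonneg_left hAx h4
      linarith
    rw [div_le_iff₀ hM0]
    have h4 : (M : ℝ) * Real.exp (Kt t / b) * Enu P φ H ≤
        M * Enu P φ H + 320 * Kt t * E / A * M := by
      have h5 : (0 : ℝ) ≤ 320 * Kt t * E / A := by positivity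
      have h6 : Real.exp (Kt t / b) * Enu P φ H ≤ Enu P φ H + 320 * Kt t * E / A := by
        calc Real.exp (Kt t / b) * Enu P φ H ≤ (1 + 320 * Kt t * E / A) * Enu P φ H :=
              mul_le_mul_of_nonneg_right hexp1 hEnu0
          _ = Enu P φ H + 320 * Kt t * E / A * Enu P φ H := by ring
          _ ≤ Enu P φ H + 320 * Kt t * E / A * 1 := by
              have := mul_le_mul_of_nonneg_left hEnu1 h5
              linarith
          _ = _ := by rw [mul_one]
      have := mul_le_mul_of_nonneg_left h6 hM0.le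
      calc (M : ℝ) * Real.exp (Kt t / b) * Enu P φ H =
            M * (Real.exp (Kt t / b) * Enu P φ H) := by ring
        _ ≤ _ := this
        _ = _ := by ring
    have h5 : Ck t * E / A * M = 320 * Kt t * E / A * M + 32 * E / A * M +
        256 * t * E / A * M + (160 * Kt t + 320) * E / A * M := by
      unfold Ck
      ring
    have h6 : 0 ≤ (160 * Kt t + 320) * E / A * M := by positivity
    rw [add_mul, h5]
    linarith

/-- **The Kubilius model.** -/
theorem kub (t : ℕ) (Y : Type) [Fintype Y] [DecidableEq Y] (P : Finset ℕ)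
    (hP : ∀ q ∈ P, q.Prime) (φ : ℕ → ℕ → Y) (y₀ : Y) (ht : ∀ q ∈ P, t < q)
    (hY : ∀ q ∈ P, Fintype.card Y ≤ q) (hper : ∀ q ∈ P, ∀ m, φ q m = φ q (m % q))
    (hcard : ∀ q ∈ P, ((Finset.range q).filter (fun r => φ q r ≠ y₀)).card ≤ t)
    (E : ℕ) (hE1 : 1 ≤ E) (hE : ∀ q ∈ P, Nat.log 2 q ≤ E) (M : ℕ) (hM : 2 ≤ M)
    (H : (P → Y) → ℝ) (hH : ∀ y, |H y| ≤ 1) :
    |(∑ m ∈ Finset.Icc 1 M, H (fun q : P => φ q m)) / M - Enu P φ H| ≤
      2 * Ck t * E / Nat.log 2 M := by
  classical
  have hM0 : (0 : ℝ) < M := by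
    have : (2 : ℝ) ≤ M := by exact_mod_cast hM
    linarith
  have key : ∀ s : ℝ, |s| = 1 →
      s * ((∑ m ∈ Finset.Icc 1 M, H (fun q : P => φ q m)) / M - Enu P φ H) ≤
        2 * Ck t * E / Nat.log 2 M := by
    intro s hs
    have h := kub_upper t Y P hP φ y₀ ht hY hper hcard E hE1 hE M hM
      (fun y => (1 + s * H y) / 2) (by
        intro y
        have h1 : |s * H y| ≤ 1 := by
          rw [abs_mul, hs, one_mul]
          exact hH y
        have := (abs_le.mp h1).1
        linarith) (by
        intro y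
        have h1 : |s * H y| ≤ 1 := by
          rw [abs_mul, hs, one_mul]
          exact hH y
        have := (abs_le.mp h1).2
        linarith)
    have e1 : (∑ m ∈ Finset.Icc 1 M, (1 + s * H (fun q : P => φ q m)) / 2) / M =
        1 / 2 + s * ((∑ m ∈ Finset.Icc 1 M, H (fun q : P => φ q m)) / M) / 2 := by
      rw [← Finset.sum_div, Finset.sum_add_distrib, ← Finset.mul_sum]
      simp only [Finset.sum_const, Nat.card_Icc, Nat.add_sub_cancel, nsmul_eq_mul, mul_one]
      field_simp
    have e2 : Enu P φ (fun y => (1 + s * H y) / 2) = 1 / 2 + s * Enu P φ H / 2 := by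
      unfold Enu
      have h2 := rho_prod_sum P hP φ
      have h3 : ∀ y : P → Y, (∏ q : P, rho φ q (y q)) * ((1 + s * H y) / 2) =
          (∏ q : P, rho φ q (y q)) * (1 / 2) + (s / 2) * ((∏ q : P, rho φ q (y q)) * H y) := by
        intro y
        ring
      rw [Finset.sum_congr rfl fun y _ => h3 y, Finset.sum_add_distrib, ← Finset.sum_mul, h2,
        ← Finset.mul_sum]
      ring
    rw [e1, e2] at h
    have e3 : 2 * Ck t * E / Nat.log 2 M = 2 * (Ck t * E / Nat.log 2 M) := by ring
    rw [e3]
    linarith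
  rw [abs_le]
  constructor
  · have := key (-1) (by norm_num)
    linarith
  · have := key 1 (by norm_num)
    linarith

end Helper13.Om
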