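import Mathlib
import Pool.Agent.Helper13.Om.KubThm

set_option autoImplicit false
set_option linter.unusedSectionVars false

/-! Product measures: tensorisation of total variation, and local comparisons. -/

namespace Helper13.Om

open Finset

section Tensor

variable {ι Y : Type} [Fintype ι] [DecidableEq ι] [Fintype Y] [DecidableEq Y]

lemma sum_prod_eq_one (w : ι → Y → ℝ) (hw : ∀ i, ∑ y, w i y = 1) :
    ∑ y : ι → Y, ∏ i, w i (y i) = 1 := by
  classical
  have h := (Finset.prod_univ_sum (fun _ : ι => (Finset.univ : Finset Y))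
    (fun (i : ι) (y : Y) => w i y)).symm
  rw [Fintype.piFinset_univ] at h
  rw [h]
  exact Finset.prod_eq_one fun i _ => hw i

/-- Total variation distance of product measures. -/
lemma tensor (ρ ρ' : ι → Y → ℝ) (h0 : ∀ i y, 0 ≤ ρ i y) (h0' : ∀ i y, 0 ≤ ρ' i y)
    (h1 : ∀ i, ∑ y, ρ i y = 1) (h1' : ∀ i, ∑ y, ρ' i y = 1)
    (H : (ι → Y) → ℝ) (B : ℝ) (hH : ∀ y, |H y| ≤ B) :
    |∑ y : ι → Y, (∏ i, ρ i (y i)) * H y - ∑ y : ι → Y, (∏ i, ρ' i (y i)) * H y| ≤
      B * ∑ i, ∑ y, |ρ i y - ρ' i y| := by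
  classical
  have hB : 0 ≤ B ∨ IsEmpty (ι → Y) := by
    rcases isEmpty_or_nonempty (ι → Y) with h | ⟨⟨y⟩⟩
    · exact Or.inr h
    · exact Or.inl ((abs_nonneg _).trans (hH y))
  -- mixtures
  set mix : Finset ι → ι → Y → ℝ := fun s i y => if i ∈ s then ρ' i y else ρ i y with hmix
  have hmix0 : ∀ s i y, 0 ≤ mix s i y := by
    intro s i y
    simp only [hmix]
    split_ifs
    · exact h0' i y
    · exact h0 i y
  have hmix1 : ∀ s i, ∑ y, mix s i y = 1 := by
    intro s i
    simp only [hmix]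
    by_cases h : i ∈ s
    · simp only [h, if_true]
      exact h1' i
    · simp only [h, if_false]
      exact h1 i
  have key : ∀ s : Finset ι,
      |∑ y : ι → Y, (∏ i, ρ i (y i)) * H y - ∑ y : ι → Y, (∏ i, mix s i (y i)) * H y| ≤
      B * ∑ i ∈ s, ∑ y, |ρ i y - ρ' i y| := by
    intro s
    induction s using Finset.induction_on with
    | empty => simp [hmix]
    | insert j s hj ih =>
      rw [Finset.sum_insert hj]
      have hstep : |∑ y : ι → Y, (∏ i, mix s i (y i)) * H y -
          ∑ y : ι → Y, (∏ i, mix (insert j s) i (y i)) * H y| ≤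
          B * ∑ y, |ρ j y - ρ' j y| := by
        rw [← Finset.sum_sub_distrib]
        refine (Finset.abs_sum_le_sum_abs _ _).trans ?_
        set f : ι → Y → ℝ := fun i y => if i = j then |ρ j y - ρ' j y| else mix s i y with hf
        have hpt : ∀ y : ι → Y, |(∏ i, mix s i (y i)) * H y -
            (∏ i, mix (insert j s) i (y i)) * H y| ≤ B * ∏ i, f i (y i) := by
          intro y
          have e1 : ∏ i, mix s i (y i) = ρ j (y j) * ∏ i ∈ Finset.univ.erase j, mix s i (y i) := by
            rw [← Finset.mul_prod_erase _ _ (Finset.mem_univ j)]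
            simp only [hmix, if_neg hj]
          have e2 : ∏ i, mix (insert j s) i (y i) =
              ρ' j (y j) * ∏ i ∈ Finset.univ.erase j, mix s i (y i) := by
            rw [← Finset.mul_prod_erase _ _ (Finset.mem_univ j)]
            have e3 : mix (insert j s) j (y j) = ρ' j (y j) := by
              simp only [hmix, Finset.mem_insert_self, if_true]
            rw [e3]
            congr 1
            refine Finset.prod_congr rfl fun i hi => ?_
            have hij : i ≠ j := Finset.ne_of_mem_erase hi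
            simp only [hmix, Finset.mem_insert, hij, false_or]
          have e3 : ∏ i, f i (y i) =
              |ρ j (y j) - ρ' j (y j)| * ∏ i ∈ Finset.univ.erase j, mix s i (y i) := by
            rw [← Finset.mul_prod_erase _ _ (Finset.mem_univ j)]
            congr 1
            · simp only [hf, if_true]
            · refine Finset.prod_congr rfl fun i hi => ?_
              have hij : i ≠ j := Finset.ne_of_mem_erase hi
              simp only [hf, hij, if_false]
          rw [e1, e2, e3]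
          have hR : 0 ≤ ∏ i ∈ Finset.univ.erase j, mix s i (y i) :=
            Finset.prod_nonneg fun i _ => hmix0 s i (y i)
          have e4 : ρ j (y j) * (∏ i ∈ Finset.univ.erase j, mix s i (y i)) * H y -
              ρ' j (y j) * (∏ i ∈ Finset.univ.erase j, mix s i (y i)) * H y =
              H y * ((ρ j (y j) - ρ' j (y j)) * ∏ i ∈ Finset.univ.erase j, mix s i (y i)) := by
            ring
          rw [e4, abs_mul, abs_mul, abs_of_nonneg hR]
          exact mul_le_mul_of_nonneg_right (hH y) (by positivity)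
        refine (Finset.sum_le_sum fun y _ => hpt y).trans ?_
        rw [← Finset.mul_sum]
        have h2 := (Finset.prod_univ_sum (fun _ : ι => (Finset.univ : Finset Y))
          (fun (i : ι) (y : Y) => f i y)).symm
        rw [Fintype.piFinset_univ] at h2
        rw [h2, ← Finset.mul_prod_erase _ _ (Finset.mem_univ j)]
        have e5 : ∏ i ∈ Finset.univ.erase j, ∑ y, f i y = 1 := by
          apply Finset.prod_eq_one
          intro i hi
          have hij : i ≠ j := Finset.ne_of_mem_erase hi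
          simp only [hf, hij, if_false]
          exact hmix1 s i
        rw [e5, mul_one]
        simp only [hf, if_true]
        exact le_rfl
      calc |∑ y : ι → Y, (∏ i, ρ i (y i)) * H y -
            ∑ y : ι → Y, (∏ i, mix (insert j s) i (y i)) * H y|
          ≤ |∑ y : ι → Y, (∏ i, ρ i (y i)) * H y - ∑ y : ι → Y, (∏ i, mix s i (y i)) * H y| +
            |∑ y : ι → Y, (∏ i, mix s i (y i)) * H y -
            ∑ y : ι → Y, (∏ i, mix (insert j s) i (y i)) * H y| := abs_sub_le _ _ _
        _ ≤ B * ∑ i ∈ s, ∑ y, |ρ i y - ρ' i y| + B * ∑ y, |ρ j y - ρ' j y| :=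
            add_le_add ih hstep
        _ = B * (∑ y, |ρ j y - ρ' j y| + ∑ i ∈ s, ∑ y, |ρ i y - ρ' i y|) := by ring
  have h := key Finset.univ
  have e : ∀ y : ι → Y, ∏ i, mix Finset.univ i (y i) = ∏ i, ρ' i (y i) := by
    intro y
    refine Finset.prod_congr rfl fun i _ => ?_
    simp only [hmix, Finset.mem_univ, if_true]
  simpa only [e] using h

end Tensor

section Local

variable {Ya Yb : Type} [Fintype Ya] [DecidableEq Ya] [Fintype Yb] [DecidableEq Yb]

lemma sum_rho_mul {Y : Type} [Fintype Y] [DecidableEq Y] (φ : ℕ → ℕ → Y) (q : ℕ) (h : Y → ℝ) :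
    ∑ y, rho φ q y * h y = (∑ r ∈ Finset.range q, h (φ q r)) / q := by
  classical
  rw [sum_comp_count (Finset.range q) (fun r => φ q r) h, Finset.sum_div]
  refine Finset.sum_congr rfl fun y _ => ?_
  unfold rho
  ring

/-- the probability of a nongeneric value -/
noncomputable def pbad {Y : Type} [DecidableEq Y] (φ : ℕ → ℕ → Y) (y₀ : Y) (q : ℕ) : ℝ :=
  (((Finset.range q).filter (fun r => φ q r ≠ y₀)).card : ℝ) / q

lemma pbad_nonneg {Y : Type} [DecidableEq Y] (φ : ℕ → ℕ → Y) (y₀ : Y) (q : ℕ) :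
    0 ≤ pbad φ y₀ q := by
  unfold pbad
  positivity

lemma sum_rho_ite {Y : Type} [Fintype Y] [DecidableEq Y] (φ : ℕ → ℕ → Y) (y₀ : Y) (q : ℕ) :
    ∑ y, rho φ q y * (if y ≠ y₀ then 1 else 0) = pbad φ y₀ q := by
  rw [sum_rho_mul, Finset.sum_boole]
  rfl

/-- Joint law versus product of the marginals, tested against a bounded function. -/
lemma two_var (φ : ℕ → ℕ → Ya) (ψ : ℕ → ℕ → Yb) (a₀ : Ya) (b₀ : Yb) (q : ℕ) (hq : 0 < q)
    (h : Ya × Yb → ℝ) (hh : ∀ y, |h y| ≤ 1) :
    |∑ y : Ya × Yb, rho (fun q r => (φ q r, ψ q r)) q y * h y -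
      ∑ y : Ya × Yb, rho φ q y.1 * rho ψ q y.2 * h y| ≤
      4 * ((((Finset.range q).filter (fun r => φ q r ≠ a₀ ∧ ψ q r ≠ b₀)).card : ℝ) / q +
        pbad φ a₀ q * pbad ψ b₀ q) := by
  classical
  have hq0 : (0 : ℝ) < q := by exact_mod_cast hq
  set Δ : Ya × Yb → ℝ := fun y => h y - h (y.1, b₀) - h (a₀, y.2) + h (a₀, b₀) with hΔ
  have hΔ0 : ∀ y : Ya × Yb, |Δ y| ≤ 4 * (if y.1 ≠ a₀ ∧ y.2 ≠ b₀ then 1 else 0) := by
    intro y
    obtain ⟨y1, y2⟩ := y
    simp only [hΔ]
    by_cases h1 : y1 = a₀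
    · subst h1
      simp
    · by_cases h2 : y2 = b₀
      · subst h2
        simp
      · rw [if_pos ⟨h1, h2⟩]
        have e1 := abs_le.mp (hh (y1, y2))
        have e2 := abs_le.mp (hh (y1, b₀))
        have e3 := abs_le.mp (hh (a₀, y2))
        have e4 := abs_le.mp (hh (a₀, b₀))
        rw [abs_le]
        constructor <;> linarith [e1.1, e1.2, e2.1, e2.2, e3.1, e3.2, e4.1, e4.2]
  have hdec : ∀ y : Ya × Yb, h y = h (y.1, b₀) + h (a₀, y.2) - h (a₀, b₀) + Δ y := by
    intro y
    simp only [hΔ]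
    ring
  have sφ := rho_sum φ q hq
  have sψ := rho_sum ψ q hq
  -- joint
  have hj : ∑ y : Ya × Yb, rho (fun q r => (φ q r, ψ q r)) q y * h y =
      (∑ a, rho φ q a * h (a, b₀)) + (∑ b, rho ψ q b * h (a₀, b)) - h (a₀, b₀) +
      ∑ y : Ya × Yb, rho (fun q r => (φ q r, ψ q r)) q y * Δ y := by
    rw [sum_rho_mul, sum_rho_mul, sum_rho_mul, sum_rho_mul]
    have e1 : ∑ r ∈ Finset.range q, h (φ q r, ψ q r) =
        ∑ r ∈ Finset.range q, h (φ q r, b₀) + ∑ r ∈ Finset.range q, h (a₀, ψ q r) -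
        q * h (a₀, b₀) + ∑ r ∈ Finset.range q, Δ (φ q r, ψ q r) := by
      rw [Finset.sum_congr rfl fun r _ => hdec (φ q r, ψ q r), Finset.sum_add_distrib,
        Finset.sum_sub_distrib, Finset.sum_add_distrib, Finset.sum_const, Finset.card_range,
        nsmul_eq_mul]
    rw [e1]
    field_simp
  have hp : ∑ y : Ya × Yb, rho φ q y.1 * rho ψ q y.2 * h y =
      (∑ a, rho φ q a * h (a, b₀)) + (∑ b, rho ψ q b * h (a₀, b)) - h (a₀, b₀) +
      ∑ y : Ya × Yb, rho φ q y.1 * rho ψ q y.2 * Δ y := by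
    have e1 : ∑ y : Ya × Yb, rho φ q y.1 * rho ψ q y.2 * h (y.1, b₀) =
        ∑ a, rho φ q a * h (a, b₀) := by
      rw [Fintype.sum_prod_type]
      refine Finset.sum_congr rfl fun a _ => ?_
      have : ∀ b, rho φ q a * rho ψ q b * h (a, b₀) = rho φ q a * h (a, b₀) * rho ψ q b := by
        intro b
        ring
      simp only [this]
      rw [← Finset.mul_sum, sψ, mul_one]
    have e2 : ∑ y : Ya × Yb, rho φ q y.1 * rho ψ q y.2 * h (a₀, y.2) =
        ∑ b, rho ψ q b * h (a₀, b) := by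
      rw [Fintype.sum_prod_type, Finset.sum_comm]
      refine Finset.sum_congr rfl fun b _ => ?_
      have : ∀ a, rho φ q a * rho ψ q b * h (a₀, b) = rho ψ q b * h (a₀, b) * rho φ q a := by
        intro a
        ring
      simp only [this]
      rw [← Finset.mul_sum, sφ, mul_one]
    have e3 : ∑ y : Ya × Yb, rho φ q y.1 * rho ψ q y.2 * h (a₀, b₀) = h (a₀, b₀) := by
      rw [← Finset.sum_mul, Fintype.sum_prod_type]
      simp only
      have : ∀ a, ∑ b, rho φ q a * rho ψ q b = rho φ q a := by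
        intro a
        rw [← Finset.mul_sum, sψ, mul_one]
      simp only [this]
      rw [sφ, one_mul]
    have e4 : ∀ y : Ya × Yb, rho φ q y.1 * rho ψ q y.2 * h y =
        rho φ q y.1 * rho ψ q y.2 * h (y.1, b₀) + rho φ q y.1 * rho ψ q y.2 * h (a₀, y.2) -
        rho φ q y.1 * rho ψ q y.2 * h (a₀, b₀) + rho φ q y.1 * rho ψ q y.2 * Δ y := by
      intro y
      conv_lhs => rw [hdec y]
      ring
    rw [Finset.sum_congr rfl fun y _ => e4 y, Finset.sum_add_distrib, Finset.sum_sub_distrib,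
      Finset.sum_add_distrib, e1, e2, e3]
  rw [hj, hp]
  have e5 : ∀ A B C D E : ℝ, A + B - C + D - (A + B - C + E) = D - E := by
    intro A B C D E
    ring
  rw [e5]
  have b1 : |∑ y : Ya × Yb, rho (fun q r => (φ q r, ψ q r)) q y * Δ y| ≤
      4 * ((((Finset.range q).filter (fun r => φ q r ≠ a₀ ∧ ψ q r ≠ b₀)).card : ℝ) / q) := by
    rw [sum_rho_mul, abs_div, abs_of_pos hq0]
    rw [mul_div_assoc']
    apply div_le_div_of_nonneg_right _ hq0.le
    refine (Finset.abs_sum_le_sum_abs _ _).trans ?_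
    refine (Finset.sum_le_sum fun r _ => hΔ0 (φ q r, ψ q r)).trans ?_
    rw [← Finset.mul_sum, Finset.sum_boole]
  have b2 : |∑ y : Ya × Yb, rho φ q y.1 * rho ψ q y.2 * Δ y| ≤
      4 * (pbad φ a₀ q * pbad ψ b₀ q) := by
    refine (Finset.abs_sum_le_sum_abs _ _).trans ?_
    have h2 : ∀ y : Ya × Yb, |rho φ q y.1 * rho ψ q y.2 * Δ y| ≤
        4 * ((rho φ q y.1 * (if y.1 ≠ a₀ then 1 else 0)) *
          (rho ψ q y.2 * (if y.2 ≠ b₀ then 1 else 0))) := by
      intro y
      have hn1 := rho_nonneg φ q y.1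
      have hn2 := rho_nonneg ψ q y.2
      rw [abs_mul, abs_of_nonneg (mul_nonneg hn1 hn2)]
      refine (mul_le_mul_of_nonneg_left (hΔ0 y) (mul_nonneg hn1 hn2)).trans (le_of_eq ?_)
      by_cases h1 : y.1 ≠ a₀ <;> by_cases h2 : y.2 ≠ b₀ <;> simp [h1, h2] <;> ring
    refine (Finset.sum_le_sum fun y _ => h2 y).trans ?_
    rw [← Finset.mul_sum, ← sum_rho_ite, ← sum_rho_ite, Fintype.sum_prod_type,
      Finset.sum_mul_sum]
  calc |_ - _| ≤ |∑ y : Ya × Yb, rho (fun q r => (φ q r, ψ q r)) q y * Δ y| +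
        |∑ y : Ya × Yb, rho φ q y.1 * rho ψ q y.2 * Δ y| := abs_sub _ _
    _ ≤ _ := by
        rw [mul_add]
        exact add_le_add b1 b2

/-- The same in `L¹` form. -/
lemma two_var_l1 (φ : ℕ → ℕ → Ya) (ψ : ℕ → ℕ → Yb) (a₀ : Ya) (b₀ : Yb) (q : ℕ) (hq : 0 < q) :
    ∑ y : Ya × Yb, |rho (fun q r => (φ q r, ψ q r)) q y - rho φ q y.1 * rho ψ q y.2| ≤
      4 * ((((Finset.range q).filter (fun r => φ q r ≠ a₀ ∧ ψ q r ≠ b₀)).card : ℝ) / q +
        pbad φ a₀ q * pbad ψ b₀ q) := by
  classical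
  set h : Ya × Yb → ℝ := fun y =>
    if 0 ≤ rho (fun q r => (φ q r, ψ q r)) q y - rho φ q y.1 * rho ψ q y.2 then 1 else -1 with hh
  have h1 : ∀ y, |h y| ≤ 1 := by
    intro y
    simp only [hh]
    split_ifs <;> norm_num
  refine le_trans (le_of_eq ?_) ((le_abs_self _).trans (two_var φ ψ a₀ b₀ q hq h h1))
  rw [← Finset.sum_sub_distrib]
  refine Finset.sum_congr rfl fun y _ => ?_
  simp only [hh]
  split_ifs with h2
  · rw [abs_of_nonneg h2]
    ring
  · push Not at h2
    rw [abs_of_neg h2]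
    ring

end Local

section Affine

lemma affine_mod_inj (q u v : ℕ) (hq : q.Prime) (hu : ¬ q ∣ u) (r r' : ℕ) (hr : r < q)
    (hr' : r' < q) (h : (u * r + v) % q = (u * r' + v) % q) : r = r' := by
  have h1 : u * r + v ≡ u * r' + v [MOD q] := h
  have h2 : u * r ≡ u * r' [MOD q] := Nat.ModEq.add_right_cancel' v h1
  have hc : Nat.gcd q u = 1 := by
    have := (Nat.Prime.coprime_iff_not_dvd hq).mpr hu
    exact this
  have h3 : r ≡ r' [MOD q] := Nat.ModEq.cancel_left_of_coprime hc h2
  have h4 : r % q = r' % q := h3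
  rwa [Nat.mod_eq_of_lt hr, Nat.mod_eq_of_lt hr'] at h4

lemma card_affine (q u v : ℕ) (hq : q.Prime) (hu : ¬ q ∣ u) (S : ℕ → Prop) [DecidablePred S] :
    ((Finset.range q).filter (fun r => S ((u * r + v) % q))).card =
      ((Finset.range q).filter S).card := by
  classical
  have himg : (Finset.range q).image (fun r => (u * r + v) % q) = Finset.range q := by
    apply Finset.eq_of_subset_of_card_le
    · intro x hx
      rw [Finset.mem_image] at hx
      obtain ⟨r, _, rfl⟩ := hx
      exact Finset.mem_range.mpr (Nat.mod_lt _ hq.pos)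
    · rw [Finset.card_image_of_injOn]
      intro r hr r' hr' h
      exact affine_mod_inj q u v hq hu r r' (by simpa using hr) (by simpa using hr') h
  have h2 : ((Finset.range q).filter (fun r => S ((u * r + v) % q))).image
      (fun r => (u * r + v) % q) = (Finset.range q).filter S := by
    ext x
    rw [Finset.mem_image, Finset.mem_filter]
    constructor
    · rintro ⟨r, hr, rfl⟩
      rw [Finset.mem_filter] at hr
      exact ⟨Finset.mem_range.mpr (Nat.mod_lt _ hq.pos), hr.2⟩
    · rintro ⟨hx, hS⟩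
      rw [← himg, Finset.mem_image] at hx
      obtain ⟨r, hr, rfl⟩ := hx
      exact ⟨r, Finset.mem_filter.mpr ⟨hr, hS⟩, rfl⟩
  rw [← h2, Finset.card_image_of_injOn]
  intro r hr r' hr' h
  rw [Finset.coe_filter] at hr hr'
  exact affine_mod_inj q u v hq hu r r' (by simpa using hr.1) (by simpa using hr'.1) h

lemma rho_affine {Y : Type} [DecidableEq Y] (φ : ℕ → ℕ → Y) (q u v : ℕ) (hq : q.Prime)
    (hu : ¬ q ∣ u) (hper : ∀ m, φ q m = φ q (m % q)) (y : Y) :
    rho (fun q r => φ q (u * r + v)) q y = rho φ q y := by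
  classical
  unfold rho
  congr 2
  rw [← card_affine q u v hq hu (fun r => φ q r = y)]
  congr 1
  refine Finset.filter_congr fun r _ => ?_
  beta_reduce
  rw [hper (u * r + v)]

lemma pbad_affine {Y : Type} [DecidableEq Y] (φ : ℕ → ℕ → Y) (y₀ : Y) (q u v : ℕ)
    (hq : q.Prime) (hu : ¬ q ∣ u) (hper : ∀ m, φ q m = φ q (m % q)) :
    pbad (fun q r => φ q (u * r + v)) y₀ q = pbad φ y₀ q := by
  classical
  unfold pbad
  congr 2
  rw [← card_affine q u v hq hu (fun r => φ q r ≠ y₀)]
  congr 1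
  refine Finset.filter_congr fun r _ => ?_
  beta_reduce
  rw [hper (u * r + v)]

end Affine

end Helper13.Om
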