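import Mathlib
import Pool.Agent.Helper13.Om.Tensor

set_option autoImplicit false
set_option linter.unusedSectionVars false

/-! The pair correlation estimate. -/

namespace Helper13.Om

open Finset

open Classical in
/-- the shift `i ≠ i₀` (if any) such that `q` divides `n + i - i₀` -/
noncomputable def kap (k : ℕ) (i₀ : Fin k) (q n : ℕ) : Option (Fin k) :=
  if h : ∃ i : Fin k, i ≠ i₀ ∧ (n + i) % q = i₀ % q then some h.choose else none

lemma kap_some (k : ℕ) (i₀ : Fin k) (q n : ℕ) (hkq : k ≤ q) (i : Fin k) :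
    kap k i₀ q n = some i ↔ (i ≠ i₀ ∧ (n + i) % q = i₀ % q) := by
  classical
  unfold kap
  constructor
  · intro h
    split_ifs at h with h1
    rw [Option.some.injEq] at h
    rw [← h]
    exact h1.choose_spec
  · intro h
    have h1 : ∃ i : Fin k, i ≠ i₀ ∧ (n + i) % q = i₀ % q := ⟨i, h⟩
    rw [dif_pos h1, Option.some.injEq]
    have h2 := h1.choose_spec.2
    have h3 : n + (h1.choose : ℕ) ≡ n + (i : ℕ) [MOD q] := h2.trans h.2.symm
    have h4 := Nat.ModEq.add_left_cancel' n h3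
    have h5 : (h1.choose : ℕ) % q = (i : ℕ) % q := h4
    rw [Nat.mod_eq_of_lt (h1.choose.2.trans_le hkq), Nat.mod_eq_of_lt (i.2.trans_le hkq)] at h5
    exact Fin.ext h5

lemma kap_ne_none (k : ℕ) (i₀ : Fin k) (q n : ℕ) (hkq : k ≤ q) :
    kap k i₀ q n ≠ none ↔ ∃ i : Fin k, i ≠ i₀ ∧ (n + i) % q = i₀ % q := by
  rw [Option.ne_none_iff_exists']
  constructor
  · rintro ⟨i, hi⟩
    exact ⟨i, (kap_some k i₀ q n hkq i).mp hi⟩
  · rintro ⟨i, hi⟩
    exact ⟨i, (kap_some k i₀ q n hkq i).mpr hi⟩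

lemma kap_congr (k : ℕ) (i₀ : Fin k) (q n n' : ℕ) (h : n % q = n' % q) :
    kap k i₀ q n = kap k i₀ q n' := by
  classical
  unfold kap
  have : ∀ i : Fin k, (n + i) % q = i₀ % q ↔ (n' + i) % q = i₀ % q := by
    intro i
    rw [Nat.add_mod n, Nat.add_mod n', h]
  simp only [this]

lemma kap_per (k : ℕ) (i₀ : Fin k) (q n : ℕ) : kap k i₀ q n = kap k i₀ q (n % q) :=
  kap_congr k i₀ q n (n % q) (Nat.mod_mod n q).symm

lemma kap_card_some (k : ℕ) (i₀ : Fin k) (q : ℕ) (hq : q.Prime) (hkq : k ≤ q) (i : Fin k)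
    (hi : i ≠ i₀) : ((Finset.range q).filter (fun r => kap k i₀ q r = some i)).card = 1 := by
  classical
  have h1 : (Finset.range q).filter (fun r => kap k i₀ q r = some i) =
      (Finset.range q).filter (fun r => (fun x => x = (i₀ : ℕ)) ((1 * r + i) % q)) := by
    refine Finset.filter_congr fun r _ => ?_
    rw [kap_some k i₀ q r hkq i, one_mul, Nat.mod_eq_of_lt (i₀.2.trans_le hkq)]
    exact ⟨fun h => h.2, fun h => ⟨hi, h⟩⟩
  rw [h1, card_affine q 1 i hq (fun h => hq.one_lt.ne' (Nat.dvd_one.mp h))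
    (fun x => x = (i₀ : ℕ))]
  rw [Finset.card_eq_one]
  refine ⟨(i₀ : ℕ), ?_⟩
  ext x
  rw [Finset.mem_filter, Finset.mem_range, Finset.mem_singleton]
  constructor
  · rintro ⟨_, h⟩
    exact h
  · intro h
    exact ⟨by rw [h]; exact i₀.2.trans_le hkq, h⟩

lemma kap_card_bad (k : ℕ) (i₀ : Fin k) (q : ℕ) (hq : q.Prime) (hkq : k ≤ q) :
    ((Finset.range q).filter (fun r => kap k i₀ q r ≠ none)).card ≤ k := by
  classical
  have h1 : (Finset.range q).filter (fun r => kap k i₀ q r ≠ none) ⊆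
      (Finset.univ.filter (fun i : Fin k => i ≠ i₀)).biUnion
        (fun i => (Finset.range q).filter (fun r => kap k i₀ q r = some i)) := by
    intro r hr
    rw [Finset.mem_filter] at hr
    obtain ⟨i, hi⟩ := Option.ne_none_iff_exists'.mp hr.2
    rw [Finset.mem_biUnion]
    refine ⟨i, ?_, ?_⟩
    · rw [Finset.mem_filter]
      exact ⟨Finset.mem_univ _, ((kap_some k i₀ q r hkq i).mp hi).1⟩
    · rw [Finset.mem_filter]
      exact ⟨hr.1, hi⟩
  refine (Finset.card_le_card h1).trans (Finset.card_biUnion_le.trans ?_)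
  have h2 : ∀ i ∈ Finset.univ.filter (fun i : Fin k => i ≠ i₀),
      ((Finset.range q).filter (fun r => kap k i₀ q r = some i)).card ≤ 1 := by
    intro i hi
    rw [Finset.mem_filter] at hi
    exact (kap_card_some k i₀ q hq hkq i hi.2).le
  refine (Finset.sum_le_card_nsmul _ _ _ h2).trans ?_
  rw [smul_eq_mul, mul_one]
  calc _ ≤ (Finset.univ : Finset (Fin k)).card := Finset.card_filter_le _ _
    _ = k := by rw [Finset.card_univ, Fintype.card_fin]

section

variable {Y : Type} [Fintype Y] [DecidableEq Y]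

/-- The Kubilius model on an initial interval. -/
lemma kub_range (t : ℕ) (P : Finset ℕ)
    (hP : ∀ q ∈ P, q.Prime) (φ : ℕ → ℕ → Y) (y₀ : Y) (ht : ∀ q ∈ P, t < q)
    (hY : ∀ q ∈ P, Fintype.card Y ≤ q) (hper : ∀ q ∈ P, ∀ m, φ q m = φ q (m % q))
    (hcard : ∀ q ∈ P, ((Finset.range q).filter (fun r => φ q r ≠ y₀)).card ≤ t)
    (E : ℕ) (hE1 : 1 ≤ E) (hE : ∀ q ∈ P, Nat.log 2 q ≤ E) (M : ℕ) (hM : 2 ≤ M)
    (H : (P → Y) → ℝ) (hH : ∀ y, |H y| ≤ 1) :
    |(∑ m ∈ Finset.range M, H (fun q : P => φ q m)) / M - Enu P φ H| ≤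
      2 * Ck t * E / Nat.log 2 M := by
  classical
  set φ' : ℕ → ℕ → Y := fun q m => φ q (1 * m + (q - 1)) with hφ'
  have hper' : ∀ q ∈ P, ∀ m, φ' q m = φ' q (m % q) := by
    intro q hq m
    simp only [hφ']
    rw [hper q hq (1 * m + (q - 1)), hper q hq (1 * (m % q) + (q - 1))]
    congr 1
    rw [one_mul, one_mul, Nat.mod_add_mod]
  have hone : ∀ q ∈ P, ¬ q ∣ 1 := fun q hq h => (hP q hq).one_lt.ne' (Nat.dvd_one.mp h)
  have hcard' : ∀ q ∈ P, ((Finset.range q).filter (fun r => φ' q r ≠ y₀)).card ≤ t := by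
    intro q hq
    have h1 : (Finset.range q).filter (fun r => φ' q r ≠ y₀) =
        (Finset.range q).filter (fun r => (fun x => φ q x ≠ y₀) ((1 * r + (q - 1)) % q)) := by
      refine Finset.filter_congr fun r _ => ?_
      simp only [hφ']
      rw [hper q hq (1 * r + (q - 1))]
    rw [h1, card_affine q 1 (q - 1) (hP q hq) (hone q hq) (fun x => φ q x ≠ y₀)]
    exact hcard q hq
  have h := kub t Y P hP φ' y₀ ht hY hper' hcard' E hE1 hE M hM H hH
  have e1 : ∑ m ∈ Finset.Icc 1 M, H (fun q : P => φ' q m) =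
      ∑ m ∈ Finset.range M, H (fun q : P => φ q m) := by
    rw [Finset.range_eq_Ico]
    have : Finset.Icc 1 M = Finset.Ico (0 + 1) (M + 1) := by
      ext x
      simp only [Finset.mem_Icc, Finset.mem_Ico]
      omega
    rw [this]
    rw [← Finset.sum_Ico_add' (fun m => H (fun q : P => φ' q m)) 0 M 1]
    refine Finset.sum_congr rfl fun m _ => ?_
    congr 1
    funext q
    simp only [hφ']
    have hq0 := (hP q q.2).pos
    have : 1 * (m + 1) + ((q : ℕ) - 1) = m + q := by omega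
    rw [this, hper q q.2 (m + q), Nat.add_mod_right, ← hper q q.2 m]
  have e2 : Enu P φ' H = Enu P φ H := by
    unfold Enu
    refine Finset.sum_congr rfl fun y _ => ?_
    congr 1
    refine Finset.prod_congr rfl fun q _ => ?_
    have h3 := rho_affine φ q 1 ((q : ℕ) - 1) (hP q q.2) (hone q q.2) (hper q q.2) (y q)
    rw [← h3]
    rfl
  rw [e1, e2] at h
  exact h

end

lemma sum_arrow_prod {ι A B : Type} [Fintype ι] [DecidableEq ι] [Fintype A] [Fintype B]
    (F : (ι → A × B) → ℝ) :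
    ∑ y : ι → A × B, F y = ∑ a : ι → A, ∑ b : ι → B, F (fun i => (a i, b i)) := by
  classical
  rw [← Fintype.sum_prod_type' (fun (a : ι → A) (b : ι → B) => F (fun i => (a i, b i)))]
  exact Fintype.sum_equiv (Equiv.arrowProdEquivProdArrow ι (fun _ => A) (fun _ => B)) _ _
    (fun y => rfl)

end Helper13.Om
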