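import Mathlib
import Pool.Agent.Helper13.Om.Pair

set_option autoImplicit false
set_option linter.unusedSectionVars false

/-! The pair correlation estimate, continued. -/

namespace Helper13.Om

open Finset

def phiA (W c q m : ℕ) : Bool := decide (q ∣ c + W * m)

noncomputable def phiB (k : ℕ) (i₀ : Fin k) (p W c q m : ℕ) : Option (Fin k) :=
  kap k i₀ q (p * W * m + p * c)

/-- number of primes of `P` dividing `n` -/
def Sc (P : Finset ℕ) (n : ℕ) : ℕ := (Finset.univ.filter (fun q : P => (q : ℕ) ∣ n)).card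

/-- `q` is bad for the pair `(p, p')` -/
def Bad (k : ℕ) (i₀ : Fin k) (p p' q : ℕ) : Prop :=
  ∃ m, kap k i₀ q (p * m) ≠ none ∧ kap k i₀ q (p' * m) ≠ none

lemma phiA_per (W c q m : ℕ) : phiA W c q m = phiA W c q (m % q) := by
  unfold phiA
  rw [decide_eq_decide]
  rw [Nat.dvd_iff_mod_eq_zero, Nat.dvd_iff_mod_eq_zero]
  have : (c + W * m) % q = (c + W * (m % q)) % q := by
    rw [Nat.add_mod c, Nat.mul_mod, Nat.add_mod c (W * (m % q)), Nat.mul_mod W (m % q),
      Nat.mod_mod]
  rw [this]

lemma phiB_per (k : ℕ) (i₀ : Fin k) (p W c q m : ℕ) :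
    phiB k i₀ p W c q m = phiB k i₀ p W c q (m % q) := by
  unfold phiB
  apply kap_congr
  rw [Nat.add_mod, Nat.mul_mod, Nat.add_mod (p * W * (m % q)), Nat.mul_mod (p * W) (m % q),
    Nat.mod_mod]

lemma pbad_phiA (W c q : ℕ) (hq : q.Prime) (hW : ¬ q ∣ W) :
    pbad (phiA W c) false q = 1 / q := by
  classical
  unfold pbad
  have h1 : (Finset.range q).filter (fun r => phiA W c q r ≠ false) =
      (Finset.range q).filter (fun r => (fun x => x = 0) ((W * r + c) % q)) := by
    refine Finset.filter_congr fun r _ => ?_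
    unfold phiA
    rw [ne_eq, decide_eq_false_iff_not, not_not, Nat.dvd_iff_mod_eq_zero, add_comm]
  rw [h1, card_affine q W c hq hW (fun x => x = 0)]
  have h2 : (Finset.range q).filter (fun x => x = 0) = {0} := by
    ext x
    rw [Finset.mem_filter, Finset.mem_range, Finset.mem_singleton]
    constructor
    · exact fun h => h.2
    · intro h
      exact ⟨by rw [h]; exact hq.pos, h⟩
  rw [h2, Finset.card_singleton]
  norm_num

section

variable (k : ℕ) (i₀ : Fin k) (p p' W c : ℕ)

lemma rho_phiB (q : ℕ) (hq : q.Prime) (hp : ¬ q ∣ p) (hW : ¬ q ∣ W) (y : Option (Fin k)) :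
    rho (phiB k i₀ p W c) q y = rho (kap k i₀) q y := by
  refine rho_affine (kap k i₀) q (p * W) (p * c) hq ?_ (kap_per k i₀ q) y
  intro h
  rcases (Nat.Prime.dvd_mul hq).mp h with h | h
  · exact hp h
  · exact hW h

lemma pbad_phiB (q : ℕ) (hq : q.Prime) (hp : ¬ q ∣ p) (hW : ¬ q ∣ W) (hkq : k ≤ q) :
    pbad (phiB k i₀ p W c) none q ≤ k / q := by
  have h : pbad (phiB k i₀ p W c) none q = pbad (kap k i₀) none q := by
    refine pbad_affine (kap k i₀) none q (p * W) (p * c) hq ?_ (kap_per k i₀ q)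
    intro h
    rcases (Nat.Prime.dvd_mul hq).mp h with h | h
    · exact hp h
    · exact hW h
  rw [h]
  unfold pbad
  apply div_le_div_of_nonneg_right _ (Nat.cast_nonneg _)
  exact_mod_cast kap_card_bad k i₀ q hq hkq

lemma card_phiBC (q : ℕ) (hq : q.Prime) (hp : ¬ q ∣ p) (hp' : ¬ q ∣ p') (hW : ¬ q ∣ W)
    (hkq : k ≤ q) :
    ((Finset.range q).filter (fun r =>
      ((phiB k i₀ p W c q r, phiB k i₀ p' W c q r) : Option (Fin k) × Option (Fin k)) ≠
        (none, none))).card ≤ 2 * k := by
  classical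
  have hq0 : (0 : ℝ) < q := by exact_mod_cast hq.pos
  have h1 := pbad_phiB k i₀ p W c q hq hp hW hkq
  have h2 := pbad_phiB k i₀ p' W c q hq hp' hW hkq
  unfold pbad at h1 h2
  rw [div_le_div_iff_of_pos_right hq0] at h1 h2
  have h1' : ((Finset.range q).filter (fun r => phiB k i₀ p W c q r ≠ none)).card ≤ k := by
    exact_mod_cast h1
  have h2' : ((Finset.range q).filter (fun r => phiB k i₀ p' W c q r ≠ none)).card ≤ k := by
    exact_mod_cast h2
  have h3 : (Finset.range q).filter (fun r =>
      ((phiB k i₀ p W c q r, phiB k i₀ p' W c q r) : Option (Fin k) × Option (Fin k)) ≠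
        (none, none)) ⊆
      (Finset.range q).filter (fun r => phiB k i₀ p W c q r ≠ none) ∪
      (Finset.range q).filter (fun r => phiB k i₀ p' W c q r ≠ none) := by
    intro r hr
    rw [Finset.mem_filter] at hr
    rw [Finset.mem_union, Finset.mem_filter, Finset.mem_filter]
    by_cases h4 : phiB k i₀ p W c q r = none
    · right
      refine ⟨hr.1, fun h5 => hr.2 ?_⟩
      rw [h4, h5]
    · left
      exact ⟨hr.1, h4⟩
  calc _ ≤ _ := Finset.card_le_card h3
    _ ≤ _ := Finset.card_union_le _ _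
    _ ≤ 2 * k := by omega

/-- the local error -/
noncomputable def eta (q : ℕ) : ℝ := by
  classical
  exact 12 * k ^ 2 / q ^ 2 + if Bad k i₀ p p' q then 4 * (k / q : ℝ) else 0

lemma eta_nonneg (q : ℕ) : 0 ≤ eta k i₀ p p' q := by
  classical
  unfold eta
  split_ifs <;> positivity

lemma local_l1 (q : ℕ) (hq : q.Prime) (hp : ¬ q ∣ p) (hp' : ¬ q ∣ p') (hW : ¬ q ∣ W)
    (hkq : k ≤ q) :
    ∑ y : Bool × (Option (Fin k) × Option (Fin k)),
      |rho (fun q r => (phiA W c q r, (phiB k i₀ p W c q r, phiB k i₀ p' W c q r))) q y -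
        rho (phiA W c) q y.1 * (rho (kap k i₀) q y.2.1 * rho (kap k i₀) q y.2.2)| ≤
      eta k i₀ p p' q := by
  classical
  have hq0 : (0 : ℝ) < q := by exact_mod_cast hq.pos
  have hk1 : 1 ≤ k := by
    have := i₀.2
    omega
  have hk1R : (1 : ℝ) ≤ k := by exact_mod_cast hk1
  -- the first comparison
  have A := two_var_l1 (phiA W c) (fun q r => ((phiB k i₀ p W c q r, phiB k i₀ p' W c q r) :
    Option (Fin k) × Option (Fin k))) false (none, none) q hq.pos
  have A0 : (Finset.range q).filter (fun r => phiA W c q r ≠ false ∧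
      ((phiB k i₀ p W c q r, phiB k i₀ p' W c q r) : Option (Fin k) × Option (Fin k)) ≠
        (none, none)) = ∅ := by
    rw [Finset.filter_eq_empty_iff]
    rintro r _ ⟨h1, h2⟩
    have h3 : q ∣ c + W * r := by
      unfold phiA at h1
      rw [ne_eq, decide_eq_false_iff_not, not_not] at h1
      exact h1
    have hno : ∀ p₁ : ℕ, phiB k i₀ p₁ W c q r = none := by
      intro p₁
      by_contra h4
      unfold phiB at h4
      obtain ⟨i, hi, hi2⟩ := (kap_ne_none k i₀ q _ hkq).mp h4
      have h5 : q ∣ p₁ * W * r + p₁ * c := by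
        have : p₁ * W * r + p₁ * c = p₁ * (c + W * r) := by ring
        rw [this]
        exact h3.mul_left p₁
      obtain ⟨d, hd⟩ := h5
      rw [hd, Nat.mul_add_mod] at hi2
      rw [Nat.mod_eq_of_lt (i.2.trans_le hkq), Nat.mod_eq_of_lt (i₀.2.trans_le hkq)] at hi2
      exact hi (Fin.ext hi2)
    apply h2
    rw [hno p, hno p']
  rw [A0, Finset.card_empty] at A
  -- the second comparison
  have B := two_var_l1 (phiB k i₀ p W c) (phiB k i₀ p' W c) none none q hq.pos
  have hpa := pbad_phiA W c q hq hW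
  have hpb := pbad_phiB k i₀ p W c q hq hp hW hkq
  have hpc := pbad_phiB k i₀ p' W c q hq hp' hW hkq
  have hpb0 := pbad_nonneg (phiB k i₀ p W c) none q
  have hpc0 := pbad_nonneg (phiB k i₀ p' W c) none q
  have hpbc : pbad (fun q r => ((phiB k i₀ p W c q r, phiB k i₀ p' W c q r) :
      Option (Fin k) × Option (Fin k))) (none, none) q ≤ 2 * k / q := by
    unfold pbad
    apply div_le_div_of_nonneg_right _ hq0.le
    exact_mod_cast card_phiBC k i₀ p p' W c q hq hp hp' hW hkq
  have hδ : (((Finset.range q).filter (fun r => phiB k i₀ p W c q r ≠ none ∧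
      phiB k i₀ p' W c q r ≠ none)).card : ℝ) / q ≤
      if Bad k i₀ p p' q then (k / q : ℝ) else 0 := by
    split_ifs with hb
    · apply div_le_div_of_nonneg_right _ hq0.le
      have h1 : ((Finset.range q).filter (fun r => phiB k i₀ p W c q r ≠ none ∧
          phiB k i₀ p' W c q r ≠ none)).card ≤
          ((Finset.range q).filter (fun r => phiB k i₀ p W c q r ≠ none)).card := by
        apply Finset.card_le_card
        intro r hr
        rw [Finset.mem_filter] at hr ⊢
        exact ⟨hr.1, hr.2.1⟩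
      have h2 : (((Finset.range q).filter (fun r => phiB k i₀ p W c q r ≠ none)).card : ℝ) ≤ k := by
        unfold pbad at hpb
        rwa [div_le_div_iff_of_pos_right hq0] at hpb
      have h1R : (((Finset.range q).filter (fun r => phiB k i₀ p W c q r ≠ none ∧
          phiB k i₀ p' W c q r ≠ none)).card : ℝ) ≤
          (((Finset.range q).filter (fun r => phiB k i₀ p W c q r ≠ none)).card : ℝ) := by
        exact_mod_cast h1
      linarith
    · have h1 : (Finset.range q).filter (fun r => phiB k i₀ p W c q r ≠ none ∧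
          phiB k i₀ p' W c q r ≠ none) = ∅ := by
        rw [Finset.filter_eq_empty_iff]
        rintro r _ ⟨h2, h3⟩
        apply hb
        refine ⟨W * r + c, ?_, ?_⟩
        · unfold phiB at h2
          have : p * (W * r + c) = p * W * r + p * c := by ring
          rw [this]
          exact h2
        · unfold phiB at h3
          have : p' * (W * r + c) = p' * W * r + p' * c := by ring
          rw [this]
          exact h3
      rw [h1, Finset.card_empty]
      simp
  -- combine
  have hρb : ∀ y, rho (phiB k i₀ p W c) q y = rho (kap k i₀) q y :=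
    rho_phiB k i₀ p W c q hq hp hW
  have hρc : ∀ y, rho (phiB k i₀ p' W c) q y = rho (kap k i₀) q y :=
    rho_phiB k i₀ p' W c q hq hp' hW
  set J := rho (fun q r => (phiA W c q r, (phiB k i₀ p W c q r, phiB k i₀ p' W c q r))) q with hJ
  set R := rho (fun q r => ((phiB k i₀ p W c q r, phiB k i₀ p' W c q r) :
    Option (Fin k) × Option (Fin k))) q with hR
  have h1 : ∀ y : Bool × (Option (Fin k) × Option (Fin k)),
      |J y - rho (phiA W c) q y.1 * (rho (kap k i₀) q y.2.1 * rho (kap k i₀) q y.2.2)| ≤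
      |J y - rho (phiA W c) q y.1 * R y.2| + rho (phiA W c) q y.1 *
        |R y.2 - rho (phiB k i₀ p W c) q y.2.1 * rho (phiB k i₀ p' W c) q y.2.2| := by
    intro y
    have e : J y - rho (phiA W c) q y.1 * (rho (kap k i₀) q y.2.1 * rho (kap k i₀) q y.2.2) =
        (J y - rho (phiA W c) q y.1 * R y.2) + rho (phiA W c) q y.1 *
          (R y.2 - rho (phiB k i₀ p W c) q y.2.1 * rho (phiB k i₀ p' W c) q y.2.2) := by
      rw [hρb, hρc]
      ring
    rw [e]
    refine (abs_add_le _ _).trans ?_
    rw [abs_mul, abs_of_nonneg (rho_nonneg (phiA W c) q y.1)]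
  refine (Finset.sum_le_sum fun y _ => h1 y).trans ?_
  rw [Finset.sum_add_distrib]
  have e2 : ∑ y : Bool × (Option (Fin k) × Option (Fin k)), rho (phiA W c) q y.1 *
      |R y.2 - rho (phiB k i₀ p W c) q y.2.1 * rho (phiB k i₀ p' W c) q y.2.2| =
      ∑ z : Option (Fin k) × Option (Fin k),
      |R z - rho (phiB k i₀ p W c) q z.1 * rho (phiB k i₀ p' W c) q z.2| := by
    rw [Fintype.sum_prod_type]
    simp only
    rw [← Finset.sum_mul_sum, rho_sum (phiA W c) q hq.pos, one_mul]
  rw [e2]
  have e3 : eta k i₀ p p' q = 12 * k ^ 2 / q ^ 2 +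
      4 * (if Bad k i₀ p p' q then (k / q : ℝ) else 0) := by
    unfold eta
    split_ifs <;> simp
  rw [e3]
  have h2 : pbad (phiA W c) false q * pbad (fun q r =>
      ((phiB k i₀ p W c q r, phiB k i₀ p' W c q r) : Option (Fin k) × Option (Fin k)))
      (none, none) q ≤ 2 * k ^ 2 / q ^ 2 := by
    rw [hpa]
    calc 1 / (q : ℝ) * _ ≤ 1 / q * (2 * k / q) := mul_le_mul_of_nonneg_left hpbc (by positivity)
      _ = 2 * k / q ^ 2 := by ring
      _ ≤ 2 * k ^ 2 / q ^ 2 := by
          apply div_le_div_of_nonneg_right _ (by positivity)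
          nlinarith
  have h3 : pbad (phiB k i₀ p W c) none q * pbad (phiB k i₀ p' W c) none q ≤ k ^ 2 / q ^ 2 := by
    calc _ ≤ (k / q : ℝ) * (k / q) := mul_le_mul hpb hpc hpc0 (by positivity)
      _ = k ^ 2 / q ^ 2 := by ring
  have e4 : (12 : ℝ) * k ^ 2 / q ^ 2 = 4 * (2 * k ^ 2 / q ^ 2) + 4 * (k ^ 2 / q ^ 2) := by ring
  rw [e4]
  have A' : ∑ y : Bool × (Option (Fin k) × Option (Fin k)),
      |J y - rho (phiA W c) q y.1 * R y.2| ≤ 4 * (2 * k ^ 2 / q ^ 2) := by
    refine A.trans ?_
    push_cast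
    rw [zero_div, zero_add]
    linarith
  have B' : ∑ z : Option (Fin k) × Option (Fin k),
      |R z - rho (phiB k i₀ p W c) q z.1 * rho (phiB k i₀ p' W c) q z.2| ≤
      4 * ((if Bad k i₀ p p' q then (k / q : ℝ) else 0) + k ^ 2 / q ^ 2) := by
    refine B.trans ?_
    apply mul_le_mul_of_nonneg_left _ (by norm_num)
    exact add_le_add hδ h3
  linarith

end

end Helper13.Om
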