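import Mathlib
import Pool.Agent.Helper13.Om.Pair2

set_option autoImplicit false
set_option linter.unusedSectionVars false

/-! The pair correlation estimate, conclusion. -/

namespace Helper13.Om

open Finset

section

variable (k : ℕ) (i₀ : Fin k) (P : Finset ℕ) (p p' W : ℕ)

lemma product_zero (c : ℕ) (G1 G2 : ℕ → (P → Option (Fin k)) → ℝ)
    (hz : ∀ s, Enu P (kap k i₀) (G1 s) = 0) :
    ∑ y : P → Bool × (Option (Fin k) × Option (Fin k)),
      (∏ q : P, (rho (phiA W c) q (y q).1 * (rho (kap k i₀) q (y q).2.1 *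
        rho (kap k i₀) q (y q).2.2))) *
      (G1 (Finset.univ.filter (fun q : P => (y q).1 = true)).card (fun q => (y q).2.1) *
        G2 (Finset.univ.filter (fun q : P => (y q).1 = true)).card (fun q => (y q).2.2) / 4) = 0 := by
  classical
  rw [sum_arrow_prod]
  refine Finset.sum_eq_zero fun a _ => ?_
  rw [sum_arrow_prod (fun z : P → Option (Fin k) × Option (Fin k) =>
    (∏ q : P, (rho (phiA W c) q (a q) * (rho (kap k i₀) q (z q).1 *
        rho (kap k i₀) q (z q).2))) *
      (G1 (Finset.univ.filter (fun q : P => a q = true)).card (fun q => (z q).1) *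
        G2 (Finset.univ.filter (fun q : P => a q = true)).card (fun q => (z q).2) / 4))]
  set s := (Finset.univ.filter (fun q : P => a q = true)).card with hs
  have e : ∀ b c' : P → Option (Fin k),
      (∏ q : P, (rho (phiA W c) q (a q) * (rho (kap k i₀) q (b q) * rho (kap k i₀) q (c' q)))) *
      (G1 s (fun q => b q) * G2 s (fun q => c' q) / 4) =
      (∏ q : P, rho (phiA W c) q (a q)) / 4 *
        (((∏ q : P, rho (kap k i₀) q (b q)) * G1 s b) *
        ((∏ q : P, rho (kap k i₀) q (c' q)) * G2 s c')) := by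
    intro b c'
    rw [Finset.prod_mul_distrib, Finset.prod_mul_distrib]
    ring
  have e2 : ∑ b : P → Option (Fin k), ∑ c' : P → Option (Fin k),
      (∏ q : P, (rho (phiA W c) q (a q) * (rho (kap k i₀) q (b q) * rho (kap k i₀) q (c' q)))) *
      (G1 s (fun q => b q) * G2 s (fun q => c' q) / 4) =
      (∏ q : P, rho (phiA W c) q (a q)) / 4 *
        ((∑ b : P → Option (Fin k), (∏ q : P, rho (kap k i₀) q (b q)) * G1 s b) *
        (∑ c' : P → Option (Fin k), (∏ q : P, rho (kap k i₀) q (c' q)) * G2 s c')) := by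
    rw [Finset.sum_mul_sum, Finset.mul_sum]
    refine Finset.sum_congr rfl fun b _ => ?_
    rw [Finset.mul_sum]
    exact Finset.sum_congr rfl fun c' _ => e b c'
  have hz' : ∑ b : P → Option (Fin k), (∏ q : P, rho (kap k i₀) q (b q)) * G1 s b = 0 := hz s
  rw [hz', zero_mul, mul_zero] at e2
  exact e2

lemma class_corr (c E K : ℕ)
    (hP : ∀ q ∈ P, q.Prime ∧ ¬ q ∣ p ∧ ¬ q ∣ p' ∧ ¬ q ∣ W ∧ 2 * (k + 1) ^ 2 ≤ q ∧
      Nat.log 2 q ≤ E) (hE1 : 1 ≤ E) (hK : 2 ≤ K)
    (G1 G2 : ℕ → (P → Option (Fin k)) → ℝ) (h1 : ∀ s y, |G1 s y| ≤ 2) (h2 : ∀ s y, |G2 s y| ≤ 2)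
    (hz : ∀ s, Enu P (kap k i₀) (G1 s) = 0) :
    |∑ m ∈ Finset.range K,
      G1 (Sc P (c + W * m)) (fun q => kap k i₀ q (p * (c + W * m))) *
      G2 (Sc P (c + W * m)) (fun q => kap k i₀ q (p' * (c + W * m)))| ≤
      4 * K * (∑ q ∈ P, eta k i₀ p p' q + 2 * Ck (2 * k + 1) * E / Nat.log 2 K) := by
  classical
  have hK0 : (0 : ℝ) < K := by
    have : (2 : ℝ) ≤ K := by exact_mod_cast hK
    linarith
  have hkq : ∀ q ∈ P, k ≤ q := by
    intro q hq
    have h3 := (hP q hq).2.2.2.2.1
    have : k ≤ 2 * (k + 1) ^ 2 := by nlinarith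
    omega
  set φ : ℕ → ℕ → Bool × (Option (Fin k) × Option (Fin k)) := fun q m =>
    (phiA W c q m, (phiB k i₀ p W c q m, phiB k i₀ p' W c q m)) with hφ
  set H : (P → Bool × (Option (Fin k) × Option (Fin k))) → ℝ := fun y =>
    G1 (Finset.univ.filter (fun q : P => (y q).1 = true)).card (fun q => (y q).2.1) *
        G2 (Finset.univ.filter (fun q : P => (y q).1 = true)).card (fun q => (y q).2.2) / 4
    with hH
  have hH1 : ∀ y, |H y| ≤ 1 := by
    intro y
    simp only [hH]
    rw [abs_div, abs_mul, show |(4 : ℝ)| = 4 by norm_num, div_le_one (by norm_num)]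
    calc _ ≤ (2 : ℝ) * 2 := mul_le_mul (h1 _ _) (h2 _ _) (abs_nonneg _) (by norm_num)
      _ = 4 := by norm_num
  have hcardq : ∀ q ∈ P, ((Finset.range q).filter (fun r => φ q r ≠ (false, (none, none)))).card ≤
      2 * k + 1 := by
    intro q hq
    obtain ⟨hq1, hq2, hq3, hq4, hq5, hq6⟩ := hP q hq
    have hq0 : (0 : ℝ) < q := by exact_mod_cast hq1.pos
    have hA := pbad_phiA W c q hq1 hq4
    unfold pbad at hA
    rw [div_left_inj' hq0.ne'] at hA
    have hA' : ((Finset.range q).filter (fun r => phiA W c q r ≠ false)).card = 1 := by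
      exact_mod_cast hA
    have hBC := card_phiBC k i₀ p p' W c q hq1 hq2 hq3 hq4 (hkq q hq)
    have h3 : (Finset.range q).filter (fun r => φ q r ≠ (false, (none, none))) ⊆
        (Finset.range q).filter (fun r => phiA W c q r ≠ false) ∪
        (Finset.range q).filter (fun r =>
      ((phiB k i₀ p W c q r, phiB k i₀ p' W c q r) : Option (Fin k) × Option (Fin k)) ≠
        (none, none)) := by
      intro r hr
      rw [Finset.mem_filter] at hr
      rw [Finset.mem_union, Finset.mem_filter, Finset.mem_filter]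
      by_cases h4 : phiA W c q r = false
      · right
        refine ⟨hr.1, fun h5 => hr.2 ?_⟩
        simp only [hφ]
        rw [h4, h5]
      · left
        exact ⟨hr.1, h4⟩
    calc _ ≤ _ := Finset.card_le_card h3
      _ ≤ _ := Finset.card_union_le _ _
      _ ≤ 2 * k + 1 := by omega
  have hkub := kub_range (2 * k + 1) P (fun q hq => (hP q hq).1) φ (false, (none, none))
    (by
      intro q hq
      have h3 := (hP q hq).2.2.2.2.1
      have : 2 * k + 1 < 2 * (k + 1) ^ 2 := by nlinarith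
      omega)
    (by
      intro q hq
      have h3 := (hP q hq).2.2.2.2.1
      have : Fintype.card (Bool × (Option (Fin k) × Option (Fin k))) = 2 * (k + 1) ^ 2 := by
        simp only [Fintype.card_prod, Fintype.card_bool, Fintype.card_option, Fintype.card_fin]
        ring
      rw [this]
      exact h3)
    (by
      intro q hq m
      simp only [hφ]
      rw [← phiA_per, ← phiB_per, ← phiB_per]) hcardq E hE1
    (fun q hq => (hP q hq).2.2.2.2.2) K hK H hH1
  -- the sum in terms of H
  have e1 : ∀ m, H (fun q : P => φ q m) = G1 (Sc P (c + W * m))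
      (fun q => kap k i₀ q (p * (c + W * m))) *
      G2 (Sc P (c + W * m)) (fun q => kap k i₀ q (p' * (c + W * m))) / 4 := by
    intro m
    have e2 : (Finset.univ.filter (fun q : P => phiA W c q m = true)).card =
        Sc P (c + W * m) := by
      unfold Sc
      congr 1
      refine Finset.filter_congr fun q _ => ?_
      unfold phiA
      rw [decide_eq_true_iff]
    have e3 : ∀ p₁ : ℕ, (fun q : P => phiB k i₀ p₁ W c q m) =
        fun q : P => kap k i₀ q (p₁ * (c + W * m)) := by
      intro p₁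
      funext q
      unfold phiB
      congr 1
      ring
    simp only [hH, hφ]
    rw [e2, e3 p, e3 p']
  have e4 : ∑ m ∈ Finset.range K,
      G1 (Sc P (c + W * m)) (fun q => kap k i₀ q (p * (c + W * m))) *
      G2 (Sc P (c + W * m)) (fun q => kap k i₀ q (p' * (c + W * m))) =
      4 * K * ((∑ m ∈ Finset.range K, H (fun q : P => φ q m)) / K) := by
    rw [Finset.sum_congr rfl fun m _ => e1 m, ← Finset.sum_div]
    field_simp
  -- the model expectation
  have hten := tensor (ι := P) (fun (q : P) y => rho φ q y)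
    (fun (q : P) (y : Bool × (Option (Fin k) × Option (Fin k))) =>
      rho (phiA W c) q y.1 * (rho (kap k i₀) q y.2.1 * rho (kap k i₀) q y.2.2))
    (fun q y => rho_nonneg _ _ _)
    (fun q y => mul_nonneg (rho_nonneg _ _ _) (mul_nonneg (rho_nonneg _ _ _) (rho_nonneg _ _ _)))
    (fun q => rho_sum φ q (hP q q.2).1.pos)
    (fun q => by
      rw [Fintype.sum_prod_type]
      simp only
      rw [← Finset.sum_mul_sum, rho_sum (phiA W c) q (hP q q.2).1.pos, one_mul,
        Fintype.sum_prod_type]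
      simp only
      rw [← Finset.sum_mul_sum, rho_sum (kap k i₀) q (hP q q.2).1.pos, one_mul]) H 1 hH1
  have hpz := product_zero k i₀ P W c G1 G2 hz
  simp only [hH] at hten hpz
  rw [hpz, sub_zero, one_mul] at hten
  have hEnu : |Enu P φ H| ≤ ∑ q ∈ P, eta k i₀ p p' q := by
    refine le_trans hten ?_
    rw [← Finset.sum_coe_sort P]
    refine Finset.sum_le_sum fun q _ => ?_
    obtain ⟨hq1, hq2, hq3, hq4, hq5, hq6⟩ := hP q q.2
    exact local_l1 k i₀ p p' W c q hq1 hq2 hq3 hq4 (hkq q q.2)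
  rw [e4, abs_mul, abs_of_nonneg (show (0 : ℝ) ≤ 4 * K by positivity)]
  apply mul_le_mul_of_nonneg_left _ (by positivity)
  have e5 : (∑ m ∈ Finset.range K, H (fun q : P => φ q m)) / K =
      ((∑ m ∈ Finset.range K, H (fun q : P => φ q m)) / K - Enu P φ H) + Enu P φ H := by ring
  rw [e5]
  refine (abs_add_le _ _).trans ?_
  linarith

end

/-- Decomposition into residue classes. -/
lemma sum_classes (W M : ℕ) (hW : 1 ≤ W) (f : ℕ → ℝ) :
    ∑ m ∈ Finset.range (M + 1), f m =
      ∑ c ∈ Finset.range W, ∑ m ∈ Finset.range ((M + W - c) / W), f (c + W * m) := by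
  classical
  have h1 : ∀ m ∈ Finset.range (M + 1), m % W ∈ Finset.range W := by
    intro m _
    exact Finset.mem_range.mpr (Nat.mod_lt _ (by omega))
  rw [← Finset.sum_fiberwise_of_maps_to h1]
  refine Finset.sum_congr rfl fun c hc => ?_
  rw [Finset.mem_range] at hc
  symm
  apply Finset.sum_bij (fun m _ => c + W * m)
  · intro m hm
    rw [Finset.mem_range, Nat.lt_div_iff_mul_lt (by omega)] at hm
    rw [Finset.mem_filter, Finset.mem_range]
    constructor
    · have : m * W = W * m := mul_comm _ _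
      omega
    · rw [Nat.add_mul_mod_self_left, Nat.mod_eq_of_lt hc]
  · intro m _ m' _ h
    have : W * m = W * m' := by omega
    exact Nat.eq_of_mul_eq_mul_left (by omega) this
  · intro m hm
    rw [Finset.mem_filter, Finset.mem_range] at hm
    refine ⟨m / W, ?_, ?_⟩
    · rw [Finset.mem_range, Nat.lt_div_iff_mul_lt (by omega)]
      have h3 := Nat.div_add_mod m W
      rw [hm.2] at h3
      have : m / W * W = W * (m / W) := mul_comm _ _
      omega
    · have h3 := Nat.div_add_mod m W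
      rw [hm.2] at h3
      omega
  · intro m _
    rfl

section

variable (k : ℕ) (i₀ : Fin k) (P : Finset ℕ) (p p' W : ℕ)

/-- **Pair correlation.** -/
theorem pair_corr (E M K₀ : ℕ) (hW : 1 ≤ W)
    (hP : ∀ q ∈ P, q.Prime ∧ ¬ q ∣ p ∧ ¬ q ∣ p' ∧ ¬ q ∣ W ∧ 2 * (k + 1) ^ 2 ≤ q ∧
      Nat.log 2 q ≤ E) (hE1 : 1 ≤ E) (hK₀ : 2 ≤ K₀) (hKM : K₀ * W ≤ M + 1)
    (G : ℕ → ℕ → (P → Option (Fin k)) → ℝ) (h1 : ∀ s c y, |G s c y| ≤ 2)
    (hz : ∀ s c, Enu P (kap k i₀) (G s c) = 0) :
    |∑ m ∈ Finset.Icc 1 M,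
      G (Sc P m) ((p * m) % W) (fun q => kap k i₀ q (p * m)) *
      G (Sc P m) ((p' * m) % W) (fun q => kap k i₀ q (p' * m))| ≤
      4 * (M + 1) * (∑ q ∈ P, eta k i₀ p p' q + 2 * Ck (2 * k + 1) * E / Nat.log 2 K₀) + 4 := by
  classical
  set f : ℕ → ℝ := fun m => G (Sc P m) ((p * m) % W) (fun q => kap k i₀ q (p * m)) *
      G (Sc P m) ((p' * m) % W) (fun q => kap k i₀ q (p' * m)) with hf
  have hf0 : |f 0| ≤ 4 := by
    simp only [hf]
    rw [abs_mul]
    calc _ ≤ (2 : ℝ) * 2 := mul_le_mul (h1 _ _ _) (h1 _ _ _) (abs_nonneg _) (by norm_num)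
      _ = 4 := by norm_num
  have e1 : ∑ m ∈ Finset.range (M + 1), f m = f 0 + ∑ m ∈ Finset.Icc 1 M, f m := by
    rw [Finset.range_eq_Ico, Finset.sum_eq_sum_Ico_succ_bot (by omega)]
    rfl
  have hlogK : (1 : ℝ) ≤ Nat.log 2 K₀ := by
    have : 1 ≤ Nat.log 2 K₀ := Nat.log_pos one_lt_two hK₀
    exact_mod_cast this
  have hCk := Ck_pos (2 * k + 1)
  have hcl : ∀ c ∈ Finset.range W,
      |∑ m ∈ Finset.range ((M + W - c) / W), f (c + W * m)| ≤
      4 * (((M + W - c) / W : ℕ) : ℝ) * (∑ q ∈ P, eta k i₀ p p' q +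
        2 * Ck (2 * k + 1) * E / Nat.log 2 K₀) := by
    intro c hc
    rw [Finset.mem_range] at hc
    set K := (M + W - c) / W with hK
    have hKK₀ : K₀ ≤ K := by
      rw [hK, Nat.le_div_iff_mul_le (by omega)]
      omega
    have h3 := class_corr k i₀ P p p' W c E K hP hE1 (hK₀.trans hKK₀)
      (fun s => G s ((p * c) % W)) (fun s => G s ((p' * c) % W)) (fun s y => h1 _ _ _)
      (fun s y => h1 _ _ _) (fun s => hz _ _)
    have e2 : ∀ m, f (c + W * m) = G (Sc P (c + W * m)) ((p * c) % W)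
        (fun q => kap k i₀ q (p * (c + W * m))) * G (Sc P (c + W * m)) ((p' * c) % W)
        (fun q => kap k i₀ q (p' * (c + W * m))) := by
      intro m
      have e3 : ∀ p₁ : ℕ, (p₁ * (c + W * m)) % W = (p₁ * c) % W := by
        intro p₁
        have : p₁ * (c + W * m) = p₁ * c + W * (p₁ * m) := by ring
        rw [this, Nat.add_mul_mod_self_left]
      simp only [hf]
      rw [e3, e3]
    rw [Finset.sum_congr rfl fun m _ => e2 m]
    refine h3.trans ?_
    apply mul_le_mul_of_nonneg_left _ (by positivity)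
    apply add_le_add le_rfl
    apply div_le_div_of_nonneg_left (by positivity) (by linarith)
    exact_mod_cast Nat.log_mono_right hKK₀
  have e4 : ∑ m ∈ Finset.Icc 1 M, f m = ∑ m ∈ Finset.range (M + 1), f m - f 0 := by
    rw [e1]
    ring
  have hcount : ∑ c ∈ Finset.range W, (((M + W - c) / W : ℕ) : ℝ) = (M : ℝ) + 1 := by
    have h5 := sum_classes W M hW (fun _ => (1 : ℝ))
    simp only [Finset.sum_const, Finset.card_range, nsmul_eq_mul, mul_one] at h5
    rw [← h5]
    push_cast
    rfl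
  rw [e4]
  refine (abs_sub _ _).trans ?_
  have h6 : |∑ m ∈ Finset.range (M + 1), f m| ≤ 4 * (M + 1) * (∑ q ∈ P, eta k i₀ p p' q +
      2 * Ck (2 * k + 1) * E / Nat.log 2 K₀) := by
    rw [sum_classes W M hW]
    refine (Finset.abs_sum_le_sum_abs _ _).trans ((Finset.sum_le_sum hcl).trans (le_of_eq ?_))
    rw [← Finset.sum_mul, ← Finset.mul_sum, hcount]
  linarith

end

end Helper13.Om
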