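import Mathlib
import Pool.Agent.Helper13.Om.Pair3
import Pool.Agent.Helper13.Om.BT

set_option autoImplicit false
set_option linter.unusedSectionVars false

/-! The second moment over a dyadic shell of primes. -/

namespace Helper13.Om

open Finset

/-- the primes in a dyadic shell -/
def shell (e : ℕ) : Finset ℕ := (Finset.Ico (2 ^ e) (2 ^ (e + 1))).filter Nat.Prime

lemma mem_shell (e p : ℕ) : p ∈ shell e ↔ (2 ^ e ≤ p ∧ p < 2 ^ (e + 1)) ∧ p.Prime := by
  unfold shell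
  rw [Finset.mem_filter, Finset.mem_Ico]

lemma shell_card_le (e : ℕ) (he : 1 ≤ e) : ((shell e).card : ℝ) ≤ 4 * (2 ^ e / e) := by
  classical
  have h := shell_card (shell e) (fun q hq => ((mem_shell e q).mp hq).2) e he
  have h1 : (shell e).filter (fun q => Nat.log 2 q = e) = shell e := by
    rw [Finset.filter_eq_self]
    intro q hq
    have h2 := ((mem_shell e q).mp hq).1
    exact (Nat.log_eq_iff (Or.inl (by omega))).mpr ⟨h2.1, h2.2⟩
  rw [h1] at h
  calc _ ≤ _ := h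
    _ = _ := by ring

open Classical in
lemma bad_count (k : ℕ) (i₀ : Fin k) (e : ℕ) (he : 1 ≤ e) (q : ℕ) (hq : q.Prime)
    (hqe : 2 * Nat.log 2 q ≤ e) (hkq : k ≤ q) (p : ℕ) (hp : ¬ q ∣ p) :
    (((shell e).filter (fun p' => Bad k i₀ p p' q)).card : ℝ) ≤
      k ^ 2 * (Cbt * 2 ^ e / (q * e)) := by
  have hB0 : 0 ≤ Cbt * 2 ^ e / (q * e) := by
    have := Cbt_pos
    positivity
  set S : Fin k × Fin k → ℕ → Prop := fun ii p' => ∃ m, ii.1 ≠ i₀ ∧ ii.2 ≠ i₀ ∧
    (p * m + ii.1) % q = i₀ % q ∧ (p' * m + ii.2) % q = i₀ % q with hS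
  have h1 : (shell e).filter (fun p' => Bad k i₀ p p' q) ⊆
      (Finset.univ : Finset (Fin k × Fin k)).biUnion (fun ii => (shell e).filter (S ii)) := by
    intro p' hp'
    rw [Finset.mem_filter] at hp'
    obtain ⟨hp1, m, hm1, hm2⟩ := hp'
    obtain ⟨i, hi, hi'⟩ := (kap_ne_none k i₀ q _ hkq).mp hm1
    obtain ⟨j, hj, hj'⟩ := (kap_ne_none k i₀ q _ hkq).mp hm2
    rw [Finset.mem_biUnion]
    refine ⟨(i, j), Finset.mem_univ _, ?_⟩
    rw [Finset.mem_filter]
    exact ⟨hp1, m, hi, hj, hi', hj'⟩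
  have h2 : ∀ ii : Fin k × Fin k, (((shell e).filter (S ii)).card : ℝ) ≤
      Cbt * 2 ^ e / (q * e) := by
    intro ii
    rcases Finset.eq_empty_or_nonempty ((shell e).filter (S ii)) with he' | ⟨p₁, hp₁⟩
    · rw [he', Finset.card_empty]
      exact_mod_cast hB0
    · refine le_trans ?_ (brun_titchmarsh e he q hq hqe (p₁ % q))
      have h3 : (shell e).filter (S ii) ⊆ (Finset.Ico (2 ^ e) (2 ^ (e + 1))).filter
          (fun p => p.Prime ∧ p % q = p₁ % q) := by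
        intro p₂ hp₂
        rw [Finset.mem_filter] at hp₁ hp₂ ⊢
        obtain ⟨hs₂, m₂, hi, hj, e2, f2⟩ := hp₂
        obtain ⟨hs₁, m₁, _, _, e1, f1⟩ := hp₁
        have hs₂' := (mem_shell e p₂).mp hs₂
        refine ⟨Finset.mem_Ico.mpr hs₂'.1, hs₂'.2, ?_⟩
        have hc : Nat.gcd q p = 1 := (Nat.Prime.coprime_iff_not_dvd hq).mpr hp
        have g1 : p * m₁ + (ii.1 : ℕ) ≡ p * m₂ + (ii.1 : ℕ) [MOD q] := by
          show _ % q = _ % q
          rw [e1, e2]
        have g2 : m₁ ≡ m₂ [MOD q] :=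
          Nat.ModEq.cancel_left_of_coprime hc (Nat.ModEq.add_right_cancel' _ g1)
        have g3 : p₁ * m₁ + (ii.2 : ℕ) ≡ p₂ * m₂ + (ii.2 : ℕ) [MOD q] := by
          show _ % q = _ % q
          rw [f1, f2]
        have g4 : p₁ * m₁ ≡ p₂ * m₂ [MOD q] := Nat.ModEq.add_right_cancel' _ g3
        have g5 : p₂ * m₁ ≡ p₂ * m₂ [MOD q] := Nat.ModEq.mul_left _ g2
        have g6 : m₁ * p₁ ≡ m₁ * p₂ [MOD q] := by
          rw [mul_comm m₁ p₁, mul_comm m₁ p₂]
          exact g4.trans g5.symm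
        have hm : ¬ q ∣ m₁ := by
          intro hd
          obtain ⟨d, rfl⟩ := hd
          have e3 : p * (q * d) + (ii.1 : ℕ) = q * (p * d) + ii.1 := by ring
          rw [e3, Nat.mul_add_mod, Nat.mod_eq_of_lt (ii.1.2.trans_le hkq),
            Nat.mod_eq_of_lt (i₀.2.trans_le hkq)] at e1
          exact hi (Fin.ext e1)
        have hc' : Nat.gcd q m₁ = 1 := (Nat.Prime.coprime_iff_not_dvd hq).mpr hm
        have g7 : p₁ ≡ p₂ [MOD q] := Nat.ModEq.cancel_left_of_coprime hc' g6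
        exact g7.symm
      exact_mod_cast Finset.card_le_card h3
  have h3 : (((shell e).filter (fun p' => Bad k i₀ p p' q)).card : ℝ) ≤
      ∑ ii : Fin k × Fin k, (((shell e).filter (S ii)).card : ℝ) := by
    have := (Finset.card_le_card h1).trans Finset.card_biUnion_le
    exact_mod_cast this
  refine h3.trans ((Finset.sum_le_sum fun ii _ => h2 ii).trans (le_of_eq ?_))
  rw [Finset.sum_const, Finset.card_univ, Fintype.card_prod, Fintype.card_fin, nsmul_eq_mul]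
  push_cast
  ring

lemma sum_inv_sq_le (P : Finset ℕ) (u : ℕ) (hu : 1 ≤ u) (hP : ∀ q ∈ P, u < q) :
    (∑ q ∈ P, (1 : ℝ) / (q : ℝ) ^ 2) ≤ (1 : ℝ) / (u : ℝ) := by
  have hu0 : (0 : ℝ) < u := by exact_mod_cast hu
  obtain ⟨n, hn⟩ : ∃ n : ℕ, P ⊆ Finset.Ioc u (u + n) := by
    refine ⟨P.sup id, fun q hq => ?_⟩
    rw [Finset.mem_Ioc]
    have : q ≤ P.sup id := Finset.le_sup (f := id) hq
    exact ⟨hP q hq, by omega⟩
  refine (Finset.sum_le_sum_of_subset_of_nonneg hn (fun q _ _ => by positivity)).trans ?_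
  have h7 : ∀ n : ℕ, (∑ q ∈ Finset.Ioc u (u + n), (1 : ℝ) / (q : ℝ) ^ 2) ≤
      (1 : ℝ) / u - (1 : ℝ) / ((u + n : ℕ) : ℝ) := by
    intro n
    induction n with
    | zero => simp
    | succ n ih =>
      rw [← add_assoc, Finset.sum_Ioc_succ_top (by omega)]
      have hn0 : (0 : ℝ) < ((u + n : ℕ) : ℝ) := by
        push_cast
        positivity
      have : 1 / ((u + n + 1 : ℕ) : ℝ) ^ 2 ≤
          1 / ((u + n : ℕ) : ℝ) - 1 / ((u + n + 1 : ℕ) : ℝ) := by
        have e1 : ((u + n + 1 : ℕ) : ℝ) = ((u + n : ℕ) : ℝ) + 1 := by push_cast; ring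
        rw [e1, div_sub_div _ _ hn0.ne' (by positivity), div_le_div_iff₀ (by positivity)
          (by positivity)]
        nlinarith
      linarith
  refine (h7 n).trans ?_
  have : (0 : ℝ) ≤ (1 : ℝ) / ((u + n : ℕ) : ℝ) := by positivity
  linarith

/-- constant -/
noncomputable def C1 (k : ℕ) : ℝ := 192 * k ^ 2 + 16 * k ^ 3 * Cbt

lemma C1_nonneg (k : ℕ) : 0 ≤ C1 k := by
  unfold C1
  have := Cbt_pos
  positivity

lemma eta_sum (k : ℕ) (i₀ : Fin k) (P : Finset ℕ) (u : ℕ) (hu : 1 ≤ u) (e : ℕ) (he : 1 ≤ e)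
    (hP : ∀ q ∈ P, q.Prime ∧ u < q ∧ k ≤ q ∧ 2 * Nat.log 2 q ≤ e ∧ q < 2 ^ e) :
    ∑ p ∈ shell e, ∑ p' ∈ shell e, ∑ q ∈ P, eta k i₀ p p' q ≤
      (2 ^ e / e : ℝ) ^ 2 * (C1 k / u) := by
  classical
  have heR : (0 : ℝ) < e := by exact_mod_cast he
  have huR : (0 : ℝ) < u := by exact_mod_cast hu
  have hc := shell_card_le e he
  have hk0 : (0 : ℝ) ≤ k := Nat.cast_nonneg k
  have hCbt := Cbt_pos
  have hsq := sum_inv_sq_le P u hu (fun q hq => (hP q hq).2.1)
  have h1 : ∀ p ∈ shell e, ∑ p' ∈ shell e, ∑ q ∈ P, eta k i₀ p p' q ≤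
      (48 * k ^ 2 / u + 4 * k ^ 3 * Cbt / u) * (2 ^ e / e) := by
    intro p hp
    rw [Finset.sum_comm]
    have h2 : ∀ q ∈ P, ∑ p' ∈ shell e, eta k i₀ p p' q ≤
        (48 * k ^ 2 + 4 * k ^ 3 * Cbt) * (2 ^ e / e) * (1 / (q : ℝ) ^ 2) := by
      intro q hq
      obtain ⟨hq1, hq2, hq3, hq4, hq5⟩ := hP q hq
      have hq0 : (0 : ℝ) < q := by exact_mod_cast hq1.pos
      have hqp : ¬ q ∣ p := by
        intro hd
        have hp' := (mem_shell e p).mp hp
        have : q = p := (Nat.prime_dvd_prime_iff_eq hq1 hp'.2).mp hd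
        omega
      unfold eta
      rw [Finset.sum_add_distrib, Finset.sum_const, nsmul_eq_mul, ← Finset.sum_filter,
        Finset.sum_const, nsmul_eq_mul]
      have hb := bad_count k i₀ e he q hq1 hq4 hq3 p hqp
      have h3 : ((shell e).card : ℝ) * (12 * k ^ 2 / q ^ 2) ≤
          (4 * (2 ^ e / e)) * (12 * k ^ 2 / q ^ 2) := mul_le_mul_of_nonneg_right hc (by positivity)
      have h4 : (((shell e).filter (fun p' => Bad k i₀ p p' q)).card : ℝ) * (4 * (k / q : ℝ)) ≤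
          (k ^ 2 * (Cbt * 2 ^ e / (q * e))) * (4 * (k / q : ℝ)) :=
        mul_le_mul_of_nonneg_right hb (by positivity)
      have e5 : (48 * (k : ℝ) ^ 2 + 4 * k ^ 3 * Cbt) * (2 ^ e / e) * (1 / (q : ℝ) ^ 2) =
          (4 * (2 ^ e / e)) * (12 * k ^ 2 / q ^ 2) +
          (k ^ 2 * (Cbt * 2 ^ e / (q * e))) * (4 * (k / q : ℝ)) := by
        field_simp
        ring
      rw [e5]
      exact add_le_add h3 h4
    refine (Finset.sum_le_sum h2).trans ?_
    rw [← Finset.mul_sum]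
    calc (48 * (k : ℝ) ^ 2 + 4 * k ^ 3 * Cbt) * (2 ^ e / e) * ∑ q ∈ P, 1 / (q : ℝ) ^ 2
        ≤ (48 * (k : ℝ) ^ 2 + 4 * k ^ 3 * Cbt) * (2 ^ e / e) * (1 / u) :=
          mul_le_mul_of_nonneg_left hsq (by positivity)
      _ = _ := by ring
  refine (Finset.sum_le_sum h1).trans ?_
  rw [Finset.sum_const, nsmul_eq_mul]
  calc ((shell e).card : ℝ) * ((48 * k ^ 2 / u + 4 * k ^ 3 * Cbt / u) * (2 ^ e / e))
      ≤ (4 * (2 ^ e / e)) * ((48 * k ^ 2 / u + 4 * k ^ 3 * Cbt / u) * (2 ^ e / e)) :=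
        mul_le_mul_of_nonneg_right hc (by positivity)
    _ = (2 ^ e / e : ℝ) ^ 2 * (C1 k / u) := by
        unfold C1
        ring

/-- constant -/
noncomputable def C2 (k : ℕ) : ℝ := 2 + 512 * Ck (2 * k + 1) + 8 * C1 k

lemma C2_pos (k : ℕ) : 0 < C2 k := by
  unfold C2
  have := Ck_pos (2 * k + 1)
  have := C1_nonneg k
  positivity

/-- **Second moment over a shell.** -/
theorem shell_sq (k : ℕ) (i₀ : Fin k) (P : Finset ℕ) (u W E e N K₀ : ℕ) (hu : 1 ≤ u)
    (he : 1 ≤ e) (hW : 1 ≤ W)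
    (hP : ∀ q ∈ P, q.Prime ∧ u < q ∧ ¬ q ∣ W ∧ 2 * (k + 1) ^ 2 ≤ q ∧ Nat.log 2 q ≤ E ∧
      2 * Nat.log 2 q ≤ e ∧ q < 2 ^ e) (hE1 : 1 ≤ E) (hK₀ : 2 ≤ K₀)
    (hKN : K₀ * W ≤ N / 2 ^ (e + 1))
    (G : ℕ → ℕ → (P → Option (Fin k)) → ℝ) (h1 : ∀ s c y, |G s c y| ≤ 2)
    (hz : ∀ s c, Enu P (kap k i₀) (G s c) = 0)
    (hn1 : 16 * (e : ℝ) / 2 ^ e ≤ 1 / u) (hn2 : 64 / ((N / 2 ^ e : ℕ) : ℝ) ≤ 1 / u)
    (hn3 : (E : ℝ) / Nat.log 2 K₀ ≤ 2 / u) :
    ∑ m ∈ Finset.Icc 1 (N / 2 ^ e),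
      (∑ p ∈ (shell e).filter (fun p => p * m ≤ N),
        G (Sc P m) ((p * m) % W) (fun q => kap k i₀ q (p * m))) ^ 2 ≤
      ((N / 2 ^ e : ℕ) : ℝ) * (2 ^ e / e : ℝ) ^ 2 * (C2 k / u) := by
  classical
  set Me := N / 2 ^ e with hMe
  have heR : (0 : ℝ) < e := by exact_mod_cast he
  have huR : (0 : ℝ) < u := by exact_mod_cast hu
  have hMe1 : 1 ≤ Me := by
    have h2 : N / 2 ^ (e + 1) ≤ Me := by
      rw [hMe]
      exact Nat.div_le_div_left (Nat.pow_le_pow_right (by norm_num) (by omega)) (by positivity)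
    nlinarith
  have hMeR : (1 : ℝ) ≤ Me := by exact_mod_cast hMe1
  set g : ℕ → ℕ → ℝ := fun m p => G (Sc P m) ((p * m) % W) (fun q => kap k i₀ q (p * m)) with hg
  have hg2 : ∀ m p, |g m p| ≤ 2 := fun m p => h1 _ _ _
  have hgg : ∀ m p p', |g m p * g m p'| ≤ 4 := by
    intro m p p'
    rw [abs_mul]
    calc _ ≤ (2 : ℝ) * 2 := mul_le_mul (hg2 _ _) (hg2 _ _) (abs_nonneg _) (by norm_num)
      _ = 4 := by norm_num
  -- expand
  have e1 : ∑ m ∈ Finset.Icc 1 Me, (∑ p ∈ (shell e).filter (fun p => p * m ≤ N), g m p) ^ 2 =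
      ∑ p ∈ shell e, ∑ p' ∈ shell e,
        ∑ m ∈ (Finset.Icc 1 Me).filter (fun m => p * m ≤ N ∧ p' * m ≤ N), g m p * g m p' := by
    have e2 : ∀ m, (∑ p ∈ (shell e).filter (fun p => p * m ≤ N), g m p) ^ 2 =
        ∑ p ∈ shell e, ∑ p' ∈ shell e,
          if p * m ≤ N ∧ p' * m ≤ N then g m p * g m p' else 0 := by
      intro m
      rw [sq, Finset.sum_mul_sum, Finset.sum_filter]
      refine Finset.sum_congr rfl fun p _ => ?_
      split_ifs with h
      · rw [Finset.sum_filter]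
        refine Finset.sum_congr rfl fun p' _ => ?_
        by_cases h' : p' * m ≤ N
        · simp [h, h']
        · simp [h, h']
      · symm
        apply Finset.sum_eq_zero
        intro p' _
        rw [if_neg (fun hh => h hh.1)]
    rw [Finset.sum_congr rfl fun m _ => e2 m, Finset.sum_comm]
    refine Finset.sum_congr rfl fun p _ => ?_
    rw [Finset.sum_comm]
    refine Finset.sum_congr rfl fun p' _ => ?_
    rw [Finset.sum_filter]
  rw [e1]
  -- each pair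
  have hCk := Ck_pos (2 * k + 1)
  have hpair : ∀ p ∈ shell e, ∀ p' ∈ shell e,
      ∑ m ∈ (Finset.Icc 1 Me).filter (fun m => p * m ≤ N ∧ p' * m ≤ N), g m p * g m p' ≤
      (if p = p' then 4 * (Me : ℝ) else 0) + (8 * Me * (∑ q ∈ P, eta k i₀ p p' q) +
        8 * Me * (4 * Ck (2 * k + 1) / u) + 4) := by
    intro p hp p' hp'
    obtain ⟨⟨hp1, hp2⟩, hp3⟩ := (mem_shell e p).mp hp
    obtain ⟨⟨hp1', hp2'⟩, hp3'⟩ := (mem_shell e p').mp hp'
    have hη : 0 ≤ ∑ q ∈ P, eta k i₀ p p' q := Finset.sum_nonneg fun q _ => eta_nonneg k i₀ p p' q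
    have hnn : 0 ≤ 8 * (Me : ℝ) * (∑ q ∈ P, eta k i₀ p p' q) +
        8 * Me * (4 * Ck (2 * k + 1) / u) + 4 := by positivity
    by_cases hpp : p = p'
    · rw [if_pos hpp]
      have h2 : ∑ m ∈ (Finset.Icc 1 Me).filter (fun m => p * m ≤ N ∧ p' * m ≤ N),
          g m p * g m p' ≤ 4 * (Me : ℝ) := by
        have h3 : ∀ m ∈ (Finset.Icc 1 Me).filter (fun m => p * m ≤ N ∧ p' * m ≤ N),
            g m p * g m p' ≤ 4 := fun m _ => (le_abs_self _).trans (hgg m p p')
        refine (Finset.sum_le_card_nsmul _ _ _ h3).trans ?_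
        rw [nsmul_eq_mul, mul_comm]
        apply mul_le_mul_of_nonneg_left _ (by norm_num)
        have := Finset.card_filter_le (Finset.Icc 1 Me) (fun m => p * m ≤ N ∧ p' * m ≤ N)
        rw [Nat.card_Icc, Nat.add_sub_cancel] at this
        exact_mod_cast this
      linarith
    · rw [if_neg hpp, zero_add]
      set M := N / max p p' with hM
      have hmaxpos : 0 < max p p' := lt_max_of_lt_left hp3.pos
      have hset : (Finset.Icc 1 Me).filter (fun m => p * m ≤ N ∧ p' * m ≤ N) =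
          Finset.Icc 1 M := by
        ext m
        rw [Finset.mem_filter, Finset.mem_Icc, Finset.mem_Icc, hM,
          Nat.le_div_iff_mul_le hmaxpos]
        constructor
        · rintro ⟨⟨h3, _⟩, h4, h5⟩
          refine ⟨h3, ?_⟩
          rcases le_total p p' with h | h
          · rw [max_eq_right h, mul_comm]; exact h5
          · rw [max_eq_left h, mul_comm]; exact h4
        · rintro ⟨h3, h4⟩
          have h5 : p * m ≤ N := by
            calc p * m ≤ max p p' * m := Nat.mul_le_mul_right _ (le_max_left _ _)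
              _ = m * max p p' := mul_comm _ _
              _ ≤ N := h4
          have h6 : p' * m ≤ N := by
            calc p' * m ≤ max p p' * m := Nat.mul_le_mul_right _ (le_max_right _ _)
              _ = m * max p p' := mul_comm _ _
              _ ≤ N := h4
          refine ⟨⟨h3, ?_⟩, h5, h6⟩
          rw [hMe, Nat.le_div_iff_mul_le (by positivity), mul_comm]
          calc 2 ^ e * m ≤ p * m := Nat.mul_le_mul_right _ hp1
            _ ≤ N := h5
      rw [hset]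
      have hMMe : M ≤ Me := by
        rw [hM, hMe]
        apply Nat.div_le_div_left _ (by positivity)
        exact hp1.trans (le_max_left _ _)
      have hKM : K₀ * W ≤ M + 1 := by
        have h3 : N / 2 ^ (e + 1) ≤ M := by
          rw [hM]
          apply Nat.div_le_div_left _ hmaxpos
          exact (max_lt hp2 hp2').le
        omega
      have hndiv : ∀ q ∈ P, ∀ r : ℕ, r.Prime → 2 ^ e ≤ r → ¬ q ∣ r := by
        intro q hq r hr hr2 hd
        have h3 := (hP q hq).2.2.2.2.2.2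
        have : q = r := (Nat.prime_dvd_prime_iff_eq (hP q hq).1 hr).mp hd
        omega
      have h4 := pair_corr k i₀ P p p' W E M K₀ hW (by
        intro q hq
        obtain ⟨a1, a2, a3, a4, a5, a6, a7⟩ := hP q hq
        exact ⟨a1, hndiv q hq p hp3 hp1, hndiv q hq p' hp3' hp1', a3, a4, a5⟩) hE1 hK₀ hKM G h1 hz
      refine (le_abs_self _).trans (h4.trans ?_)
      have hMR : (M : ℝ) + 1 ≤ 2 * Me := by
        have : (M : ℝ) ≤ Me := by exact_mod_cast hMMe
        linarith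
      have h5 : 2 * Ck (2 * k + 1) * E / Nat.log 2 K₀ ≤ 4 * Ck (2 * k + 1) / u := by
        calc 2 * Ck (2 * k + 1) * E / Nat.log 2 K₀ =
              2 * Ck (2 * k + 1) * ((E : ℝ) / Nat.log 2 K₀) := by ring
          _ ≤ 2 * Ck (2 * k + 1) * (2 / u) := mul_le_mul_of_nonneg_left hn3 (by positivity)
          _ = 4 * Ck (2 * k + 1) / u := by ring
      have h6 : 0 ≤ ∑ q ∈ P, eta k i₀ p p' q + 4 * Ck (2 * k + 1) / u := by positivity
      calc 4 * ((M : ℝ) + 1) * (∑ q ∈ P, eta k i₀ p p' q +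
            2 * Ck (2 * k + 1) * E / Nat.log 2 K₀) + 4
          ≤ 4 * ((M : ℝ) + 1) * (∑ q ∈ P, eta k i₀ p p' q + 4 * Ck (2 * k + 1) / u) + 4 := by
            apply add_le_add _ le_rfl
            apply mul_le_mul_of_nonneg_left _ (by positivity)
            linarith
        _ ≤ 4 * (2 * Me) * (∑ q ∈ P, eta k i₀ p p' q + 4 * Ck (2 * k + 1) / u) + 4 := by
            apply add_le_add _ le_rfl
            apply mul_le_mul_of_nonneg_right _ h6
            linarith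
        _ = _ := by ring
  refine (Finset.sum_le_sum fun p hp => Finset.sum_le_sum fun p' hp' => hpair p hp p' hp').trans ?_
  -- sum up
  have hc := shell_card_le e he
  set X : ℝ := 2 ^ e / e with hX
  have hX0 : 0 < X := by positivity
  have hηs := eta_sum k i₀ P u hu e he (by
    intro q hq
    obtain ⟨a1, a2, a3, a4, a5, a6, a7⟩ := hP q hq
    refine ⟨a1, a2, ?_, a6, a7⟩
    have : k ≤ 2 * (k + 1) ^ 2 := by nlinarith
    omega)
  rw [← hX] at hηs
  have e3 : ∑ p ∈ shell e, ∑ p' ∈ shell e, ((if p = p' then 4 * (Me : ℝ) else 0) +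
      (8 * Me * (∑ q ∈ P, eta k i₀ p p' q) + 8 * Me * (4 * Ck (2 * k + 1) / u) + 4)) =
      (shell e).card * (4 * (Me : ℝ)) +
      8 * Me * (∑ p ∈ shell e, ∑ p' ∈ shell e, ∑ q ∈ P, eta k i₀ p p' q) +
      ((shell e).card : ℝ) ^ 2 * (8 * Me * (4 * Ck (2 * k + 1) / u) + 4) := by
    have e4 : ∀ p ∈ shell e, ∑ p' ∈ shell e, ((if p = p' then 4 * (Me : ℝ) else 0) +
        (8 * Me * (∑ q ∈ P, eta k i₀ p p' q) + 8 * Me * (4 * Ck (2 * k + 1) / u) + 4)) =
        4 * (Me : ℝ) + (8 * Me * (∑ p' ∈ shell e, ∑ q ∈ P, eta k i₀ p p' q) +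
        (shell e).card * (8 * Me * (4 * Ck (2 * k + 1) / u) + 4)) := by
      intro p hp
      rw [Finset.sum_add_distrib, Finset.sum_ite_eq, if_pos hp]
      congr 1
      have : ∀ p' ∈ shell e, 8 * (Me : ℝ) * (∑ q ∈ P, eta k i₀ p p' q) +
          8 * Me * (4 * Ck (2 * k + 1) / u) + 4 = 8 * Me * (∑ q ∈ P, eta k i₀ p p' q) +
          (8 * Me * (4 * Ck (2 * k + 1) / u) + 4) := by
        intro p' _
        ring
      rw [Finset.sum_congr rfl this, Finset.sum_add_distrib, ← Finset.mul_sum, Finset.sum_const,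
        nsmul_eq_mul]
    rw [Finset.sum_congr rfl e4, Finset.sum_add_distrib, Finset.sum_const, Finset.sum_add_distrib,
      Finset.sum_const, ← Finset.mul_sum, nsmul_eq_mul, nsmul_eq_mul]
    ring
  rw [e3]
  have hcard0 : (0 : ℝ) ≤ (shell e).card := Nat.cast_nonneg _
  have t1 : ((shell e).card : ℝ) * (4 * (Me : ℝ)) ≤ Me * X ^ 2 * (1 / u) := by
    have h2 : ((shell e).card : ℝ) * (4 * (Me : ℝ)) ≤ (4 * X) * (4 * Me) :=
      mul_le_mul_of_nonneg_right hc (by positivity)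
    have h3 : (4 * X) * (4 * Me) = Me * X ^ 2 * (16 * (e : ℝ) / 2 ^ e) := by
      rw [hX]
      field_simp
      ring
    rw [h3] at h2
    exact h2.trans (mul_le_mul_of_nonneg_left hn1 (by positivity))
  have t2 : 8 * (Me : ℝ) * (∑ p ∈ shell e, ∑ p' ∈ shell e, ∑ q ∈ P, eta k i₀ p p' q) ≤
      8 * Me * (X ^ 2 * (C1 k / u)) := mul_le_mul_of_nonneg_left hηs (by positivity)
  have t3 : ((shell e).card : ℝ) ^ 2 * (8 * Me * (4 * Ck (2 * k + 1) / u) + 4) ≤
      Me * X ^ 2 * (512 * Ck (2 * k + 1) / u + 1 / u) := by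
    have h2 : ((shell e).card : ℝ) ^ 2 ≤ (4 * X) ^ 2 := pow_le_pow_left₀ hcard0 hc 2
    have h3 : (4 : ℝ) ≤ Me * (1 / (16 * u)) := by
      rw [div_le_div_iff₀ (by linarith) huR] at hn2
      rw [mul_one_div, le_div_iff₀ (by positivity)]
      linarith
    calc ((shell e).card : ℝ) ^ 2 * (8 * Me * (4 * Ck (2 * k + 1) / u) + 4)
        ≤ (4 * X) ^ 2 * (8 * Me * (4 * Ck (2 * k + 1) / u) + Me * (1 / (16 * u))) := by
          apply mul_le_mul h2 _ (by positivity) (by positivity)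
          linarith
      _ = Me * X ^ 2 * (512 * Ck (2 * k + 1) / u + 1 / u) := by
          field_simp
          ring
  have e6 : (Me : ℝ) * X ^ 2 * (C2 k / u) = Me * X ^ 2 * (1 / u) + 8 * Me * (X ^ 2 * (C1 k / u)) +
      Me * X ^ 2 * (512 * Ck (2 * k + 1) / u + 1 / u) := by
    unfold C2
    field_simp
    ring
  rw [e6]
  linarith

end Helper13.Om
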