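import Mathlib
import Pool.Agent.Helper13.Om.Shell

set_option autoImplicit false
set_option linter.unusedSectionVars false

/-! Auxiliary prime sums. -/

namespace Helper13.Om

open Finset

lemma harm_upper (a s : ℕ) (ha : 1 ≤ a) :
    (∑ e ∈ Finset.Ico a (a * 2 ^ s), (1 : ℝ) / e) ≤ s := by
  induction s with
  | zero => simp
  | succ s ih =>
    have h1 : a ≤ a * 2 ^ s := Nat.le_mul_of_pos_right a (by positivity)
    have h20 : a * 2 ^ (s + 1) = 2 * (a * 2 ^ s) := by ring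
    have h2 : a * 2 ^ s ≤ a * 2 ^ (s + 1) := by omega
    rw [← Finset.sum_Ico_consecutive _ h1 h2]
    have h3 : ∀ e ∈ Finset.Ico (a * 2 ^ s) (a * 2 ^ (s + 1)), (1 : ℝ) / e ≤ 1 / (a * 2 ^ s : ℕ) := by
      intro e he
      rw [Finset.mem_Ico] at he
      apply one_div_le_one_div_of_le
      · have : 0 < a * 2 ^ s := by positivity
        exact_mod_cast this
      · exact_mod_cast he.1
    have h4 := Finset.sum_le_card_nsmul _ _ _ h3
    rw [Nat.card_Ico, nsmul_eq_mul] at h4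
    have h5 : a * 2 ^ (s + 1) - a * 2 ^ s = a * 2 ^ s := by omega
    rw [h5] at h4
    have h6 : ((a * 2 ^ s : ℕ) : ℝ) ≠ 0 := by
      have : a * 2 ^ s ≠ 0 := by positivity
      exact_mod_cast this
    rw [mul_one_div_cancel h6] at h4
    push_cast
    linarith

lemma harm_lower (a s : ℕ) (ha : 1 ≤ a) :
    (s : ℝ) / 2 ≤ ∑ e ∈ Finset.Ico a (a * 2 ^ s), (1 : ℝ) / e := by
  induction s with
  | zero => simp
  | succ s ih =>
    have h1 : a ≤ a * 2 ^ s := Nat.le_mul_of_pos_right a (by positivity)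
    have h20 : a * 2 ^ (s + 1) = 2 * (a * 2 ^ s) := by ring
    have h2 : a * 2 ^ s ≤ a * 2 ^ (s + 1) := by omega
    rw [← Finset.sum_Ico_consecutive _ h1 h2]
    have h3 : ∀ e ∈ Finset.Ico (a * 2 ^ s) (a * 2 ^ (s + 1)),
        (1 : ℝ) / (2 * (a * 2 ^ s : ℕ)) ≤ 1 / e := by
      intro e he
      rw [Finset.mem_Ico] at he
      apply one_div_le_one_div_of_le
      · have : 0 < a * 2 ^ s := by positivity
        have h4 : 0 < e := by omega
        exact_mod_cast h4
      · have h4 : e ≤ 2 * (a * 2 ^ s) := by omega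
        exact_mod_cast h4
    have h4 := Finset.card_nsmul_le_sum _ _ _ h3
    rw [Nat.card_Ico, nsmul_eq_mul] at h4
    have h5 : a * 2 ^ (s + 1) - a * 2 ^ s = a * 2 ^ s := by omega
    rw [h5] at h4
    have h6 : ((a * 2 ^ s : ℕ) : ℝ) ≠ 0 := by
      have : a * 2 ^ s ≠ 0 := by positivity
      exact_mod_cast this
    have h7 : ((a * 2 ^ s : ℕ) : ℝ) * (1 / (2 * (a * 2 ^ s : ℕ))) = 1 / 2 := by
      field_simp
    rw [h7] at h4
    push_cast at h4 ⊢
    linarith

lemma pow_ge_poly (e : ℕ) (he : 13 ≤ e) : 25 * (e + 2) ^ 2 ≤ 2 ^ e := by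
  induction e, he using Nat.le_induction with
  | base => norm_num
  | succ e he ih =>
    have h1 : (e + 1 + 2) ^ 2 ≤ 2 * (e + 2) ^ 2 := by nlinarith
    calc 25 * (e + 1 + 2) ^ 2 ≤ 25 * (2 * (e + 2) ^ 2) := Nat.mul_le_mul_left _ h1
      _ = 2 * (25 * (e + 2) ^ 2) := by ring
      _ ≤ 2 * 2 ^ e := Nat.mul_le_mul_left _ ih
      _ = 2 ^ (e + 1) := by rw [pow_succ]; ring

/-- reciprocal sum over a shell -/
noncomputable def Le (e : ℕ) : ℝ := ∑ p ∈ shell e, (1 : ℝ) / p

lemma Le_nonneg (e : ℕ) : 0 ≤ Le e := Finset.sum_nonneg fun p _ => by positivity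

lemma Le_ge_card (e : ℕ) : ((shell e).card : ℝ) / 2 ^ (e + 1) ≤ Le e := by
  unfold Le
  have h : ∀ p ∈ shell e, (1 : ℝ) / 2 ^ (e + 1) ≤ 1 / p := by
    intro p hp
    obtain ⟨⟨h1, h2⟩, h3⟩ := (mem_shell e p).mp hp
    apply one_div_le_one_div_of_le
    · exact_mod_cast h3.pos
    · exact_mod_cast h2.le
  have h4 := Finset.card_nsmul_le_sum _ _ _ h
  rw [nsmul_eq_mul] at h4
  calc _ = ((shell e).card : ℝ) * (1 / 2 ^ (e + 1)) := by ring
    _ ≤ _ := h4

lemma shell_pair_card (e : ℕ) (he : 13 ≤ e) :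
    (2 : ℝ) ^ e / (e + 2) ≤ (shell e).card + (shell (e + 1)).card := by
  classical
  have hlog2 : 0 < Real.log 2 := Real.log_pos one_lt_two
  have h1 := Chebyshev.theta_ge (2 ^ (e + 2))
  have h2 : Chebyshev.theta ((2 : ℝ) ^ e) ≤ Real.log 4 * (2 : ℝ) ^ e :=
    Chebyshev.theta_le_log4_mul_x (by positivity)
  have h4 : Real.log 4 = 2 * Real.log 2 := by
    rw [show (4 : ℝ) = 2 ^ 2 by norm_num, Real.log_pow]
    norm_num
  -- theta difference
  have h5 : Chebyshev.theta (((2 ^ (e + 2) : ℕ) : ℝ)) - Chebyshev.theta ((2 : ℝ) ^ e) ≤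
      ((shell e).card + (shell (e + 1)).card) * ((e + 2) * Real.log 2) := by
    rw [Chebyshev.theta_eq_sum_Icc, Chebyshev.theta_eq_sum_Icc]
    have hf1 : ⌊((2 ^ (e + 2) : ℕ) : ℝ)⌋₊ = 2 ^ (e + 2) := Nat.floor_natCast _
    have hf2 : ⌊(2 : ℝ) ^ e⌋₊ = 2 ^ e := by
      have : ((2 : ℝ) ^ e) = ((2 ^ e : ℕ) : ℝ) := by push_cast; rfl
      rw [this, Nat.floor_natCast]
    rw [hf1, hf2]
    have hsub : (Finset.Icc 0 (2 ^ (e + 2))).filter Nat.Prime ⊆
        (Finset.Icc 0 (2 ^ e)).filter Nat.Prime ∪ (shell e ∪ shell (e + 1)) := by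
      intro p hp
      rw [Finset.mem_filter, Finset.mem_Icc] at hp
      rw [Finset.mem_union, Finset.mem_union, Finset.mem_filter, Finset.mem_Icc, mem_shell,
        mem_shell]
      have hne : p ≠ 2 ^ (e + 2) := by
        intro h
        have h6 := hp.2
        rw [h] at h6
        exact (Nat.Prime.not_prime_pow (by omega)) h6
      rcases le_or_gt p (2 ^ e) with h | h
      · left
        exact ⟨⟨Nat.zero_le _, h⟩, hp.2⟩
      · right
        rcases lt_or_ge p (2 ^ (e + 1)) with h' | h'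
        · left
          exact ⟨⟨h.le, h'⟩, hp.2⟩
        · right
          refine ⟨⟨h', ?_⟩, hp.2⟩
          have := hp.1.2
          exact lt_of_le_of_ne this hne
    have h6 : ∑ p ∈ (Finset.Icc 0 (2 ^ (e + 2))).filter Nat.Prime, Real.log p ≤
        ∑ p ∈ (Finset.Icc 0 (2 ^ e)).filter Nat.Prime, Real.log p +
        ∑ p ∈ shell e ∪ shell (e + 1), Real.log p := by
      refine (Finset.sum_le_sum_of_subset_of_nonneg hsub
        (fun p _ _ => Real.log_natCast_nonneg p)).trans ?_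
      have := Finset.sum_union_inter (s₁ := (Finset.Icc 0 (2 ^ e)).filter Nat.Prime)
        (s₂ := shell e ∪ shell (e + 1)) (f := fun p : ℕ => Real.log p)
      have h7 : 0 ≤ ∑ p ∈ (Finset.Icc 0 (2 ^ e)).filter Nat.Prime ∩ (shell e ∪ shell (e + 1)),
          Real.log p := Finset.sum_nonneg fun p _ => Real.log_natCast_nonneg p
      linarith
    have h7 : ∑ p ∈ shell e ∪ shell (e + 1), Real.log p ≤
        ((shell e).card + (shell (e + 1)).card) * ((e + 2) * Real.log 2) := by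
      have h8 : ∀ p ∈ shell e ∪ shell (e + 1), Real.log p ≤ (e + 2) * Real.log 2 := by
        intro p hp
        have hlt : p < 2 ^ (e + 2) := by
          rw [Finset.mem_union, mem_shell, mem_shell] at hp
          rcases hp with hp | hp
          · have : 2 ^ (e + 1) ≤ 2 ^ (e + 2) := Nat.pow_le_pow_right (by norm_num) (by omega)
            omega
          · exact hp.1.2
        have hpos : 0 < p := by
          rw [Finset.mem_union, mem_shell, mem_shell] at hp
          rcases hp with hp | hp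
          · exact hp.2.pos
          · exact hp.2.pos
        have : Real.log p ≤ Real.log ((2 : ℝ) ^ (e + 2)) := by
          apply Real.log_le_log (by exact_mod_cast hpos)
          exact_mod_cast hlt.le
        rw [Real.log_pow] at this
        push_cast at this
        exact this
      refine (Finset.sum_le_card_nsmul _ _ _ h8).trans ?_
      rw [nsmul_eq_mul]
      apply mul_le_mul_of_nonneg_right _ (by positivity)
      exact_mod_cast Finset.card_union_le _ _
    linarith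
  -- numerics
  have hpoly : 25 * ((e : ℝ) + 2) ^ 2 ≤ 2 ^ e := by exact_mod_cast pow_ge_poly e he
  set h : ℝ := √((2 : ℝ) ^ e) with hh
  have hhsq : h ^ 2 = 2 ^ e := Real.sq_sqrt (by positivity)
  have hh0 : 0 ≤ h := Real.sqrt_nonneg _
  have hh5 : 5 * ((e : ℝ) + 2) ≤ h := by
    have h9 : (5 * ((e : ℝ) + 2)) ^ 2 ≤ h ^ 2 := by
      rw [hhsq]
      calc _ = 25 * ((e : ℝ) + 2) ^ 2 := by ring
        _ ≤ _ := hpoly
    exact le_of_sq_le_sq h9 hh0
  have hsqrt : √(((2 ^ (e + 2) : ℕ) : ℝ)) = 2 * h := by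
    have : (((2 ^ (e + 2) : ℕ) : ℝ)) = 2 ^ 2 * 2 ^ e := by
      push_cast
      rw [pow_add]
      ring
    rw [this, Real.sqrt_mul (by norm_num), Real.sqrt_sq (by norm_num)]
  have hlogn : Real.log (((2 ^ (e + 2) : ℕ) : ℝ)) = (e + 2) * Real.log 2 := by
    push_cast
    rw [Real.log_pow]
    push_cast
    ring
  have hlogn1 : Real.log (((2 ^ (e + 2) : ℕ) : ℝ) + 1) ≤ (e + 3) * Real.log 2 := by
    have : Real.log (((2 ^ (e + 2) : ℕ) : ℝ) + 1) ≤ Real.log ((2 : ℝ) ^ (e + 3)) := by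
      apply Real.log_le_log (by positivity)
      push_cast
      rw [pow_succ 2 (e + 2)]
      have : (1 : ℝ) ≤ 2 ^ (e + 2) := one_le_pow₀ (by norm_num)
      linarith
    rw [Real.log_pow] at this
    push_cast at this ⊢
    exact this
  rw [hsqrt, hlogn] at h1
  rw [h4] at h2
  have hpow2 : (((2 ^ (e + 2) : ℕ) : ℝ)) = 4 * h ^ 2 := by
    rw [hhsq]
    push_cast
    rw [pow_add]
    ring
  have h2' : Chebyshev.theta ((2 : ℝ) ^ e) ≤ 2 * Real.log 2 * h ^ 2 := by
    rw [hhsq]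
    exact h2
  rw [← hhsq]
  have h10 : (4 * h ^ 2 - (e + 3) - 4 * h * (e + 2) - 2 * h ^ 2) * Real.log 2 ≤
      ((shell e).card + (shell (e + 1)).card) * ((e + 2) * Real.log 2) := by
    have h11 : Real.log 2 * ((2 ^ (e + 2) : ℕ) : ℝ) = 4 * h ^ 2 * Real.log 2 := by
      rw [hpow2]
      ring
    have h12 := h5
    have h13 : (4 * h ^ 2 - (e + 3) - 4 * h * (e + 2) - 2 * h ^ 2) * Real.log 2 =
      4 * h ^ 2 * Real.log 2 - (e + 3) * Real.log 2 - 2 * (2 * h) * ((e + 2) * Real.log 2) -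
        2 * Real.log 2 * h ^ 2 := by ring
    rw [h13]
    linarith
  have h12 : (4 * h ^ 2 - (e + 3) - 4 * h * (e + 2) - 2 * h ^ 2) ≤
      ((shell e).card + (shell (e + 1)).card) * (e + 2) := by
    have h13 : (4 * h ^ 2 - (e + 3) - 4 * h * (e + 2) - 2 * h ^ 2) * Real.log 2 ≤
      ((shell e).card + (shell (e + 1)).card) * (e + 2) * Real.log 2 := by
      rw [mul_assoc (((shell e).card : ℝ) + (shell (e + 1)).card)]
      exact h10
    exact le_of_mul_le_mul_right h13 hlog2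
  have he0 : (0 : ℝ) ≤ e := Nat.cast_nonneg e
  rw [div_le_iff₀ (by positivity)]
  nlinarith

lemma Le_pair (e : ℕ) (he : 13 ≤ e) : 1 / (8 * (e : ℝ)) ≤ Le e + Le (e + 1) := by
  have h := shell_pair_card e he
  have h1 := Le_ge_card e
  have h2 := Le_ge_card (e + 1)
  have he0 : (13 : ℝ) ≤ e := by exact_mod_cast he
  have hp : (0 : ℝ) < 2 ^ e := by positivity
  have e1 : (2 : ℝ) ^ (e + 1) = 2 * 2 ^ e := by rw [pow_succ]; ring
  have e2 : (2 : ℝ) ^ (e + 1 + 1) = 4 * 2 ^ e := by rw [pow_succ, pow_succ]; ring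
  rw [e1] at h1
  rw [e2] at h2
  have hc0 : (0 : ℝ) ≤ (shell e).card := Nat.cast_nonneg _
  have h3 : ((shell e).card : ℝ) / (4 * 2 ^ e) ≤ ((shell e).card : ℝ) / (2 * 2 ^ e) := by
    apply div_le_div_of_nonneg_left hc0 (by positivity)
    linarith
  have h4 : ((shell e).card + (shell (e + 1)).card : ℝ) / (4 * 2 ^ e) ≤ Le e + Le (e + 1) := by
    rw [add_div]
    linarith
  refine le_trans ?_ h4
  have h5 : (2 : ℝ) ^ e / (e + 2) / (4 * 2 ^ e) ≤
      ((shell e).card + (shell (e + 1)).card : ℝ) / (4 * 2 ^ e) :=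
    div_le_div_of_nonneg_right h (by positivity)
  refine le_trans ?_ h5
  have e3 : (2 : ℝ) ^ e / (e + 2) / (4 * 2 ^ e) = 1 / (4 * (e + 2)) := by
    field_simp
  rw [e3]
  apply one_div_le_one_div_of_le (by positivity)
  linarith

/-- The reciprocal sum over a range of shells controls the harmonic sum. -/
lemma harm_le_L (a b : ℕ) (ha : 13 ≤ a) :
    (∑ e ∈ Finset.Ico a b, (1 : ℝ) / e) ≤ 16 * ∑ e ∈ Finset.Ico a (b + 1), Le e := by
  have h1 : ∀ e ∈ Finset.Ico a b, (1 : ℝ) / e ≤ 8 * Le e + 8 * Le (e + 1) := by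
    intro e he
    rw [Finset.mem_Ico] at he
    have h2 := Le_pair e (by omega)
    have he0 : (13 : ℝ) ≤ e := by
      have : 13 ≤ e := by omega
      exact_mod_cast this
    have h3 : (1 : ℝ) / e = 8 * (1 / (8 * (e : ℝ))) := by
      field_simp
    rw [h3]
    linarith
  refine (Finset.sum_le_sum h1).trans ?_
  rw [Finset.sum_add_distrib, ← Finset.mul_sum, ← Finset.mul_sum]
  have h2 : ∑ e ∈ Finset.Ico a b, Le e ≤ ∑ e ∈ Finset.Ico a (b + 1), Le e := by
    apply Finset.sum_le_sum_of_subset_of_nonneg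
    · exact Finset.Ico_subset_Ico_right (by omega)
    · intro e _ _
      exact Le_nonneg e
  have h3 : ∑ e ∈ Finset.Ico a b, Le (e + 1) ≤ ∑ e ∈ Finset.Ico a (b + 1), Le e := by
    rw [Finset.sum_Ico_add' (fun e => Le e) a b 1]
    apply Finset.sum_le_sum_of_subset_of_nonneg
    · exact Finset.Ico_subset_Ico_left (by omega)
    · intro e _ _
      exact Le_nonneg e
  linarith

end Helper13.Om
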