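import Mathlib
import Pool.Agent.Helper13.Om.Harm

set_option autoImplicit false
set_option linter.unusedSectionVars false

/-! The Turan-Kubilius inequality and the prime factors outside `P`. -/

namespace Helper13.Om

open Finset

lemma card_Icc_dvd (N d : ℕ) : ((Finset.Icc 1 N).filter (fun n => d ∣ n)).card = N / d := by
  have h := Nat.Ioc_filter_dvd_card_eq_div N d
  have h1 : Finset.Icc 1 N = Finset.Ioc 0 N := by
    ext x
    simp [Finset.mem_Icc, Finset.mem_Ioc]
    omega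
  rw [h1]
  exact h

lemma natdiv_le (N d : ℕ) : ((N / d : ℕ) : ℝ) ≤ N * (1 / d) := by
  have := @Nat.cast_div_le ℝ _ _ _ N d
  rw [mul_one_div]
  exact this

lemma natdiv_ge (N d : ℕ) : (N : ℝ) * (1 / d) - 1 ≤ ((N / d : ℕ) : ℝ) := by
  rw [mul_one_div]
  rcases Nat.eq_zero_or_pos d with rfl | hd
  · simp
  · have h := Nat.div_add_mod N d
    have h1 := Nat.mod_lt N hd
    have h2 : (N : ℝ) < d * ((N / d : ℕ) : ℝ) + d := by
      have : N < d * (N / d) + d := by omega
      exact_mod_cast this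
    have hd' : (0 : ℝ) < d := by exact_mod_cast hd
    rw [sub_le_iff_le_add, div_le_iff₀ hd']
    linarith

/-- number of primes of `Q` dividing `n` -/
def om (Q : Finset ℕ) (n : ℕ) : ℕ := (Q.filter (fun p => p ∣ n)).card

lemma om_cast (Q : Finset ℕ) (n : ℕ) : (om Q n : ℝ) = ∑ p ∈ Q, if p ∣ n then (1 : ℝ) else 0 := by
  unfold om
  rw [Finset.card_filter]
  push_cast
  rfl

theorem turan_kubilius (Q : Finset ℕ) (hQ : ∀ p ∈ Q, p.Prime) (N : ℕ) (hcard : Q.card ≤ N) :
    ∑ n ∈ Finset.Icc 1 N, ((om Q n : ℝ) - ∑ p ∈ Q, (1 : ℝ) / p) ^ 2 ≤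
      3 * (∑ p ∈ Q, (1 : ℝ) / p) * N := by
  classical
  set L : ℝ := ∑ p ∈ Q, (1 : ℝ) / p with hL
  have hL0 : 0 ≤ L := Finset.sum_nonneg fun p _ => by positivity
  have h1 : (N : ℝ) * L - Q.card ≤ ∑ n ∈ Finset.Icc 1 N, (om Q n : ℝ) := by
    have e1 : ∑ n ∈ Finset.Icc 1 N, (om Q n : ℝ) = ∑ p ∈ Q, ((N / p : ℕ) : ℝ) := by
      rw [Finset.sum_congr rfl fun n _ => om_cast Q n, Finset.sum_comm]
      refine Finset.sum_congr rfl fun p _ => ?_
      rw [← Finset.sum_filter, Finset.sum_const, card_Icc_dvd, nsmul_eq_mul, mul_one]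
    rw [e1]
    have h2 : ∑ p ∈ Q, ((N : ℝ) * (1 / p) - 1) ≤ ∑ p ∈ Q, ((N / p : ℕ) : ℝ) :=
      Finset.sum_le_sum fun p _ => natdiv_ge N p
    rw [Finset.sum_sub_distrib, ← Finset.mul_sum, Finset.sum_const, nsmul_eq_mul, mul_one] at h2
    exact h2
  have h2 : ∑ n ∈ Finset.Icc 1 N, (om Q n : ℝ) ^ 2 ≤ N * L ^ 2 + N * L := by
    have e1 : ∑ n ∈ Finset.Icc 1 N, (om Q n : ℝ) ^ 2 = ∑ p ∈ Q, ∑ q ∈ Q,
        (((Finset.Icc 1 N).filter (fun n => p ∣ n ∧ q ∣ n)).card : ℝ) := by
      have e2 : ∀ n, (om Q n : ℝ) ^ 2 = ∑ p ∈ Q, ∑ q ∈ Q,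
          if (p ∣ n ∧ q ∣ n) then (1 : ℝ) else 0 := by
        intro n
        rw [om_cast, sq, Finset.sum_mul_sum]
        refine Finset.sum_congr rfl fun p _ => Finset.sum_congr rfl fun q _ => ?_
        by_cases hp : p ∣ n <;> by_cases hq : q ∣ n <;> simp [hp, hq]
      rw [Finset.sum_congr rfl fun n _ => e2 n, Finset.sum_comm]
      refine Finset.sum_congr rfl fun p _ => ?_
      rw [Finset.sum_comm]
      refine Finset.sum_congr rfl fun q _ => ?_
      rw [← Finset.sum_filter, Finset.sum_const, nsmul_eq_mul, mul_one]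
    rw [e1]
    have h3 : ∀ p ∈ Q, ∑ q ∈ Q, (((Finset.Icc 1 N).filter (fun n => p ∣ n ∧ q ∣ n)).card : ℝ) ≤
        N * ((1 / p) * L) + N * (1 / p) := by
      intro p hp
      have h4 : ∀ q ∈ Q, (((Finset.Icc 1 N).filter (fun n => p ∣ n ∧ q ∣ n)).card : ℝ) ≤
          N * ((1 / p) * (1 / q)) + if p = q then (N : ℝ) * (1 / p) else 0 := by
        intro q hq
        by_cases hpq : p = q
        · rw [if_pos hpq, ← hpq]
          have h5 : (Finset.Icc 1 N).filter (fun n => p ∣ n ∧ p ∣ n) =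
              (Finset.Icc 1 N).filter (fun n => p ∣ n) := by
            refine Finset.filter_congr fun n _ => and_self_iff
          rw [h5, card_Icc_dvd]
          have := natdiv_le N p
          have h6 : 0 ≤ (N : ℝ) * ((1 / p) * (1 / p)) := by positivity
          linarith
        · rw [if_neg hpq, add_zero]
          have h5 : (Finset.Icc 1 N).filter (fun n => p ∣ n ∧ q ∣ n) =
              (Finset.Icc 1 N).filter (fun n => p * q ∣ n) := by
            refine Finset.filter_congr fun n _ => ?_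
            have hc : Nat.Coprime p q := (Nat.coprime_primes (hQ p hp) (hQ q hq)).mpr hpq
            exact ⟨fun h => hc.mul_dvd_of_dvd_of_dvd h.1 h.2,
              fun h => ⟨(dvd_mul_right p q).trans h, (dvd_mul_left q p).trans h⟩⟩
          rw [h5, card_Icc_dvd]
          have := natdiv_le N (p * q)
          push_cast at this
          rw [one_div_mul_one_div]
          exact this
      refine (Finset.sum_le_sum h4).trans (le_of_eq ?_)
      rw [Finset.sum_add_distrib, Finset.sum_ite_eq, if_pos hp, ← Finset.mul_sum, ← Finset.mul_sum]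
    refine (Finset.sum_le_sum h3).trans (le_of_eq ?_)
    rw [Finset.sum_add_distrib, ← Finset.mul_sum, ← Finset.mul_sum, ← Finset.sum_mul]
    ring
  have e3 : ∑ n ∈ Finset.Icc 1 N, ((om Q n : ℝ) - L) ^ 2 =
      ∑ n ∈ Finset.Icc 1 N, (om Q n : ℝ) ^ 2 - 2 * L * (∑ n ∈ Finset.Icc 1 N, (om Q n : ℝ)) +
        N * L ^ 2 := by
    have : ∀ n ∈ Finset.Icc 1 N, ((om Q n : ℝ) - L) ^ 2 =
        (om Q n : ℝ) ^ 2 - 2 * L * (om Q n) + L ^ 2 := fun n _ => by ring
    rw [Finset.sum_congr rfl this, Finset.sum_add_distrib, Finset.sum_sub_distrib,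
      ← Finset.mul_sum, Finset.sum_const, Nat.card_Icc, Nat.add_sub_cancel, nsmul_eq_mul]
  rw [e3]
  have h4 : (Q.card : ℝ) ≤ N := by exact_mod_cast hcard
  nlinarith

/-- absolute first moment -/
theorem tk_abs (Q : Finset ℕ) (hQ : ∀ p ∈ Q, p.Prime) (N : ℕ) (hcard : Q.card ≤ N) :
    ∑ n ∈ Finset.Icc 1 N, |(om Q n : ℝ) - ∑ p ∈ Q, (1 : ℝ) / p| ≤
      √(3 * ∑ p ∈ Q, (1 : ℝ) / p) * N := by
  have h := turan_kubilius Q hQ N hcard
  set L : ℝ := ∑ p ∈ Q, (1 : ℝ) / p with hL
  have hL0 : 0 ≤ L := Finset.sum_nonneg fun p _ => by positivity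
  have h1 := Finset.sum_mul_sq_le_sq_mul_sq (Finset.Icc 1 N) (fun n => |(om Q n : ℝ) - L|)
    (fun _ => (1 : ℝ))
  simp only [mul_one, one_pow, sq_abs, Finset.sum_const, Nat.card_Icc, Nat.add_sub_cancel,
    nsmul_eq_mul] at h1
  have h2 : (∑ n ∈ Finset.Icc 1 N, |(om Q n : ℝ) - L|) ^ 2 ≤ (√(3 * L) * N) ^ 2 := by
    rw [mul_pow, Real.sq_sqrt (by positivity)]
    calc _ ≤ (∑ n ∈ Finset.Icc 1 N, ((om Q n : ℝ) - L) ^ 2) * N := h1
      _ ≤ (3 * L * N) * N := mul_le_mul_of_nonneg_right h (Nat.cast_nonneg _)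
      _ = 3 * L * N ^ 2 := by ring
  exact le_of_sq_le_sq h2 (by positivity)

lemma geom_le (x : ℝ) (hx0 : 0 ≤ x) (hx : x ≤ 1 / 2) (a n : ℕ) :
    ∑ i ∈ Finset.Ico a n, x ^ i ≤ 2 * x ^ a := by
  rcases le_or_gt n a with h | h
  · rw [Finset.Ico_eq_empty (by omega), Finset.sum_empty]
    positivity
  · have h1 : ∀ m, ∑ i ∈ Finset.Ico a (a + m), x ^ i ≤ 2 * x ^ a - x ^ (a + m) := by
      intro m
      induction m with
      | zero =>
        rw [add_zero, Finset.Ico_self, Finset.sum_empty]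
        have : 0 ≤ x ^ a := by positivity
        linarith
      | succ m ih =>
        rw [← add_assoc, Finset.sum_Ico_succ_top (by omega)]
        have h2 : 0 ≤ x ^ (a + m) := by positivity
        have h3 : x ^ (a + m + 1) ≤ x ^ (a + m) * (1 / 2) := by
          rw [pow_succ]
          exact mul_le_mul_of_nonneg_left hx h2
        -- need sum + x^(a+m) ≤ 2 x^a - x^(a+m+1)
        have h4 : ∑ i ∈ Finset.Ico a (a + m), x ^ i ≤ 2 * x ^ a - 2 * x ^ (a + m) := by
          clear ih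
          induction m with
          | zero => simp
          | succ m ih2 =>
            rw [← add_assoc, Finset.sum_Ico_succ_top (by omega)]
            have h2' : 0 ≤ x ^ (a + m) := by positivity
            have h3' : x ^ (a + m + 1) ≤ x ^ (a + m) * (1 / 2) := by
              rw [pow_succ]
              exact mul_le_mul_of_nonneg_left hx h2'
            have := ih2 h2' h3'
            linarith
        linarith
    obtain ⟨m, rfl⟩ : ∃ m, n = a + m := ⟨n - a, by omega⟩
    have := h1 m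
    have h2 : 0 ≤ x ^ (a + m) := by positivity
    linarith

/-- average of `v_p` -/
lemma sum_fact_le (p : ℕ) (hp : p.Prime) (M : ℕ) :
    ∑ m ∈ Finset.Icc 1 M, (m.factorization p : ℝ) ≤ M * (2 * (1 / p)) := by
  classical
  have h1 : ∀ m ∈ Finset.Icc 1 M, (m.factorization p : ℝ) ≤
      ∑ i ∈ Finset.Ico 1 (M + 1), if p ^ i ∣ m then (1 : ℝ) else 0 := by
    intro m hm
    rw [Finset.mem_Icc] at hm
    rw [Nat.factorization_eq_card_pow_dvd m hp, Finset.card_filter]
    push_cast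
    apply Finset.sum_le_sum_of_subset_of_nonneg
    · exact Finset.Ico_subset_Ico_right (by omega)
    · intro i _ _
      split_ifs <;> norm_num
  refine (Finset.sum_le_sum h1).trans ?_
  rw [Finset.sum_comm]
  have h2 : ∀ i ∈ Finset.Ico 1 (M + 1), (∑ m ∈ Finset.Icc 1 M, if p ^ i ∣ m then (1 : ℝ) else 0) ≤
      M * (1 / p : ℝ) ^ i := by
    intro i _
    rw [← Finset.sum_filter, Finset.sum_const, card_Icc_dvd, nsmul_eq_mul, mul_one]
    have := natdiv_le M (p ^ i)
    push_cast at this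
    rw [one_div_pow]
    exact this
  refine (Finset.sum_le_sum h2).trans ?_
  rw [← Finset.mul_sum]
  apply mul_le_mul_of_nonneg_left _ (Nat.cast_nonneg _)
  have hp2 : (2 : ℝ) ≤ p := by exact_mod_cast hp.two_le
  have h3 := geom_le (1 / p : ℝ) (by positivity) (by
    apply one_div_le_one_div_of_le (by norm_num) hp2) 1 (M + 1)
  rw [pow_one] at h3
  exact h3

/-- average of `v_p - 1_{p|}` -/
lemma sum_fact_sub_le (p : ℕ) (hp : p.Prime) (M : ℕ) :
    ∑ m ∈ Finset.Icc 1 M, ((m.factorization p : ℝ) - if p ∣ m then (1 : ℝ) else 0) ≤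
      M * (2 * (1 / (p : ℝ) ^ 2)) := by
  classical
  have h1 : ∀ m ∈ Finset.Icc 1 M, ((m.factorization p : ℝ) - if p ∣ m then (1 : ℝ) else 0) ≤
      ∑ i ∈ Finset.Ico 2 (M + 2), if p ^ i ∣ m then (1 : ℝ) else 0 := by
    intro m hm
    rw [Finset.mem_Icc] at hm
    have h2 : (m.factorization p : ℝ) ≤
      ∑ i ∈ Finset.Ico 1 (M + 2), if p ^ i ∣ m then (1 : ℝ) else 0 := by
      rw [Nat.factorization_eq_card_pow_dvd m hp, Finset.card_filter]
      push_cast
      apply Finset.sum_le_sum_of_subset_of_nonneg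
      · exact Finset.Ico_subset_Ico_right (by omega)
      · intro i _ _
        split_ifs <;> norm_num
    rw [Finset.sum_eq_sum_Ico_succ_bot (by omega)] at h2
    rw [pow_one] at h2
    have e1 : 1 + 1 = 2 := rfl
    rw [e1] at h2
    linarith
  refine (Finset.sum_le_sum h1).trans ?_
  rw [Finset.sum_comm]
  have h2 : ∀ i ∈ Finset.Ico 2 (M + 2), (∑ m ∈ Finset.Icc 1 M, if p ^ i ∣ m then (1 : ℝ) else 0) ≤
      M * (1 / p : ℝ) ^ i := by
    intro i _
    rw [← Finset.sum_filter, Finset.sum_const, card_Icc_dvd, nsmul_eq_mul, mul_one]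
    have := natdiv_le M (p ^ i)
    push_cast at this
    rw [one_div_pow]
    exact this
  refine (Finset.sum_le_sum h2).trans ?_
  rw [← Finset.mul_sum]
  apply mul_le_mul_of_nonneg_left _ (Nat.cast_nonneg _)
  have hp2 : (2 : ℝ) ≤ p := by exact_mod_cast hp.two_le
  have h3 := geom_le (1 / p : ℝ) (by positivity) (by
    apply one_div_le_one_div_of_le (by norm_num) hp2) 2 (M + 2)
  rw [one_div_pow] at h3
  exact h3

lemma Sc_eq_om (P : Finset ℕ) (n : ℕ) : Sc P n = om P n := by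
  classical
  unfold Sc om
  rw [Finset.univ_eq_attach]
  rw [Finset.filter_attach (fun q => q ∣ n) P, Finset.card_map, Finset.card_attach]

lemma Omega_eq_sum (N m : ℕ) (hm1 : 1 ≤ m) (hmN : m ≤ N) :
    ArithmeticFunction.cardFactors m =
      ∑ p ∈ (Finset.range (N + 1)).filter Nat.Prime, m.factorization p := by
  rw [ArithmeticFunction.cardFactors_eq_sum_factorization, Finsupp.sum]
  apply Finset.sum_subset
  · intro p hp
    rw [Nat.support_factorization, Nat.mem_primeFactors] at hp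
    rw [Finset.mem_filter, Finset.mem_range]
    exact ⟨by have := Nat.le_of_dvd (by omega) hp.2.1; omega, hp.1⟩
  · intro p _ hp
    exact Finsupp.notMem_support_iff.mp hp

/-- The prime factors outside `P` (and repeated ones). -/
theorem sum_rem_le (P : Finset ℕ) (N M : ℕ) (hMN : M ≤ N)
    (hP : P ⊆ (Finset.range (N + 1)).filter Nat.Prime) (T B : ℝ)
    (hT : ∑ p ∈ (Finset.range (N + 1)).filter Nat.Prime \ P, (1 : ℝ) / p ≤ T)
    (hB : ∑ p ∈ P, (1 : ℝ) / (p : ℝ) ^ 2 ≤ B) :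
    ∑ m ∈ Finset.Icc 1 M, ((ArithmeticFunction.cardFactors m : ℝ) - Sc P m) ≤
      M * (2 * T + 2 * B) := by
  classical
  set A := (Finset.range (N + 1)).filter Nat.Prime with hA
  have h1 : ∀ m ∈ Finset.Icc 1 M, ((ArithmeticFunction.cardFactors m : ℝ) - Sc P m) =
      ∑ p ∈ A \ P, (m.factorization p : ℝ) +
      ∑ p ∈ P, ((m.factorization p : ℝ) - if p ∣ m then (1 : ℝ) else 0) := by
    intro m hm
    rw [Finset.mem_Icc] at hm
    rw [Omega_eq_sum N m hm.1 (by omega), Sc_eq_om, om_cast, Finset.sum_sub_distrib,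
      ← Finset.sum_sdiff hP]
    push_cast
    ring
  rw [Finset.sum_congr rfl h1, Finset.sum_add_distrib, Finset.sum_comm,
    Finset.sum_comm (s := Finset.Icc 1 M) (t := P)]
  have h2 : ∑ p ∈ A \ P, ∑ m ∈ Finset.Icc 1 M, (m.factorization p : ℝ) ≤ M * (2 * T) := by
    have h3 : ∀ p ∈ A \ P, ∑ m ∈ Finset.Icc 1 M, (m.factorization p : ℝ) ≤
        M * (2 * (1 / p)) := by
      intro p hp
      rw [Finset.mem_sdiff, hA, Finset.mem_filter] at hp
      exact sum_fact_le p hp.1.2 M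
    refine (Finset.sum_le_sum h3).trans ?_
    rw [← Finset.mul_sum, ← Finset.mul_sum]
    apply mul_le_mul_of_nonneg_left _ (Nat.cast_nonneg _)
    linarith
  have h3 : ∑ p ∈ P, ∑ m ∈ Finset.Icc 1 M, ((m.factorization p : ℝ) - if p ∣ m then (1 : ℝ) else 0)
      ≤ M * (2 * B) := by
    have h4 : ∀ p ∈ P, ∑ m ∈ Finset.Icc 1 M,
        ((m.factorization p : ℝ) - if p ∣ m then (1 : ℝ) else 0) ≤
        M * (2 * (1 / (p : ℝ) ^ 2)) := by
      intro p hp
      have := hP hp
      rw [hA, Finset.mem_filter] at this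
      exact sum_fact_sub_le p this.2 M
    refine (Finset.sum_le_sum h4).trans ?_
    rw [← Finset.mul_sum, ← Finset.mul_sum]
    apply mul_le_mul_of_nonneg_left _ (Nat.cast_nonneg _)
    linarith
  linarith

lemma Sc_le_Omega (P : Finset ℕ) (hP : ∀ q ∈ P, q.Prime) (m : ℕ) (hm : m ≠ 0) :
    Sc P m ≤ ArithmeticFunction.cardFactors m := by
  rw [Sc_eq_om]
  unfold om
  refine le_trans (Finset.card_le_card (t := m.primeFactors) ?_) ?_
  · intro q hq
    rw [Finset.mem_filter] at hq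
    rw [Nat.mem_primeFactors]
    exact ⟨hP q hq.1, hq.2, hm⟩
  · rw [ArithmeticFunction.cardFactors_apply]
    exact List.toFinset_card_le _

end Helper13.Om
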