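import Mathlib
import Pool.Agent.Helper13.Om.TK

set_option autoImplicit false
set_option linter.unusedSectionVars false

/-! The prime set, and the contribution of the other primes. -/

namespace Helper13.Om

open Finset

/-- the primes `q > u` with `q ^ u ≤ N` -/
def Pu (u N : ℕ) : Finset ℕ :=
  (Finset.range (N + 1)).filter (fun q => q.Prime ∧ u < q ∧ q ^ u ≤ N)

lemma mem_Pu (u N q : ℕ) (hu : 1 ≤ u) : q ∈ Pu u N ↔ q.Prime ∧ u < q ∧ q ^ u ≤ N := by
  unfold Pu
  rw [Finset.mem_filter, Finset.mem_range]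
  constructor
  · exact fun h => h.2
  · intro h
    refine ⟨?_, h⟩
    have : q ≤ q ^ u := Nat.le_self_pow (by omega) q
    have := h.2.2
    omega

lemma Pu_sub (u N : ℕ) : Pu u N ⊆ (Finset.range (N + 1)).filter Nat.Prime := by
  intro q hq
  unfold Pu at hq
  rw [Finset.mem_filter] at hq ⊢
  exact ⟨hq.1, hq.2.1⟩

lemma log2_Pu (u N q : ℕ) (hu : 1 ≤ u) (hq : q ∈ Pu u N) : Nat.log 2 q ≤ Nat.log 2 N / u := by
  rw [mem_Pu u N q hu] at hq
  rw [Nat.le_div_iff_mul_le (by omega)]
  apply Nat.le_log_of_pow_le one_lt_two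
  calc 2 ^ (Nat.log 2 q * u) = (2 ^ Nat.log 2 q) ^ u := by rw [pow_mul]
    _ ≤ q ^ u := Nat.pow_le_pow_left (pow_log2_le hq.1) u
    _ ≤ N := hq.2.2

theorem T_bound (u N : ℕ) (hu : 1 ≤ u) (hE : 1 ≤ Nat.log 2 N / u) :
    ∑ p ∈ (Finset.range (N + 1)).filter Nat.Prime \ Pu u N, (1 : ℝ) / p ≤
      8 * Nat.log 2 u + 8 := by
  classical
  set l := Nat.log 2 u with hl
  set A := Nat.log 2 N with hA
  set E := A / u with hEdef
  have hN : N ≠ 0 := by
    rintro rfl
    simp [hEdef, hA] at hE
  set T1 := (Finset.range (u + 1)).filter Nat.Prime with hT1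
  set T2 := (Finset.range (N + 1)).filter (fun p => p.Prime ∧ N < p ^ u) with hT2
  have hsub : (Finset.range (N + 1)).filter Nat.Prime \ Pu u N ⊆ T1 ∪ T2 := by
    intro p hp
    rw [Finset.mem_sdiff, Finset.mem_filter, mem_Pu u N p hu] at hp
    rw [Finset.mem_union, hT1, hT2, Finset.mem_filter, Finset.mem_filter, Finset.mem_range]
    obtain ⟨⟨h1, h2⟩, h3⟩ := hp
    rcases le_or_gt p u with h | h
    · left
      exact ⟨by omega, h2⟩
    · right
      refine ⟨h1, h2, ?_⟩
      by_contra h4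
      exact h3 ⟨h2, h, by omega⟩
  have hs1 : ∑ p ∈ T1, (1 : ℝ) / p ≤ 4 * l := by
    have h1 := shell_sum T1 (fun q hq => (Finset.mem_filter.mp hq).2) (Finset.Icc 1 l)
      (by
        intro q hq
        rw [hT1, Finset.mem_filter, Finset.mem_range] at hq
        rw [Finset.mem_Icc]
        exact ⟨log2_pos_of_prime hq.2, Nat.log_mono_right (by omega)⟩)
      (fun _ => 1) (fun _ => zero_le_one)
    simp only [one_mul] at h1
    refine h1.trans ?_
    have h2 : ∀ e ∈ Finset.Icc 1 l, (4 : ℝ) / e ≤ 4 := by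
      intro e he
      rw [Finset.mem_Icc] at he
      have : (1 : ℝ) ≤ e := by exact_mod_cast he.1
      exact div_le_self (by norm_num) this
    refine (Finset.sum_le_card_nsmul _ _ _ h2).trans ?_
    rw [nsmul_eq_mul, Nat.card_Icc, Nat.add_sub_cancel]
    linarith
  have hs2 : ∑ p ∈ T2, (1 : ℝ) / p ≤ 4 * (l + 2) := by
    have h1 := shell_sum T2 (fun q hq => (Finset.mem_filter.mp hq).2.1)
      (Finset.Ico E (E * 2 ^ (l + 2)))
      (by
        intro q hq
        rw [hT2, Finset.mem_filter, Finset.mem_range] at hq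
        obtain ⟨h2, h3, h4⟩ := hq
        rw [Finset.mem_Ico]
        have hAlt : A < u * (Nat.log 2 q + 1) := by
          have h5 : 2 ^ A < 2 ^ (u * (Nat.log 2 q + 1)) := by
            calc 2 ^ A ≤ N := Nat.pow_log_le_self 2 hN
              _ < q ^ u := h4
              _ ≤ (2 ^ (Nat.log 2 q + 1)) ^ u := Nat.pow_le_pow_left (lt_pow_log2 q).le u
              _ = 2 ^ (u * (Nat.log 2 q + 1)) := by rw [← pow_mul, mul_comm]
          exact (Nat.pow_lt_pow_iff_right (by norm_num)).mp h5
        have hEA : u * E ≤ A := Nat.mul_div_le A u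
        have hA2 : A < u * (E + 1) := by
          have := Nat.lt_mul_div_succ A (by omega : 0 < u)
          exact this
        refine ⟨?_, ?_⟩
        · have h5 : u * E < u * (Nat.log 2 q + 1) := lt_of_le_of_lt hEA hAlt
          have h6 := Nat.lt_of_mul_lt_mul_left h5
          omega
        · have h5 : Nat.log 2 q ≤ A := Nat.log_mono_right (by omega)
          have h6 : u + 1 ≤ 2 ^ (l + 1) := by
            have := Nat.lt_pow_succ_log_self (b := 2) (by norm_num) u
            exact this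
          have h7 : 2 ^ (l + 2) = 2 * 2 ^ (l + 1) := by rw [pow_succ 2 (l + 1)]; ring
          rw [h7]
          calc Nat.log 2 q ≤ A := h5
            _ < u * (E + 1) := hA2
            _ ≤ E * (2 * (u + 1)) := by nlinarith
            _ ≤ E * (2 * 2 ^ (l + 1)) := by
                apply Nat.mul_le_mul_left
                apply Nat.mul_le_mul_left
                exact h6)
      (fun _ => 1) (fun _ => zero_le_one)
    simp only [one_mul] at h1
    refine h1.trans ?_
    have h2 := harm_upper E (l + 2) hE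
    have h3 : ∑ e ∈ Finset.Ico E (E * 2 ^ (l + 2)), (4 : ℝ) / e =
        4 * ∑ e ∈ Finset.Ico E (E * 2 ^ (l + 2)), (1 : ℝ) / e := by
      rw [Finset.mul_sum]
      refine Finset.sum_congr rfl fun e _ => ?_
      ring
    rw [h3]
    push_cast at h2
    linarith
  refine (Finset.sum_le_sum_of_subset_of_nonneg hsub (fun p _ _ => by positivity)).trans ?_
  have h3 := Finset.sum_union_inter (s₁ := T1) (s₂ := T2) (f := fun p : ℕ => (1 : ℝ) / p)
  have h4 : 0 ≤ ∑ p ∈ T1 ∩ T2, (1 : ℝ) / p := Finset.sum_nonneg fun p _ => by positivity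
  linarith

/-- average number of prime factors outside `P` -/
theorem rem_avg (u N M : ℕ) (hu : 1 ≤ u) (hE : 1 ≤ Nat.log 2 N / u) (hMN : M ≤ N) :
    ∑ m ∈ Finset.Icc 1 M, ((ArithmeticFunction.cardFactors m : ℝ) - Sc (Pu u N) m) ≤
      M * (16 * Nat.log 2 u + 18) := by
  have h1 := T_bound u N hu hE
  have h2 := sum_inv_sq_le (Pu u N) u hu (fun q hq => ((mem_Pu u N q hu).mp hq).2.1)
  have hu1 : (1 : ℝ) / u ≤ 1 := by
    apply div_le_one_of_le₀ _ (Nat.cast_nonneg _)
    exact_mod_cast hu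
  have h3 := sum_rem_le (Pu u N) N M hMN (Pu_sub u N) (8 * Nat.log 2 u + 8) 1 h1 (h2.trans hu1)
  refine h3.trans (le_of_eq ?_)
  ring

end Helper13.Om
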