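import Mathlib
import Pool.Agent.Helper13.Om.Rem

set_option autoImplicit false
set_option linter.unusedSectionVars false

/-! The orthogonality argument. -/

namespace Helper13.Om

open Finset

lemma swap_shell (e N : ℕ) (f : ℕ → ℕ → ℝ) :
    ∑ p ∈ shell e, ∑ m ∈ Finset.Icc 1 (N / p), f p m =
      ∑ m ∈ Finset.Icc 1 (N / 2 ^ e), ∑ p ∈ (shell e).filter (fun p => p * m ≤ N), f p m := by
  apply Finset.sum_comm'
  intro p m
  rw [Finset.mem_filter, Finset.mem_Icc, Finset.mem_Icc]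
  constructor
  · rintro ⟨hp, h1, h2⟩
    have hp' := (mem_shell e p).mp hp
    rw [Nat.le_div_iff_mul_le hp'.2.pos] at h2
    refine ⟨⟨hp, by rw [mul_comm]; exact h2⟩, h1, ?_⟩
    rw [Nat.le_div_iff_mul_le (by positivity)]
    calc m * 2 ^ e ≤ m * p := Nat.mul_le_mul_left _ hp'.1.1
      _ ≤ N := h2
  · rintro ⟨⟨hp, h1⟩, h2, h3⟩
    have hp' := (mem_shell e p).mp hp
    refine ⟨hp, h2, ?_⟩
    rw [Nat.le_div_iff_mul_le hp'.2.pos, mul_comm]
    exact h1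

/-- contribution of one shell of primes -/
lemma shell_step (k : ℕ) (i₀ : Fin k) (P : Finset ℕ) (u W E e N K₀ : ℕ) (hu : 1 ≤ u)
    (he : 1 ≤ e) (hW : 1 ≤ W)
    (hP : ∀ q ∈ P, q.Prime ∧ u < q ∧ ¬ q ∣ W ∧ 2 * (k + 1) ^ 2 ≤ q ∧ Nat.log 2 q ≤ E ∧
      2 * Nat.log 2 q ≤ e ∧ q < 2 ^ e) (hE1 : 1 ≤ E) (hK₀ : 2 ≤ K₀)
    (hKN : K₀ * W ≤ N / 2 ^ (e + 1))
    (G : ℕ → ℕ → (P → Option (Fin k)) → ℝ) (h1 : ∀ s c y, |G s c y| ≤ 2)
    (hz : ∀ s c, Enu P (kap k i₀) (G s c) = 0)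
    (hn1 : 16 * (e : ℝ) / 2 ^ e ≤ 1 / u) (hn2 : 64 / ((N / 2 ^ e : ℕ) : ℝ) ≤ 1 / u)
    (hn3 : (E : ℝ) / Nat.log 2 K₀ ≤ 2 / u) (r₀ : ℕ) (CR : ℝ)
    (hCR : ∀ M ≤ N, ∑ m ∈ Finset.Icc 1 M, ((ArithmeticFunction.cardFactors m : ℝ) - Sc P m) ≤
      M * CR) (hCR0 : 0 ≤ CR) :
    |∑ p ∈ shell e, ∑ m ∈ Finset.Icc 1 (N / p), G (ArithmeticFunction.cardFactors m + 1)
      ((p * m) % W) (fun q => kap k i₀ q (p * m))| ≤
      (r₀ + 1) * (N * √(C2 k / u)) * (1 / e) + 2 * CR / (r₀ + 1) * N * Le e := by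
  classical
  have heR : (0 : ℝ) < e := by exact_mod_cast he
  have huR : (0 : ℝ) < u := by exact_mod_cast hu
  rw [swap_shell e N (fun p m => G (ArithmeticFunction.cardFactors m + 1)
      ((p * m) % W) (fun q => kap k i₀ q (p * m)))]
  set Me := N / 2 ^ e with hMe
  set I : ℕ → ℝ := fun m => ∑ p ∈ (shell e).filter (fun p => p * m ≤ N),
    G (ArithmeticFunction.cardFactors m + 1) ((p * m) % W) (fun q => kap k i₀ q (p * m)) with hI
  set J : ℕ → ℕ → ℝ := fun r m => ∑ p ∈ (shell e).filter (fun p => p * m ≤ N),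
    G (Sc P m + r + 1) ((p * m) % W) (fun q => kap k i₀ q (p * m)) with hJ
  set R : ℕ → ℕ := fun m => ArithmeticFunction.cardFactors m - Sc P m with hR
  have hPp : ∀ q ∈ P, q.Prime := fun q hq => (hP q hq).1
  have hpt : ∀ m ∈ Finset.Icc 1 Me, |I m| ≤ ∑ r ∈ Finset.range (r₀ + 1), |J r m| +
      if r₀ < R m then |I m| else 0 := by
    intro m hm
    rw [Finset.mem_Icc] at hm
    have hSc := Sc_le_Omega P hPp m (by omega)
    split_ifs with h
    · have : 0 ≤ ∑ r ∈ Finset.range (r₀ + 1), |J r m| := Finset.sum_nonneg fun r _ => abs_nonneg _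
      linarith
    · rw [add_zero]
      have h2 : I m = J (R m) m := by
        simp only [hI, hJ, hR]
        rw [show Sc P m + (ArithmeticFunction.cardFactors m - Sc P m) =
          ArithmeticFunction.cardFactors m by omega]
      rw [h2]
      exact Finset.single_le_sum (f := fun r => |J r m|) (fun r _ => abs_nonneg _)
        (Finset.mem_range.mpr (by omega))
  have hsum : |∑ m ∈ Finset.Icc 1 Me, I m| ≤
      ∑ r ∈ Finset.range (r₀ + 1), ∑ m ∈ Finset.Icc 1 Me, |J r m| +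
      ∑ m ∈ (Finset.Icc 1 Me).filter (fun m => r₀ < R m), |I m| := by
    refine (Finset.abs_sum_le_sum_abs _ _).trans ?_
    refine (Finset.sum_le_sum hpt).trans (le_of_eq ?_)
    rw [Finset.sum_add_distrib, Finset.sum_comm, Finset.sum_filter]
  refine hsum.trans ?_
  -- main part
  have hMeN : (Me : ℝ) * 2 ^ e ≤ N := by
    have : Me * 2 ^ e ≤ N := Nat.div_mul_le_self N (2 ^ e)
    exact_mod_cast this
  have hJr : ∀ r ∈ Finset.range (r₀ + 1), ∑ m ∈ Finset.Icc 1 Me, |J r m| ≤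
      (N * √(C2 k / u)) * (1 / e) := by
    intro r _
    have h2 := shell_sq k i₀ P u W E e N K₀ hu he hW hP hE1 hK₀ hKN
      (fun s c y => G (s + r + 1) c y) (fun s c y => h1 _ _ _) (fun s c => hz _ _) hn1 hn2 hn3
    have h3 := Finset.sum_mul_sq_le_sq_mul_sq (Finset.Icc 1 Me) (fun m => |J r m|)
      (fun _ => (1 : ℝ))
    simp only [mul_one, one_pow, sq_abs, Finset.sum_const, Nat.card_Icc, Nat.add_sub_cancel,
      nsmul_eq_mul] at h3
    have hC2 := C2_pos k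
    have h4 : (∑ m ∈ Finset.Icc 1 Me, |J r m|) ^ 2 ≤ (Me * (2 ^ e / e) * √(C2 k / u)) ^ 2 := by
      rw [mul_pow, Real.sq_sqrt (by positivity)]
      calc _ ≤ (∑ m ∈ Finset.Icc 1 Me, (J r m) ^ 2) * Me := h3
        _ ≤ ((Me : ℝ) * (2 ^ e / e : ℝ) ^ 2 * (C2 k / u)) * Me :=
            mul_le_mul_of_nonneg_right h2 (Nat.cast_nonneg _)
        _ = _ := by ring
    have h5 := le_of_sq_le_sq h4 (by positivity)
    refine h5.trans ?_
    have h6 : (Me : ℝ) * (2 ^ e / e) * √(C2 k / u) = ((Me : ℝ) * 2 ^ e) * √(C2 k / u) * (1 / e) := by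
      ring
    rw [h6]
    have h7 : 0 ≤ √(C2 k / u) := Real.sqrt_nonneg _
    have h8 : ((Me : ℝ) * 2 ^ e) * √(C2 k / u) ≤ N * √(C2 k / u) :=
      mul_le_mul_of_nonneg_right hMeN h7
    exact mul_le_mul_of_nonneg_right h8 (by positivity)
  have hmain : ∑ r ∈ Finset.range (r₀ + 1), ∑ m ∈ Finset.Icc 1 Me, |J r m| ≤
      (r₀ + 1) * (N * √(C2 k / u)) * (1 / e) := by
    refine (Finset.sum_le_card_nsmul _ _ _ hJr).trans (le_of_eq ?_)
    rw [Finset.card_range, nsmul_eq_mul]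
    push_cast
    ring
  -- tail part
  have htail : ∑ m ∈ (Finset.Icc 1 Me).filter (fun m => r₀ < R m), |I m| ≤
      2 * CR / (r₀ + 1) * N * Le e := by
    have h2 : ∀ m ∈ (Finset.Icc 1 Me).filter (fun m => r₀ < R m), |I m| ≤
        ∑ p ∈ (shell e).filter (fun p => p * m ≤ N),
          2 * (((ArithmeticFunction.cardFactors m : ℝ) - Sc P m) / (r₀ + 1)) := by
      intro m hm
      rw [Finset.mem_filter, Finset.mem_Icc] at hm
      have hSc := Sc_le_Omega P hPp m (by omega)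
      refine (Finset.abs_sum_le_sum_abs _ _).trans (Finset.sum_le_sum fun p _ => ?_)
      refine (h1 _ _ _).trans ?_
      have h3 : (r₀ : ℝ) + 1 ≤ (ArithmeticFunction.cardFactors m : ℝ) - Sc P m := by
        rw [← Nat.cast_sub hSc]
        have : r₀ + 1 ≤ ArithmeticFunction.cardFactors m - Sc P m := hm.2
        exact_mod_cast this
      have h4 : 1 ≤ ((ArithmeticFunction.cardFactors m : ℝ) - Sc P m) / (r₀ + 1) := by
        rw [le_div_iff₀ (by positivity), one_mul]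
        exact h3
      linarith
    refine (Finset.sum_le_sum h2).trans ?_
    have h3 : ∑ m ∈ (Finset.Icc 1 Me).filter (fun m => r₀ < R m),
        ∑ p ∈ (shell e).filter (fun p => p * m ≤ N),
          2 * (((ArithmeticFunction.cardFactors m : ℝ) - Sc P m) / (r₀ + 1)) ≤
        ∑ m ∈ Finset.Icc 1 Me,
        ∑ p ∈ (shell e).filter (fun p => p * m ≤ N),
          2 * (((ArithmeticFunction.cardFactors m : ℝ) - Sc P m) / (r₀ + 1)) := by
      apply Finset.sum_le_sum_of_subset_of_nonneg (Finset.filter_subset _ _)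
      intro m hm _
      rw [Finset.mem_Icc] at hm
      have hSc := Sc_le_Omega P hPp m (by omega)
      have h4 : (Sc P m : ℝ) ≤ (ArithmeticFunction.cardFactors m : ℝ) := by exact_mod_cast hSc
      apply Finset.sum_nonneg
      intro p _
      have : 0 ≤ (ArithmeticFunction.cardFactors m : ℝ) - Sc P m := by linarith
      positivity
    refine h3.trans ?_
    rw [← swap_shell e N (fun _ m =>
      2 * (((ArithmeticFunction.cardFactors m : ℝ) - Sc P m) / (r₀ + 1)))]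
    have h4 : ∀ p ∈ shell e, ∑ m ∈ Finset.Icc 1 (N / p),
        2 * (((ArithmeticFunction.cardFactors m : ℝ) - Sc P m) / (r₀ + 1)) ≤
        2 * CR / (r₀ + 1) * N * (1 / p) := by
      intro p _
      have e1 : ∑ m ∈ Finset.Icc 1 (N / p),
        2 * (((ArithmeticFunction.cardFactors m : ℝ) - Sc P m) / (r₀ + 1)) =
        2 / (r₀ + 1) * ∑ m ∈ Finset.Icc 1 (N / p),
          ((ArithmeticFunction.cardFactors m : ℝ) - Sc P m) := by
        rw [Finset.mul_sum]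
        refine Finset.sum_congr rfl fun m _ => ?_
        ring
      rw [e1]
      calc 2 / ((r₀ : ℝ) + 1) * ∑ m ∈ Finset.Icc 1 (N / p),
          ((ArithmeticFunction.cardFactors m : ℝ) - Sc P m)
          ≤ 2 / ((r₀ : ℝ) + 1) * (((N / p : ℕ) : ℝ) * CR) :=
            mul_le_mul_of_nonneg_left (hCR _ (Nat.div_le_self _ _)) (by positivity)
        _ ≤ 2 / ((r₀ : ℝ) + 1) * ((N * (1 / p)) * CR) := by
            apply mul_le_mul_of_nonneg_left _ (by positivity)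
            exact mul_le_mul_of_nonneg_right (natdiv_le N p) hCR0
        _ = _ := by ring
    refine (Finset.sum_le_sum h4).trans (le_of_eq ?_)
    rw [← Finset.mul_sum]
    rfl
  linarith

/-- all primes in the shells `e₀ ≤ e < e₁` -/
def shells (e₀ e₁ : ℕ) : Finset ℕ := (Finset.Ico e₀ e₁).biUnion shell

lemma sum_shells (e₀ e₁ : ℕ) (f : ℕ → ℝ) :
    ∑ p ∈ shells e₀ e₁, f p = ∑ e ∈ Finset.Ico e₀ e₁, ∑ p ∈ shell e, f p := by
  unfold shells
  apply Finset.sum_biUnion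
  intro e _ e' _ hne
  rw [Function.onFun, Finset.disjoint_left]
  intro p hp hp'
  obtain ⟨⟨h1, h2⟩, _⟩ := (mem_shell e p).mp hp
  obtain ⟨⟨h3, h4⟩, _⟩ := (mem_shell e' p).mp hp'
  rcases lt_or_gt_of_ne hne with h | h
  · have : 2 ^ (e + 1) ≤ 2 ^ e' := Nat.pow_le_pow_right (by norm_num) h
    omega
  · have : 2 ^ (e' + 1) ≤ 2 ^ e := Nat.pow_le_pow_right (by norm_num) h
    omega

lemma mem_shells_prime (e₀ e₁ p : ℕ) (hp : p ∈ shells e₀ e₁) : p.Prime := by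
  unfold shells at hp
  rw [Finset.mem_biUnion] at hp
  obtain ⟨e, _, he⟩ := hp
  exact ((mem_shell e p).mp he).2

lemma card_shells_le (e₀ e₁ : ℕ) : (shells e₀ e₁).card ≤ 2 ^ e₁ := by
  have : shells e₀ e₁ ⊆ Finset.range (2 ^ e₁) := by
    intro p hp
    unfold shells at hp
    rw [Finset.mem_biUnion] at hp
    obtain ⟨e, h1, he⟩ := hp
    rw [Finset.mem_Ico] at h1
    rw [Finset.mem_range]
    have h2 := ((mem_shell e p).mp he).1.2
    have : 2 ^ (e + 1) ≤ 2 ^ e₁ := Nat.pow_le_pow_right (by norm_num) h1.2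
    omega
  have := Finset.card_le_card this
  rwa [Finset.card_range] at this

/-- Sum over multiples. -/
lemma sum_dvd (N p : ℕ) (hp : 0 < p) (f : ℕ → ℝ) :
    ∑ n ∈ (Finset.Icc 1 N).filter (fun n => p ∣ n), f n =
      ∑ m ∈ Finset.Icc 1 (N / p), f (p * m) := by
  symm
  apply Finset.sum_bij (fun m _ => p * m)
  · intro m hm
    rw [Finset.mem_Icc] at hm
    rw [Finset.mem_filter, Finset.mem_Icc]
    refine ⟨⟨Nat.mul_pos hp (by omega), ?_⟩, dvd_mul_right p m⟩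
    have := hm.2
    rw [Nat.le_div_iff_mul_le hp] at this
    rw [mul_comm]
    exact this
  · intro a _ b _ hab
    exact Nat.eq_of_mul_eq_mul_left hp hab
  · intro n hn
    rw [Finset.mem_filter, Finset.mem_Icc] at hn
    obtain ⟨⟨h1, h2⟩, m, rfl⟩ := hn
    refine ⟨m, ?_, rfl⟩
    rw [Finset.mem_Icc, Nat.le_div_iff_mul_le hp]
    refine ⟨?_, by rw [mul_comm]; exact h2⟩
    rcases Nat.eq_zero_or_pos m with rfl | h
    · simp at h1
    · exact h
  · intro m _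
    rfl

/-- The orthogonality argument, with the primes in a range of shells. -/
theorem katai_sum (k : ℕ) (i₀ : Fin k) (P : Finset ℕ) (u W E N e₀ e₁ : ℕ) (hu : 1 ≤ u)
    (hN : 1 ≤ N)
    (hW : 1 ≤ W) (he₀ : 13 ≤ e₀) (he₁ : e₀ < e₁)
    (hP : ∀ q ∈ P, q.Prime ∧ u < q ∧ ¬ q ∣ W ∧ 2 * (k + 1) ^ 2 ≤ q ∧ Nat.log 2 q ≤ E ∧
      2 * Nat.log 2 q ≤ e₀ ∧ q < 2 ^ e₀) (hE1 : 1 ≤ E)
    (hK₀ : ∀ e ∈ Finset.Ico e₀ e₁, 2 ≤ N / 2 ^ (e + 1) / W)
    (G : ℕ → ℕ → (P → Option (Fin k)) → ℝ) (h1 : ∀ s c y, |G s c y| ≤ 2)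
    (hz : ∀ s c, Enu P (kap k i₀) (G s c) = 0)
    (hn1 : ∀ e ∈ Finset.Ico e₀ e₁, 16 * (e : ℝ) / 2 ^ e ≤ 1 / u)
    (hn2 : ∀ e ∈ Finset.Ico e₀ e₁, 64 / ((N / 2 ^ e : ℕ) : ℝ) ≤ 1 / u)
    (hn3 : ∀ e ∈ Finset.Ico e₀ e₁, (E : ℝ) / Nat.log 2 (N / 2 ^ (e + 1) / W) ≤ 2 / u) (r₀ : ℕ)
    (CR : ℝ)
    (hCR : ∀ M ≤ N, ∑ m ∈ Finset.Icc 1 M, ((ArithmeticFunction.cardFactors m : ℝ) - Sc P m) ≤
      M * CR) (hCR0 : 0 ≤ CR) (he₁N : 2 ^ e₁ ≤ N)
    (hL : 1 ≤ ∑ e ∈ Finset.Ico e₀ e₁, Le e) :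
    |∑ n ∈ Finset.Icc 1 N, G (ArithmeticFunction.cardFactors n) (n % W) (fun q => kap k i₀ q n)| ≤
      N * (2 * √(3 / ∑ e ∈ Finset.Ico e₀ e₁, Le e) + 17 * (r₀ + 1) * √(C2 k / u) +
        2 * CR / (r₀ + 1)) := by
  classical
  set L := ∑ e ∈ Finset.Ico e₀ e₁, Le e with hLdef
  set Q := shells e₀ e₁ with hQ
  have hLQ : ∑ p ∈ Q, (1 : ℝ) / p = L := by
    rw [hQ, sum_shells]
    rfl
  have hQp : ∀ p ∈ Q, p.Prime := fun p hp => mem_shells_prime e₀ e₁ p hp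
  have hQc : Q.card ≤ N := (card_shells_le e₀ e₁).trans he₁N
  have htk := tk_abs Q hQp N hQc
  rw [hLQ] at htk
  set g : ℕ → ℝ := fun n => G (ArithmeticFunction.cardFactors n) (n % W) (fun q => kap k i₀ q n)
    with hg
  have hN0 : (0 : ℝ) < N := by exact_mod_cast hN
  have hL0 : 0 < L := by linarith
  have hC2 := C2_pos k
  have huR : (0 : ℝ) < u := by exact_mod_cast hu
  -- A
  have hA : |L * ∑ n ∈ Finset.Icc 1 N, g n - ∑ n ∈ Finset.Icc 1 N, g n * om Q n| ≤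
      2 * (√(3 * L) * N) := by
    rw [Finset.mul_sum, ← Finset.sum_sub_distrib]
    refine (Finset.abs_sum_le_sum_abs _ _).trans ?_
    have h2 : ∀ n ∈ Finset.Icc 1 N, |L * g n - g n * om Q n| ≤ 2 * |(om Q n : ℝ) - L| := by
      intro n _
      have e1 : L * g n - g n * om Q n = - (g n * ((om Q n : ℝ) - L)) := by ring
      rw [e1, abs_neg, abs_mul]
      exact mul_le_mul_of_nonneg_right (h1 _ _ _) (abs_nonneg _)
    refine (Finset.sum_le_sum h2).trans ?_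
    rw [← Finset.mul_sum]
    exact mul_le_mul_of_nonneg_left htk (by norm_num)
  -- B
  have hB : ∑ n ∈ Finset.Icc 1 N, g n * om Q n = ∑ e ∈ Finset.Ico e₀ e₁, ∑ p ∈ shell e,
      ∑ m ∈ Finset.Icc 1 (N / p), G (ArithmeticFunction.cardFactors m + 1)
      ((p * m) % W) (fun q => kap k i₀ q (p * m)) := by
    have e1 : ∑ n ∈ Finset.Icc 1 N, g n * om Q n = ∑ p ∈ Q,
        ∑ n ∈ (Finset.Icc 1 N).filter (fun n => p ∣ n), g n := by
      have e2 : ∀ n ∈ Finset.Icc 1 N, g n * om Q n = ∑ p ∈ Q, if p ∣ n then g n else 0 := by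
        intro n _
        rw [om_cast, Finset.mul_sum]
        refine Finset.sum_congr rfl fun p _ => ?_
        split_ifs <;> simp
      rw [Finset.sum_congr rfl e2, Finset.sum_comm]
      refine Finset.sum_congr rfl fun p _ => ?_
      rw [Finset.sum_filter]
    rw [e1, hQ, sum_shells]
    refine Finset.sum_congr rfl fun e _ => Finset.sum_congr rfl fun p hp => ?_
    have hp' := ((mem_shell e p).mp hp).2
    rw [sum_dvd N p hp'.pos]
    refine Finset.sum_congr rfl fun m hm => ?_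
    rw [Finset.mem_Icc] at hm
    simp only [hg]
    rw [ArithmeticFunction.cardFactors_mul hp'.ne_zero (by omega),
      ArithmeticFunction.cardFactors_apply_prime hp', add_comm 1]
  -- C
  have hC : |∑ n ∈ Finset.Icc 1 N, g n * om Q n| ≤
      (r₀ + 1) * (N * √(C2 k / u)) * (17 * L) + 2 * CR / (r₀ + 1) * N * L := by
    rw [hB]
    refine (Finset.abs_sum_le_sum_abs _ _).trans ?_
    have h2 : ∀ e ∈ Finset.Ico e₀ e₁, |∑ p ∈ shell e,
      ∑ m ∈ Finset.Icc 1 (N / p), G (ArithmeticFunction.cardFactors m + 1)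
      ((p * m) % W) (fun q => kap k i₀ q (p * m))| ≤
      (r₀ + 1) * (N * √(C2 k / u)) * (1 / e) + 2 * CR / (r₀ + 1) * N * Le e := by
      intro e he
      have he' := Finset.mem_Ico.mp he
      refine shell_step k i₀ P u W E e N (N / 2 ^ (e + 1) / W) hu (by omega) hW ?_ hE1 (hK₀ e he)
        (Nat.div_mul_le_self _ _) G h1 hz (hn1 e he) (hn2 e he) (hn3 e he) r₀ CR hCR hCR0
      intro q hq
      obtain ⟨a1, a2, a3, a4, a5, a6, a7⟩ := hP q hq
      refine ⟨a1, a2, a3, a4, a5, a6.trans he'.1, ?_⟩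
      exact lt_of_lt_of_le a7 (Nat.pow_le_pow_right (by norm_num) he'.1)
    refine (Finset.sum_le_sum h2).trans ?_
    rw [Finset.sum_add_distrib, ← Finset.mul_sum, ← Finset.mul_sum]
    have h3 : ∑ e ∈ Finset.Ico e₀ e₁, (1 : ℝ) / e ≤ 17 * L := by
      obtain ⟨e₂, rfl⟩ : ∃ e₂, e₁ = e₂ + 1 := ⟨e₁ - 1, by omega⟩
      rw [Finset.sum_Ico_succ_top (by omega)]
      have h4 := harm_le_L e₀ e₂ he₀
      rw [← hLdef] at h4
      have h5 : (1 : ℝ) / e₂ ≤ 1 := by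
        apply div_le_one_of_le₀ _ (Nat.cast_nonneg _)
        have : 1 ≤ e₂ := by omega
        exact_mod_cast this
      linarith
    have h4 : 0 ≤ ((r₀ : ℝ) + 1) * (N * √(C2 k / u)) := by positivity
    exact add_le_add (mul_le_mul_of_nonneg_left h3 h4) le_rfl
  -- finish
  have hD : L * |∑ n ∈ Finset.Icc 1 N, g n| ≤ 2 * (√(3 * L) * N) +
      ((r₀ + 1) * (N * √(C2 k / u)) * (17 * L) + 2 * CR / (r₀ + 1) * N * L) := by
    rw [← abs_of_pos hL0, ← abs_mul, abs_of_pos hL0]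
    have e1 : L * ∑ n ∈ Finset.Icc 1 N, g n = (L * ∑ n ∈ Finset.Icc 1 N, g n -
      ∑ n ∈ Finset.Icc 1 N, g n * om Q n) + ∑ n ∈ Finset.Icc 1 N, g n * om Q n := by ring
    rw [e1]
    exact (abs_add_le _ _).trans (add_le_add hA hC)
  have hsq : √(3 * L) = L * √(3 / L) := by
    have : 3 * L = L ^ 2 * (3 / L) := by
      field_simp
    rw [this, Real.sqrt_mul (by positivity), Real.sqrt_sq hL0.le]
  rw [hsq] at hD
  have e2 : 2 * (L * √(3 / L) * N) +
      ((r₀ + 1) * (N * √(C2 k / u)) * (17 * L) + 2 * CR / (r₀ + 1) * N * L) =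
      L * (N * (2 * √(3 / L) + 17 * (r₀ + 1) * √(C2 k / u) + 2 * CR / (r₀ + 1))) := by
    ring
  rw [e2] at hD
  exact le_of_mul_le_mul_left hD hL0

end Helper13.Om
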