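import Mathlib
import Pool.Agent.Helper13.Om.Katai

set_option autoImplicit false
set_option linter.unusedSectionVars false

/-! Choice of parameters in the orthogonality argument. -/

namespace Helper13.Om

open Finset Filter

theorem katai_params (k : ℕ) (i₀ : Fin k) (u W N r₀ : ℕ) (hl : 39 ≤ Nat.log 2 u)
    (huk : 2 * (k + 1) ^ 2 ≤ u) (hW : 1 ≤ W) (hWu : ∀ p : ℕ, p.Prime → p ∣ W → p ≤ u)
    (hA1 : u * u ≤ Nat.log 2 N) (hA2 : 16 * (Nat.log 2 W + 3) ≤ Nat.log 2 N)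
    (hA3 : 64 * u ≤ 2 ^ (Nat.log 2 N / 2))
    (G : ℕ → ℕ → (Pu u N → Option (Fin k)) → ℝ) (h1 : ∀ s c y, |G s c y| ≤ 2)
    (hz : ∀ s c, Enu (Pu u N) (kap k i₀) (G s c) = 0) :
    |∑ n ∈ Finset.Icc 1 N, G (ArithmeticFunction.cardFactors n) (n % W) (fun q => kap k i₀ q n)| ≤
      N * (2 * √(96 / ((Nat.log 2 u : ℝ) - 7)) + 17 * (r₀ + 1) * √(C2 k / u) +
        2 * (16 * Nat.log 2 u + 18) / (r₀ + 1)) := by
  classical
  set A := Nat.log 2 N with hA
  set l := Nat.log 2 u with hldef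
  set E := A / u with hE
  have hu0 : u ≠ 0 := by
    rintro rfl
    simp [hldef] at hl
  have h2l : 2 ^ l ≤ u := Nat.pow_log_le_self 2 hu0
  have hu39 : 2 ^ 39 ≤ u := (Nat.pow_le_pow_right (by norm_num) hl).trans h2l
  have hubig : 1000 ≤ u := le_trans (by norm_num) hu39
  have hEu : u ≤ E := by
    rw [hE, Nat.le_div_iff_mul_le (by omega)]
    exact hA1
  have huE : u * E ≤ A := Nat.mul_div_le A u
  have hN0 : N ≠ 0 := by
    rintro rfl
    simp [hA] at hA1
    omega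
  have hAN : 2 ^ A ≤ N := Nat.pow_log_le_self 2 hN0
  set e₀ := 2 * E + 2 with he₀
  set e₁ := A / 16 with he₁
  have hbig : 1000 * E ≤ A := (Nat.mul_le_mul_right E hubig).trans huE
  have hEe : ∀ e ∈ Finset.Ico e₀ e₁, u ≤ e ∧ 16 * (e + 1) ≤ A := by
    intro e he
    rw [Finset.mem_Ico] at he
    constructor
    · omega
    · omega
  have h01 : e₀ < e₁ := by omega
  have hK : ∀ e ∈ Finset.Ico e₀ e₁, 2 ^ (A - (e + 1 + (Nat.log 2 W + 1))) ≤ N / 2 ^ (e + 1) / W := by
    intro e he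
    obtain ⟨h2, h3⟩ := hEe e he
    rw [Nat.div_div_eq_div_mul, Nat.le_div_iff_mul_le (by positivity)]
    have hWlt : W ≤ 2 ^ (Nat.log 2 W + 1) := (Nat.lt_pow_succ_log_self (by norm_num) W).le
    calc 2 ^ (A - (e + 1 + (Nat.log 2 W + 1))) * (2 ^ (e + 1) * W)
        ≤ 2 ^ (A - (e + 1 + (Nat.log 2 W + 1))) * (2 ^ (e + 1) * 2 ^ (Nat.log 2 W + 1)) := by
          apply Nat.mul_le_mul_left
          exact Nat.mul_le_mul_left _ hWlt
      _ = 2 ^ A := by
          rw [← pow_add, ← pow_add]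
          congr 1
          omega
      _ ≤ N := hAN
  -- lower bound for L
  have hLlow : ((l : ℝ) - 7) / 32 ≤ ∑ e ∈ Finset.Ico e₀ e₁, Le e := by
    obtain ⟨e₂, he₂⟩ : ∃ e₂, e₁ = e₂ + 1 := ⟨e₁ - 1, by omega⟩
    have h4 := harm_le_L e₀ e₂ (by omega)
    rw [← he₂] at h4
    have h5 := harm_lower e₀ (l - 7) (by omega)
    have h6 : ∑ e ∈ Finset.Ico e₀ (e₀ * 2 ^ (l - 7)), (1 : ℝ) / e ≤
        ∑ e ∈ Finset.Ico e₀ e₂, (1 : ℝ) / e := by
      apply Finset.sum_le_sum_of_subset_of_nonneg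
      · apply Finset.Ico_subset_Ico_right
        have h7 : 2 ^ l = 128 * 2 ^ (l - 7) := by
          have : l = 7 + (l - 7) := by omega
          conv_lhs => rw [this]
          rw [pow_add]
          norm_num
        have h8 : 128 * (E * 2 ^ (l - 7)) ≤ A := by
          calc 128 * (E * 2 ^ (l - 7)) = E * (128 * 2 ^ (l - 7)) := by ring
            _ = E * 2 ^ l := by rw [h7]
            _ ≤ E * u := Nat.mul_le_mul_left _ h2l
            _ = u * E := mul_comm _ _
            _ ≤ A := huE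
        have h9 : e₀ * 2 ^ (l - 7) ≤ 4 * (E * 2 ^ (l - 7)) := by
          rw [← mul_assoc]
          apply Nat.mul_le_mul_right
          omega
        have h10 : 1000000 ≤ A := by
          calc 1000000 = 1000 * 1000 := by norm_num
            _ ≤ 1000 * E := Nat.mul_le_mul_left _ (hubig.trans hEu)
            _ ≤ A := hbig
        omega
      · intro e _ _
        positivity
    have h7 : (((l - 7 : ℕ) : ℝ)) = (l : ℝ) - 7 := by
      rw [Nat.cast_sub (by omega)]
      norm_num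
    rw [h7] at h5
    linarith
  have hlR : (39 : ℝ) ≤ l := by exact_mod_cast hl
  have hL1 : 1 ≤ ∑ e ∈ Finset.Ico e₀ e₁, Le e := by linarith
  have huR : (0 : ℝ) < u := by
    have : 0 < u := by omega
    exact_mod_cast this
  have hE1' : 1 ≤ E := by omega
  have hrem := fun M (hM : M ≤ N) => rem_avg u N M (by omega) hE1' hM
  have hmain := katai_sum k i₀ (Pu u N) u W E N e₀ e₁ (by omega) (by omega) hW (by omega) h01
    (by
      intro q hq
      have h2 : Nat.log 2 q ≤ E := log2_Pu u N q (by omega) hq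
      rw [mem_Pu u N q (by omega)] at hq
      refine ⟨hq.1, hq.2.1, ?_, ?_, h2, ?_, ?_⟩
      · intro h3
        have := hWu q hq.1 h3
        omega
      · omega
      · omega
      · exact lt_of_lt_of_le (lt_pow_log2 q) (Nat.pow_le_pow_right (by norm_num) (by omega)))
    (by omega)
    (by
      intro e he
      refine le_trans ?_ (hK e he)
      obtain ⟨h2, h3⟩ := hEe e he
      calc 2 = 2 ^ 1 := by norm_num
        _ ≤ _ := Nat.pow_le_pow_right (by norm_num) (by omega))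
    G h1 hz
    (by
      intro e he
      obtain ⟨h2, h3⟩ := hEe e he
      rw [div_le_div_iff₀ (by positivity) huR]
      have h4 := pow_ge_poly e (by omega)
      have h5 : 16 * e * u ≤ 2 ^ e := by
        calc 16 * e * u ≤ 16 * e * e := Nat.mul_le_mul_left _ h2
          _ ≤ 25 * (e + 2) ^ 2 := by nlinarith
          _ ≤ _ := h4
      rw [one_mul]
      exact_mod_cast h5)
    (by
      intro e he
      obtain ⟨h2, h3⟩ := hEe e he
      have h4 : 2 ^ (A / 2) ≤ N / 2 ^ e := by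
        rw [Nat.le_div_iff_mul_le (by positivity), ← pow_add]
        refine le_trans (Nat.pow_le_pow_right (by norm_num) ?_) hAN
        omega
      have h5 : 64 * u ≤ N / 2 ^ e := hA3.trans h4
      have h6 : (64 : ℝ) * u ≤ ((N / 2 ^ e : ℕ) : ℝ) := by exact_mod_cast h5
      rw [div_le_div_iff₀ (by nlinarith) huR]
      linarith)
    (by
      intro e he
      obtain ⟨h2, h3⟩ := hEe e he
      have h4 : A - (e + 1 + (Nat.log 2 W + 1)) ≤ Nat.log 2 (N / 2 ^ (e + 1) / W) :=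
        Nat.le_log_of_pow_le one_lt_two (hK e he)
      have h5 : u * E ≤ 2 * Nat.log 2 (N / 2 ^ (e + 1) / W) := by omega
      have h6 : 1 ≤ Nat.log 2 (N / 2 ^ (e + 1) / W) := by omega
      have h6R : (0 : ℝ) < Nat.log 2 (N / 2 ^ (e + 1) / W) := by exact_mod_cast h6
      rw [div_le_div_iff₀ h6R huR]
      have h5R : (u : ℝ) * E ≤ 2 * Nat.log 2 (N / 2 ^ (e + 1) / W) := by exact_mod_cast h5
      linarith)
    r₀ (16 * l + 18) hrem (by positivity)
    ((Nat.pow_le_pow_right (by norm_num) (by omega)).trans hAN) hL1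
  refine hmain.trans ?_
  apply mul_le_mul_of_nonneg_left _ (Nat.cast_nonneg _)
  have hs : √(3 / ∑ e ∈ Finset.Ico e₀ e₁, Le e) ≤ √(96 / ((l : ℝ) - 7)) := by
    apply Real.sqrt_le_sqrt
    rw [div_le_div_iff₀ (by linarith) (by linarith)]
    linarith
  linarith

lemma sqrt_pow' (x : ℝ) (hx : 0 ≤ x) (l : ℕ) : √(x ^ l) = √x ^ l := by
  induction l with
  | zero => simp
  | succ l ih => rw [pow_succ, pow_succ, Real.sqrt_mul (pow_nonneg hx l), ih]

lemma Bd_tendsto (k : ℕ) :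
    Tendsto (fun l : ℕ => 2 * √(96 / ((l : ℝ) - 7)) +
      17 * (((l ^ 2 : ℕ) : ℝ) + 1) * √(C2 k / 2 ^ l) +
        2 * (16 * (l : ℝ) + 18) / (((l ^ 2 : ℕ) : ℝ) + 1)) atTop (nhds 0) := by
  have hnat : Tendsto (fun l : ℕ => (l : ℝ)) atTop atTop := tendsto_natCast_atTop_atTop
  have t1 : Tendsto (fun l : ℕ => 2 * √(96 / ((l : ℝ) - 7))) atTop (nhds 0) := by
    have h1 : Tendsto (fun l : ℕ => (l : ℝ) - 7) atTop atTop :=
      tendsto_atTop_add_const_right _ (-7) hnat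
    have h2 : Tendsto (fun l : ℕ => 96 / ((l : ℝ) - 7)) atTop (nhds 0) := h1.const_div_atTop 96
    have h3 := (Real.continuous_sqrt.tendsto 0).comp h2
    rw [Real.sqrt_zero] at h3
    have h4 := h3.const_mul 2
    rw [mul_zero] at h4
    exact h4
  have t2 : Tendsto (fun l : ℕ => 17 * (((l ^ 2 : ℕ) : ℝ) + 1) * √(C2 k / 2 ^ l)) atTop
      (nhds 0) := by
    have hr : |(√(1 / 2 : ℝ))| < 1 := by
      rw [abs_of_nonneg (Real.sqrt_nonneg _), Real.sqrt_lt' one_pos]
      norm_num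
    have h1 := tendsto_pow_const_mul_const_pow_of_abs_lt_one 2 hr
    have h2 := tendsto_pow_atTop_nhds_zero_of_abs_lt_one hr
    have h3 := (h1.add h2).const_mul (17 * √(C2 k))
    rw [add_zero, mul_zero] at h3
    refine h3.congr fun l => ?_
    have hC := C2_pos k
    have e1 : √(C2 k / 2 ^ l) = √(C2 k) * √(1 / 2 : ℝ) ^ l := by
      rw [← sqrt_pow' (1 / 2) (by norm_num) l, ← Real.sqrt_mul hC.le]
      congr 1
      rw [one_div, inv_pow, div_eq_mul_inv]
    rw [e1]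
    push_cast
    ring
  have t3 : Tendsto (fun l : ℕ => 2 * (16 * (l : ℝ) + 18) / (((l ^ 2 : ℕ) : ℝ) + 1)) atTop
      (nhds 0) := by
    have h1 : Tendsto (fun l : ℕ => (68 : ℝ) / l) atTop (nhds 0) := hnat.const_div_atTop 68
    refine squeeze_zero' (Eventually.of_forall fun l => by positivity) ?_ h1
    filter_upwards [eventually_ge_atTop 1] with l hl
    have hl' : (1 : ℝ) ≤ l := by exact_mod_cast hl
    rw [div_le_div_iff₀ (by positivity) (by linarith)]
    push_cast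
    nlinarith
  have := (t1.add t2).add t3
  simpa using this

theorem katai_eps (k : ℕ) (i₀ : Fin k) (ε : ℝ) (hε : 0 < ε) :
    ∃ u₀ : ℕ, ∀ u ≥ u₀, ∀ W ≥ 1, (∀ p : ℕ, p.Prime → p ∣ W → p ≤ u) → ∃ N₀ : ℕ, ∀ N ≥ N₀,
      ∀ G : ℕ → ℕ → (Pu u N → Option (Fin k)) → ℝ, (∀ s c y, |G s c y| ≤ 2) →
        (∀ s c, Enu (Pu u N) (kap k i₀) (G s c) = 0) →
        |∑ n ∈ Finset.Icc 1 N, G (ArithmeticFunction.cardFactors n) (n % W)
          (fun q => kap k i₀ q n)| ≤ ε * N := by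
  have h := (Bd_tendsto k).eventually (gt_mem_nhds hε)
  rw [Filter.eventually_atTop] at h
  obtain ⟨l₀, hl₀⟩ := h
  refine ⟨2 ^ (max l₀ 39) + 2 * (k + 1) ^ 2, fun u hu W hW hWu => ?_⟩
  have hu1 : 2 ^ (max l₀ 39) ≤ u := by omega
  have hlog : max l₀ 39 ≤ Nat.log 2 u := Nat.le_log_of_pow_le one_lt_two hu1
  -- choose N₀
  set A₀ := u * u + 16 * (Nat.log 2 W + 3) + 2 * (64 * u) with hA₀
  refine ⟨2 ^ A₀, fun N hN G h1 hz => ?_⟩
  have hA : A₀ ≤ Nat.log 2 N := Nat.le_log_of_pow_le one_lt_two hN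
  have hm := katai_params k i₀ u W N ((Nat.log 2 u) ^ 2) (le_trans (le_max_right _ _) hlog)
    (le_trans (Nat.le_add_left _ _) hu) hW hWu (by omega) (by omega) (by
      have h2 : 64 * u ≤ Nat.log 2 N / 2 := by omega
      exact h2.trans (Nat.lt_two_pow_self).le) G h1 hz
  refine hm.trans ?_
  rw [mul_comm]
  apply mul_le_mul_of_nonneg_right _ (Nat.cast_nonneg _)
  have h3 := (hl₀ (Nat.log 2 u) (le_trans (le_max_left _ _) hlog)).le
  refine le_trans ?_ h3
  have hu0 : u ≠ 0 := by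
    have : 0 < 2 ^ (max l₀ 39) := by positivity
    omega
  have h4 : √(C2 k / u) ≤ √(C2 k / 2 ^ (Nat.log 2 u)) := by
    apply Real.sqrt_le_sqrt
    apply div_le_div_of_nonneg_left (C2_pos k).le (by positivity)
    exact_mod_cast Nat.pow_log_le_self 2 hu0
  have h5 : 17 * ((((Nat.log 2 u) ^ 2 : ℕ) : ℝ) + 1) * √(C2 k / u) ≤
      17 * ((((Nat.log 2 u) ^ 2 : ℕ) : ℝ) + 1) * √(C2 k / 2 ^ (Nat.log 2 u)) :=
    mul_le_mul_of_nonneg_left h4 (by positivity)
  linarith

end Helper13.Om
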