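import Mathlib
import Pool.Agent.Helper13.Om.KataiEps

set_option autoImplicit false
set_option linter.unusedSectionVars false

/-! Expectations in finite product models. -/

namespace Helper13.Om

open Finset

section EE

variable {ι Y : Type} [Fintype ι] [DecidableEq ι] [Fintype Y] [DecidableEq Y]

/-- expectation with respect to the product of the weights `ρ i` -/
noncomputable def EE (ρ : ι → Y → ℝ) (H : (ι → Y) → ℝ) : ℝ :=
  ∑ y : ι → Y, (∏ i, ρ i (y i)) * H y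

lemma Enu_eq_EE (P : Finset ℕ) (φ : ℕ → ℕ → Y) (H : (P → Y) → ℝ) :
    Enu P φ H = EE (fun q : P => rho φ q) H := rfl

lemma EE_add (ρ : ι → Y → ℝ) (H H' : (ι → Y) → ℝ) :
    EE ρ (fun y => H y + H' y) = EE ρ H + EE ρ H' := by
  unfold EE
  rw [← Finset.sum_add_distrib]
  exact Finset.sum_congr rfl fun y _ => by ring

lemma EE_sub (ρ : ι → Y → ℝ) (H H' : (ι → Y) → ℝ) :
    EE ρ (fun y => H y - H' y) = EE ρ H - EE ρ H' := by
  unfold EE
  rw [← Finset.sum_sub_distrib]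
  exact Finset.sum_congr rfl fun y _ => by ring

lemma EE_smul (ρ : ι → Y → ℝ) (c : ℝ) (H : (ι → Y) → ℝ) :
    EE ρ (fun y => c * H y) = c * EE ρ H := by
  unfold EE
  rw [Finset.mul_sum]
  exact Finset.sum_congr rfl fun y _ => by ring

lemma EE_sum {J : Type} (s : Finset J) (ρ : ι → Y → ℝ) (H : J → (ι → Y) → ℝ) :
    EE ρ (fun y => ∑ j ∈ s, H j y) = ∑ j ∈ s, EE ρ (H j) := by
  unfold EE
  rw [Finset.sum_comm]
  exact Finset.sum_congr rfl fun y _ => by rw [Finset.mul_sum]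

lemma EE_const (ρ : ι → Y → ℝ) (h1 : ∀ i, ∑ y, ρ i y = 1) (c : ℝ) :
    EE ρ (fun _ => c) = c := by
  unfold EE
  rw [← Finset.sum_mul, sum_prod_eq_one ρ h1, one_mul]

lemma EE_mono (ρ : ι → Y → ℝ) (h0 : ∀ i y, 0 ≤ ρ i y) (H H' : (ι → Y) → ℝ)
    (h : ∀ y, H y ≤ H' y) : EE ρ H ≤ EE ρ H' :=
  Finset.sum_le_sum fun y _ =>
    mul_le_mul_of_nonneg_left (h y) (Finset.prod_nonneg fun i _ => h0 i (y i))

lemma EE_abs_le (ρ : ι → Y → ℝ) (h0 : ∀ i y, 0 ≤ ρ i y) (H : (ι → Y) → ℝ) :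
    |EE ρ H| ≤ EE ρ (fun y => |H y|) := by
  unfold EE
  refine (Finset.abs_sum_le_sum_abs _ _).trans (le_of_eq ?_)
  refine Finset.sum_congr rfl fun y _ => ?_
  rw [abs_mul, abs_of_nonneg (Finset.prod_nonneg fun i _ => h0 i (y i))]

lemma EE_abs_le_of (ρ : ι → Y → ℝ) (h0 : ∀ i y, 0 ≤ ρ i y) (h1 : ∀ i, ∑ y, ρ i y = 1)
    (H : (ι → Y) → ℝ) (B : ℝ) (hB : ∀ y, |H y| ≤ B) : |EE ρ H| ≤ B := by
  refine (EE_abs_le ρ h0 H).trans ?_
  refine (EE_mono ρ h0 _ (fun _ => B) hB).trans (le_of_eq ?_)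
  exact EE_const ρ h1 B

/-- Cauchy-Schwarz -/
lemma EE_abs_sq (ρ : ι → Y → ℝ) (h0 : ∀ i y, 0 ≤ ρ i y) (h1 : ∀ i, ∑ y, ρ i y = 1)
    (H : (ι → Y) → ℝ) : (EE ρ (fun y => |H y|)) ^ 2 ≤ EE ρ (fun y => H y ^ 2) := by
  unfold EE
  have h := Finset.sum_mul_sq_le_sq_mul_sq (Finset.univ : Finset (ι → Y))
    (fun y => √(∏ i, ρ i (y i))) (fun y => √(∏ i, ρ i (y i)) * |H y|)
  have hw : ∀ y : ι → Y, 0 ≤ ∏ i, ρ i (y i) := fun y => Finset.prod_nonneg fun i _ => h0 i (y i)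
  have e1 : ∀ y : ι → Y, √(∏ i, ρ i (y i)) * (√(∏ i, ρ i (y i)) * |H y|) =
      (∏ i, ρ i (y i)) * |H y| := by
    intro y
    rw [← mul_assoc, Real.mul_self_sqrt (hw y)]
  have e2 : ∀ y : ι → Y, √(∏ i, ρ i (y i)) ^ 2 = ∏ i, ρ i (y i) := fun y => Real.sq_sqrt (hw y)
  have e3 : ∀ y : ι → Y, (√(∏ i, ρ i (y i)) * |H y|) ^ 2 = (∏ i, ρ i (y i)) * H y ^ 2 := by
    intro y
    rw [mul_pow, e2, sq_abs]
  simp only [e1, e2, e3] at h
  rw [sum_prod_eq_one ρ h1, one_mul] at h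
  exact h

/-- Resampling one coordinate. -/
lemma EE_resample (ρ : ι → Y → ℝ) (j : ι) (hj : ∑ y, ρ j y = 1) (π : Y → ℝ)
    (F : (ι → Y) → ℝ) :
    EE (Function.update ρ j π) F =
      EE ρ (fun y => ∑ s, π s * F (Function.update y j s)) := by
  classical
  unfold EE
  -- right-hand side as a sum over pairs
  have e1 : ∑ y : ι → Y, (∏ i, ρ i (y i)) * ∑ s, π s * F (Function.update y j s) =
      ∑ z : (ι → Y) × Y, (∏ i, ρ i (z.1 i)) * (π z.2 * F (Function.update z.1 j z.2)) := by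
    rw [Fintype.sum_prod_type]
    refine Finset.sum_congr rfl fun y _ => ?_
    rw [Finset.mul_sum]
  have e2 : ∑ z : (ι → Y) × Y, (∏ i, ρ i (z.1 i)) * (π z.2 * F (Function.update z.1 j z.2)) =
      ∑ z : (ι → Y) × Y, (∏ i, ρ i ((Function.update z.1 j z.2) i)) * (π (z.1 j) * F z.1) := by
    have hinv : Function.Involutive
        (fun z : (ι → Y) × Y => ((Function.update z.1 j z.2, z.1 j) : (ι → Y) × Y)) := by
      intro z
      simp
    have := Equiv.sum_comp (Function.Involutive.toPerm _ hinv)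
      (fun z : (ι → Y) × Y => (∏ i, ρ i ((Function.update z.1 j z.2) i)) * (π (z.1 j) * F z.1))
    rw [← this]
    refine Finset.sum_congr rfl fun z _ => ?_
    simp
  rw [e1, e2, Fintype.sum_prod_type]
  refine Finset.sum_congr rfl fun y _ => ?_
  have e3 : ∀ s : Y, ∏ i, ρ i ((Function.update y j s) i) =
      ρ j s * ∏ i ∈ Finset.univ.erase j, ρ i (y i) := by
    intro s
    rw [← Finset.mul_prod_erase Finset.univ _ (Finset.mem_univ j), Function.update_self]
    congr 1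
    refine Finset.prod_congr rfl fun i hi => ?_
    rw [Function.update_of_ne (Finset.ne_of_mem_erase hi)]
  have e4 : ∏ i, Function.update ρ j π i (y i) =
      π (y j) * ∏ i ∈ Finset.univ.erase j, ρ i (y i) := by
    rw [← Finset.mul_prod_erase Finset.univ _ (Finset.mem_univ j), Function.update_self]
    congr 1
    refine Finset.prod_congr rfl fun i hi => ?_
    rw [Function.update_of_ne (Finset.ne_of_mem_erase hi)]
  rw [e4]
  have e5 : ∑ s : Y, (∏ i, ρ i ((Function.update (y, s).1 j (y, s).2) i)) *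
      (π ((y, s).1 j) * F (y, s).1) =
      ∑ s : Y, ρ j s * ((∏ i ∈ Finset.univ.erase j, ρ i (y i)) * (π (y j) * F y)) := by
    refine Finset.sum_congr rfl fun s _ => ?_
    simp only
    rw [e3 s]
    ring
  rw [e5, ← Finset.sum_mul, hj]
  ring

lemma EE_indep (ρ : ι → Y → ℝ) (j : ι) (hj : ∑ y, ρ j y = 1) (g : Y → ℝ) (y₀ : Y)
    (Ψ : (ι → Y) → ℝ) :
    EE ρ (fun y => g (y j) * Ψ (Function.update y j y₀)) =
      (∑ s, ρ j s * g s) * EE ρ (fun y => Ψ (Function.update y j y₀)) := by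
  classical
  have h := EE_resample ρ j hj (ρ j) (fun y => g (y j) * Ψ (Function.update y j y₀))
  rw [Function.update_eq_self] at h
  rw [h, ← EE_smul]
  congr 1
  funext y
  rw [Finset.sum_mul]
  refine Finset.sum_congr rfl fun s _ => ?_
  rw [Function.update_self, Function.update_idem]
  ring

lemma EE_single (ρ : ι → Y → ℝ) (h1 : ∀ i, ∑ y, ρ i y = 1) (j : ι) (g : Y → ℝ) :
    EE ρ (fun y => g (y j)) = ∑ s, ρ j s * g s := by
  classical
  rcases isEmpty_or_nonempty Y with hY | ⟨⟨y₀⟩⟩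
  · exfalso
    have := h1 j
    rw [Finset.univ_eq_empty, Finset.sum_empty] at this
    norm_num at this
  · have h := EE_indep ρ j (h1 j) g y₀ (fun _ => 1)
    simp only [mul_one] at h
    rw [h, EE_const ρ h1, mul_one]

/-- Pushing forward. -/
lemma EE_push {Z : Type} [Fintype Z] [DecidableEq Z] (ρ : ι → Y → ℝ) (g : Y → Z)
    (H : (ι → Z) → ℝ) :
    EE (fun i z => ∑ y ∈ Finset.univ.filter (fun y => g y = z), ρ i y) H =
      EE ρ (fun y => H (fun i => g (y i))) := by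
  classical
  unfold EE
  have e1 : ∀ z : ι → Z, ∏ i, ∑ y ∈ Finset.univ.filter (fun y => g y = z i), ρ i y =
      ∑ y ∈ Fintype.piFinset (fun i => Finset.univ.filter (fun y => g y = z i)),
        ∏ i, ρ i (y i) := by
    intro z
    rw [Finset.prod_univ_sum]
  have e2 : ∀ z : ι → Z, (∏ i, ∑ y ∈ Finset.univ.filter (fun y => g y = z i), ρ i y) * H z =
      ∑ y ∈ (Finset.univ : Finset (ι → Y)).filter (fun y => (fun i => g (y i)) = z),
        (∏ i, ρ i (y i)) * H (fun i => g (y i)) := by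
    intro z
    rw [e1 z, Finset.sum_mul]
    have e3 : Fintype.piFinset (fun i => Finset.univ.filter (fun y => g y = z i)) =
        (Finset.univ : Finset (ι → Y)).filter (fun y => (fun i => g (y i)) = z) := by
      ext y
      simp only [Fintype.mem_piFinset, Finset.mem_filter, Finset.mem_univ, true_and]
      exact funext_iff.symm
    rw [e3]
    refine Finset.sum_congr rfl fun y hy => ?_
    rw [Finset.mem_filter] at hy
    rw [hy.2]
  rw [Finset.sum_congr rfl fun z _ => e2 z]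
  exact Finset.sum_fiberwise (Finset.univ : Finset (ι → Y)) (fun y => fun i => g (y i))
    (fun y => (∏ i, ρ i (y i)) * H (fun i => g (y i)))

/-- number of coordinates equal to `y₁` -/
def cnt (y₁ : Y) (y : ι → Y) : ℕ := (Finset.univ.filter (fun i => y i = y₁)).card

lemma cnt_cast (y₁ : Y) (y : ι → Y) : (cnt y₁ y : ℝ) = ∑ i, if y i = y₁ then (1 : ℝ) else 0 := by
  unfold cnt
  rw [Finset.card_filter]
  push_cast
  rfl

lemma cnt_update (y₁ y₀ : Y) (hne : y₀ ≠ y₁) (y : ι → Y) (j : ι) (hj : y j = y₁) :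
    cnt y₁ y = cnt y₁ (Function.update y j y₀) + 1 := by
  unfold cnt
  have h : Finset.univ.filter (fun i => y i = y₁) =
      insert j (Finset.univ.filter (fun i => Function.update y j y₀ i = y₁)) := by
    ext i
    rw [Finset.mem_insert, Finset.mem_filter, Finset.mem_filter]
    by_cases hi : i = j
    · subst hi
      simp [hj]
    · rw [Function.update_of_ne hi]
      simp [hi]
  rw [h, Finset.card_insert_of_notMem]
  rw [Finset.mem_filter, Function.update_self]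
  exact fun hh => hne hh.2

lemma cnt_update' (y₁ y₀ y₂ : Y) (hne : y₀ ≠ y₂) (hne' : y₁ ≠ y₂) (y : ι → Y) (j : ι)
    (hj : y j = y₁) :
    cnt y₂ y = cnt y₂ (Function.update y j y₀) := by
  unfold cnt
  congr 1
  ext i
  rw [Finset.mem_filter, Finset.mem_filter]
  by_cases hi : i = j
  · subst hi
    rw [Function.update_self, hj]
    simp [hne, hne']
  · rw [Function.update_of_ne hi]

/-- The variance of the count. -/
lemma cnt_var (ρ : ι → Y → ℝ) (h0 : ∀ i y, 0 ≤ ρ i y) (h1 : ∀ i, ∑ y, ρ i y = 1) (y₁ : Y) :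
    EE ρ (fun y => ((cnt y₁ y : ℝ) - ∑ i, ρ i y₁) ^ 2) ≤ ∑ i, ρ i y₁ := by
  classical
  set A : ℝ := ∑ i, ρ i y₁ with hA
  have hE1 : ∀ i, EE ρ (fun y => if y i = y₁ then (1 : ℝ) else 0) = ρ i y₁ := by
    intro i
    rw [EE_single ρ h1 i (fun s => if s = y₁ then (1 : ℝ) else 0)]
    simp
  have hE2 : ∀ i j, i ≠ j → EE ρ (fun y => (if y i = y₁ then (1 : ℝ) else 0) *
      (if y j = y₁ then (1 : ℝ) else 0)) = ρ i y₁ * ρ j y₁ := by
    intro i j hij
    have h := EE_indep ρ i (h1 i) (fun s => if s = y₁ then (1 : ℝ) else 0) y₁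
      (fun y => if y j = y₁ then (1 : ℝ) else 0)
    have e1 : ∀ y : ι → Y, Function.update y i y₁ j = y j := fun y =>
      Function.update_of_ne (Ne.symm hij) _ _
    simp only [e1] at h
    rw [h, hE1 j]
    simp
  have hmean : EE ρ (fun y => (cnt y₁ y : ℝ)) = A := by
    simp only [cnt_cast]
    rw [EE_sum]
    exact Finset.sum_congr rfl fun i _ => hE1 i
  have hsq : EE ρ (fun y => (cnt y₁ y : ℝ) ^ 2) ≤ A + A ^ 2 := by
    have e1 : ∀ y : ι → Y, (cnt y₁ y : ℝ) ^ 2 = ∑ i, ∑ j, (if y i = y₁ then (1 : ℝ) else 0) *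
      (if y j = y₁ then (1 : ℝ) else 0) := by
      intro y
      rw [cnt_cast, sq, Finset.sum_mul_sum]
    simp only [e1]
    rw [EE_sum]
    have e2 : ∀ i ∈ (Finset.univ : Finset ι), EE ρ (fun y => ∑ j, (if y i = y₁ then (1 : ℝ) else 0) *
      (if y j = y₁ then (1 : ℝ) else 0)) ≤ ρ i y₁ + ρ i y₁ * A := by
      intro i _
      rw [EE_sum]
      have e3 : ∀ j ∈ (Finset.univ : Finset ι), EE ρ (fun y => (if y i = y₁ then (1 : ℝ) else 0) *
        (if y j = y₁ then (1 : ℝ) else 0)) ≤ (if j = i then ρ i y₁ else 0) + ρ i y₁ * ρ j y₁ := by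
        intro j _
        by_cases hij : j = i
        · rw [if_pos hij, hij]
          have e4 : ∀ y : ι → Y, (if y i = y₁ then (1 : ℝ) else 0) *
              (if y i = y₁ then (1 : ℝ) else 0) = if y i = y₁ then (1 : ℝ) else 0 := by
            intro y
            split_ifs <;> norm_num
          simp only [e4]
          rw [hE1 i]
          have := mul_nonneg (h0 i y₁) (h0 i y₁)
          linarith
        · rw [if_neg hij, hE2 i j (Ne.symm hij), zero_add]
      refine (Finset.sum_le_sum e3).trans (le_of_eq ?_)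
      rw [Finset.sum_add_distrib, Finset.sum_ite_eq' , if_pos (Finset.mem_univ i),
        ← Finset.mul_sum]
    refine (Finset.sum_le_sum e2).trans (le_of_eq ?_)
    rw [Finset.sum_add_distrib, ← Finset.sum_mul]
    ring
  have e5 : ∀ y : ι → Y, ((cnt y₁ y : ℝ) - A) ^ 2 =
      ((cnt y₁ y : ℝ) ^ 2 - (2 * A) * (cnt y₁ y : ℝ)) + A ^ 2 := by
    intro y
    ring
  simp only [e5]
  rw [EE_add, EE_sub, EE_smul, EE_const ρ h1, hmean]
  nlinarith

/-- Smoothness of the count under unit shifts. -/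
theorem EE_smooth (ρ : ι → Y → ℝ) (h0 : ∀ i y, 0 ≤ ρ i y) (h1 : ∀ i, ∑ y, ρ i y = 1)
    (y₀ y₁ : Y) (Φ Ψ : (ι → Y) → ℝ) (hΦ : ∀ y, |Φ y| ≤ 1) (hΨ : ∀ y, |Ψ y| ≤ 1)
    (hΦΨ : ∀ y j, y j = y₁ → Φ y = Ψ (Function.update y j y₀))
    (hA : 0 < ∑ i, ρ i y₁) :
    |EE ρ Ψ - EE ρ Φ| ≤ 2 * (∑ i, ρ i y₁ * (1 - ρ i y₀)) / (∑ i, ρ i y₁) +
      1 / √(∑ i, ρ i y₁) := by
  classical
  set A : ℝ := ∑ i, ρ i y₁ with hAdef
  -- size bias identity
  have hsb : |EE ρ (fun y => (cnt y₁ y : ℝ) * Φ y) - A * EE ρ Ψ| ≤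
      2 * ∑ i, ρ i y₁ * (1 - ρ i y₀) := by
    have e1 : ∀ y : ι → Y, (cnt y₁ y : ℝ) * Φ y =
        ∑ i, (if y i = y₁ then (1 : ℝ) else 0) * Ψ (Function.update y i y₀) := by
      intro y
      rw [cnt_cast, Finset.sum_mul]
      refine Finset.sum_congr rfl fun i _ => ?_
      split_ifs with h
      · rw [hΦΨ y i h]
      · simp
    simp only [e1]
    rw [EE_sum, hAdef, Finset.sum_mul, ← Finset.sum_sub_distrib]
    refine (Finset.abs_sum_le_sum_abs _ _).trans ?_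
    rw [Finset.mul_sum]
    refine Finset.sum_le_sum fun i _ => ?_
    rw [EE_indep ρ i (h1 i) (fun s => if s = y₁ then (1 : ℝ) else 0) y₀ Ψ]
    have e2 : ∑ s, ρ i s * (if s = y₁ then (1 : ℝ) else 0) = ρ i y₁ := by simp
    rw [e2, ← mul_sub, abs_mul, abs_of_nonneg (h0 i y₁), ← EE_sub]
    have e3 : |EE ρ (fun y => Ψ (Function.update y i y₀) - Ψ y)| ≤ 2 * (1 - ρ i y₀) := by
      refine (EE_abs_le ρ h0 _).trans ?_
      have e4 : ∀ y : ι → Y, |Ψ (Function.update y i y₀) - Ψ y| ≤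
          2 * (if y i = y₀ then (0 : ℝ) else 1) := by
        intro y
        split_ifs with h
        · rw [← h, Function.update_eq_self, sub_self, abs_zero, mul_zero]
        · have := abs_sub (Ψ (Function.update y i y₀)) (Ψ y)
          have h2 := hΨ (Function.update y i y₀)
          have h3 := hΨ y
          linarith
      refine (EE_mono ρ h0 _ _ e4).trans (le_of_eq ?_)
      rw [EE_smul, EE_single ρ h1 i (fun s => if s = y₀ then (0 : ℝ) else 1)]
      congr 1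
      have e5 : ∀ s, ρ i s * (if s = y₀ then (0 : ℝ) else 1) =
          ρ i s - ρ i s * (if s = y₀ then (1 : ℝ) else 0) := by
        intro s
        split_ifs <;> ring
      rw [Finset.sum_congr rfl fun s _ => e5 s, Finset.sum_sub_distrib, h1 i]
      simp
    calc ρ i y₁ * |EE ρ (fun y => Ψ (Function.update y i y₀) - Ψ y)|
        ≤ ρ i y₁ * (2 * (1 - ρ i y₀)) := mul_le_mul_of_nonneg_left e3 (h0 i y₁)
      _ = _ := by ring
  -- concentration
  have hcc : |EE ρ (fun y => (cnt y₁ y : ℝ) * Φ y) - A * EE ρ Φ| ≤ √A := by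
    rw [← EE_smul, ← EE_sub]
    refine (EE_abs_le ρ h0 _).trans ?_
    have e1 : ∀ y : ι → Y, |(cnt y₁ y : ℝ) * Φ y - A * Φ y| ≤ |(cnt y₁ y : ℝ) - A| := by
      intro y
      rw [← sub_mul, abs_mul]
      calc _ ≤ |(cnt y₁ y : ℝ) - A| * 1 := mul_le_mul_of_nonneg_left (hΦ y) (abs_nonneg _)
        _ = _ := mul_one _
    refine (EE_mono ρ h0 _ _ e1).trans ?_
    apply Real.le_sqrt_of_sq_le
    exact (EE_abs_sq ρ h0 h1 _).trans (cnt_var ρ h0 h1 y₁)
  have h3 : A * |EE ρ Ψ - EE ρ Φ| ≤ 2 * (∑ i, ρ i y₁ * (1 - ρ i y₀)) + √A := by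
    rw [← abs_of_pos hA, ← abs_mul, abs_of_pos hA]
    have e1 : A * (EE ρ Ψ - EE ρ Φ) =
        (EE ρ (fun y => (cnt y₁ y : ℝ) * Φ y) - A * EE ρ Φ) -
        (EE ρ (fun y => (cnt y₁ y : ℝ) * Φ y) - A * EE ρ Ψ) := by ring
    rw [e1]
    refine (abs_sub _ _).trans ?_
    linarith
  have h4 : 2 * (∑ i, ρ i y₁ * (1 - ρ i y₀)) / A + 1 / √A =
      (2 * (∑ i, ρ i y₁ * (1 - ρ i y₀)) + √A) / A := by
    have hs : 0 < √A := Real.sqrt_pos.mpr hA
    have hs2 : √A * √A = A := Real.mul_self_sqrt hA.le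
    rw [add_div]
    congr 1
    rw [div_eq_div_iff hs.ne' hA.ne', one_mul, hs2]
  rw [h4, le_div_iff₀ hA, mul_comm]
  exact h3

end EE

end Helper13.Om
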