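import Mathlib
import Pool.Agent.Helper13.Om.EE

set_option autoImplicit false
set_option linter.unusedSectionVars false

/-! Smoothness of the counts in the model, and growth of the prime harmonic sum. -/

namespace Helper13.Om

open Finset Filter

lemma rho_sum_one {Y : Type} [Fintype Y] [DecidableEq Y] (P : Finset ℕ) (hP : ∀ q ∈ P, q.Prime)
    (φ : ℕ → ℕ → Y) : ∀ q : P, ∑ y, rho φ q y = 1 := fun q => rho_sum φ q (hP q q.2).pos

lemma rho_kap_some (k : ℕ) (i₀ : Fin k) (q : ℕ) (hq : q.Prime) (hkq : k ≤ q) (i : Fin k)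
    (hi : i ≠ i₀) : rho (kap k i₀) q (some i) = 1 / q := by
  unfold rho
  rw [kap_card_some k i₀ q hq hkq i hi]
  norm_num

lemma rho_kap_some₀ (k : ℕ) (i₀ : Fin k) (q : ℕ) (hkq : k ≤ q) :
    rho (kap k i₀) q (some i₀) = 0 := by
  unfold rho
  have : (Finset.range q).filter (fun r => kap k i₀ q r = some i₀) = ∅ := by
    rw [Finset.filter_eq_empty_iff]
    intro r _ h
    exact ((kap_some k i₀ q r hkq i₀).mp h).1 rfl
  rw [this]
  simp

lemma one_sub_rho_kap_none (k : ℕ) (i₀ : Fin k) (q : ℕ) (hq : q.Prime) (hkq : k ≤ q) :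
    1 - rho (kap k i₀) q none ≤ k / q := by
  have h1 := rho_sum (kap k i₀) q hq.pos
  have h2 := sum_rho_ite (kap k i₀) none q
  have h3 : ∀ y, rho (kap k i₀) q y * (if y ≠ none then (1 : ℝ) else 0) =
      rho (kap k i₀) q y - rho (kap k i₀) q y * (if y = none then (1 : ℝ) else 0) := by
    intro y
    by_cases h : y = none
    · simp [h]
    · simp [h]
  rw [Finset.sum_congr rfl fun y _ => h3 y, Finset.sum_sub_distrib, h1] at h2
  have h4 : ∑ y, rho (kap k i₀) q y * (if y = none then (1 : ℝ) else 0) =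
      rho (kap k i₀) q none := by simp
  rw [h4] at h2
  rw [h2]
  unfold pbad
  apply div_le_div_of_nonneg_right _ (Nat.cast_nonneg _)
  exact_mod_cast kap_card_bad k i₀ q hq hkq

/-- the smoothness error -/
noncomputable def smo (k : ℕ) (P : Finset ℕ) : ℝ :=
  2 * k * (∑ q ∈ P, (1 : ℝ) / (q : ℝ) ^ 2) / (∑ q ∈ P, (1 : ℝ) / q) + 1 / √(∑ q ∈ P, (1 : ℝ) / q)

lemma smo_nonneg (k : ℕ) (P : Finset ℕ) : 0 ≤ smo k P := by
  unfold smo
  positivity

/-- the vector of counts -/
def vec (k : ℕ) (P : Finset ℕ) (y : P → Option (Fin k)) : Fin k → ℕ := fun i => cnt (some i) y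

lemma vec_update (k : ℕ) (P : Finset ℕ) (y : P → Option (Fin k)) (j : Fin k) (q : P)
    (hq : y q = some j) : vec k P y = vec k P (Function.update y q none) + Pi.single j 1 := by
  funext i
  unfold vec
  rw [Pi.add_apply]
  by_cases hij : i = j
  · rw [hij, Pi.single_eq_same]
    exact cnt_update (some j) none (by simp) y q hq
  · rw [Pi.single_eq_of_ne hij, add_zero]
    refine cnt_update' (some j) none (some i) (by simp) ?_ y q hq
    simpa using Ne.symm hij

lemma shift_one (k : ℕ) (i₀ : Fin k) (P : Finset ℕ) (hP : ∀ q ∈ P, q.Prime ∧ k ≤ q)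
    (hA : 0 < ∑ q ∈ P, (1 : ℝ) / q) (F : (Fin k → ℕ) → ℝ) (hF : ∀ s, |F s| ≤ 1) (j : Fin k)
    (hj : j ≠ i₀) :
    |Enu P (kap k i₀) (fun y => F (vec k P y + Pi.single j 1)) -
      Enu P (kap k i₀) (fun y => F (vec k P y))| ≤ smo k P := by
  classical
  rw [Enu_eq_EE, Enu_eq_EE]
  have hρ : ∀ q : P, rho (kap k i₀) q (some j) = 1 / (q : ℝ) := fun q =>
    rho_kap_some k i₀ q (hP q q.2).1 (hP q q.2).2 j hj
  have hAe : ∑ q : P, rho (kap k i₀) q (some j) = ∑ q ∈ P, (1 : ℝ) / q := by
    rw [Finset.sum_congr rfl fun q _ => hρ q]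
    exact Finset.sum_coe_sort P (fun q => (1 : ℝ) / q)
  have h := EE_smooth (fun q : P => rho (kap k i₀) q) (fun q y => rho_nonneg _ _ _)
    (rho_sum_one P (fun q hq => (hP q hq).1) (kap k i₀)) none (some j)
    (fun y => F (vec k P y)) (fun y => F (vec k P y + Pi.single j 1)) (fun y => hF _)
    (fun y => hF _) (by
      intro y q hq
      exact congrArg F (vec_update k P y j q hq)) (by rw [hAe]; exact hA)
  refine h.trans ?_
  rw [hAe]
  unfold smo
  apply add_le_add _ le_rfl
  apply div_le_div_of_nonneg_right _ hA.le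
  have h2 : ∑ q : P, rho (kap k i₀) q (some j) * (1 - rho (kap k i₀) q none) ≤
      ∑ q : P, k * ((1 : ℝ) / (q : ℝ) ^ 2) := by
    refine Finset.sum_le_sum fun q _ => ?_
    rw [hρ q]
    have h3 := one_sub_rho_kap_none k i₀ q (hP q q.2).1 (hP q q.2).2
    calc (1 : ℝ) / (q : ℝ) * (1 - rho (kap k i₀) q none) ≤ 1 / (q : ℝ) * (k / q) :=
          mul_le_mul_of_nonneg_left h3 (by positivity)
      _ = _ := by ring
  rw [← Finset.mul_sum, Finset.sum_coe_sort P (fun q => (1 : ℝ) / (q : ℝ) ^ 2)] at h2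
  calc 2 * ∑ q : P, rho (kap k i₀) q (some j) * (1 - rho (kap k i₀) q none)
      ≤ 2 * (k * ∑ q ∈ P, (1 : ℝ) / (q : ℝ) ^ 2) := mul_le_mul_of_nonneg_left h2 (by norm_num)
    _ = _ := by ring

/-- Smoothness under arbitrary shifts of the coordinates other than `i₀`. -/
theorem shift_many (k : ℕ) (i₀ : Fin k) (P : Finset ℕ) (hP : ∀ q ∈ P, q.Prime ∧ k ≤ q)
    (hA : 0 < ∑ q ∈ P, (1 : ℝ) / q) (n : ℕ) : ∀ (d : Fin k → ℕ), d i₀ = 0 → ∑ i, d i = n →
    ∀ (F : (Fin k → ℕ) → ℝ), (∀ s, |F s| ≤ 1) →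
    |Enu P (kap k i₀) (fun y => F (vec k P y + d)) -
      Enu P (kap k i₀) (fun y => F (vec k P y))| ≤ n * smo k P := by
  classical
  induction n with
  | zero =>
    intro d _ hd F _
    have h0 : d = 0 := by
      funext i
      have := (Finset.sum_eq_zero_iff.mp hd) i (Finset.mem_univ i)
      simpa using this
    rw [h0]
    simp
  | succ n ih =>
    intro d hd0 hd F hF
    obtain ⟨j, hj⟩ : ∃ j, d j ≠ 0 := by
      by_contra hcon
      push Not at hcon
      rw [Finset.sum_eq_zero (fun i _ => hcon i)] at hd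
      omega
    have hji : j ≠ i₀ := by
      rintro rfl
      exact hj hd0
    set d' : Fin k → ℕ := Function.update d j (d j - 1) with hd'
    have hdd : d = d' + Pi.single j 1 := by
      funext i
      rw [Pi.add_apply, hd']
      by_cases hij : i = j
      · rw [hij, Function.update_self, Pi.single_eq_same]
        omega
      · rw [Function.update_of_ne hij, Pi.single_eq_of_ne hij, add_zero]
    have hd'0 : d' i₀ = 0 := by
      rw [hd', Function.update_of_ne (Ne.symm hji)]
      exact hd0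
    have hd'n : ∑ i, d' i = n := by
      have h1 : ∑ i, d i = ∑ i, d' i + 1 := by
        conv_lhs => rw [hdd]
        simp only [Pi.add_apply]
        rw [Finset.sum_add_distrib]
        congr 1
        rw [Finset.sum_pi_single']
        simp
      omega
    have h1 := ih d' hd'0 hd'n F hF
    have h2 := shift_one k i₀ P hP hA (fun s => F (s + d')) (fun s => hF _) j hji
    have e1 : ∀ y, vec k P y + d = vec k P y + Pi.single j 1 + d' := by
      intro y
      rw [hdd, add_assoc, add_comm d']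
    have e2 : Enu P (kap k i₀) (fun y => F (vec k P y + d)) -
        Enu P (kap k i₀) (fun y => F (vec k P y)) =
        (Enu P (kap k i₀) (fun y => F (vec k P y + Pi.single j 1 + d')) -
          Enu P (kap k i₀) (fun y => F (vec k P y + d'))) +
        (Enu P (kap k i₀) (fun y => F (vec k P y + d')) -
          Enu P (kap k i₀) (fun y => F (vec k P y))) := by
      simp only [e1]
      ring
    rw [e2]
    refine (abs_add_le _ _).trans ?_
    have e3 : (((n + 1 : ℕ) : ℝ)) * smo k P = smo k P + n * smo k P := by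
      push_cast
      ring
    rw [e3]
    exact add_le_add h2 h1

/-- The prime harmonic sum over `Pu u N` tends to infinity. -/
lemma A_large (u : ℕ) (hu : 1 ≤ u) (B : ℝ) :
    ∃ N₀ : ℕ, ∀ N ≥ N₀, B ≤ ∑ q ∈ Pu u N, (1 : ℝ) / q := by
  classical
  by_contra hcon
  push Not at hcon
  apply not_summable_one_div_on_primes
  -- partial sums bounded
  have hB : ∀ M : ℕ, ∑ q ∈ (Finset.range M).filter (fun q => q.Prime ∧ u < q), (1 : ℝ) / q ≤ B := by
    intro M
    obtain ⟨N, hN, hlt⟩ := hcon (M ^ u)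
    refine le_trans ?_ hlt.le
    apply Finset.sum_le_sum_of_subset_of_nonneg
    · intro q hq
      rw [Finset.mem_filter, Finset.mem_range] at hq
      rw [mem_Pu u N q hu]
      exact ⟨hq.2.1, hq.2.2, (Nat.pow_le_pow_left hq.1.le u).trans hN⟩
    · intro q _ _
      positivity
  apply summable_of_sum_range_le (c := B + (u + 1))
  · intro n
    apply Set.indicator_nonneg
    intro q _
    positivity
  · intro M
    have h1 : ∀ n ∈ Finset.range M, Set.indicator {p : ℕ | p.Prime} (fun n : ℕ => (1 : ℝ) / n) n ≤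
        (if n.Prime ∧ u < n then (1 : ℝ) / n else 0) + if n < u + 1 then 1 else 0 := by
      intro n _
      by_cases hp : n.Prime
      · rw [Set.indicator_of_mem (show n ∈ {p : ℕ | p.Prime} from hp)]
        by_cases hun : u < n
        · rw [if_pos ⟨hp, hun⟩]
          have : (0 : ℝ) ≤ if n < u + 1 then 1 else 0 := by split_ifs <;> norm_num
          linarith
        · rw [if_neg (fun h => hun h.2), if_pos (by omega), zero_add]
          apply div_le_one_of_le₀ _ (Nat.cast_nonneg _)
          exact_mod_cast hp.one_le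
      · rw [Set.indicator_of_notMem (show n ∉ {p : ℕ | p.Prime} from hp)]
        positivity
    refine (Finset.sum_le_sum h1).trans ?_
    rw [Finset.sum_add_distrib]
    apply add_le_add
    · rw [← Finset.sum_filter]
      exact hB M
    · rw [← Finset.sum_filter, Finset.sum_const, nsmul_eq_mul, mul_one]
      have h2 : (Finset.range M).filter (fun n => n < u + 1) ⊆ Finset.range (u + 1) := by
        intro n hn
        rw [Finset.mem_filter] at hn
        exact Finset.mem_range.mpr hn.2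
      have := Finset.card_le_card h2
      rw [Finset.card_range] at this
      exact_mod_cast this

lemma smo_small (k u : ℕ) (hu : 1 ≤ u) (ε : ℝ) (hε : 0 < ε) :
    ∃ N₀ : ℕ, ∀ N ≥ N₀, 0 < ∑ q ∈ Pu u N, (1 : ℝ) / q ∧ smo k (Pu u N) ≤ ε := by
  have hB : 0 < (4 * k + 1) / ε + 4 / ε ^ 2 := by positivity
  obtain ⟨N₀, hN₀⟩ := A_large u hu ((4 * k + 1) / ε + 4 / ε ^ 2)
  refine ⟨N₀, fun N hN => ?_⟩
  have h := hN₀ N hN
  set A := ∑ q ∈ Pu u N, (1 : ℝ) / q with hA
  have hA0 : 0 < A := lt_of_lt_of_le hB h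
  refine ⟨hA0, ?_⟩
  unfold smo
  rw [← hA]
  have h2 := sum_inv_sq_le (Pu u N) u hu (fun q hq => ((mem_Pu u N q hu).mp hq).2.1)
  have hu1 : (1 : ℝ) / u ≤ 1 := by
    apply div_le_one_of_le₀ _ (Nat.cast_nonneg _)
    exact_mod_cast hu
  have h3 : 2 * (k : ℝ) * (∑ q ∈ Pu u N, (1 : ℝ) / (q : ℝ) ^ 2) / A ≤ ε / 2 := by
    rw [div_le_iff₀ hA0]
    have h4 : 2 * (k : ℝ) * (∑ q ∈ Pu u N, (1 : ℝ) / (q : ℝ) ^ 2) ≤ 2 * k * 1 :=
      mul_le_mul_of_nonneg_left (h2.trans hu1) (by positivity)
    refine h4.trans ?_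
    have h5 : (4 * k + 1) / ε ≤ A := le_trans (by
      have : 0 < 4 / ε ^ 2 := by positivity
      linarith) h
    rw [div_le_iff₀ hε] at h5
    linarith
  have h4 : 1 / √A ≤ ε / 2 := by
    have h5 : 4 / ε ^ 2 ≤ A := le_trans (by
      have : 0 < (4 * (k : ℝ) + 1) / ε := by positivity
      linarith) h
    have h6 : 2 / ε ≤ √A := by
      apply Real.le_sqrt_of_sq_le
      rw [div_pow]
      norm_num
      exact h5
    have h7 : 0 < √A := Real.sqrt_pos.mpr hA0
    rw [div_le_iff₀ hε] at h6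
    rw [div_le_iff₀ h7]
    linarith
  linarith

end Helper13.Om
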