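import Mathlib
import Pool.Agent.Helper13.Om.Smooth

set_option autoImplicit false
set_option linter.unusedSectionVars false

/-! The truncated count of prime factors. -/

namespace Helper13.Om

open Finset Filter

/-- number of prime factors `p` of `n`, counted with multiplicity, with `p ^ u ≤ N` -/
def OmT (u N n : ℕ) : ℕ := (n.primeFactorsList.filter (fun p => p ^ u ≤ N)).length

lemma OmT_eq_sum (u N n : ℕ) :
    OmT u N n = ∑ p ∈ n.primeFactors.filter (fun p => p ^ u ≤ N), n.factorization p := by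
  classical
  unfold OmT
  rw [← List.sum_toFinset_count_eq_length]
  have h1 : (n.primeFactorsList.filter (fun p => p ^ u ≤ N)).toFinset =
      n.primeFactors.filter (fun p => p ^ u ≤ N) := by
    ext p
    rw [List.mem_toFinset, List.mem_filter, Finset.mem_filter, ← Nat.toFinset_factors,
      List.mem_toFinset, decide_eq_true_eq]
  rw [h1]
  refine Finset.sum_congr rfl fun p hp => ?_
  rw [Finset.mem_filter] at hp
  rw [List.count_filter (by simpa using hp.2), Nat.primeFactorsList_count_eq]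

/-- the primes up to `u` -/
def Ssm (u : ℕ) : Finset ℕ := (Finset.range (u + 1)).filter Nat.Prime

lemma mem_Ssm (u p : ℕ) : p ∈ Ssm u ↔ p ≤ u ∧ p.Prime := by
  unfold Ssm
  rw [Finset.mem_filter, Finset.mem_range, Nat.lt_succ_iff]

lemma OmT_split (u N n : ℕ) (hu : 1 ≤ u) (hN : u ^ u ≤ N) :
    OmT u N n = ∑ p ∈ Ssm u, n.factorization p + ∑ q ∈ Pu u N, n.factorization q := by
  classical
  rw [OmT_eq_sum]
  have hdisj : Disjoint (Ssm u) (Pu u N) := by
    rw [Finset.disjoint_left]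
    intro p hp hp'
    rw [mem_Ssm] at hp
    rw [mem_Pu u N p hu] at hp'
    omega
  rw [← Finset.sum_union hdisj]
  apply Finset.sum_subset
  · intro p hp
    rw [Finset.mem_filter, Nat.mem_primeFactors] at hp
    rw [Finset.mem_union, mem_Ssm, mem_Pu u N p hu]
    rcases le_or_gt p u with h | h
    · left
      exact ⟨h, hp.1.1⟩
    · right
      exact ⟨hp.1.1, h, hp.2⟩
  · intro p hp hp'
    have hpp : p.Prime ∧ p ^ u ≤ N := by
      rw [Finset.mem_union, mem_Ssm, mem_Pu u N p hu] at hp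
      rcases hp with h | h
      · exact ⟨h.2, (Nat.pow_le_pow_left h.1 u).trans hN⟩
      · exact ⟨h.1, h.2.2⟩
    by_contra hne
    apply hp'
    rw [Finset.mem_filter]
    refine ⟨?_, hpp.2⟩
    rw [← Nat.support_factorization]
    exact Finsupp.mem_support_iff.mpr hne

/-- the small-prime part, read off from the residue class -/
def Dsm (u i j c : ℕ) : ℕ :=
  ∑ p ∈ Ssm u, ((Finset.Icc 1 u).filter (fun a => (c + i) % p ^ a = j % p ^ a)).card

lemma Dsm_le (u i j c : ℕ) : Dsm u i j c ≤ (u + 1) * u := by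
  unfold Dsm
  have h1 : ∀ p ∈ Ssm u,
      ((Finset.Icc 1 u).filter (fun a => (c + i) % p ^ a = j % p ^ a)).card ≤ u := by
    intro p _
    refine (Finset.card_filter_le _ _).trans ?_
    rw [Nat.card_Icc]
    omega
  refine (Finset.sum_le_card_nsmul _ _ _ h1).trans ?_
  rw [smul_eq_mul]
  apply Nat.mul_le_mul_right
  unfold Ssm
  refine (Finset.card_filter_le _ _).trans ?_
  rw [Finset.card_range]

/-- the modulus -/
def Wm (u : ℕ) : ℕ := (u.factorial) ^ u

lemma Wm_pos (u : ℕ) : 1 ≤ Wm u := Nat.one_le_pow _ _ (Nat.factorial_pos u)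

lemma Wm_prime (u p : ℕ) (hp : p.Prime) (h : p ∣ Wm u) : p ≤ u :=
  (Nat.Prime.dvd_factorial hp).mp (hp.dvd_of_dvd_pow h)

lemma pow_dvd_Wm (u p a : ℕ) (hp : p ∈ Ssm u) (ha : a ≤ u) : p ^ a ∣ Wm u := by
  rw [mem_Ssm] at hp
  have h1 : p ∣ u.factorial := (Nat.Prime.dvd_factorial hp.2).mpr hp.1
  exact (pow_dvd_pow p ha).trans (pow_dvd_pow_of_dvd h1 u)

lemma mod_iff (n i j d : ℕ) : (n + j + i) % d = j % d ↔ d ∣ n + i := by
  have e1 : n + j + i = j + (n + i) := by ring
  rw [e1]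
  constructor
  · intro h
    have h1 : j + (n + i) ≡ j + 0 [MOD d] := by
      rw [add_zero]
      exact h
    exact (Nat.modEq_zero_iff_dvd).mp (Nat.ModEq.add_left_cancel' j h1)
  · rintro ⟨c, hc⟩
    rw [hc, Nat.add_mul_mod_self_left]

lemma Dsm_eq (u i j n : ℕ) :
    Dsm u i j ((n + j) % Wm u) =
      ∑ p ∈ Ssm u, ((Finset.Icc 1 u).filter (fun a => p ^ a ∣ n + i)).card := by
  unfold Dsm
  refine Finset.sum_congr rfl fun p hp => ?_
  congr 1
  refine Finset.filter_congr fun a ha => ?_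
  rw [Finset.mem_Icc] at ha
  have hd := pow_dvd_Wm u p a hp ha.2
  have h1 : ((n + j) % Wm u + i) % p ^ a = (n + j + i) % p ^ a := by
    rw [Nat.add_mod, Nat.mod_mod_of_dvd _ hd, ← Nat.add_mod]
  rw [h1]
  exact mod_iff n i j (p ^ a)

lemma vec_kap (k : ℕ) (i₀ : Fin k) (P : Finset ℕ) (hP : ∀ q ∈ P, k ≤ q) (n : ℕ) (i : Fin k)
    (hi : i ≠ i₀) :
    vec k P (fun q => kap k i₀ q (n + i₀)) i = (P.filter (fun q => q ∣ n + i)).card := by
  classical
  unfold vec cnt
  have h1 : (Finset.univ.filter (fun q : P => kap k i₀ q (n + i₀) = some i)) =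
      (Finset.univ.filter (fun q : P => (q : ℕ) ∣ n + i)) := by
    refine Finset.filter_congr fun q _ => ?_
    rw [kap_some k i₀ q (n + i₀) (hP q q.2) i]
    rw [mod_iff n i i₀ q]
    exact ⟨fun h => h.2, fun h => ⟨hi, h⟩⟩
  rw [h1]
  have h2 := Sc_eq_om P (n + i)
  unfold Sc om at h2
  exact h2

/-- exceptional integers -/
def Exc (k u N : ℕ) (n : ℕ) : Prop :=
  ∃ i : Fin k, (∃ p ∈ Ssm u, p ^ (u + 1) ∣ n + i) ∨ (∃ q ∈ Pu u N, q ^ 2 ∣ n + i)

lemma factorization_eq_small (u p m : ℕ) (hp : p.Prime) (hm : m ≠ 0)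
    (h : ¬ p ^ (u + 1) ∣ m) :
    m.factorization p = ((Finset.Icc 1 u).filter (fun a => p ^ a ∣ m)).card := by
  classical
  have h1 : (Finset.Icc 1 u).filter (fun a => p ^ a ∣ m) = Finset.Icc 1 (m.factorization p) := by
    ext a
    rw [Finset.mem_filter, Finset.mem_Icc, Finset.mem_Icc,
      hp.pow_dvd_iff_le_factorization hm]
    rw [hp.pow_dvd_iff_le_factorization hm] at h
    constructor
    · rintro ⟨⟨h1, h2⟩, h3⟩
      exact ⟨h1, h3⟩
    · rintro ⟨h1, h2⟩
      exact ⟨⟨h1, by omega⟩, h2⟩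
  rw [h1, Nat.card_Icc]
  omega

lemma factorization_eq_one (q m : ℕ) (hq : q.Prime) (hm : m ≠ 0) (h : ¬ q ^ 2 ∣ m) :
    m.factorization q = if q ∣ m then 1 else 0 := by
  have h1 := factorization_eq_small 1 q m hq hm h
  rw [h1]
  have h2 : (Finset.Icc 1 1).filter (fun a => q ^ a ∣ m) = if q ∣ m then {1} else ∅ := by
    rw [Finset.Icc_self, Finset.filter_singleton, pow_one]
  rw [h2]
  split_ifs <;> simp

lemma OmT_good (k : ℕ) (i₀ : Fin k) (u N n : ℕ) (hu : 1 ≤ u) (hN : u ^ u ≤ N) (hn : 1 ≤ n)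
    (hk : k ≤ u) (hgood : ¬ Exc k u N n) (i : Fin k) (hi : i ≠ i₀) :
    OmT u N (n + i) = vec k (Pu u N) (fun q => kap k i₀ q (n + i₀)) i +
      Dsm u i i₀ ((n + i₀) % Wm u) := by
  classical
  unfold Exc at hgood
  push Not at hgood
  obtain ⟨hg1, hg2⟩ := hgood i
  rw [OmT_split u N (n + i) hu hN, Dsm_eq, vec_kap k i₀ (Pu u N) (by
    intro q hq
    rw [mem_Pu u N q hu] at hq
    omega) n i hi, add_comm]
  congr 1
  · rw [Finset.card_filter]
    refine Finset.sum_congr rfl fun q hq => ?_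
    have hq' := (mem_Pu u N q hu).mp hq
    exact factorization_eq_one q (n + i) hq'.1 (by omega) (hg2 q hq)
  · refine Finset.sum_congr rfl fun p hp => ?_
    have hp' := (mem_Ssm u p).mp hp
    exact factorization_eq_small u p (n + i) hp'.2 (by omega) (hg1 p hp)

lemma card_shift_dvd (N i d : ℕ) :
    ((Finset.Icc 1 N).filter (fun n => d ∣ n + i)).card ≤ (N + i) / d := by
  rw [← card_Icc_dvd]
  apply Finset.card_le_card_of_injOn (fun n => n + i)
  · intro n hn
    rw [Finset.mem_coe, Finset.mem_filter, Finset.mem_Icc] at hn ⊢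
    simp only
    exact ⟨⟨by omega, by omega⟩, hn.2⟩
  · intro a _ b _ hab
    simp only at hab
    omega

open Classical in
lemma card_Exc (k u N : ℕ) (hu : 1 ≤ u) (hkN : k ≤ N) :
    (((Finset.Icc 1 N).filter (Exc k u N)).card : ℝ) ≤ 4 * k / u * N := by
  have huR : (0 : ℝ) < u := by exact_mod_cast hu
  have h1 : (Finset.Icc 1 N).filter (Exc k u N) ⊆
      (Finset.univ : Finset (Fin k)).biUnion (fun i =>
        (Ssm u).biUnion (fun p => (Finset.Icc 1 N).filter (fun n => p ^ (u + 1) ∣ n + i)) ∪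
        (Pu u N).biUnion (fun q => (Finset.Icc 1 N).filter (fun n => q ^ 2 ∣ n + i))) := by
    intro n hn
    rw [Finset.mem_filter] at hn
    obtain ⟨hn1, i, hi⟩ := hn
    rw [Finset.mem_biUnion]
    refine ⟨i, Finset.mem_univ _, ?_⟩
    rw [Finset.mem_union, Finset.mem_biUnion, Finset.mem_biUnion]
    rcases hi with ⟨p, hp, h⟩ | ⟨q, hq, h⟩
    · exact Or.inl ⟨p, hp, Finset.mem_filter.mpr ⟨hn1, h⟩⟩
    · exact Or.inr ⟨q, hq, Finset.mem_filter.mpr ⟨hn1, h⟩⟩
  have h2 : ∀ i : Fin k, ∀ d : ℕ, (((Finset.Icc 1 N).filter (fun n => d ∣ n + i)).card : ℝ) ≤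
      2 * N * (1 / d) := by
    intro i d
    have h3 := card_shift_dvd N i d
    have h4 : (((N + (i : ℕ)) / d : ℕ) : ℝ) ≤ ((N + (i : ℕ) : ℕ) : ℝ) * (1 / d) := natdiv_le _ _
    have h5 : ((N + (i : ℕ) : ℕ) : ℝ) ≤ 2 * N := by
      have : N + (i : ℕ) ≤ 2 * N := by
        have := i.2
        omega
      exact_mod_cast this
    have h6 : (((Finset.Icc 1 N).filter (fun n => d ∣ n + i)).card : ℝ) ≤
        (((N + (i : ℕ)) / d : ℕ) : ℝ) := by exact_mod_cast h3
    exact h6.trans (h4.trans (mul_le_mul_of_nonneg_right h5 (by positivity)))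
  have h3 : (((Finset.Icc 1 N).filter (Exc k u N)).card : ℝ) ≤
      ∑ i : Fin k, (∑ p ∈ Ssm u, (((Finset.Icc 1 N).filter (fun n => p ^ (u + 1) ∣ n + i)).card : ℝ)
      + ∑ q ∈ Pu u N, (((Finset.Icc 1 N).filter (fun n => q ^ 2 ∣ n + i)).card : ℝ)) := by
    have h4 := (Finset.card_le_card h1).trans Finset.card_biUnion_le
    have h5 : ∀ i ∈ (Finset.univ : Finset (Fin k)),
        ((Ssm u).biUnion (fun p => (Finset.Icc 1 N).filter (fun n => p ^ (u + 1) ∣ n + i)) ∪
        (Pu u N).biUnion (fun q => (Finset.Icc 1 N).filter (fun n => q ^ 2 ∣ n + i))).card ≤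
        ∑ p ∈ Ssm u, ((Finset.Icc 1 N).filter (fun n => p ^ (u + 1) ∣ n + i)).card
        + ∑ q ∈ Pu u N, ((Finset.Icc 1 N).filter (fun n => q ^ 2 ∣ n + i)).card := by
      intro i _
      refine (Finset.card_union_le _ _).trans ?_
      exact Nat.add_le_add Finset.card_biUnion_le Finset.card_biUnion_le
    have h6 := h4.trans (Finset.sum_le_sum h5)
    exact_mod_cast h6
  refine h3.trans ?_
  have h4 : ∀ i ∈ (Finset.univ : Finset (Fin k)),
      (∑ p ∈ Ssm u, (((Finset.Icc 1 N).filter (fun n => p ^ (u + 1) ∣ n + i)).card : ℝ)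
      + ∑ q ∈ Pu u N, (((Finset.Icc 1 N).filter (fun n => q ^ 2 ∣ n + i)).card : ℝ)) ≤
      4 / u * N := by
    intro i _
    have h5 : ∑ p ∈ Ssm u, (((Finset.Icc 1 N).filter (fun n => p ^ (u + 1) ∣ n + i)).card : ℝ) ≤
        2 * N * (1 / u) := by
      have h6 : ∀ p ∈ Ssm u, (((Finset.Icc 1 N).filter (fun n => p ^ (u + 1) ∣ n + i)).card : ℝ) ≤
          2 * N * (1 / 2 ^ (u + 1)) := by
        intro p hp
        refine (h2 i (p ^ (u + 1))).trans ?_
        apply mul_le_mul_of_nonneg_left _ (by positivity)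
        push_cast
        apply one_div_le_one_div_of_le (by positivity)
        have hp2 : (2 : ℝ) ≤ p := by exact_mod_cast ((mem_Ssm u p).mp hp).2.two_le
        exact pow_le_pow_left₀ (by norm_num) hp2 _
      refine (Finset.sum_le_card_nsmul _ _ _ h6).trans ?_
      rw [nsmul_eq_mul]
      have h7 : ((Ssm u).card : ℝ) ≤ u + 1 := by
        have : (Ssm u).card ≤ u + 1 := by
          unfold Ssm
          refine (Finset.card_filter_le _ _).trans ?_
          rw [Finset.card_range]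
        exact_mod_cast this
      have h8 : (u : ℝ) * (u + 1) ≤ 2 ^ (u + 1) := by
        have h9 : u * (u + 1) ≤ 2 ^ (u + 1) := by
          clear * -
          have : ∀ u : ℕ, u * (u + 1) ≤ 2 ^ (u + 1) ∧ 2 * (u + 1) ≤ 2 ^ (u + 1) := by
            intro u
            induction u with
            | zero => norm_num
            | succ u ih =>
              obtain ⟨h1, h2⟩ := ih
              rw [pow_succ]
              constructor
              · nlinarith
              · omega
          exact (this u).1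
        exact_mod_cast h9
      calc ((Ssm u).card : ℝ) * (2 * N * (1 / 2 ^ (u + 1)))
          ≤ (u + 1) * (2 * N * (1 / 2 ^ (u + 1))) := mul_le_mul_of_nonneg_right h7 (by positivity)
        _ = 2 * N * ((u + 1) / 2 ^ (u + 1)) := by ring
        _ ≤ 2 * N * (1 / u) := by
            apply mul_le_mul_of_nonneg_left _ (by positivity)
            rw [div_le_div_iff₀ (by positivity) huR]
            linarith
    have h6 : ∑ q ∈ Pu u N, (((Finset.Icc 1 N).filter (fun n => q ^ 2 ∣ n + i)).card : ℝ) ≤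
        2 * N * (1 / u) := by
      have h7 : ∀ q ∈ Pu u N, (((Finset.Icc 1 N).filter (fun n => q ^ 2 ∣ n + i)).card : ℝ) ≤
          2 * N * (1 / (q : ℝ) ^ 2) := by
        intro q _
        refine (h2 i (q ^ 2)).trans (le_of_eq ?_)
        push_cast
        rfl
      refine (Finset.sum_le_sum h7).trans ?_
      rw [← Finset.mul_sum]
      apply mul_le_mul_of_nonneg_left _ (by positivity)
      exact sum_inv_sq_le (Pu u N) u hu (fun q hq => ((mem_Pu u N q hu).mp hq).2.1)
    have e1 : 4 / (u : ℝ) * N = 2 * N * (1 / u) + 2 * N * (1 / u) := by ring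
    rw [e1]
    exact add_le_add h5 h6
  refine (Finset.sum_le_card_nsmul _ _ _ h4).trans (le_of_eq ?_)
  rw [Finset.card_univ, Fintype.card_fin, nsmul_eq_mul]
  ring

end Helper13.Om
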