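import Mathlib
import Pool.Agent.Helper13.Om.Trunc

set_option autoImplicit false
set_option linter.unusedSectionVars false

/-! Consecutive integers versus the model. -/

namespace Helper13.Om

open Finset Filter

lemma sum_shift_le (f : ℕ → ℝ) (hf : ∀ n, |f n| ≤ 1) (N j : ℕ) :
    |∑ n ∈ Finset.Icc 1 N, f (n + j) - ∑ n ∈ Finset.Icc 1 N, f n| ≤ 2 * j := by
  induction j with
  | zero => simp
  | succ j ih =>
    have e1 : ∑ n ∈ Finset.Icc 1 N, f (n + (j + 1)) =
        ∑ n ∈ Finset.Icc 1 N, f (n + j) + f (N + 1 + j) - f (1 + j) := by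
      have h1 : ∑ n ∈ Finset.Icc 1 N, f (n + (j + 1)) = ∑ n ∈ Finset.Ico 2 (N + 2), f (n + j) := by
        have h2 := Finset.sum_Ico_add' (fun n => f (n + j)) 1 (N + 1) 1
        have h3 : Finset.Icc 1 N = Finset.Ico 1 (N + 1) := by
          ext x
          simp only [Finset.mem_Icc, Finset.mem_Ico]
          omega
        rw [h3]
        rw [← h2]
        refine Finset.sum_congr rfl fun n _ => ?_
        congr 1
        ring
      have h4 : ∑ n ∈ Finset.Ico 1 (N + 2), f (n + j) =
          f (1 + j) + ∑ n ∈ Finset.Ico 2 (N + 2), f (n + j) :=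
        Finset.sum_eq_sum_Ico_succ_bot (by omega) _
      have h5 : ∑ n ∈ Finset.Ico 1 (N + 2), f (n + j) =
          ∑ n ∈ Finset.Icc 1 N, f (n + j) + f (N + 1 + j) := by
        rw [Finset.sum_Ico_succ_top (by omega)]
        rfl
      rw [h1]
      linarith
    have e2 : ∑ n ∈ Finset.Icc 1 N, f (n + (j + 1)) - ∑ n ∈ Finset.Icc 1 N, f n =
        (∑ n ∈ Finset.Icc 1 N, f (n + j) - ∑ n ∈ Finset.Icc 1 N, f n) +
          (f (N + 1 + j) - f (1 + j)) := by
      rw [e1]
      ring
    rw [e2]
    refine (abs_add_le _ _).trans ?_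
    have h6 := abs_sub (f (N + 1 + j)) (f (1 + j))
    have h7 := hf (N + 1 + j)
    have h8 := hf (1 + j)
    push_cast
    linarith

/-- **Consecutive integers, one full coordinate, the other coordinates truncated, versus the
model.** -/
theorem trunc_model (k : ℕ) (i₀ : Fin k) (ε : ℝ) (hε : 0 < ε) :
    ∃ u₀ : ℕ, ∀ u ≥ u₀, ∃ N₀ : ℕ, ∀ N ≥ N₀, ∀ F : (Fin k → ℕ) → ℝ, (∀ s, |F s| ≤ 1) →
      |∑ n ∈ Finset.Icc 1 N, F (fun i => if i = i₀ then ArithmeticFunction.cardFactors (n + i)
          else OmT u N (n + i)) -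
        ∑ n ∈ Finset.Icc 1 N, Enu (Pu u N) (kap k i₀) (fun y =>
          F (fun i => if i = i₀ then ArithmeticFunction.cardFactors n
            else vec k (Pu u N) y i))| ≤ ε * N := by
  classical
  obtain ⟨u₁, hu₁⟩ := katai_eps k i₀ (ε / 4) (by positivity)
  refine ⟨u₁ + k + 1 + ⌈32 * k / ε⌉₊, fun u hu => ?_⟩
  have huR : (0 : ℝ) < u := by
    have : 0 < u := by omega
    exact_mod_cast this
  obtain ⟨N₁, hN₁⟩ := hu₁ u (by omega) (Wm u) (Wm_pos u) (Wm_prime u)
  obtain ⟨N₂, hN₂⟩ := smo_small k u (by omega) (ε / (4 * (k * ((u + 1) * u) + 1))) (by positivity)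
  refine ⟨N₁ + N₂ + u ^ u + k + 1 + ⌈8 * k / ε⌉₊, fun N hN F hF => ?_⟩
  obtain ⟨hA, hsm⟩ := hN₂ N (by omega)
  have hNR : (0 : ℝ) < N := by
    have : 0 < N := by omega
    exact_mod_cast this
  set P := Pu u N with hP
  set Ft : ℕ → ℕ → (P → Option (Fin k)) → ℝ := fun s c y =>
    F (fun i => if i = i₀ then s else vec k P y i + Dsm u i i₀ c) with hFt
  set g : ℕ → ℝ := fun n => Ft (ArithmeticFunction.cardFactors n) (n % Wm u)
    (fun q => kap k i₀ q n) with hg
  have hPp : ∀ q ∈ P, q.Prime ∧ k ≤ q := by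
    intro q hq
    rw [hP, mem_Pu u N q (by omega)] at hq
    exact ⟨hq.1, by omega⟩
  have hρ0 : ∀ (q : P) (y : Option (Fin k)), 0 ≤ rho (kap k i₀) q y :=
    fun q y => rho_nonneg _ _ _
  have hρ1 := rho_sum_one P (fun q hq => (hPp q hq).1) (kap k i₀)
  -- T1
  have hT1 : |∑ n ∈ Finset.Icc 1 N, F (fun i => if i = i₀ then
      ArithmeticFunction.cardFactors (n + i) else OmT u N (n + i)) -
      ∑ n ∈ Finset.Icc 1 N, g (n + i₀)| ≤ ε / 4 * N := by
    rw [← Finset.sum_sub_distrib]
    refine (Finset.abs_sum_le_sum_abs _ _).trans ?_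
    have h1 : ∀ n ∈ Finset.Icc 1 N, |F (fun i => if i = i₀ then
        ArithmeticFunction.cardFactors (n + i) else OmT u N (n + i)) - g (n + i₀)| ≤
        if Exc k u N n then 2 else 0 := by
      intro n hn
      rw [Finset.mem_Icc] at hn
      split_ifs with h
      · have := abs_sub (F (fun i => if i = i₀ then
          ArithmeticFunction.cardFactors (n + i) else OmT u N (n + i))) (g (n + i₀))
        have h2 := hF (fun i => if i = i₀ then
          ArithmeticFunction.cardFactors (n + i) else OmT u N (n + i))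
        have h3 : |g (n + i₀)| ≤ 1 := hF _
        linarith
      · have h2 : (fun i => if i = i₀ then
          ArithmeticFunction.cardFactors (n + i) else OmT u N (n + i)) =
          (fun i : Fin k => if i = i₀ then ArithmeticFunction.cardFactors (n + i₀)
            else vec k P (fun q => kap k i₀ q (n + i₀)) i + Dsm u i i₀ ((n + i₀) % Wm u)) := by
          funext i
          by_cases hi : i = i₀
          · rw [if_pos hi, if_pos hi, hi]
          · rw [if_neg hi, if_neg hi]
            exact OmT_good k i₀ u N n (by omega) (by omega) hn.1 (by omega) h i hi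
        rw [h2]
        simp only [hg, hFt]
        rw [sub_self, abs_zero]
    refine (Finset.sum_le_sum h1).trans ?_
    rw [← Finset.sum_filter, Finset.sum_const, nsmul_eq_mul]
    have h2 := card_Exc k u N (by omega) (by omega)
    have h3 : 4 * (k : ℝ) / u ≤ ε / 8 := by
      have h4 : 32 * (k : ℝ) / ε ≤ u := by
        refine (Nat.le_ceil _).trans ?_
        have : ⌈32 * (k : ℝ) / ε⌉₊ ≤ u := by omega
        exact_mod_cast this
      rw [div_le_iff₀ hε] at h4
      rw [div_le_iff₀ huR]
      linarith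
    have h4 : (((Finset.Icc 1 N).filter (Exc k u N)).card : ℝ) ≤ ε / 8 * N :=
      h2.trans (mul_le_mul_of_nonneg_right h3 hNR.le)
    linarith
  -- T2
  have hT2 : |∑ n ∈ Finset.Icc 1 N, g (n + i₀) - ∑ n ∈ Finset.Icc 1 N, g n| ≤ ε / 4 * N := by
    refine (sum_shift_le g (fun n => hF _) N i₀).trans ?_
    have h4 : 8 * (k : ℝ) / ε ≤ N := by
      refine (Nat.le_ceil _).trans ?_
      have : ⌈8 * (k : ℝ) / ε⌉₊ ≤ N := by omega
      exact_mod_cast this
    rw [div_le_iff₀ hε] at h4
    have h5 : ((i₀ : ℕ) : ℝ) ≤ k := by exact_mod_cast i₀.2.le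
    linarith
  -- T3
  have hT3 : |∑ n ∈ Finset.Icc 1 N, g n - ∑ n ∈ Finset.Icc 1 N, Enu P (kap k i₀)
      (Ft (ArithmeticFunction.cardFactors n) (n % Wm u))| ≤ ε / 4 * N := by
    have h1 := hN₁ N (by omega) (fun s c y => Ft s c y - Enu P (kap k i₀) (Ft s c))
      (by
        intro s c y
        have h2 : |Enu P (kap k i₀) (Ft s c)| ≤ 1 := by
          rw [Enu_eq_EE]
          exact EE_abs_le_of _ hρ0 hρ1 _ 1 (fun y => hF _)
        have h3 : |Ft s c y| ≤ 1 := hF _
        have := abs_sub (Ft s c y) (Enu P (kap k i₀) (Ft s c))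
        linarith)
      (by
        intro s c
        rw [Enu_eq_EE, EE_sub, EE_const _ hρ1, ← Enu_eq_EE, sub_self])
    rw [← Finset.sum_sub_distrib]
    exact h1
  -- T4
  have hT4 : |∑ n ∈ Finset.Icc 1 N, Enu P (kap k i₀)
      (Ft (ArithmeticFunction.cardFactors n) (n % Wm u)) -
      ∑ n ∈ Finset.Icc 1 N, Enu P (kap k i₀) (fun y =>
          F (fun i => if i = i₀ then ArithmeticFunction.cardFactors n
            else vec k P y i))| ≤ ε / 4 * N := by
    rw [← Finset.sum_sub_distrib]
    refine (Finset.abs_sum_le_sum_abs _ _).trans ?_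
    have h1 : ∀ n ∈ Finset.Icc 1 N, |Enu P (kap k i₀)
      (Ft (ArithmeticFunction.cardFactors n) (n % Wm u)) - Enu P (kap k i₀) (fun y =>
          F (fun i => if i = i₀ then ArithmeticFunction.cardFactors n
            else vec k P y i))| ≤ ε / 4 := by
      intro n _
      set d : Fin k → ℕ := fun i => if i = i₀ then 0 else Dsm u i i₀ (n % Wm u) with hd
      have h2 := shift_many k i₀ P hPp hA (∑ i, d i) d (by simp [hd]) rfl
        (fun v => F (fun i => if i = i₀ then ArithmeticFunction.cardFactors n else v i))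
        (fun v => hF _)
      have h3 : (fun y => (fun v : Fin k → ℕ => F (fun i => if i = i₀ then
          ArithmeticFunction.cardFactors n else v i)) (vec k P y + d)) =
          Ft (ArithmeticFunction.cardFactors n) (n % Wm u) := by
        funext y
        simp only [hFt]
        congr 1
        funext i
        by_cases hi : i = i₀
        · rw [if_pos hi, if_pos hi]
        · rw [if_neg hi, if_neg hi, Pi.add_apply, hd]
          simp only
          rw [if_neg hi]
      rw [h3] at h2
      refine h2.trans ?_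
      have h4 : ((∑ i, d i : ℕ) : ℝ) ≤ k * ((u + 1) * u) := by
        have h5 : ∑ i, d i ≤ k * ((u + 1) * u) := by
          have h6 : ∀ i ∈ (Finset.univ : Finset (Fin k)), d i ≤ (u + 1) * u := by
            intro i _
            simp only [hd]
            split_ifs
            · exact Nat.zero_le _
            · exact Dsm_le u i i₀ _
          refine (Finset.sum_le_card_nsmul _ _ _ h6).trans (le_of_eq ?_)
          rw [Finset.card_univ, Fintype.card_fin, smul_eq_mul]
        exact_mod_cast h5
      have h5 : 0 ≤ smo k P := smo_nonneg k P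
      calc ((∑ i, d i : ℕ) : ℝ) * smo k P ≤ (k * ((u + 1) * u)) * smo k P :=
            mul_le_mul_of_nonneg_right h4 h5
        _ ≤ (k * ((u + 1) * u)) * (ε / (4 * (k * ((u + 1) * u) + 1))) :=
            mul_le_mul_of_nonneg_left hsm (by positivity)
        _ ≤ ε / 4 := by
            have hX : (0 : ℝ) ≤ k * ((u + 1) * u) := by positivity
            rw [mul_div_assoc', div_le_div_iff₀ (by positivity) (by norm_num)]
            nlinarith
    refine (Finset.sum_le_card_nsmul _ _ _ h1).trans (le_of_eq ?_)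
    rw [Nat.card_Icc, Nat.add_sub_cancel, nsmul_eq_mul]
    ring
  -- combine
  set a := ∑ n ∈ Finset.Icc 1 N, F (fun i => if i = i₀ then
      ArithmeticFunction.cardFactors (n + i) else OmT u N (n + i)) with ha
  set b := ∑ n ∈ Finset.Icc 1 N, g (n + i₀) with hb
  set c := ∑ n ∈ Finset.Icc 1 N, g n with hc
  set d := ∑ n ∈ Finset.Icc 1 N, Enu P (kap k i₀)
      (Ft (ArithmeticFunction.cardFactors n) (n % Wm u)) with hd
  set e := ∑ n ∈ Finset.Icc 1 N, Enu P (kap k i₀) (fun y =>
          F (fun i => if i = i₀ then ArithmeticFunction.cardFactors n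
            else vec k P y i)) with he
  have e1 : a - e = (a - b) + (b - c) + (c - d) + (d - e) := by ring
  rw [e1]
  have h1 := abs_add_le ((a - b) + (b - c) + (c - d)) (d - e)
  have h2 := abs_add_le ((a - b) + (b - c)) (c - d)
  have h3 := abs_add_le (a - b) (b - c)
  linarith

end Helper13.Om
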