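import Mathlib
import Pool.Agent.Helper13.Om.TruncModel

set_option autoImplicit false
set_option linter.unusedSectionVars false

/-! Decoupling of the counts in the model. -/

namespace Helper13.Om

open Finset Filter

section

variable {ι Y : Type} [Fintype ι] [DecidableEq ι] [Fintype Y] [DecidableEq Y]

lemma EE_push' {Z : Type} [Fintype Z] [DecidableEq Z] (ρ : ι → Y → ℝ) (g : ι → Y → Z)
    (H : (ι → Z) → ℝ) :
    EE (fun i z => ∑ y ∈ Finset.univ.filter (fun y => g i y = z), ρ i y) H =
      EE ρ (fun y => H (fun i => g i (y i))) := by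
  classical
  unfold EE
  have e2 : ∀ z : ι → Z, (∏ i, ∑ y ∈ Finset.univ.filter (fun y => g i y = z i), ρ i y) * H z =
      ∑ y ∈ (Finset.univ : Finset (ι → Y)).filter (fun y => (fun i => g i (y i)) = z),
        (∏ i, ρ i (y i)) * H (fun i => g i (y i)) := by
    intro z
    rw [Finset.prod_univ_sum, Finset.sum_mul]
    have e3 : Fintype.piFinset (fun i => Finset.univ.filter (fun y => g i y = z i)) =
        (Finset.univ : Finset (ι → Y)).filter (fun y => (fun i => g i (y i)) = z) := by
      ext y
      simp only [Fintype.mem_piFinset, Finset.mem_filter, Finset.mem_univ, true_and]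
      exact funext_iff.symm
    rw [e3]
    refine Finset.sum_congr rfl fun y hy => ?_
    rw [Finset.mem_filter] at hy
    rw [hy.2]
  rw [Finset.sum_congr rfl fun z _ => e2 z]
  exact Finset.sum_fiberwise (Finset.univ : Finset (ι → Y)) (fun y => fun i => g i (y i))
    (fun y => (∏ i, ρ i (y i)) * H (fun i => g i (y i)))

end

lemma one_sub_sum_le {J : Type} [DecidableEq J] (s : Finset J) (w : J → ℝ)
    (h0 : ∀ i, 0 ≤ w i) (h1 : ∀ i, w i ≤ 1) :
    1 - ∑ i ∈ s, w i ≤ ∏ i ∈ s, (1 - w i) ∧ ∏ i ∈ s, (1 - w i) ≤ 1 := by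
  induction s using Finset.induction_on with
  | empty => simp
  | insert j s hj ih =>
    rw [Finset.sum_insert hj, Finset.prod_insert hj]
    have hp : 0 ≤ ∏ i ∈ s, (1 - w i) := Finset.prod_nonneg fun i _ => by linarith [h1 i]
    constructor
    · nlinarith [ih.1, ih.2, h0 j, h1 j]
    · have := h1 j
      have := h0 j
      calc (1 - w j) * ∏ i ∈ s, (1 - w i) ≤ 1 * 1 :=
            mul_le_mul (by linarith) ih.2 hp (by norm_num)
        _ = 1 := by norm_num

/-- Bernoulli weights -/
noncomputable def wB (x : ℝ) (b : Bool) : ℝ := if b then x else 1 - x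

lemma wB_nonneg (x : ℝ) (h0 : 0 ≤ x) (h1 : x ≤ 1) (b : Bool) : 0 ≤ wB x b := by
  unfold wB
  split_ifs <;> linarith

lemma wB_sum (x : ℝ) : ∑ b, wB x b = 1 := by
  rw [Fintype.sum_bool]
  unfold wB
  simp

/-- the parameter of the coordinate `i` -/
noncomputable def xi (k : ℕ) (i₀ i : Fin k) (q : ℕ) : ℝ := if i = i₀ then 0 else 1 / (q : ℝ)

lemma xi_nonneg (k : ℕ) (i₀ i : Fin k) (q : ℕ) : 0 ≤ xi k i₀ i q := by
  unfold xi
  split_ifs
  · exact le_rfl
  · positivity

lemma xi_le (k : ℕ) (i₀ i : Fin k) (q : ℕ) : xi k i₀ i q ≤ 1 / (q : ℝ) := by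
  unfold xi
  split_ifs
  · positivity
  · exact le_rfl

lemma xi_le_one (k : ℕ) (i₀ i : Fin k) (q : ℕ) (hq : 1 ≤ q) : xi k i₀ i q ≤ 1 := by
  refine (xi_le k i₀ i q).trans ?_
  apply div_le_one_of_le₀ _ (Nat.cast_nonneg _)
  exact_mod_cast hq

/-- embedding of the local patterns -/
def emb (k : ℕ) (z : Option (Fin k)) (i : Fin k) : Bool := decide (z = some i)

lemma emb_inj (k : ℕ) : Function.Injective (emb k) := by
  intro z z' h
  have h1 : ∀ i, (z = some i ↔ z' = some i) := by
    intro i
    have := congrFun h i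
    unfold emb at this
    simpa using this
  rcases z with _ | i
  · rcases z' with _ | j
    · rfl
    · exact absurd ((h1 j).mpr rfl) (by simp)
  · exact ((h1 i).mp rfl).symm

/-- The two local models at one prime are close. -/
lemma local_model (k : ℕ) (i₀ : Fin k) (q : ℕ) (hq : q.Prime) (hkq : k ≤ q) :
    ∑ b : Fin k → Bool,
      |(∑ z ∈ Finset.univ.filter (fun z => emb k z = b), rho (kap k i₀) q z) -
        ∏ i, wB (xi k i₀ i q) (b i)| ≤ 2 * k ^ 2 * (1 / (q : ℝ) ^ 2) := by
  classical
  have hq0 : (0 : ℝ) < q := by exact_mod_cast hq.pos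
  set p : (Fin k → Bool) → ℝ := fun b =>
    ∑ z ∈ Finset.univ.filter (fun z => emb k z = b), rho (kap k i₀) q z with hp
  set β : (Fin k → Bool) → ℝ := fun b => ∏ i, wB (xi k i₀ i q) (b i) with hβ
  have hxi1 : ∀ i, xi k i₀ i q ≤ 1 := fun i => xi_le_one k i₀ i q hq.one_le
  have hβ0 : ∀ b, 0 ≤ β b := fun b => Finset.prod_nonneg fun i _ =>
    wB_nonneg _ (xi_nonneg k i₀ i q) (hxi1 i) _
  have hβ1 : ∑ b, β b = 1 := sum_prod_eq_one (fun i b => wB (xi k i₀ i q) b) (fun i => wB_sum _)
  have hp1 : ∑ b, p b = 1 := by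
    have := Finset.sum_fiberwise (Finset.univ : Finset (Option (Fin k))) (emb k)
      (fun z => rho (kap k i₀) q z)
    rw [hp]
    rw [this]
    exact rho_sum _ q hq.pos
  have hpz : ∀ z, p (emb k z) = rho (kap k i₀) q z := by
    intro z
    simp only [hp]
    have : Finset.univ.filter (fun z' => emb k z' = emb k z) = {z} := by
      ext z'
      rw [Finset.mem_filter, Finset.mem_singleton]
      constructor
      · exact fun h => emb_inj k h.2
      · rintro rfl
        exact ⟨Finset.mem_univ _, rfl⟩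
    rw [this, Finset.sum_singleton]
  have hsumxi : ∑ i, xi k i₀ i q ≤ k / q := by
    refine (Finset.sum_le_sum fun i _ => xi_le k i₀ i q).trans (le_of_eq ?_)
    rw [Finset.sum_const, Finset.card_univ, Fintype.card_fin, nsmul_eq_mul, mul_one_div]
  -- rho of none
  have hnone : rho (kap k i₀) q none = 1 - ∑ i, xi k i₀ i q := by
    have h1 := rho_sum (kap k i₀) q hq.pos
    rw [Fintype.sum_option] at h1
    have h2 : ∑ i : Fin k, rho (kap k i₀) q (some i) = ∑ i, xi k i₀ i q := by
      refine Finset.sum_congr rfl fun i _ => ?_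
      unfold xi
      split_ifs with hi
      · rw [hi]
        exact rho_kap_some₀ k i₀ q hkq
      · exact rho_kap_some k i₀ q hq hkq i hi
    rw [h2] at h1
    linarith
  -- pointwise upper bound for p - β
  have hkey : ∀ b, p b - β b ≤ ∑ i, if emb k (some i) = b then (k : ℝ) / q ^ 2 else 0 := by
    intro b
    have hnn : 0 ≤ ∑ i, if emb k (some i) = b then (k : ℝ) / q ^ 2 else 0 :=
      Finset.sum_nonneg fun i _ => by split_ifs <;> positivity
    by_cases hb : ∃ z, emb k z = b
    · obtain ⟨z, rfl⟩ := hb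
      rw [hpz]
      rcases z with _ | i
      · have h1 : β (emb k none) = ∏ i, (1 - xi k i₀ i q) := by
          simp only [hβ]
          refine Finset.prod_congr rfl fun i _ => ?_
          unfold emb wB
          simp
        rw [h1, hnone]
        have := (one_sub_sum_le Finset.univ (fun i => xi k i₀ i q)
          (fun i => xi_nonneg k i₀ i q) hxi1).1
        linarith
      · by_cases hi : i = i₀
        · rw [hi, rho_kap_some₀ k i₀ q hkq]
          have := hβ0 (emb k (some i₀))
          rw [hi] at hnn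
          linarith
        · rw [rho_kap_some k i₀ q hq hkq i hi]
          have h1 : β (emb k (some i)) = (1 / q) * ∏ j ∈ Finset.univ.erase i, (1 - xi k i₀ j q) := by
            simp only [hβ]
            rw [← Finset.mul_prod_erase Finset.univ _ (Finset.mem_univ i)]
            congr 1
            · unfold emb wB xi
              simp [hi]
            · refine Finset.prod_congr rfl fun j hj => ?_
              have hji : i ≠ j := (Finset.ne_of_mem_erase hj).symm
              unfold emb wB
              simp [hji]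
          have h2 := (one_sub_sum_le (Finset.univ.erase i) (fun i => xi k i₀ i q)
            (fun i => xi_nonneg k i₀ i q) hxi1).1
          have h3 : ∑ j ∈ Finset.univ.erase i, xi k i₀ j q ≤ k / q :=
            le_trans (Finset.sum_le_sum_of_subset_of_nonneg (Finset.erase_subset _ _)
              (fun j _ _ => xi_nonneg k i₀ j q)) hsumxi
          have h4 : (k : ℝ) / q ^ 2 ≤
              ∑ j, if emb k (some j) = emb k (some i) then (k : ℝ) / q ^ 2 else 0 := by
            have h5 := Finset.single_le_sum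
              (f := fun j => if emb k (some j) = emb k (some i) then (k : ℝ) / q ^ 2 else 0)
              (s := Finset.univ) (fun j _ => by split_ifs <;> positivity) (Finset.mem_univ i)
            simpa using h5
          refine le_trans ?_ h4
          rw [h1]
          have h5 : (1 / (q : ℝ)) * (1 - k / q) ≤
              (1 / q) * ∏ j ∈ Finset.univ.erase i, (1 - xi k i₀ j q) := by
            apply mul_le_mul_of_nonneg_left _ (by positivity)
            linarith
          have h6 : (1 / (q : ℝ)) * (1 - k / q) = 1 / q - k / q ^ 2 := by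
            field_simp
          linarith
    · have h1 : p b = 0 := by
        simp only [hp]
        apply Finset.sum_eq_zero
        intro z hz
        rw [Finset.mem_filter] at hz
        exact absurd ⟨z, hz.2⟩ hb
      rw [h1]
      have := hβ0 b
      linarith
  have habs : ∀ b, |p b - β b| ≤ (β b - p b) +
      2 * ∑ i, if emb k (some i) = b then (k : ℝ) / q ^ 2 else 0 := by
    intro b
    have hnn : 0 ≤ ∑ i, if emb k (some i) = b then (k : ℝ) / q ^ 2 else 0 :=
      Finset.sum_nonneg fun i _ => by split_ifs <;> positivity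
    rw [abs_le]
    constructor
    · linarith
    · linarith [hkey b]
  refine (Finset.sum_le_sum fun b _ => habs b).trans ?_
  rw [Finset.sum_add_distrib, Finset.sum_sub_distrib, hβ1, hp1, ← Finset.mul_sum,
    Finset.sum_comm]
  have h7 : ∀ i : Fin k, (∑ b : Fin k → Bool, if emb k (some i) = b then (k : ℝ) / q ^ 2 else 0) =
      k / q ^ 2 := by
    intro i
    rw [Finset.sum_ite_eq]
    simp
  rw [Finset.sum_congr rfl fun i _ => h7 i, Finset.sum_const, Finset.card_univ, Fintype.card_fin,
    nsmul_eq_mul]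
  apply le_of_eq
  ring

/-- number of true coordinates -/
def cntB {ι : Type} [Fintype ι] (c : ι → Bool) : ℕ := (Finset.univ.filter (fun i => c i = true)).card

lemma cntB_le (P : Finset ℕ) (c : P → Bool) : cntB c ≤ P.card := by
  unfold cntB
  refine (Finset.card_filter_le _ _).trans ?_
  rw [Finset.card_univ, Fintype.card_coe]

/-- clipping to a finite type -/
def clip (N t : ℕ) : Fin (N + 2) := ⟨min t (N + 1), by omega⟩

lemma clip_val (N t : ℕ) (h : t ≤ N + 1) : ((clip N t : Fin (N + 2)) : ℕ) = t := by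
  unfold clip
  simp [h]

/-- the law of the count of the coordinate `i` -/
noncomputable def tauL (k : ℕ) (i₀ : Fin k) (P : Finset ℕ) (N : ℕ) (i : Fin k) (t : Fin (N + 2)) : ℝ :=
  ∑ c ∈ (Finset.univ : Finset (P → Bool)).filter (fun c => clip N (cntB c) = t),
    ∏ q : P, wB (xi k i₀ i q) (c q)

lemma tauL_nonneg (k : ℕ) (i₀ : Fin k) (P : Finset ℕ) (hP : ∀ q ∈ P, q.Prime) (N : ℕ) (i : Fin k)
    (t : Fin (N + 2)) : 0 ≤ tauL k i₀ P N i t :=
  Finset.sum_nonneg fun c _ => Finset.prod_nonneg fun q _ =>
    wB_nonneg _ (xi_nonneg k i₀ i q) (xi_le_one k i₀ i q (hP q q.2).one_le) _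

lemma tauL_sum (k : ℕ) (i₀ : Fin k) (P : Finset ℕ) (N : ℕ) (i : Fin k) :
    ∑ t, tauL k i₀ P N i t = 1 := by
  unfold tauL
  rw [Finset.sum_fiberwise (Finset.univ : Finset (P → Bool)) (fun c => clip N (cntB c))
    (fun c => ∏ q : P, wB (xi k i₀ i q) (c q))]
  exact sum_prod_eq_one (fun q : P => wB (xi k i₀ i q)) (fun q => wB_sum _)

/-- **Decoupling**: in the model the counts at the different shifts are nearly independent. -/
theorem decouple (k : ℕ) (i₀ : Fin k) (P : Finset ℕ) (hP : ∀ q ∈ P, q.Prime ∧ k ≤ q) (N : ℕ)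
    (hN : P.card ≤ N + 1) (H : (Fin k → ℕ) → ℝ) (hH : ∀ s, |H s| ≤ 1) :
    |Enu P (kap k i₀) (fun y => H (vec k P y)) -
      EE (tauL k i₀ P N) (fun ℓ => H (fun i => (ℓ i : ℕ)))| ≤
      2 * k ^ 2 * ∑ q ∈ P, (1 : ℝ) / (q : ℝ) ^ 2 := by
  classical
  -- step 1
  have e1 : Enu P (kap k i₀) (fun y => H (vec k P y)) =
      EE (fun (q : P) b => ∑ z ∈ Finset.univ.filter (fun z => emb k z = b), rho (kap k i₀) q z)
        (fun b : P → (Fin k → Bool) => H (fun i => cntB (fun q => b q i))) := by
    rw [Enu_eq_EE, EE_push]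
    congr 1
    funext y
    congr 1
    funext i
    unfold vec cnt cntB
    congr 1
    refine Finset.filter_congr fun q _ => ?_
    unfold emb
    simp
  -- step 2
  have e2 := tensor (fun (q : P) b => ∑ z ∈ Finset.univ.filter (fun z => emb k z = b),
      rho (kap k i₀) q z) (fun (q : P) (b : Fin k → Bool) => ∏ i, wB (xi k i₀ i q) (b i))
    (fun q b => Finset.sum_nonneg fun z _ => rho_nonneg _ _ _)
    (fun q b => Finset.prod_nonneg fun i _ =>
      wB_nonneg _ (xi_nonneg k i₀ i q) (xi_le_one k i₀ i q (hP q q.2).1.one_le) _)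
    (fun q => by
      rw [Finset.sum_fiberwise (Finset.univ : Finset (Option (Fin k))) (emb k)
        (fun z => rho (kap k i₀) q z)]
      exact rho_sum _ q (hP q q.2).1.pos)
    (fun q => sum_prod_eq_one (fun i => wB (xi k i₀ i q)) (fun i => wB_sum _))
    (fun b : P → (Fin k → Bool) => H (fun i => cntB (fun q => b q i))) 1 (fun b => hH _)
  -- step 3
  have e3 : ∑ y : P → (Fin k → Bool), (∏ q : P, ∏ i, wB (xi k i₀ i q) (y q i)) *
      H (fun i => cntB (fun q => y q i)) =
      EE (fun i (c : P → Bool) => ∏ q : P, wB (xi k i₀ i q) (c q))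
        (fun c => H (fun i => cntB (c i))) := by
    unfold EE
    refine Fintype.sum_equiv (Equiv.piComm (fun (_ : P) (_ : Fin k) => Bool)) _ _ fun y => ?_
    rw [Finset.prod_comm]
    rfl
  -- step 4
  have e4 : EE (tauL k i₀ P N) (fun ℓ => H (fun i => (ℓ i : ℕ))) =
      EE (fun i (c : P → Bool) => ∏ q : P, wB (xi k i₀ i q) (c q))
        (fun c => H (fun i => cntB (c i))) := by
    have h1 := EE_push' (fun i (c : P → Bool) => ∏ q : P, wB (xi k i₀ i q) (c q))
      (fun (_ : Fin k) c => clip N (cntB c)) (fun ℓ : Fin k → Fin (N + 2) => H (fun i => (ℓ i : ℕ)))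
    have h2 : (fun (i : Fin k) (t : Fin (N + 2)) =>
        ∑ c ∈ (Finset.univ : Finset (P → Bool)).filter (fun c => clip N (cntB c) = t),
          ∏ q : P, wB (xi k i₀ i q) (c q)) = tauL k i₀ P N := rfl
    rw [h2] at h1
    rw [h1]
    congr 1
    funext c
    congr 1
    funext i
    exact clip_val N _ ((cntB_le P (c i)).trans hN)
  rw [e1, e4, ← e3]
  unfold EE
  refine e2.trans ?_
  rw [one_mul]
  have h1 : ∀ q ∈ (Finset.univ : Finset P), ∑ b : Fin k → Bool,
      |(∑ z ∈ Finset.univ.filter (fun z => emb k z = b), rho (kap k i₀) q z) -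
        ∏ i, wB (xi k i₀ i q) (b i)| ≤ 2 * k ^ 2 * (1 / (q : ℝ) ^ 2) := fun q _ =>
    local_model k i₀ q (hP q q.2).1 (hP q q.2).2
  refine (Finset.sum_le_sum h1).trans (le_of_eq ?_)
  rw [← Finset.mul_sum, Finset.sum_coe_sort P (fun q => (1 : ℝ) / (q : ℝ) ^ 2)]

end Helper13.Om
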