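import Mathlib
import Pool.Agent.Helper13.Om.Indep

set_option autoImplicit false
set_option linter.unusedSectionVars false

/-! The independent side, and the main theorem for truncated counts. -/

namespace Helper13.Om

open Finset Filter

lemma Omega_le (m : ℕ) : ArithmeticFunction.cardFactors m ≤ m := by
  rcases Nat.eq_zero_or_pos m with rfl | hm
  · simp
  · rw [ArithmeticFunction.cardFactors_apply]
    have h1 : 2 ^ m.primeFactorsList.length ≤ m.primeFactorsList.prod :=
      List.pow_card_le_prod _ _ (fun p hp => (Nat.prime_of_mem_primeFactorsList hp).two_le)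
    rw [Nat.prod_primeFactorsList (by omega)] at h1
    exact (Nat.lt_two_pow_self).le.trans h1

lemma OmT_le_Omega (u N m : ℕ) : OmT u N m ≤ ArithmeticFunction.cardFactors m := by
  rw [ArithmeticFunction.cardFactors_apply]
  unfold OmT
  exact List.length_filter_le _ _

/-- law of `f` on `[1, N]` -/
noncomputable def lawE (N : ℕ) (f : ℕ → ℕ) (t : Fin (N + 2)) : ℝ :=
  (((Finset.Icc 1 N).filter (fun m => clip N (f m) = t)).card : ℝ) / N

lemma lawE_nonneg (N : ℕ) (f : ℕ → ℕ) (t : Fin (N + 2)) : 0 ≤ lawE N f t := by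
  unfold lawE
  positivity

lemma lawE_apply (N : ℕ) (f : ℕ → ℕ) (h : Fin (N + 2) → ℝ) :
    ∑ t, lawE N f t * h t = (∑ m ∈ Finset.Icc 1 N, h (clip N (f m))) / N := by
  classical
  rw [sum_comp_count (Finset.Icc 1 N) (fun m => clip N (f m)) h, Finset.sum_div]
  refine Finset.sum_congr rfl fun y _ => ?_
  unfold lawE
  ring

lemma lawE_sum (N : ℕ) (hN : 1 ≤ N) (f : ℕ → ℕ) : ∑ t, lawE N f t = 1 := by
  have h := lawE_apply N f (fun _ => 1)
  simp only [mul_one] at h
  rw [h, Finset.sum_const, Nat.card_Icc, Nat.add_sub_cancel, nsmul_eq_mul, mul_one, div_self]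
  have : N ≠ 0 := by omega
  exact_mod_cast this

/-- the product law -/
lemma pi_law {Z : Type} [Fintype Z] [DecidableEq Z] (k : ℕ) (S : Finset ℕ) (g : Fin k → ℕ → Z)
    (H : (Fin k → Z) → ℝ) :
    ∑ m ∈ Fintype.piFinset (fun _ : Fin k => S), H (fun i => g i (m i)) =
      ∑ ℓ : Fin k → Z, (∏ i, ((S.filter (fun m => g i m = ℓ i)).card : ℝ)) * H ℓ := by
  classical
  rw [← Finset.sum_fiberwise (Fintype.piFinset (fun _ : Fin k => S))
    (fun m => fun i => g i (m i)) (fun m => H (fun i => g i (m i)))]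
  refine Finset.sum_congr rfl fun ℓ _ => ?_
  have e1 : (Fintype.piFinset (fun _ : Fin k => S)).filter (fun m => (fun i => g i (m i)) = ℓ) =
      Fintype.piFinset (fun i => S.filter (fun m => g i m = ℓ i)) := by
    ext m
    simp only [Finset.mem_filter, Fintype.mem_piFinset]
    constructor
    · rintro ⟨h1, h2⟩ i
      exact ⟨h1 i, congrFun h2 i⟩
    · intro h
      exact ⟨fun i => (h i).1, funext fun i => (h i).2⟩
  rw [e1]
  have e2 : ∀ m ∈ Fintype.piFinset (fun i => S.filter (fun m => g i m = ℓ i)),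
      H (fun i => g i (m i)) = H ℓ := by
    intro m hm
    rw [Fintype.mem_piFinset] at hm
    congr 1
    funext i
    exact (Finset.mem_filter.mp (hm i)).2
  rw [Finset.sum_congr rfl e2, Finset.sum_const, nsmul_eq_mul, Fintype.card_piFinset]
  push_cast
  rfl

lemma pi_lawE (k N : ℕ) (f : Fin k → ℕ → ℕ) (F : (Fin k → ℕ) → ℝ)
    (hf : ∀ i, ∀ m ∈ Finset.Icc 1 N, f i m ≤ N + 1) :
    1 / (N : ℝ) ^ k * ∑ m ∈ Fintype.piFinset (fun _ : Fin k => Finset.Icc 1 N),
      F (fun i => f i (m i)) =
      EE (fun i => lawE N (f i)) (fun ℓ => F (fun i => (ℓ i : ℕ))) := by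
  classical
  have h1 := pi_law k (Finset.Icc 1 N) (fun i m => clip N (f i m))
    (fun ℓ : Fin k → Fin (N + 2) => F (fun i => (ℓ i : ℕ)))
  have h2 : ∑ m ∈ Fintype.piFinset (fun _ : Fin k => Finset.Icc 1 N),
      (fun ℓ : Fin k → Fin (N + 2) => F (fun i => (ℓ i : ℕ))) (fun i => clip N (f i (m i))) =
      ∑ m ∈ Fintype.piFinset (fun _ : Fin k => Finset.Icc 1 N), F (fun i => f i (m i)) := by
    refine Finset.sum_congr rfl fun m hm => ?_
    rw [Fintype.mem_piFinset] at hm
    simp only
    congr 1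
    funext i
    exact clip_val N _ (hf i _ (hm i))
  rw [← h2, h1, Finset.mul_sum]
  unfold EE
  refine Finset.sum_congr rfl fun ℓ _ => ?_
  rw [← mul_assoc]
  congr 1
  unfold lawE
  rw [Finset.prod_div_distrib, Finset.prod_const, Finset.card_univ, Fintype.card_fin]
  ring

/-- one coordinate in the model -/
lemma one_coord (k : ℕ) (i₀ i : Fin k) (hi : i ≠ i₀) (P : Finset ℕ)
    (hP : ∀ q ∈ P, q.Prime ∧ 2 ≤ q) (N : ℕ) (h : Fin (N + 2) → ℝ) :
    Enu P (kap 2 1) (fun y => h (clip N (vec 2 P y 0))) = ∑ t, tauL k i₀ P N i t * h t := by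
  classical
  have e1 : ∑ t, tauL k i₀ P N i t * h t =
      EE (fun (q : P) => wB (xi k i₀ i q)) (fun c => h (clip N (cntB c))) := by
    unfold tauL EE
    rw [← Finset.sum_fiberwise (Finset.univ : Finset (P → Bool)) (fun c => clip N (cntB c))
      (fun c => (∏ q : P, wB (xi k i₀ i q) (c q)) * h (clip N (cntB c)))]
    refine Finset.sum_congr rfl fun t _ => ?_
    rw [Finset.sum_mul]
    refine Finset.sum_congr rfl fun c hc => ?_
    rw [Finset.mem_filter] at hc
    rw [hc.2]
  rw [e1]
  have e2 := EE_push (fun (q : P) => rho (kap 2 1) q) (fun z : Option (Fin 2) => decide (z = some 0))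
    (fun c : P → Bool => h (clip N (cntB c)))
  have e3 : (fun (q : P) (b : Bool) => ∑ z ∈ Finset.univ.filter
      (fun z : Option (Fin 2) => decide (z = some 0) = b), rho (kap 2 1) q z) =
      (fun (q : P) => wB (xi k i₀ i q)) := by
    funext q b
    have hsome : rho (kap 2 1) q (some 0) = 1 / (q : ℝ) :=
      rho_kap_some 2 1 q (hP q q.2).1 (hP q q.2).2 0 (by decide)
    have hxi : xi k i₀ i q = 1 / (q : ℝ) := by
      unfold xi
      rw [if_neg hi]
    have htot := rho_sum (kap 2 1) q (hP q q.2).1.pos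
    cases b with
    | true =>
      have : Finset.univ.filter (fun z : Option (Fin 2) => decide (z = some 0) = true) =
          {some 0} := by decide
      rw [this, Finset.sum_singleton, hsome, hxi]
      unfold wB
      simp
    | false =>
      have : Finset.univ.filter (fun z : Option (Fin 2) => decide (z = some 0) = false) =
          Finset.univ.erase (some 0) := by decide
      rw [this]
      have h2 := Finset.sum_erase_add Finset.univ (fun z => rho (kap 2 1) q z)
        (Finset.mem_univ (some (0 : Fin 2)))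
      rw [hxi]
      unfold wB
      simp only [Bool.false_eq_true, if_false]
      rw [htot, hsome] at h2
      linarith
  rw [e3] at e2
  rw [e2, Enu_eq_EE]
  congr 1
  funext y
  congr 2
  unfold vec cnt cntB
  congr 1
  refine Finset.filter_congr fun q _ => ?_
  simp

/-- the empirical law of the truncated count versus the model law, in total variation -/
lemma one_coord_tv (ε : ℝ) (hε : 0 < ε) :
    ∃ u₀ : ℕ, ∀ u ≥ u₀, ∃ N₀ : ℕ, ∀ N ≥ N₀, ∀ (k : ℕ) (i₀ i : Fin k), i ≠ i₀ →
      ∑ t, |lawE N (OmT u N) t - tauL k i₀ (Pu u N) N i t| ≤ ε := by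
  classical
  obtain ⟨u₁, hu₁⟩ := trunc_model 2 1 ε hε
  refine ⟨u₁ + 2, fun u hu => ?_⟩
  obtain ⟨N₁, hN₁⟩ := hu₁ u (by omega)
  refine ⟨N₁ + 1, fun N hN k i₀ i hi => ?_⟩
  have hNR : (0 : ℝ) < N := by
    have : 0 < N := by omega
    exact_mod_cast this
  set P := Pu u N with hP
  have hPp : ∀ q ∈ P, q.Prime ∧ 2 ≤ q := by
    intro q hq
    rw [hP, mem_Pu u N q (by omega)] at hq
    exact ⟨hq.1, by omega⟩
  set h : Fin (N + 2) → ℝ := fun t =>
    if 0 ≤ lawE N (OmT u N) t - tauL k i₀ P N i t then 1 else -1 with hh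
  have h1 : ∀ t, |lawE N (OmT u N) t - tauL k i₀ P N i t| =
      lawE N (OmT u N) t * h t - tauL k i₀ P N i t * h t := by
    intro t
    simp only [hh]
    split_ifs with h0
    · rw [abs_of_nonneg h0]
      ring
    · rw [abs_of_neg (not_le.mp h0)]
      ring
  rw [Finset.sum_congr rfl fun t _ => h1 t, Finset.sum_sub_distrib, lawE_apply,
    ← one_coord k i₀ i hi P hPp N h]
  have h2 := hN₁ N (by omega) (fun s => h (clip N (s 0))) (by
    intro s
    simp only [hh]
    split_ifs <;> norm_num)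
  have e1 : ∀ n : ℕ, (fun i : Fin 2 => if i = 1 then ArithmeticFunction.cardFactors (n + i)
          else OmT u N (n + i)) 0 = OmT u N n := by
    intro n
    simp
  have e0 : ((0 : Fin 2) = 1) = False := by simp
  simp only [e1, e0, if_false] at h2
  rw [Finset.sum_const, Nat.card_Icc, Nat.add_sub_cancel, nsmul_eq_mul] at h2
  have e3 : (∑ m ∈ Finset.Icc 1 N, h (clip N (OmT u N m))) / N -
      Enu P (kap 2 1) (fun y => h (clip N (vec 2 P y 0))) =
      ((∑ m ∈ Finset.Icc 1 N, h (clip N (OmT u N m))) -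
        N * Enu P (kap 2 1) (fun y => h (clip N (vec 2 P y 0)))) / N := by
    field_simp
  rw [e3, div_le_iff₀ hNR]
  exact (le_abs_self _).trans h2

/-- **The independent side versus the model.** -/
theorem indep_model (k : ℕ) (i₀ : Fin k) (ε : ℝ) (hε : 0 < ε) :
    ∃ u₀ : ℕ, ∀ u ≥ u₀, ∃ N₀ : ℕ, ∀ N ≥ N₀, ∀ F : (Fin k → ℕ) → ℝ, (∀ s, |F s| ≤ 1) →
      |1 / (N : ℝ) ^ k * ∑ m ∈ Fintype.piFinset (fun _ : Fin k => Finset.Icc 1 N),
          F (fun i => if i = i₀ then ArithmeticFunction.cardFactors (m i) else OmT u N (m i)) -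
        1 / (N : ℝ) * ∑ n ∈ Finset.Icc 1 N, Enu (Pu u N) (kap k i₀) (fun y =>
          F (fun i => if i = i₀ then ArithmeticFunction.cardFactors n
            else vec k (Pu u N) y i))| ≤ ε := by
  classical
  obtain ⟨u₁, hu₁⟩ := one_coord_tv (ε / (2 * (k + 1))) (by positivity)
  refine ⟨u₁ + k + 1 + ⌈4 * (k : ℝ) ^ 2 / ε⌉₊, fun u hu => ?_⟩
  have huR : (0 : ℝ) < u := by
    have : 0 < u := by omega
    exact_mod_cast this
  obtain ⟨N₁, hN₁⟩ := hu₁ u (by omega)
  refine ⟨N₁ + 1, fun N hN F hF => ?_⟩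
  have hNR : (0 : ℝ) < N := by
    have : 0 < N := by omega
    exact_mod_cast this
  set P := Pu u N with hP
  have hPp : ∀ q ∈ P, q.Prime ∧ k ≤ q := by
    intro q hq
    rw [hP, mem_Pu u N q (by omega)] at hq
    exact ⟨hq.1, by omega⟩
  have hPc : P.card ≤ N + 1 := by
    have h1 := Finset.card_le_card (Pu_sub u N)
    refine h1.trans ((Finset.card_filter_le _ _).trans ?_)
    rw [Finset.card_range]
  set f : Fin k → ℕ → ℕ := fun i m => if i = i₀ then ArithmeticFunction.cardFactors m
    else OmT u N m with hf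
  have hfle : ∀ i, ∀ m ∈ Finset.Icc 1 N, f i m ≤ N + 1 := by
    intro i m hm
    rw [Finset.mem_Icc] at hm
    have h1 : f i m ≤ ArithmeticFunction.cardFactors m := by
      simp only [hf]
      split_ifs
      · exact le_rfl
      · exact OmT_le_Omega u N m
    have h2 := Omega_le m
    omega
  set π : Fin (N + 2) → ℝ := lawE N (fun m => ArithmeticFunction.cardFactors m) with hπ
  set τ := tauL k i₀ P N with hτ
  have hτ0 : ∀ i t, 0 ≤ τ i t := fun i t => tauL_nonneg k i₀ P (fun q hq => (hPp q hq).1) N i t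
  have hτ1 : ∀ i, ∑ t, τ i t = 1 := fun i => tauL_sum k i₀ P N i
  have hπ1 : ∑ t, π t = 1 := lawE_sum N (by omega) _
  set G : (Fin k → Fin (N + 2)) → ℝ := fun ℓ => F (fun i => (ℓ i : ℕ)) with hG
  -- empirical laws
  have e1 : 1 / (N : ℝ) ^ k * ∑ m ∈ Fintype.piFinset (fun _ : Fin k => Finset.Icc 1 N),
      F (fun i => if i = i₀ then ArithmeticFunction.cardFactors (m i) else OmT u N (m i)) =
      EE (fun i => lawE N (f i)) G := pi_lawE k N f F hfle
  -- tensor
  have hu1 : ∀ i, ∑ t, Function.update τ i₀ π i t = 1 := by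
    intro i
    by_cases hi : i = i₀
    · rw [hi, Function.update_self]
      exact hπ1
    · rw [Function.update_of_ne hi]
      exact hτ1 i
  have hu0 : ∀ i t, 0 ≤ Function.update τ i₀ π i t := by
    intro i t
    by_cases hi : i = i₀
    · rw [hi, Function.update_self]
      exact lawE_nonneg _ _ _
    · rw [Function.update_of_ne hi]
      exact hτ0 i t
  have h1 : |EE (fun i => lawE N (f i)) G - EE (Function.update τ i₀ π) G| ≤ ε / 2 := by
    have h2 := tensor (fun i => lawE N (f i)) (Function.update τ i₀ π)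
      (fun i t => lawE_nonneg _ _ _) hu0 (fun i => lawE_sum N (by omega) _) hu1 G 1 (fun ℓ => hF _)
    unfold EE
    refine h2.trans ?_
    rw [one_mul]
    have h3 : ∀ i ∈ (Finset.univ : Finset (Fin k)),
        ∑ t, |lawE N (f i) t - Function.update τ i₀ π i t| ≤ ε / (2 * (k + 1)) := by
      intro i _
      by_cases hi : i = i₀
      · have h4 : ∀ t, |lawE N (f i) t - Function.update τ i₀ π i t| = 0 := by
          intro t
          rw [hi, Function.update_self]
          have h5 : f i₀ = fun m => ArithmeticFunction.cardFactors m := by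
            funext m
            simp [hf]
          rw [h5, hπ, sub_self, abs_zero]
        rw [Finset.sum_congr rfl fun t _ => h4 t, Finset.sum_const_zero]
        positivity
      · rw [Function.update_of_ne hi]
        have h5 : f i = OmT u N := by
          funext m
          simp [hf, hi]
        rw [h5]
        exact hN₁ N (by omega) k i₀ i hi
    refine (Finset.sum_le_card_nsmul _ _ _ h3).trans ?_
    rw [Finset.card_univ, Fintype.card_fin, nsmul_eq_mul, mul_div_assoc',
      div_le_div_iff₀ (by positivity) (by norm_num)]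
    nlinarith
  -- resampling
  have e2 : EE (Function.update τ i₀ π) G =
      ∑ s, π s * EE τ (fun ℓ => G (Function.update ℓ i₀ s)) := by
    rw [EE_resample τ i₀ (hτ1 i₀) π G, EE_sum]
    refine Finset.sum_congr rfl fun s _ => ?_
    rw [EE_smul]
  -- decoupling
  have h2 : ∀ s : Fin (N + 2), |Enu P (kap k i₀) (fun y =>
      F (fun i => if i = i₀ then (s : ℕ) else vec k P y i)) -
      EE τ (fun ℓ => G (Function.update ℓ i₀ s))| ≤ ε / 2 := by
    intro s
    have h3 := decouple k i₀ P hPp N hPc (fun v => F (fun i => if i = i₀ then (s : ℕ) else v i))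
      (fun v => hF _)
    have h4 : (fun ℓ : Fin k → Fin (N + 2) => (fun v : Fin k → ℕ => F (fun i => if i = i₀ then (s : ℕ)
        else v i)) (fun i => (ℓ i : ℕ))) = fun ℓ => G (Function.update ℓ i₀ s) := by
      funext ℓ
      simp only [hG]
      congr 1
      funext i
      by_cases hi : i = i₀
      · rw [if_pos hi, hi, Function.update_self]
      · rw [if_neg hi, Function.update_of_ne hi]
    rw [h4] at h3
    refine h3.trans ?_
    have h5 := sum_inv_sq_le P u (by omega) (fun q hq => ((mem_Pu u N q (by omega)).mp hq).2.1)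
    have h6 : 4 * (k : ℝ) ^ 2 / ε ≤ u := by
      refine (Nat.le_ceil _).trans ?_
      have : ⌈4 * (k : ℝ) ^ 2 / ε⌉₊ ≤ u := by omega
      exact_mod_cast this
    calc 2 * (k : ℝ) ^ 2 * ∑ q ∈ P, (1 : ℝ) / (q : ℝ) ^ 2 ≤ 2 * k ^ 2 * (1 / u) :=
          mul_le_mul_of_nonneg_left h5 (by positivity)
      _ ≤ ε / 2 := by
          rw [div_le_iff₀ hε] at h6
          rw [mul_one_div, div_le_div_iff₀ huR (by norm_num)]
          linarith
  have e3 : 1 / (N : ℝ) * ∑ n ∈ Finset.Icc 1 N, Enu P (kap k i₀) (fun y =>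
          F (fun i => if i = i₀ then ArithmeticFunction.cardFactors n else vec k P y i)) =
      ∑ s, π s * Enu P (kap k i₀) (fun y =>
        F (fun i => if i = i₀ then (s : ℕ) else vec k P y i)) := by
    rw [hπ, lawE_apply N _ (fun s => Enu P (kap k i₀) (fun y =>
        F (fun i => if i = i₀ then (s : ℕ) else vec k P y i)))]
    rw [one_div_mul_eq_div]
    congr 1
    refine Finset.sum_congr rfl fun n hn => ?_
    rw [Finset.mem_Icc] at hn
    have h4 : ((clip N (ArithmeticFunction.cardFactors n) : Fin (N + 2)) : ℕ) =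
        ArithmeticFunction.cardFactors n := by
      apply clip_val
      have := Omega_le n
      omega
    rw [h4]
  have h3 : |∑ s, π s * Enu P (kap k i₀) (fun y =>
        F (fun i => if i = i₀ then (s : ℕ) else vec k P y i)) -
      ∑ s, π s * EE τ (fun ℓ => G (Function.update ℓ i₀ s))| ≤ ε / 2 := by
    rw [← Finset.sum_sub_distrib]
    refine (Finset.abs_sum_le_sum_abs _ _).trans ?_
    have h4 : ∀ s ∈ (Finset.univ : Finset (Fin (N + 2))), |π s * Enu P (kap k i₀) (fun y =>
        F (fun i => if i = i₀ then (s : ℕ) else vec k P y i)) -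
        π s * EE τ (fun ℓ => G (Function.update ℓ i₀ s))| ≤ π s * (ε / 2) := by
      intro s _
      rw [← mul_sub, abs_mul, abs_of_nonneg (lawE_nonneg _ _ _)]
      exact mul_le_mul_of_nonneg_left (h2 s) (lawE_nonneg _ _ _)
    refine (Finset.sum_le_sum h4).trans ?_
    rw [← Finset.sum_mul, hπ1, one_mul]
  rw [e1, e3]
  set a := EE (fun i => lawE N (f i)) G with ha
  set b := EE (Function.update τ i₀ π) G with hb
  rw [← e2] at h3
  set c := ∑ s, π s * Enu P (kap k i₀) (fun y =>
        F (fun i => if i = i₀ then (s : ℕ) else vec k P y i)) with hc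
  have e4 : a - c = (a - b) - (c - b) := by ring
  rw [e4]
  have := abs_sub (a - b) (c - b)
  linarith

/-- **Main theorem, truncated form.** -/
theorem main_trunc (k : ℕ) (i₀ : Fin k) (ε : ℝ) (hε : 0 < ε) :
    ∃ u₀ : ℕ, ∀ u ≥ u₀, ∃ N₀ : ℕ, ∀ N ≥ N₀, ∀ F : (Fin k → ℕ) → ℝ, (∀ s, |F s| ≤ 1) →
      |1 / (N : ℝ) * ∑ n ∈ Finset.Icc 1 N, F (fun i => if i = i₀ then
          ArithmeticFunction.cardFactors (n + i) else OmT u N (n + i)) -
        1 / (N : ℝ) ^ k * ∑ m ∈ Fintype.piFinset (fun _ : Fin k => Finset.Icc 1 N),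
          F (fun i => if i = i₀ then ArithmeticFunction.cardFactors (m i)
            else OmT u N (m i))| ≤ ε := by
  obtain ⟨u₁, hu₁⟩ := trunc_model k i₀ (ε / 2) (by positivity)
  obtain ⟨u₂, hu₂⟩ := indep_model k i₀ (ε / 2) (by positivity)
  refine ⟨u₁ + u₂, fun u hu => ?_⟩
  obtain ⟨N₁, hN₁⟩ := hu₁ u (by omega)
  obtain ⟨N₂, hN₂⟩ := hu₂ u (by omega)
  refine ⟨N₁ + N₂ + 1, fun N hN F hF => ?_⟩
  have hNR : (0 : ℝ) < N := by
    have : 0 < N := by omega
    exact_mod_cast this
  have h1 := hN₁ N (by omega) F hF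
  have h2 := hN₂ N (by omega) F hF
  set a := ∑ n ∈ Finset.Icc 1 N, F (fun i => if i = i₀ then
          ArithmeticFunction.cardFactors (n + i) else OmT u N (n + i)) with ha
  set b := ∑ n ∈ Finset.Icc 1 N, Enu (Pu u N) (kap k i₀) (fun y =>
          F (fun i => if i = i₀ then ArithmeticFunction.cardFactors n
            else vec k (Pu u N) y i)) with hb
  set c := 1 / (N : ℝ) ^ k * ∑ m ∈ Fintype.piFinset (fun _ : Fin k => Finset.Icc 1 N),
          F (fun i => if i = i₀ then ArithmeticFunction.cardFactors (m i)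
            else OmT u N (m i)) with hc
  have e1 : 1 / (N : ℝ) * a - c = (1 / (N : ℝ)) * (a - b) - (c - 1 / (N : ℝ) * b) := by ring
  rw [e1]
  have h3 : |(1 / (N : ℝ)) * (a - b)| ≤ ε / 2 := by
    rw [abs_mul, abs_of_pos (by positivity : (0 : ℝ) < 1 / N), one_div_mul_eq_div,
      div_le_iff₀ hNR]
    exact h1
  have := abs_sub ((1 / (N : ℝ)) * (a - b)) (c - 1 / (N : ℝ) * b)
  linarith

end Helper13.Om
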