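import Mathlib
import Pool.Agent.Helper13.Om.Assemble

set_option autoImplicit false
set_option linter.unusedSectionVars false

/-! Slowly varying test functions. -/

namespace Helper13.Om

open Finset Filter

lemma list_prod_pow (l : List ℕ) (u : ℕ) : (l.map (fun p => p ^ u)).prod = l.prod ^ u := by
  induction l with
  | nil => simp
  | cons a l ih => rw [List.map_cons, List.prod_cons, List.prod_cons, ih, mul_pow]

lemma Omega_le_OmT (u N n : ℕ) (hN : 2 ≤ N) (hn : 1 ≤ n) (hnN : n ≤ N ^ 2) :
    ArithmeticFunction.cardFactors n ≤ OmT u N n + 2 * u := by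
  rw [ArithmeticFunction.cardFactors_apply]
  unfold OmT
  set l := n.primeFactorsList with hl
  set l2 := l.filter (fun p => ¬ (p ^ u ≤ N)) with hl2
  have h1 : l.length = (l.filter (fun p => p ^ u ≤ N)).length + l2.length := by
    have := List.length_eq_length_filter_add (l := l) (fun p => decide (p ^ u ≤ N))
    rw [this]
    congr 2
    apply List.filter_congr
    intro p _
    by_cases hp : p ^ u ≤ N <;> simp [hp]
  rw [h1]
  apply Nat.add_le_add_left
  have h2 : N ^ (l2.map (fun p => p ^ u)).length ≤ (l2.map (fun p => p ^ u)).prod := by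
    apply List.pow_card_le_prod
    intro x hx
    rw [List.mem_map] at hx
    obtain ⟨p, hp, rfl⟩ := hx
    rw [hl2, List.mem_filter] at hp
    have := hp.2
    simp only [decide_eq_true_eq] at this
    omega
  rw [List.length_map, list_prod_pow] at h2
  have h3 : l2.prod ≤ n := by
    have h4 : l2.prod ∣ l.prod := by
      apply List.Sublist.prod_dvd_prod
      exact List.filter_sublist
    rw [hl, Nat.prod_primeFactorsList (by omega)] at h4
    exact Nat.le_of_dvd (by omega) h4
  have h4 : N ^ l2.length ≤ N ^ (2 * u) := by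
    calc N ^ l2.length ≤ l2.prod ^ u := h2
      _ ≤ n ^ u := Nat.pow_le_pow_left h3 u
      _ ≤ (N ^ 2) ^ u := Nat.pow_le_pow_left hnN u
      _ = N ^ (2 * u) := by rw [← pow_mul]
  exact (Nat.pow_le_pow_iff_right (by omega)).mp h4

/-- slow variation in the coordinates other than `i₀` -/
def SlowVar (k : ℕ) (i₀ : Fin k) (δ : ℝ) (F : (Fin k → ℕ) → ℝ) : Prop :=
  ∀ s : Fin k → ℕ, ∀ i, i ≠ i₀ → |F (Function.update s i (s i + 1)) - F s| ≤ δ

lemma slow_diff (k : ℕ) (i₀ : Fin k) (δ : ℝ) (F : (Fin k → ℕ) → ℝ)
    (hF : SlowVar k i₀ δ F) (n : ℕ) :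
    ∀ s d : Fin k → ℕ, d i₀ = 0 → ∑ i, d i = n → |F (s + d) - F s| ≤ n * δ := by
  classical
  induction n with
  | zero =>
    intro s d _ hd
    have h0 : d = 0 := by
      funext i
      have := (Finset.sum_eq_zero_iff.mp hd) i (Finset.mem_univ i)
      simpa using this
    rw [h0]
    simp
  | succ n ih =>
    intro s d hd0 hd
    obtain ⟨j, hj⟩ : ∃ j, d j ≠ 0 := by
      by_contra hcon
      push Not at hcon
      rw [Finset.sum_eq_zero (fun i _ => hcon i)] at hd
      omega
    have hji : j ≠ i₀ := by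
      rintro rfl
      exact hj hd0
    set d' : Fin k → ℕ := Function.update d j (d j - 1) with hd'
    have hdd : d = d' + Pi.single j 1 := by
      funext i
      rw [Pi.add_apply, hd']
      by_cases hij : i = j
      · rw [hij, Function.update_self, Pi.single_eq_same]
        omega
      · rw [Function.update_of_ne hij, Pi.single_eq_of_ne hij, add_zero]
    have hd'0 : d' i₀ = 0 := by
      rw [hd', Function.update_of_ne (Ne.symm hji)]
      exact hd0
    have hd'n : ∑ i, d' i = n := by
      have h1 : ∑ i, d i = ∑ i, d' i + 1 := by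
        conv_lhs => rw [hdd]
        simp only [Pi.add_apply]
        rw [Finset.sum_add_distrib]
        congr 1
        rw [Finset.sum_pi_single']
        simp
      omega
    have h1 := ih s d' hd'0 hd'n
    have h2 := hF (s + d') j hji
    have e1 : s + d = Function.update (s + d') j ((s + d') j + 1) := by
      funext i
      by_cases hij : i = j
      · rw [hij, Function.update_self, hdd]
        simp [Pi.add_apply]
        ring
      · rw [Function.update_of_ne hij, hdd]
        simp [Pi.add_apply, Pi.single_eq_of_ne hij]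
    rw [e1]
    have e2 : F (Function.update (s + d') j ((s + d') j + 1)) - F s =
        (F (Function.update (s + d') j ((s + d') j + 1)) - F (s + d')) + (F (s + d') - F s) := by
      ring
    rw [e2]
    refine (abs_add_le _ _).trans ?_
    push_cast
    linarith

lemma slow_trunc (k : ℕ) (i₀ : Fin k) (δ : ℝ) (hδ : 0 ≤ δ) (F : (Fin k → ℕ) → ℝ)
    (hF : SlowVar k i₀ δ F) (u N : ℕ) (hN : 2 ≤ N) (m : Fin k → ℕ) (hm1 : ∀ i, 1 ≤ m i)
    (hm2 : ∀ i, m i ≤ N ^ 2) :
    |F (fun i => ArithmeticFunction.cardFactors (m i)) -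
      F (fun i => if i = i₀ then ArithmeticFunction.cardFactors (m i) else OmT u N (m i))| ≤
      (k * (2 * u) : ℕ) * δ := by
  classical
  set s : Fin k → ℕ := fun i => if i = i₀ then ArithmeticFunction.cardFactors (m i)
    else OmT u N (m i) with hs
  set d : Fin k → ℕ := fun i => ArithmeticFunction.cardFactors (m i) - s i with hd
  have hle : ∀ i, s i ≤ ArithmeticFunction.cardFactors (m i) := by
    intro i
    simp only [hs]
    split_ifs
    · exact le_rfl
    · exact OmT_le_Omega u N (m i)
  have e1 : (fun i => ArithmeticFunction.cardFactors (m i)) = s + d := by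
    funext i
    rw [Pi.add_apply, hd]
    have := hle i
    simp only
    omega
  rw [e1]
  have h1 := slow_diff k i₀ δ F hF (∑ i, d i) s d (by simp [hd, hs]) rfl
  refine h1.trans ?_
  apply mul_le_mul_of_nonneg_right _ hδ
  have h2 : ∑ i, d i ≤ k * (2 * u) := by
    have h3 : ∀ i ∈ (Finset.univ : Finset (Fin k)), d i ≤ 2 * u := by
      intro i _
      simp only [hd, hs]
      split_ifs with hi
      · omega
      · have := Omega_le_OmT u N (m i) hN (hm1 i) (hm2 i)
        omega
    refine (Finset.sum_le_card_nsmul _ _ _ h3).trans (le_of_eq ?_)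
    rw [Finset.card_univ, Fintype.card_fin, smul_eq_mul]
  exact_mod_cast h2

/-- **Main theorem, slowly varying form.** -/
theorem main_slow (k : ℕ) (i₀ : Fin k) (ε : ℝ) (hε : 0 < ε) :
    ∃ δ : ℝ, 0 < δ ∧ ∃ N₀ : ℕ, ∀ N ≥ N₀, ∀ F : (Fin k → ℕ) → ℝ, (∀ s, |F s| ≤ 1) →
      SlowVar k i₀ δ F →
      |1 / (N : ℝ) * ∑ n ∈ Finset.Icc 1 N, F (fun i => ArithmeticFunction.cardFactors (n + i)) -
        1 / (N : ℝ) ^ k * ∑ m ∈ Fintype.piFinset (fun _ : Fin k => Finset.Icc 1 N),
          F (fun i => ArithmeticFunction.cardFactors (m i))| ≤ ε := by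
  classical
  obtain ⟨u, hu⟩ := main_trunc k i₀ (ε / 2) (by positivity)
  obtain ⟨N₁, hN₁⟩ := hu u le_rfl
  refine ⟨ε / (4 * (k * (2 * u) + 1)), by positivity, N₁ + k + 2, fun N hN F hF hS => ?_⟩
  set δ := ε / (4 * ((k : ℝ) * (2 * u) + 1)) with hδ
  have hδ0 : 0 ≤ δ := by positivity
  have hNR : (0 : ℝ) < N := by
    have : 0 < N := by omega
    exact_mod_cast this
  have hd : ((k * (2 * u) : ℕ) : ℝ) * δ ≤ ε / 4 := by
    rw [hδ]
    push_cast
    have hX : (0 : ℝ) ≤ k * (2 * u) := by positivity
    rw [mul_div_assoc', div_le_div_iff₀ (by positivity) (by norm_num)]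
    nlinarith
  have h0 := hN₁ N (by omega) F hF
  have h1 : |1 / (N : ℝ) * ∑ n ∈ Finset.Icc 1 N, F (fun i => ArithmeticFunction.cardFactors (n + i)) -
      1 / (N : ℝ) * ∑ n ∈ Finset.Icc 1 N, F (fun i => if i = i₀ then
          ArithmeticFunction.cardFactors (n + i) else OmT u N (n + i))| ≤ ε / 4 := by
    rw [← mul_sub, ← Finset.sum_sub_distrib, abs_mul, abs_of_pos (by positivity : (0:ℝ) < 1 / N),
      one_div_mul_eq_div, div_le_iff₀ hNR]
    refine (Finset.abs_sum_le_sum_abs _ _).trans ?_
    have h2 : ∀ n ∈ Finset.Icc 1 N, |F (fun i => ArithmeticFunction.cardFactors (n + i)) -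
        F (fun i => if i = i₀ then ArithmeticFunction.cardFactors (n + i)
          else OmT u N (n + i))| ≤ ε / 4 := by
      intro n hn
      rw [Finset.mem_Icc] at hn
      refine (slow_trunc k i₀ δ hδ0 F hS u N (by omega) (fun i => n + i) (fun i => by omega)
        (fun i => ?_)).trans hd
      have := i.2
      have h3 : n + (i : ℕ) ≤ 2 * N := by omega
      refine h3.trans ?_
      rw [sq]
      exact Nat.mul_le_mul_right N (by omega)
    refine (Finset.sum_le_card_nsmul _ _ _ h2).trans (le_of_eq ?_)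
    rw [Nat.card_Icc, Nat.add_sub_cancel, nsmul_eq_mul]
    ring
  have h2 : |1 / (N : ℝ) ^ k * ∑ m ∈ Fintype.piFinset (fun _ : Fin k => Finset.Icc 1 N),
        F (fun i => ArithmeticFunction.cardFactors (m i)) -
      1 / (N : ℝ) ^ k * ∑ m ∈ Fintype.piFinset (fun _ : Fin k => Finset.Icc 1 N),
          F (fun i => if i = i₀ then ArithmeticFunction.cardFactors (m i)
            else OmT u N (m i))| ≤ ε / 4 := by
    rw [← mul_sub, ← Finset.sum_sub_distrib, abs_mul,
      abs_of_pos (by positivity : (0:ℝ) < 1 / (N : ℝ) ^ k),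
      one_div_mul_eq_div, div_le_iff₀ (by positivity)]
    refine (Finset.abs_sum_le_sum_abs _ _).trans ?_
    have h2 : ∀ m ∈ Fintype.piFinset (fun _ : Fin k => Finset.Icc 1 N),
        |F (fun i => ArithmeticFunction.cardFactors (m i)) -
        F (fun i => if i = i₀ then ArithmeticFunction.cardFactors (m i)
          else OmT u N (m i))| ≤ ε / 4 := by
      intro m hm
      rw [Fintype.mem_piFinset] at hm
      refine (slow_trunc k i₀ δ hδ0 F hS u N (by omega) m (fun i => ?_)
        (fun i => ?_)).trans hd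
      · exact (Finset.mem_Icc.mp (hm i)).1
      · refine ((Finset.mem_Icc.mp (hm i)).2).trans ?_
        rw [sq]
        exact Nat.le_mul_of_pos_left N (by omega)
    refine (Finset.sum_le_card_nsmul _ _ _ h2).trans (le_of_eq ?_)
    rw [Fintype.card_piFinset, Finset.prod_const, Nat.card_Icc, Nat.add_sub_cancel,
      Finset.card_univ, Fintype.card_fin, nsmul_eq_mul]
    push_cast
    ring
  set a := 1 / (N : ℝ) * ∑ n ∈ Finset.Icc 1 N, F (fun i => ArithmeticFunction.cardFactors (n + i))
    with ha
  set b := 1 / (N : ℝ) * ∑ n ∈ Finset.Icc 1 N, F (fun i => if i = i₀ then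
          ArithmeticFunction.cardFactors (n + i) else OmT u N (n + i)) with hb
  set c := 1 / (N : ℝ) ^ k * ∑ m ∈ Fintype.piFinset (fun _ : Fin k => Finset.Icc 1 N),
          F (fun i => if i = i₀ then ArithmeticFunction.cardFactors (m i)
            else OmT u N (m i)) with hc
  set d := 1 / (N : ℝ) ^ k * ∑ m ∈ Fintype.piFinset (fun _ : Fin k => Finset.Icc 1 N),
        F (fun i => ArithmeticFunction.cardFactors (m i)) with hd'
  have e1 : a - d = (a - b) + (b - c) - (d - c) := by ring
  rw [e1]
  have h3 := abs_sub ((a - b) + (b - c)) (d - c)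
  have h4 := abs_add_le (a - b) (b - c)
  linarith

end Helper13.Om
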