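import Mathlib
import Pool.Agent.Helper13.Om.Slow

set_option autoImplicit false
set_option linter.unusedSectionVars false

/-! The reduction to asymptotic shift invariance. -/

namespace Helper13.Om

open Finset Filter

/-- joint density -/
noncomputable def muN (k N : ℕ) (ℓ : Fin k → ℕ) : ℝ :=
  1 / (N : ℝ) * (((Finset.Icc 1 N).filter
    (fun n => ∀ i : Fin k, ArithmeticFunction.cardFactors (n + (i : ℕ)) = ℓ i)).card : ℝ)

/-- product of the densities -/
noncomputable def piN (k N : ℕ) (ℓ : Fin k → ℕ) : ℝ :=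
  ∏ i : Fin k, (1 / (N : ℝ) * (((Finset.Icc 1 N).filter
    (fun n => ArithmeticFunction.cardFactors n = ℓ i)).card : ℝ))

/-- the difference -/
noncomputable def sigmaN (k N : ℕ) (ℓ : Fin k → ℕ) : ℝ := muN k N ℓ - piN k N ℓ

/-- the functional -/
noncomputable def Lam (k N : ℕ) (a : (Fin k → ℕ) → ℝ) : ℝ :=
  1 / (N : ℝ) * ∑ n ∈ Finset.Icc 1 N, a (fun i => ArithmeticFunction.cardFactors (n + i)) -
    1 / (N : ℝ) ^ k * ∑ m ∈ Fintype.piFinset (fun _ : Fin k => Finset.Icc 1 N),
      a (fun i => ArithmeticFunction.cardFactors (m i))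

/-- the box containing the support -/
def Bx (k N : ℕ) : Finset (Fin k → ℕ) := Fintype.piFinset (fun _ : Fin k => Finset.range (N + k + 1))

lemma mu_apply (k N : ℕ) (a : (Fin k → ℕ) → ℝ) :
    1 / (N : ℝ) * ∑ n ∈ Finset.Icc 1 N, a (fun i => ArithmeticFunction.cardFactors (n + i)) =
      ∑ ℓ ∈ Bx k N, muN k N ℓ * a ℓ := by
  classical
  have h1 : ∀ n ∈ Finset.Icc 1 N,
      (fun i : Fin k => ArithmeticFunction.cardFactors (n + i)) ∈ Bx k N := by
    intro n hn
    rw [Finset.mem_Icc] at hn
    unfold Bx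
    rw [Fintype.mem_piFinset]
    intro i
    rw [Finset.mem_range]
    have := Omega_le (n + i)
    have := i.2
    omega
  rw [← Finset.sum_fiberwise_of_maps_to h1, Finset.mul_sum]
  refine Finset.sum_congr rfl fun ℓ _ => ?_
  unfold muN
  have h2 : ∀ n ∈ (Finset.Icc 1 N).filter
      (fun n => (fun i : Fin k => ArithmeticFunction.cardFactors (n + i)) = ℓ),
      a (fun i => ArithmeticFunction.cardFactors (n + i)) = a ℓ := by
    intro n hn
    rw [(Finset.mem_filter.mp hn).2]
  rw [Finset.sum_congr rfl h2, Finset.sum_const, nsmul_eq_mul]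
  have h3 : (Finset.Icc 1 N).filter
      (fun n => (fun i : Fin k => ArithmeticFunction.cardFactors (n + i)) = ℓ) =
      (Finset.Icc 1 N).filter
        (fun n => ∀ i : Fin k, ArithmeticFunction.cardFactors (n + (i : ℕ)) = ℓ i) := by
    refine Finset.filter_congr fun n _ => ?_
    exact funext_iff
  rw [h3]
  ring

lemma pi_apply (k N : ℕ) (a : (Fin k → ℕ) → ℝ) :
    1 / (N : ℝ) ^ k * ∑ m ∈ Fintype.piFinset (fun _ : Fin k => Finset.Icc 1 N),
      a (fun i => ArithmeticFunction.cardFactors (m i)) =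
      ∑ ℓ ∈ Bx k N, piN k N ℓ * a ℓ := by
  classical
  have h1 : ∀ m ∈ Fintype.piFinset (fun _ : Fin k => Finset.Icc 1 N),
      (fun i : Fin k => ArithmeticFunction.cardFactors (m i)) ∈ Bx k N := by
    intro m hm
    rw [Fintype.mem_piFinset] at hm
    unfold Bx
    rw [Fintype.mem_piFinset]
    intro i
    rw [Finset.mem_range]
    have := Omega_le (m i)
    have := Finset.mem_Icc.mp (hm i)
    omega
  rw [← Finset.sum_fiberwise_of_maps_to h1, Finset.mul_sum]
  refine Finset.sum_congr rfl fun ℓ _ => ?_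
  have h2 : ∀ m ∈ (Fintype.piFinset (fun _ : Fin k => Finset.Icc 1 N)).filter
      (fun m => (fun i : Fin k => ArithmeticFunction.cardFactors (m i)) = ℓ),
      a (fun i => ArithmeticFunction.cardFactors (m i)) = a ℓ := by
    intro m hm
    rw [(Finset.mem_filter.mp hm).2]
  rw [Finset.sum_congr rfl h2, Finset.sum_const, nsmul_eq_mul]
  have h3 : (Fintype.piFinset (fun _ : Fin k => Finset.Icc 1 N)).filter
      (fun m => (fun i : Fin k => ArithmeticFunction.cardFactors (m i)) = ℓ) =
      Fintype.piFinset (fun i => (Finset.Icc 1 N).filter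
        (fun n => ArithmeticFunction.cardFactors n = ℓ i)) := by
    ext m
    simp only [Finset.mem_filter, Fintype.mem_piFinset]
    constructor
    · rintro ⟨h1, h2⟩ i
      exact ⟨h1 i, congrFun h2 i⟩
    · intro h
      exact ⟨fun i => (h i).1, funext fun i => (h i).2⟩
  rw [h3, Fintype.card_piFinset]
  unfold piN
  rw [Finset.prod_mul_distrib, Finset.prod_const, Finset.card_univ, Fintype.card_fin]
  push_cast
  rw [one_div_pow]
  ring

lemma Lam_apply (k N : ℕ) (a : (Fin k → ℕ) → ℝ) :
    Lam k N a = ∑ ℓ ∈ Bx k N, sigmaN k N ℓ * a ℓ := by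
  unfold Lam
  rw [mu_apply, pi_apply, ← Finset.sum_sub_distrib]
  refine Finset.sum_congr rfl fun ℓ _ => ?_
  unfold sigmaN
  ring

lemma muN_zero (k N : ℕ) (ℓ : Fin k → ℕ) (h : ℓ ∉ Bx k N) : muN k N ℓ = 0 := by
  unfold muN
  have : (Finset.Icc 1 N).filter
      (fun n => ∀ i : Fin k, ArithmeticFunction.cardFactors (n + (i : ℕ)) = ℓ i) = ∅ := by
    rw [Finset.filter_eq_empty_iff]
    intro n hn hcon
    apply h
    unfold Bx
    rw [Fintype.mem_piFinset]
    intro i
    rw [Finset.mem_range, ← hcon i]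
    have := Omega_le (n + i)
    have := i.2
    rw [Finset.mem_Icc] at hn
    omega
  rw [this]
  simp

lemma piN_zero (k N : ℕ) (ℓ : Fin k → ℕ) (h : ℓ ∉ Bx k N) : piN k N ℓ = 0 := by
  unfold piN
  unfold Bx at h
  rw [Fintype.mem_piFinset] at h
  push Not at h
  obtain ⟨i, hi⟩ := h
  apply Finset.prod_eq_zero (Finset.mem_univ i)
  have : (Finset.Icc 1 N).filter (fun n => ArithmeticFunction.cardFactors n = ℓ i) = ∅ := by
    rw [Finset.filter_eq_empty_iff]
    intro n hn hcon
    apply hi
    rw [Finset.mem_range, ← hcon]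
    have := Omega_le n
    rw [Finset.mem_Icc] at hn
    omega
  rw [this]
  simp

lemma sigmaN_zero (k N : ℕ) (ℓ : Fin k → ℕ) (h : ℓ ∉ Bx k N) : sigmaN k N ℓ = 0 := by
  unfold sigmaN
  rw [muN_zero k N ℓ h, piN_zero k N ℓ h, sub_zero]

/-- `Lam` as a sum over a larger set -/
lemma Lam_apply' (k N : ℕ) (a : (Fin k → ℕ) → ℝ) (B : Finset (Fin k → ℕ))
    (hB : ∀ ℓ ∈ Bx k N, ℓ ∉ B → a ℓ = 0) :
    Lam k N a = ∑ ℓ ∈ B, sigmaN k N ℓ * a ℓ := by
  classical
  rw [Lam_apply]
  have h1 : ∑ ℓ ∈ Bx k N, sigmaN k N ℓ * a ℓ = ∑ ℓ ∈ Bx k N ∪ B, sigmaN k N ℓ * a ℓ := by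
    apply Finset.sum_subset Finset.subset_union_left
    intro ℓ _ hℓ
    rw [sigmaN_zero k N ℓ hℓ, zero_mul]
  have h2 : ∑ ℓ ∈ B, sigmaN k N ℓ * a ℓ = ∑ ℓ ∈ Bx k N ∪ B, sigmaN k N ℓ * a ℓ := by
    apply Finset.sum_subset Finset.subset_union_right
    intro ℓ hℓ hℓB
    rcases Finset.mem_union.mp hℓ with h | h
    · rw [hB ℓ h hℓB, mul_zero]
    · exact absurd h hℓB
  rw [h1, h2]

lemma Lam_sub (k N : ℕ) (a b : (Fin k → ℕ) → ℝ) :
    Lam k N (fun ℓ => a ℓ - b ℓ) = Lam k N a - Lam k N b := by
  rw [Lam_apply, Lam_apply, Lam_apply, ← Finset.sum_sub_distrib]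
  exact Finset.sum_congr rfl fun ℓ _ => by ring

lemma Lam_sum {J : Type} (s : Finset J) (k N : ℕ) (c : ℝ) (a : J → (Fin k → ℕ) → ℝ) :
    Lam k N (fun ℓ => c * ∑ j ∈ s, a j ℓ) = c * ∑ j ∈ s, Lam k N (a j) := by
  simp only [Lam_apply]
  rw [Finset.sum_comm, Finset.mul_sum]
  refine Finset.sum_congr rfl fun ℓ _ => ?_
  rw [← Finset.mul_sum]
  ring

/-- tuples with a zero entry are negligible -/
lemma Lam_bdry (k N : ℕ) (hN : 1 ≤ N) (a : (Fin k → ℕ) → ℝ) (ha : ∀ ℓ, |a ℓ| ≤ 1)
    (J : Finset (Fin k)) (h0 : ∀ ℓ, (∀ i ∈ J, ℓ i ≠ 0) → a ℓ = 0) :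
    |Lam k N a| ≤ 2 * J.card / N := by
  classical
  have hNR : (0 : ℝ) < N := by exact_mod_cast hN
  unfold Lam
  have h1 : |1 / (N : ℝ) * ∑ n ∈ Finset.Icc 1 N,
      a (fun i => ArithmeticFunction.cardFactors (n + i))| ≤ J.card / N := by
    rw [abs_mul, abs_of_pos (by positivity : (0:ℝ) < 1 / N), one_div_mul_eq_div]
    apply div_le_div_of_nonneg_right _ hNR.le
    refine (Finset.abs_sum_le_sum_abs _ _).trans ?_
    have h2 : ∀ n ∈ Finset.Icc 1 N, |a (fun i => ArithmeticFunction.cardFactors (n + i))| ≤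
        ∑ i ∈ J, if n = 1 then (1 : ℝ) else 0 := by
      intro n hn
      rw [Finset.mem_Icc] at hn
      by_cases h : ∀ i ∈ J, ArithmeticFunction.cardFactors (n + (i : ℕ)) ≠ 0
      · rw [h0 _ h, abs_zero]
        exact Finset.sum_nonneg fun i _ => by split_ifs <;> norm_num
      · push Not at h
        obtain ⟨i, hiJ, hi⟩ := h
        rw [ArithmeticFunction.cardFactors_eq_zero_iff_eq_zero_or_one] at hi
        have hn1 : n = 1 := by omega
        refine (ha _).trans ?_
        have := Finset.single_le_sum (f := fun _ : Fin k => if n = 1 then (1 : ℝ) else 0)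
          (s := J) (fun i _ => by split_ifs <;> norm_num) hiJ
        simp only [hn1, if_true] at this ⊢
        exact this
    refine (Finset.sum_le_sum h2).trans ?_
    rw [Finset.sum_comm]
    have h3 : ∀ i ∈ J, (∑ n ∈ Finset.Icc 1 N, if n = 1 then (1 : ℝ) else 0) ≤ 1 := by
      intro i _
      rw [Finset.sum_ite_eq']
      split_ifs <;> norm_num
    refine (Finset.sum_le_card_nsmul _ _ _ h3).trans (le_of_eq ?_)
    rw [nsmul_eq_mul, mul_one]
  have h2 : |1 / (N : ℝ) ^ k * ∑ m ∈ Fintype.piFinset (fun _ : Fin k => Finset.Icc 1 N),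
      a (fun i => ArithmeticFunction.cardFactors (m i))| ≤ J.card / N := by
    rw [abs_mul, abs_of_pos (by positivity : (0:ℝ) < 1 / (N : ℝ) ^ k), one_div_mul_eq_div]
    rw [div_le_div_iff₀ (by positivity) hNR]
    have h3 : |∑ m ∈ Fintype.piFinset (fun _ : Fin k => Finset.Icc 1 N),
      a (fun i => ArithmeticFunction.cardFactors (m i))| ≤
      ∑ i ∈ J, (((Fintype.piFinset (fun _ : Fin k => Finset.Icc 1 N)).filter
        (fun m => m i = 1)).card : ℝ) := by
      refine (Finset.abs_sum_le_sum_abs _ _).trans ?_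
      have h4 : ∀ m ∈ Fintype.piFinset (fun _ : Fin k => Finset.Icc 1 N),
          |a (fun i => ArithmeticFunction.cardFactors (m i))| ≤
          ∑ i ∈ J, if m i = 1 then (1 : ℝ) else 0 := by
        intro m hm
        rw [Fintype.mem_piFinset] at hm
        by_cases h : ∀ i ∈ J, ArithmeticFunction.cardFactors (m i) ≠ 0
        · rw [h0 _ h, abs_zero]
          exact Finset.sum_nonneg fun i _ => by split_ifs <;> norm_num
        · push Not at h
          obtain ⟨i, hiJ, hi⟩ := h
          rw [ArithmeticFunction.cardFactors_eq_zero_iff_eq_zero_or_one] at hi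
          have hmi := Finset.mem_Icc.mp (hm i)
          have hm1 : m i = 1 := by omega
          refine (ha _).trans ?_
          have := Finset.single_le_sum (f := fun i : Fin k => if m i = 1 then (1 : ℝ) else 0)
            (s := J) (fun i _ => by split_ifs <;> norm_num) hiJ
          simp only [hm1, if_true] at this
          exact this
      refine (Finset.sum_le_sum h4).trans (le_of_eq ?_)
      rw [Finset.sum_comm]
      refine Finset.sum_congr rfl fun i _ => ?_
      rw [Finset.card_filter]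
      push_cast
      rfl
    have h4 : ∀ i ∈ J, (((Fintype.piFinset (fun _ : Fin k => Finset.Icc 1 N)).filter
        (fun m => m i = 1)).card : ℝ) * N = (N : ℝ) ^ k := by
      intro i _
      have h5 : (Fintype.piFinset (fun _ : Fin k => Finset.Icc 1 N)).filter (fun m => m i = 1) =
          Fintype.piFinset (fun j : Fin k => if j = i then {1} else Finset.Icc 1 N) := by
        ext m
        simp only [Finset.mem_filter, Fintype.mem_piFinset]
        constructor
        · rintro ⟨h6, h7⟩ j
          split_ifs with hj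
          · rw [hj, h7]
            exact Finset.mem_singleton_self 1
          · exact h6 j
        · intro h6
          refine ⟨fun j => ?_, ?_⟩
          · have := h6 j
            split_ifs at this with hj
            · rw [Finset.mem_singleton] at this
              rw [this, Finset.mem_Icc]
              exact ⟨le_rfl, hN⟩
            · exact this
          · have := h6 i
            rw [if_pos rfl, Finset.mem_singleton] at this
            exact this
      rw [h5, Fintype.card_piFinset, ← Finset.mul_prod_erase Finset.univ _ (Finset.mem_univ i),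
        if_pos rfl, Finset.card_singleton, one_mul]
      have h6 : ∀ j ∈ Finset.univ.erase i,
          (if j = i then ({1} : Finset ℕ) else Finset.Icc 1 N).card = N := by
        intro j hj
        rw [if_neg (Finset.ne_of_mem_erase hj), Nat.card_Icc, Nat.add_sub_cancel]
      rw [Finset.prod_congr rfl h6, Finset.prod_const, Finset.card_erase_of_mem (Finset.mem_univ i),
        Finset.card_univ, Fintype.card_fin]
      have hk : k = (k - 1) + 1 := by
        have := i.2
        omega
      conv_rhs => rw [hk]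
      push_cast
      rw [pow_succ]
    have h5 : (∑ i ∈ J, (((Fintype.piFinset (fun _ : Fin k => Finset.Icc 1 N)).filter
        (fun m => m i = 1)).card : ℝ)) * N = J.card * (N : ℝ) ^ k := by
      rw [Finset.sum_mul, Finset.sum_congr rfl h4, Finset.sum_const, nsmul_eq_mul]
    calc _ ≤ (∑ i ∈ J, (((Fintype.piFinset (fun _ : Fin k => Finset.Icc 1 N)).filter
        (fun m => m i = 1)).card : ℝ)) * N := mul_le_mul_of_nonneg_right h3 hNR.le
      _ = _ := h5
  refine (abs_sub _ _).trans ?_
  have e1 : 2 * (J.card : ℝ) / N = J.card / N + J.card / N := by ring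
  rw [e1]
  exact add_le_add h1 h2

/-- unit vector -/
def ev (k : ℕ) (i : Fin k) : Fin k → ℕ := Pi.single i 1

/-- the shift defect -/
noncomputable def Tdef (k N : ℕ) (i : Fin k) : ℝ :=
  ∑' ℓ : Fin k → ℕ, |sigmaN k N (ℓ + ev k i) - sigmaN k N ℓ|

lemma Tdef_summable (k N : ℕ) (i : Fin k) :
    Summable (fun ℓ : Fin k → ℕ => |sigmaN k N (ℓ + ev k i) - sigmaN k N ℓ|) := by
  classical
  have h1 : Summable (fun ℓ : Fin k → ℕ => sigmaN k N ℓ) :=
    summable_of_ne_finset_zero (s := Bx k N) (fun ℓ hℓ => sigmaN_zero k N ℓ hℓ)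
  have h2 : Summable (fun ℓ : Fin k → ℕ => sigmaN k N (ℓ + ev k i)) :=
    h1.comp_injective (add_left_injective (ev k i))
  exact (h2.sub h1).abs

lemma Lam_shift (k N : ℕ) (hN : 1 ≤ N) (i : Fin k) (a : (Fin k → ℕ) → ℝ) (ha : ∀ ℓ, |a ℓ| ≤ 1) :
    |Lam k N (fun ℓ => a (ℓ + ev k i)) - Lam k N a| ≤ Tdef k N i + 2 / N := by
  classical
  set a' : (Fin k → ℕ) → ℝ := fun ℓ => if ℓ i ≠ 0 then a ℓ else 0 with ha'
  have h1 : |Lam k N a - Lam k N a'| ≤ 2 / N := by
    rw [← Lam_sub]
    have := Lam_bdry k N hN (fun ℓ => a ℓ - a' ℓ) (by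
      intro ℓ
      simp only [ha']
      split_ifs
      · rw [sub_self, abs_zero]
        norm_num
      · rw [sub_zero]
        exact ha ℓ) {i} (by
      intro ℓ hℓ
      simp only [ha']
      rw [if_pos (hℓ i (Finset.mem_singleton_self i)), sub_self])
    rw [Finset.card_singleton] at this
    simpa using this
  have h2 : Lam k N a' = ∑ ℓ ∈ Bx k N, sigmaN k N (ℓ + ev k i) * a (ℓ + ev k i) := by
    have h3 : ∑ ℓ ∈ Bx k N, sigmaN k N (ℓ + ev k i) * a (ℓ + ev k i) =
        ∑ ℓ ∈ (Bx k N).image (fun ℓ => ℓ + ev k i), sigmaN k N ℓ * a' ℓ := by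
      rw [Finset.sum_image (by
        intro x _ y _ hxy
        exact add_left_injective (ev k i) hxy)]
      refine Finset.sum_congr rfl fun ℓ _ => ?_
      simp only [ha']
      rw [if_pos]
      unfold ev
      simp
    rw [h3]
    apply Lam_apply'
    intro ℓ hℓ hnot
    simp only [ha']
    split_ifs with h
    · exfalso
      apply hnot
      rw [Finset.mem_image]
      refine ⟨Function.update ℓ i (ℓ i - 1), ?_, ?_⟩
      · unfold Bx at hℓ ⊢
        rw [Fintype.mem_piFinset] at hℓ ⊢
        intro j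
        by_cases hj : j = i
        · rw [hj, Function.update_self, Finset.mem_range]
          have := Finset.mem_range.mp (hℓ i)
          omega
        · rw [Function.update_of_ne hj]
          exact hℓ j
      · funext j
        rw [Pi.add_apply]
        unfold ev
        by_cases hj : j = i
        · rw [hj, Function.update_self, Pi.single_eq_same]
          omega
        · rw [Function.update_of_ne hj, Pi.single_eq_of_ne hj, add_zero]
    · rfl
  have h3 : |Lam k N (fun ℓ => a (ℓ + ev k i)) - Lam k N a'| ≤ Tdef k N i := by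
    rw [h2, Lam_apply, ← Finset.sum_sub_distrib]
    refine (Finset.abs_sum_le_sum_abs _ _).trans ?_
    have h4 : ∀ ℓ ∈ Bx k N, |sigmaN k N ℓ * a (ℓ + ev k i) -
        sigmaN k N (ℓ + ev k i) * a (ℓ + ev k i)| ≤
        |sigmaN k N (ℓ + ev k i) - sigmaN k N ℓ| := by
      intro ℓ _
      rw [← sub_mul, abs_mul, abs_sub_comm]
      calc _ ≤ |sigmaN k N (ℓ + ev k i) - sigmaN k N ℓ| * 1 :=
            mul_le_mul_of_nonneg_left (ha _) (abs_nonneg _)
        _ = _ := mul_one _
    refine (Finset.sum_le_sum h4).trans ?_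
    unfold Tdef
    exact (Tdef_summable k N i).sum_le_tsum _ (fun ℓ _ => abs_nonneg _)
  have e1 : Lam k N (fun ℓ => a (ℓ + ev k i)) - Lam k N a =
      (Lam k N (fun ℓ => a (ℓ + ev k i)) - Lam k N a') - (Lam k N a - Lam k N a') := by ring
  rw [e1]
  refine (abs_sub _ _).trans ?_
  linarith

/-- iterated shifts in one direction -/
lemma Lam_shift_iter (k N : ℕ) (i : Fin k) (η : ℝ)
    (hη : ∀ a : (Fin k → ℕ) → ℝ, (∀ ℓ, |a ℓ| ≤ 1) →
      |Lam k N (fun ℓ => a (ℓ + ev k i)) - Lam k N a| ≤ η) (h : ℕ)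
    (a : (Fin k → ℕ) → ℝ) (ha : ∀ ℓ, |a ℓ| ≤ 1) :
    |Lam k N (fun ℓ => a (ℓ + h • ev k i)) - Lam k N a| ≤ h * η := by
  induction h with
  | zero => simp
  | succ h ih =>
    have h1 := hη (fun ℓ => a (ℓ + h • ev k i)) (fun ℓ => ha _)
    have e0 : (fun ℓ => a (ℓ + (h + 1) • ev k i)) =
        (fun ℓ => (fun ℓ => a (ℓ + h • ev k i)) (ℓ + ev k i)) := by
      funext ℓ
      congr 1
      rw [add_smul, one_smul]
      abel
    rw [e0]
    have e1 : Lam k N (fun ℓ => (fun ℓ => a (ℓ + h • ev k i)) (ℓ + ev k i)) - Lam k N a =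
        (Lam k N (fun ℓ => (fun ℓ => a (ℓ + h • ev k i)) (ℓ + ev k i)) -
          Lam k N (fun ℓ => a (ℓ + h • ev k i))) +
        (Lam k N (fun ℓ => a (ℓ + h • ev k i)) - Lam k N a) := by ring
    rw [e1]
    refine (abs_add_le _ _).trans ?_
    push_cast
    linarith

/-- Smoothing a test function. -/
lemma smoothing (k N H : ℕ) (hH : 1 ≤ H) (η : ℝ) (hη0 : 0 ≤ η) (s : Finset (Fin k))
    (hη : ∀ i ∈ s, ∀ a : (Fin k → ℕ) → ℝ, (∀ ℓ, |a ℓ| ≤ 1) →
      |Lam k N (fun ℓ => a (ℓ + ev k i)) - Lam k N a| ≤ η)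
    (a : (Fin k → ℕ) → ℝ) (ha : ∀ ℓ, |a ℓ| ≤ 1) :
    ∃ b : (Fin k → ℕ) → ℝ, (∀ ℓ, |b ℓ| ≤ 1) ∧
      (∀ i ∈ s, ∀ ℓ, |b (ℓ + ev k i) - b ℓ| ≤ 2 / H) ∧
      |Lam k N b - Lam k N a| ≤ s.card * (H * η) := by
  classical
  have hHR : (0 : ℝ) < H := by exact_mod_cast hH
  induction s using Finset.induction_on with
  | empty => exact ⟨a, ha, by simp, by simp⟩
  | insert j s hj ih =>
    obtain ⟨b, hb1, hb2, hb3⟩ := ih (fun i hi => hη i (Finset.mem_insert_of_mem hi))
    set c : (Fin k → ℕ) → ℝ := fun ℓ => 1 / (H : ℝ) * ∑ h ∈ Finset.range H, b (ℓ + h • ev k j)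
      with hc
    have hbd : ∀ f : ℕ → ℝ, ∀ B : ℝ, (∀ h, |f h| ≤ B) →
        |1 / (H : ℝ) * ∑ h ∈ Finset.range H, f h| ≤ B := by
      intro f B hf
      rw [abs_mul, abs_of_pos (by positivity : (0:ℝ) < 1 / H), one_div_mul_eq_div,
        div_le_iff₀ hHR]
      refine (Finset.abs_sum_le_sum_abs _ _).trans ?_
      refine (Finset.sum_le_card_nsmul _ _ B (fun h _ => hf h)).trans (le_of_eq ?_)
      rw [Finset.card_range, nsmul_eq_mul, mul_comm]
    refine ⟨c, fun ℓ => hbd _ 1 (fun h => hb1 _), ?_, ?_⟩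
    · intro i hi ℓ
      rw [Finset.mem_insert] at hi
      rcases hi with rfl | hi
      · -- telescoping
        have e1 : c (ℓ + ev k i) - c ℓ = 1 / (H : ℝ) * (b (ℓ + H • ev k i) - b ℓ) := by
          simp only [hc]
          rw [← mul_sub, ← Finset.sum_sub_distrib]
          congr 1
          have h1 : ∀ h ∈ Finset.range H, b (ℓ + ev k i + h • ev k i) - b (ℓ + h • ev k i) =
              (fun h => b (ℓ + h • ev k i)) (h + 1) - (fun h => b (ℓ + h • ev k i)) h := by
            intro h _
            simp only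
            congr 2
            rw [add_smul, one_smul]
            abel
          rw [Finset.sum_congr rfl h1, Finset.sum_range_sub (fun h => b (ℓ + h • ev k i))]
          simp
        rw [e1, abs_mul, abs_of_pos (by positivity : (0:ℝ) < 1 / H), one_div_mul_eq_div]
        apply div_le_div_of_nonneg_right _ hHR.le
        have h1 := abs_sub (b (ℓ + H • ev k i)) (b ℓ)
        have h2 := hb1 (ℓ + H • ev k i)
        have h3 := hb1 ℓ
        linarith
      · have e1 : c (ℓ + ev k i) - c ℓ = 1 / (H : ℝ) * ∑ h ∈ Finset.range H,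
            (b ((ℓ + h • ev k j) + ev k i) - b (ℓ + h • ev k j)) := by
          simp only [hc]
          rw [← mul_sub, ← Finset.sum_sub_distrib]
          congr 1
          refine Finset.sum_congr rfl fun h _ => ?_
          congr 2
          abel
        rw [e1]
        exact hbd _ _ (fun h => hb2 i hi _)
    · have e1 : Lam k N c - Lam k N b = 1 / (H : ℝ) * ∑ h ∈ Finset.range H,
          (Lam k N (fun ℓ => b (ℓ + h • ev k j)) - Lam k N b) := by
        rw [hc, Lam_sum, Finset.sum_sub_distrib, Finset.sum_const, Finset.card_range,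
          nsmul_eq_mul, mul_sub]
        congr 1
        field_simp
      have h1 : |Lam k N c - Lam k N b| ≤ H * η := by
        rw [e1, abs_mul, abs_of_pos (by positivity : (0:ℝ) < 1 / H), one_div_mul_eq_div,
          div_le_iff₀ hHR]
        refine (Finset.abs_sum_le_sum_abs _ _).trans ?_
        have h2 : ∀ h ∈ Finset.range H,
            |Lam k N (fun ℓ => b (ℓ + h • ev k j)) - Lam k N b| ≤ H * η := by
          intro h hh
          rw [Finset.mem_range] at hh
          refine (Lam_shift_iter k N j η (hη j (Finset.mem_insert_self j s)) h b hb1).trans ?_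
          apply mul_le_mul_of_nonneg_right _ hη0
          exact_mod_cast hh.le
        refine (Finset.sum_le_card_nsmul _ _ _ h2).trans (le_of_eq ?_)
        rw [Finset.card_range, nsmul_eq_mul, mul_comm]
      rw [Finset.card_insert_of_notMem hj]
      have e2 : Lam k N c - Lam k N a = (Lam k N c - Lam k N b) + (Lam k N b - Lam k N a) := by ring
      rw [e2]
      refine (abs_add_le _ _).trans ?_
      push_cast
      linarith

/-- the quantity of the problem -/
noncomputable def DN (k N : ℕ) : ℝ := ∑' ℓ : Fin k → ℕ, |sigmaN k N (fun i => ℓ i + 1)|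

lemma sigma_summable (k N : ℕ) : Summable (fun ℓ : Fin k → ℕ => |sigmaN k N ℓ|) :=
  (summable_of_ne_finset_zero (s := Bx k N) (fun ℓ hℓ => sigmaN_zero k N ℓ hℓ)).abs

lemma DN_summable (k N : ℕ) :
    Summable (fun ℓ : Fin k → ℕ => |sigmaN k N (fun i => ℓ i + 1)|) := by
  have h : Function.Injective (fun (ℓ : Fin k → ℕ) (i : Fin k) => ℓ i + 1) := by
    intro x y hxy
    funext i
    have := congrFun hxy i
    simpa using this
  exact (sigma_summable k N).comp_injective h

/-- test functions supported on positive tuples -/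
lemma DN_eq_Lam (k N : ℕ) : ∃ a : (Fin k → ℕ) → ℝ, (∀ ℓ, |a ℓ| ≤ 1) ∧ DN k N ≤ Lam k N a := by
  classical
  set a : (Fin k → ℕ) → ℝ := fun ℓ => if ∀ i, ℓ i ≠ 0 then
    (if 0 ≤ sigmaN k N ℓ then 1 else -1) else 0 with ha
  refine ⟨a, ?_, ?_⟩
  · intro ℓ
    simp only [ha]
    split_ifs <;> norm_num
  · unfold DN
    apply Summable.tsum_le_of_sum_le (DN_summable k N)
    intro s
    have h1 : ∑ ℓ ∈ s, |sigmaN k N (fun i => ℓ i + 1)| =
        ∑ ℓ ∈ s.image (fun (ℓ : Fin k → ℕ) (i : Fin k) => ℓ i + 1), sigmaN k N ℓ * a ℓ := by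
      rw [Finset.sum_image (by
        intro x _ y _ hxy
        funext i
        have := congrFun hxy i
        simpa using this)]
      refine Finset.sum_congr rfl fun ℓ _ => ?_
      simp only [ha]
      rw [if_pos (fun i => Nat.succ_ne_zero _)]
      split_ifs with h
      · rw [abs_of_nonneg h, mul_one]
      · rw [abs_of_neg (not_le.mp h)]
        ring
    rw [h1]
    have hnn : ∀ ℓ, 0 ≤ sigmaN k N ℓ * a ℓ := by
      intro ℓ
      simp only [ha]
      split_ifs with h h'
      · rw [mul_one]; exact h'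
      · have := not_le.mp h'
        linarith
      · rw [mul_zero]
    have h2 : Lam k N a = ∑ ℓ ∈ Bx k N ∪ s.image (fun (ℓ : Fin k → ℕ) (i : Fin k) => ℓ i + 1),
        sigmaN k N ℓ * a ℓ := by
      apply Lam_apply'
      intro ℓ hℓ hnot
      exact absurd (Finset.mem_union_left _ hℓ) hnot
    rw [h2]
    exact Finset.sum_le_sum_of_subset_of_nonneg Finset.subset_union_right (fun ℓ _ _ => hnn ℓ)

/-- If the difference is asymptotically shift invariant in the coordinates other than `i₀`, then
it tends to zero. -/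
theorem reduction_aux (k : ℕ) (i₀ : Fin k)
    (h : ∀ i, i ≠ i₀ → Tendsto (fun N => Tdef k N i) atTop (nhds 0)) (ε : ℝ) (hε : 0 < ε) :
    ∃ N₀ : ℕ, ∀ N ≥ N₀, ∀ a : (Fin k → ℕ) → ℝ, (∀ ℓ, |a ℓ| ≤ 1) → |Lam k N a| ≤ ε := by
  classical
  obtain ⟨δ, hδ, N₁, hN₁⟩ := main_slow k i₀ (ε / 2) (by positivity)
  obtain ⟨H, hH⟩ := exists_nat_gt (2 / δ)
  have hH1 : 1 ≤ H := by
    have h1 : (0 : ℝ) < 2 / δ := by positivity
    have h2 : (0 : ℝ) < H := lt_trans h1 hH
    exact_mod_cast h2
  have hHR : (0 : ℝ) < H := by exact_mod_cast hH1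
  set η : ℝ := ε / (2 * (k * H + 1)) with hη
  have hη0 : 0 < η := by positivity
  have hev : ∀ᶠ N : ℕ in atTop, ∀ i, i ≠ i₀ → Tdef k N i < η / 2 := by
    rw [Filter.eventually_all]
    intro i
    by_cases hi : i = i₀
    · exact Filter.Eventually.of_forall (fun N hne => absurd hi hne)
    · have := (h i hi).eventually (gt_mem_nhds (by positivity : (0 : ℝ) < η / 2))
      filter_upwards [this] with N hN _
      exact hN
  have hev2 : ∀ᶠ N : ℕ in atTop, (2 : ℝ) / N < η / 2 := by
    have h1 : Tendsto (fun N : ℕ => (2 : ℝ) / N) atTop (nhds 0) :=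
      tendsto_natCast_atTop_atTop.const_div_atTop 2
    exact h1.eventually (gt_mem_nhds (by positivity : (0 : ℝ) < η / 2))
  obtain ⟨N₂, hN₂⟩ := Filter.eventually_atTop.mp (hev.and hev2)
  refine ⟨N₁ + N₂ + 1, fun N hN a ha => ?_⟩
  obtain ⟨hT, hN2⟩ := hN₂ N (by omega)
  obtain ⟨b, hb1, hb2, hb3⟩ := smoothing k N H hH1 η hη0.le (Finset.univ.erase i₀) (by
    intro i hi a ha
    have hne := Finset.ne_of_mem_erase hi
    refine (Lam_shift k N (by omega) i a ha).trans ?_
    have := hT i hne
    linarith) a ha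
  have hslow : SlowVar k i₀ δ b := by
    intro s i hi
    have h1 := hb2 i (Finset.mem_erase.mpr ⟨hi, Finset.mem_univ i⟩) s
    have h2 : s + ev k i = Function.update s i (s i + 1) := by
      funext j
      rw [Pi.add_apply]
      unfold ev
      by_cases hj : j = i
      · rw [hj, Function.update_self, Pi.single_eq_same]
      · rw [Function.update_of_ne hj, Pi.single_eq_of_ne hj, add_zero]
    rw [h2] at h1
    refine h1.trans ?_
    rw [div_le_iff₀ hHR]
    rw [div_lt_iff₀ hδ] at hH
    linarith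
  have h1 := hN₁ N (by omega) b hb1 hslow
  have h2 : |Lam k N b| ≤ ε / 2 := h1
  have h3 : ((Finset.univ.erase i₀).card : ℝ) * (H * η) ≤ ε / 2 := by
    have h4 : ((Finset.univ.erase i₀).card : ℝ) ≤ k := by
      have := Finset.card_erase_le (s := (Finset.univ : Finset (Fin k))) (a := i₀)
      rw [Finset.card_univ, Fintype.card_fin] at this
      exact_mod_cast this
    calc ((Finset.univ.erase i₀).card : ℝ) * (H * η) ≤ k * (H * η) :=
          mul_le_mul_of_nonneg_right h4 (by positivity)
      _ ≤ ε / 2 := by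
          rw [hη]
          have hX : (0 : ℝ) ≤ k * H := by positivity
          have e1 : (k : ℝ) * (H * (ε / (2 * (k * H + 1)))) =
              (k * H * ε) / (2 * (k * H + 1)) := by ring
          rw [e1, div_le_div_iff₀ (by positivity) (by norm_num)]
          nlinarith
  have e1 : Lam k N a = Lam k N b - (Lam k N b - Lam k N a) := by ring
  rw [e1]
  refine (abs_sub _ _).trans ?_
  linarith

/-- **Reduction.** -/
theorem reduction (k : ℕ) (i₀ : Fin k) :
    Tendsto (fun N => DN k N) atTop (nhds 0) ↔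
      ∀ i, i ≠ i₀ → Tendsto (fun N => Tdef k N i) atTop (nhds 0) := by
  classical
  constructor
  · intro hD i _
    -- total mass bounded by DN plus boundary
    have hbound : ∀ N : ℕ, 1 ≤ N → Tdef k N i ≤ 2 * (DN k N + 2 * k / N) := by
      intro N hN
      have htot : ∀ s : Finset (Fin k → ℕ), ∑ ℓ ∈ s, |sigmaN k N ℓ| ≤ DN k N + 2 * k / N := by
        intro s
        set a : (Fin k → ℕ) → ℝ := fun ℓ => if ∀ i, ℓ i ≠ 0 then 0 else
          (if 0 ≤ sigmaN k N ℓ then 1 else -1) with ha
        have hnn : ∀ ℓ, 0 ≤ sigmaN k N ℓ * a ℓ := by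
          intro ℓ
          simp only [ha]
          split_ifs with h h'
          · rw [mul_zero]
          · rw [mul_one]; exact h'
          · have := not_le.mp h'
            linarith
        have h1 := Lam_bdry k N hN a (by
          intro ℓ
          simp only [ha]
          split_ifs <;> norm_num) Finset.univ (by
          intro ℓ hℓ
          simp only [ha]
          rw [if_pos (fun i => hℓ i (Finset.mem_univ i))])
        rw [Finset.card_univ, Fintype.card_fin] at h1
        have h2 : ∑ ℓ ∈ s.filter (fun ℓ => ¬ ∀ i, ℓ i ≠ 0), |sigmaN k N ℓ| ≤ 2 * k / N := by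
          refine le_trans ?_ ((le_abs_self _).trans h1)
          have h3 : Lam k N a = ∑ ℓ ∈ Bx k N ∪ s.filter (fun ℓ => ¬ ∀ i, ℓ i ≠ 0),
              sigmaN k N ℓ * a ℓ := by
            apply Lam_apply'
            intro ℓ hℓ hnot
            exact absurd (Finset.mem_union_left _ hℓ) hnot
          rw [h3]
          have h4 : ∑ ℓ ∈ s.filter (fun ℓ => ¬ ∀ i, ℓ i ≠ 0), |sigmaN k N ℓ| =
              ∑ ℓ ∈ s.filter (fun ℓ => ¬ ∀ i, ℓ i ≠ 0), sigmaN k N ℓ * a ℓ := by
            refine Finset.sum_congr rfl fun ℓ hℓ => ?_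
            simp only [ha]
            rw [if_neg (Finset.mem_filter.mp hℓ).2]
            split_ifs with h
            · rw [abs_of_nonneg h, mul_one]
            · rw [abs_of_neg (not_le.mp h)]
              ring
          rw [h4]
          exact Finset.sum_le_sum_of_subset_of_nonneg Finset.subset_union_right
            (fun ℓ _ _ => hnn ℓ)
        have h3 : ∑ ℓ ∈ s.filter (fun ℓ => ∀ i, ℓ i ≠ 0), |sigmaN k N ℓ| ≤ DN k N := by
          have h4 : ∑ ℓ ∈ s.filter (fun ℓ => ∀ i, ℓ i ≠ 0), |sigmaN k N ℓ| =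
              ∑ ℓ ∈ (s.filter (fun ℓ => ∀ i, ℓ i ≠ 0)).image
                (fun (ℓ : Fin k → ℕ) (i : Fin k) => ℓ i - 1),
                |sigmaN k N (fun i => ℓ i + 1)| := by
            rw [Finset.sum_image]
            · refine Finset.sum_congr rfl fun ℓ hℓ => ?_
              congr 2
              funext i
              have := (Finset.mem_filter.mp hℓ).2 i
              simp only
              omega
            · intro x hx y hy hxy
              rw [Finset.mem_coe, Finset.mem_filter] at hx hy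
              funext i
              have h5 := congrFun hxy i
              have h6 := hx.2 i
              have h7 := hy.2 i
              simp only at h5
              omega
          rw [h4]
          exact (DN_summable k N).sum_le_tsum _ (fun ℓ _ => abs_nonneg _)
        have h4 := Finset.sum_filter_add_sum_filter_not s (fun ℓ => ∀ i, ℓ i ≠ 0)
          (fun ℓ => |sigmaN k N ℓ|)
        linarith
      unfold Tdef
      apply Summable.tsum_le_of_sum_le (Tdef_summable k N i)
      intro s
      have h1 : ∑ ℓ ∈ s, |sigmaN k N (ℓ + ev k i) - sigmaN k N ℓ| ≤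
          ∑ ℓ ∈ s, |sigmaN k N (ℓ + ev k i)| + ∑ ℓ ∈ s, |sigmaN k N ℓ| := by
        rw [← Finset.sum_add_distrib]
        exact Finset.sum_le_sum fun ℓ _ => abs_sub _ _
      have h2 : ∑ ℓ ∈ s, |sigmaN k N (ℓ + ev k i)| =
          ∑ ℓ ∈ s.image (fun ℓ => ℓ + ev k i), |sigmaN k N ℓ| := by
        rw [Finset.sum_image (by
          intro x _ y _ hxy
          exact add_left_injective (ev k i) hxy)]
      rw [h2] at h1
      have h3 := htot s
      have h4 := htot (s.image (fun ℓ => ℓ + ev k i))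
      linarith
    have hlim : Tendsto (fun N : ℕ => 2 * (DN k N + 2 * k / N)) atTop (nhds 0) := by
      have h1 : Tendsto (fun N : ℕ => (2 * (k : ℝ)) / N) atTop (nhds 0) :=
        tendsto_natCast_atTop_atTop.const_div_atTop (2 * (k : ℝ))
      have := (hD.add h1).const_mul 2
      simpa using this
    refine squeeze_zero' ?_ ?_ hlim
    · exact Filter.Eventually.of_forall fun N => tsum_nonneg fun ℓ => abs_nonneg _
    · filter_upwards [Filter.eventually_ge_atTop 1] with N hN
      exact hbound N hN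
  · intro h
    rw [Metric.tendsto_atTop]
    intro ε hε
    obtain ⟨N₀, hN₀⟩ := reduction_aux k i₀ h (ε / 2) (by positivity)
    refine ⟨N₀, fun N hN => ?_⟩
    rw [Real.dist_eq, sub_zero]
    have hnn : 0 ≤ DN k N := tsum_nonneg fun ℓ => abs_nonneg _
    rw [abs_of_nonneg hnn]
    obtain ⟨a, ha, hD⟩ := DN_eq_Lam k N
    have h1 := hN₀ N hN a ha
    have h2 := le_abs_self (Lam k N a)
    linarith

end Helper13.Om
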