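import Mathlib
import Pool.Agent.Helper13.Om.Katai

set_option autoImplicit false

/-! Averages of functions of `Omega` at real scales, the Turan-Kubilius identity. -/

namespace Helper13.Om

open Finset

/-- average of `a(Omega(n))` over `n ≤ x` -/
noncomputable def Bv (a : ℕ → ℝ) (x : ℝ) : ℝ :=
  (∑ n ∈ Finset.Icc 1 ⌊x⌋₊, a (ArithmeticFunction.cardFactors n)) / x

lemma sum_Icc_abs_le (a : ℕ → ℝ) (ha : ∀ ℓ, |a ℓ| ≤ 1) (N : ℕ) :
    |∑ n ∈ Finset.Icc 1 N, a (ArithmeticFunction.cardFactors n)| ≤ N := by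
  refine (Finset.abs_sum_le_sum_abs _ _).trans ?_
  refine (Finset.sum_le_sum fun n _ => ha _).trans ?_
  rw [Finset.sum_const, Nat.card_Icc, nsmul_eq_mul, mul_one, Nat.add_sub_cancel]

lemma Bv_abs_le (a : ℕ → ℝ) (ha : ∀ ℓ, |a ℓ| ≤ 1) (x : ℝ) (hx : 0 ≤ x) : |Bv a x| ≤ 1 := by
  unfold Bv
  rw [abs_div, abs_of_nonneg hx]
  apply div_le_one_of_le₀ _ hx
  exact (sum_Icc_abs_le a ha _).trans (Nat.floor_le hx)

/-- The averages are slowly varying. -/
lemma Bv_lip (a : ℕ → ℝ) (ha : ∀ ℓ, |a ℓ| ≤ 1) (x y : ℝ) (hy : 0 < y) (hyx : y ≤ x) :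
    |Bv a x - Bv a y| ≤ 2 * (1 - y / x) + 1 / x := by
  have hx : 0 < x := lt_of_lt_of_le hy hyx
  have hfl : ⌊y⌋₊ ≤ ⌊x⌋₊ := Nat.floor_le_floor hyx
  set Sx := ∑ n ∈ Finset.Icc 1 ⌊x⌋₊, a (ArithmeticFunction.cardFactors n) with hSx
  set Sy := ∑ n ∈ Finset.Icc 1 ⌊y⌋₊, a (ArithmeticFunction.cardFactors n) with hSy
  have h1 : |Sx - Sy| ≤ x - y + 1 := by
    have e1 : Sx - Sy = ∑ n ∈ Finset.Icc (⌊y⌋₊ + 1) ⌊x⌋₊,
        a (ArithmeticFunction.cardFactors n) := by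
      have h2 : Finset.Icc 1 ⌊x⌋₊ = Finset.Icc 1 ⌊y⌋₊ ∪ Finset.Icc (⌊y⌋₊ + 1) ⌊x⌋₊ := by
        ext n
        simp only [Finset.mem_Icc, Finset.mem_union]
        omega
      have h3 : Disjoint (Finset.Icc 1 ⌊y⌋₊) (Finset.Icc (⌊y⌋₊ + 1) ⌊x⌋₊) := by
        rw [Finset.disjoint_left]
        intro n hn hn'
        rw [Finset.mem_Icc] at hn hn'
        omega
      rw [hSx, h2, Finset.sum_union h3]
      ring
    rw [e1]
    refine (Finset.abs_sum_le_sum_abs _ _).trans ?_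
    refine (Finset.sum_le_sum fun n _ => ha _).trans ?_
    rw [Finset.sum_const, Nat.card_Icc, nsmul_eq_mul, mul_one]
    have e2 : ⌊x⌋₊ + 1 - (⌊y⌋₊ + 1) = ⌊x⌋₊ - ⌊y⌋₊ := by omega
    rw [e2, Nat.cast_sub hfl]
    have h4 := Nat.floor_le hx.le
    have h5 := (Nat.lt_floor_add_one y).le
    linarith
  have h2 : |Sy| ≤ y := by
    exact (sum_Icc_abs_le a ha _).trans (Nat.floor_le hy.le)
  have e3 : Bv a x - Bv a y = (Sx - Sy) / x - Sy / y * (1 - y / x) := by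
    unfold Bv
    rw [← hSx, ← hSy]
    field_simp
    ring
  have h6 : 0 ≤ 1 - y / x := by
    rw [sub_nonneg]
    exact (div_le_one hx).mpr hyx
  have h7 : |(Sx - Sy) / x| ≤ (x - y + 1) / x := by
    rw [abs_div, abs_of_pos hx]
    exact div_le_div_of_nonneg_right h1 hx.le
  have h8 : |Sy / y * (1 - y / x)| ≤ 1 - y / x := by
    rw [abs_mul, abs_of_nonneg h6, abs_div, abs_of_pos hy]
    have : |Sy| / y ≤ 1 := (div_le_one hy).mpr h2
    calc |Sy| / y * (1 - y / x) ≤ 1 * (1 - y / x) := mul_le_mul_of_nonneg_right this h6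
      _ = 1 - y / x := one_mul _
  rw [e3]
  refine (abs_sub _ _).trans ?_
  have e4 : (x - y + 1) / x = (1 - y / x) + 1 / x := by
    field_simp
  linarith

/-- The Turan-Kubilius identity for averages. -/
theorem Bv_tk (a : ℕ → ℝ) (ha : ∀ ℓ, |a ℓ| ≤ 1) (P : Finset ℕ) (hP : ∀ p ∈ P, p.Prime)
    (hL : 0 < ∑ p ∈ P, (1 : ℝ) / p) (x : ℝ) (hx : (P.card : ℝ) ≤ x) (hx0 : 0 < x) :
    |Bv a x - (∑ p ∈ P, (1 : ℝ) / p * Bv (fun ℓ => a (ℓ + 1)) (x / p)) / ∑ p ∈ P, (1 : ℝ) / p| ≤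
      √(3 / ∑ p ∈ P, (1 : ℝ) / p) := by
  classical
  set L : ℝ := ∑ p ∈ P, (1 : ℝ) / p with hLdef
  set N := ⌊x⌋₊ with hN
  have hcard : P.card ≤ N := Nat.le_floor hx
  have htk := tk_abs P hP N hcard
  rw [← hLdef] at htk
  have h1 : ∑ n ∈ Finset.Icc 1 N, a (ArithmeticFunction.cardFactors n) * om P n =
      ∑ p ∈ P, (x / p) * Bv (fun ℓ => a (ℓ + 1)) (x / p) := by
    have e1 : ∀ n, a (ArithmeticFunction.cardFactors n) * om P n =
        ∑ p ∈ P, if p ∣ n then a (ArithmeticFunction.cardFactors n) else 0 := by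
      intro n
      rw [om_cast, Finset.mul_sum]
      refine Finset.sum_congr rfl fun p _ => ?_
      split_ifs <;> simp
    rw [Finset.sum_congr rfl fun n _ => e1 n, Finset.sum_comm]
    refine Finset.sum_congr rfl fun p hp => ?_
    have hp' := hP p hp
    have hp0 : (0 : ℝ) < p := by exact_mod_cast hp'.pos
    rw [← Finset.sum_filter, sum_dvd N p hp'.pos]
    unfold Bv
    rw [mul_div_cancel₀ _ (by positivity)]
    rw [Nat.floor_div_natCast]
    refine Finset.sum_congr rfl fun m hm => ?_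
    rw [Finset.mem_Icc] at hm
    rw [ArithmeticFunction.cardFactors_mul hp'.ne_zero (by omega),
      ArithmeticFunction.cardFactors_apply_prime hp', add_comm 1]
  have h2 : |∑ n ∈ Finset.Icc 1 N, a (ArithmeticFunction.cardFactors n) * (om P n - L)| ≤
      √(3 * L) * N := by
    refine (Finset.abs_sum_le_sum_abs _ _).trans (le_trans ?_ htk)
    refine Finset.sum_le_sum fun n _ => ?_
    rw [abs_mul]
    calc |a (ArithmeticFunction.cardFactors n)| * |(om P n : ℝ) - L| ≤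
        1 * |(om P n : ℝ) - L| := mul_le_mul_of_nonneg_right (ha _) (abs_nonneg _)
      _ = _ := one_mul _
  have h3 : ∑ n ∈ Finset.Icc 1 N, a (ArithmeticFunction.cardFactors n) * (om P n - L) =
      ∑ p ∈ P, (x / p) * Bv (fun ℓ => a (ℓ + 1)) (x / p) - L * (x * Bv a x) := by
    rw [← h1]
    unfold Bv
    rw [mul_div_cancel₀ _ hx0.ne', Finset.mul_sum, ← Finset.sum_sub_distrib]
    refine Finset.sum_congr rfl fun n _ => ?_
    ring
  rw [h3] at h2
  have h4 : Bv a x - (∑ p ∈ P, (1 : ℝ) / p * Bv (fun ℓ => a (ℓ + 1)) (x / p)) / L =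
      -(∑ p ∈ P, (x / p) * Bv (fun ℓ => a (ℓ + 1)) (x / p) - L * (x * Bv a x)) / (L * x) := by
    have e2 : ∑ p ∈ P, (x / p) * Bv (fun ℓ => a (ℓ + 1)) (x / p) =
        x * ∑ p ∈ P, (1 : ℝ) / p * Bv (fun ℓ => a (ℓ + 1)) (x / p) := by
      rw [Finset.mul_sum]
      refine Finset.sum_congr rfl fun p _ => ?_
      ring
    rw [e2]
    field_simp
    ring
  rw [h4, abs_div, abs_neg, abs_of_pos (mul_pos hL hx0)]
  rw [div_le_iff₀ (mul_pos hL hx0)]
  refine h2.trans ?_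
  have h5 : √(3 * L) = √(3 / L) * L := by
    have e3 : 3 * L = (3 / L) * L ^ 2 := by
      field_simp
    rw [e3, Real.sqrt_mul (by positivity), Real.sqrt_sq hL.le]
  rw [h5]
  have h6 : (N : ℝ) ≤ x := Nat.floor_le hx0.le
  calc √(3 / L) * L * N ≤ √(3 / L) * L * x := by gcongr
    _ = √(3 / L) * (L * x) := by ring

end Helper13.Om
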