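import Mathlib
import Pool.Agent.Helper13.Om.RichA

set_option autoImplicit false

/-! Turan-Kubilius with groups of primes in narrow windows; dilation invariance from two windows. -/

namespace Helper13.Om

open Finset

theorem tk_group (a : ℕ → ℝ) (ha : ∀ ℓ, |a ℓ| ≤ 1) (I : Finset ℕ) (c : ℕ → ℝ)
    (A : ℕ → Finset ℕ) (n : ℕ → ℕ) (θ δ : ℝ) (hθ : 0 ≤ θ)
    (hc : ∀ f ∈ I, 0 < c f)
    (hA : ∀ f ∈ I, ∀ p ∈ A f, p.Prime ∧ c f ≤ p ∧ (p : ℝ) ≤ c f * (1 + θ))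
    (hcard : ∀ f ∈ I, (A f).card = n f)
    (hd : ∀ f ∈ I, ∀ g ∈ I, f ≠ g → Disjoint (A f) (A g))
    (hL : 0 < ∑ f ∈ I, (n f : ℝ) / c f) (x : ℝ) (hx : ((∑ f ∈ I, n f : ℕ) : ℝ) ≤ x) (hx0 : 0 < x)
    (hcx : ∀ f ∈ I, c f ≤ δ * x) :
    |Bv a x - (∑ f ∈ I, (n f : ℝ) / c f * Bv (fun ℓ => a (ℓ + 1)) (x / c f)) /
      ∑ f ∈ I, (n f : ℝ) / c f| ≤ √(3 * (1 + θ) / ∑ f ∈ I, (n f : ℝ) / c f) + (3 * θ + δ) := by
  classical
  set L : ℝ := ∑ f ∈ I, (n f : ℝ) / c f with hLdef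
  set P := I.biUnion A with hPdef
  have hPd : ((I : Finset ℕ) : Set ℕ).PairwiseDisjoint A := by
    intro f hf g hg hfg
    exact hd f hf g hg hfg
  have hP : ∀ p ∈ P, p.Prime := by
    intro p hp
    rw [hPdef, Finset.mem_biUnion] at hp
    obtain ⟨f, hf, hpf⟩ := hp
    exact (hA f hf p hpf).1
  have hPcard : P.card = ∑ f ∈ I, n f := by
    rw [hPdef, Finset.card_biUnion]
    · exact Finset.sum_congr rfl hcard
    · intro f hf g hg hfg
      exact hd f hf g hg hfg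
  have hsumP : ∀ φ : ℕ → ℝ, ∑ p ∈ P, φ p = ∑ f ∈ I, ∑ p ∈ A f, φ p := by
    intro φ
    rw [hPdef, Finset.sum_biUnion hPd]
  have hn : ∀ f ∈ I, ∀ w : ℝ, (n f : ℝ) * w = ∑ p ∈ A f, w := by
    intro f hf w
    rw [Finset.sum_const, nsmul_eq_mul, hcard f hf]
  set LP : ℝ := ∑ p ∈ P, (1 : ℝ) / p with hLP
  have hθ1 : 0 < 1 + θ := by linarith
  -- pointwise comparison
  have hp1 : ∀ f ∈ I, ∀ p ∈ A f, (1 : ℝ) / p ≤ 1 / c f := by
    intro f hf p hp
    exact one_div_le_one_div_of_le (hc f hf) (hA f hf p hp).2.1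
  have hp2 : ∀ f ∈ I, ∀ p ∈ A f, 1 / c f / (1 + θ) ≤ (1 : ℝ) / p := by
    intro f hf p hp
    obtain ⟨h1, h2, h3⟩ := hA f hf p hp
    have hp0 : (0 : ℝ) < p := by exact_mod_cast h1.pos
    rw [div_div, div_le_div_iff₀ (mul_pos (hc f hf) hθ1) hp0]
    linarith
  have hLP1 : LP ≤ L := by
    rw [hLP, hsumP, hLdef]
    refine Finset.sum_le_sum fun f hf => ?_
    rw [div_eq_mul_one_div, hn f hf]
    exact Finset.sum_le_sum fun p hp => hp1 f hf p hp
  have hLP2 : L / (1 + θ) ≤ LP := by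
    rw [hLP, hsumP, hLdef, Finset.sum_div]
    refine Finset.sum_le_sum fun f hf => ?_
    have e0 : (n f : ℝ) / c f / (1 + θ) = n f * (1 / c f / (1 + θ)) := by ring
    rw [e0, hn f hf]
    exact Finset.sum_le_sum fun p hp => hp2 f hf p hp
  have hLP0 : 0 < LP := lt_of_lt_of_le (div_pos hL hθ1) hLP2
  have htk := Bv_tk a ha P hP hLP0 x (by rw [hPcard]; exact hx) hx0
  rw [← hLP] at htk
  have hsq : √(3 / LP) ≤ √(3 * (1 + θ) / L) := by
    apply Real.sqrt_le_sqrt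
    rw [div_le_div_iff₀ hLP0 hL]
    rw [div_le_iff₀ hθ1] at hLP2
    nlinarith
  set b : ℕ → ℝ := fun ℓ => a (ℓ + 1) with hb
  have hb1 : ∀ ℓ, |b ℓ| ≤ 1 := fun ℓ => ha _
  have key : |(∑ p ∈ P, (1 : ℝ) / p * Bv b (x / p)) / LP -
      (∑ f ∈ I, (n f : ℝ) / c f * Bv b (x / c f)) / L| ≤ 3 * θ + δ := by
    have e1 : (∑ p ∈ P, (1 : ℝ) / p * Bv b (x / p)) / LP -
        (∑ f ∈ I, (n f : ℝ) / c f * Bv b (x / c f)) / L =
        ∑ f ∈ I, ∑ p ∈ A f, ((1 : ℝ) / p / LP * (Bv b (x / p) - Bv b (x / c f)) +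
          ((1 : ℝ) / p / LP - 1 / c f / L) * Bv b (x / c f)) := by
      rw [hsumP, Finset.sum_div, Finset.sum_div, ← Finset.sum_sub_distrib]
      refine Finset.sum_congr rfl fun f hf => ?_
      have e2 : (n f : ℝ) / c f * Bv b (x / c f) / L =
          ∑ p ∈ A f, 1 / c f * Bv b (x / c f) / L := by
        rw [← hn f hf]
        ring
      rw [e2, Finset.sum_div, ← Finset.sum_sub_distrib]
      refine Finset.sum_congr rfl fun p _ => ?_
      ring
    rw [e1]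
    refine (Finset.abs_sum_le_sum_abs _ _).trans ?_
    have h1 : ∀ f ∈ I, |∑ p ∈ A f, ((1 : ℝ) / p / LP * (Bv b (x / p) - Bv b (x / c f)) +
          ((1 : ℝ) / p / LP - 1 / c f / L) * Bv b (x / c f))| ≤
        ∑ p ∈ A f, ((1 : ℝ) / p / LP * (2 * θ + δ) + θ * (1 / c f / L)) := by
      intro f hf
      refine (Finset.abs_sum_le_sum_abs _ _).trans (Finset.sum_le_sum fun p hp => ?_)
      obtain ⟨hpp, hpc, hpθ⟩ := hA f hf p hp
      have hp0 : (0 : ℝ) < p := by exact_mod_cast hpp.pos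
      have hcf := hc f hf
      refine (abs_add_le _ _).trans ?_
      have hw : (0 : ℝ) ≤ 1 / p / LP := by positivity
      have hB1 : |Bv b (x / p) - Bv b (x / c f)| ≤ 2 * θ + δ := by
        rw [abs_sub_comm]
        have h2 := Bv_lip b hb1 (x / c f) (x / p) (by positivity)
          (div_le_div_of_nonneg_left hx0.le hcf hpc)
        have e3 : x / p / (x / c f) = c f / p := by
          field_simp
        have e4 : 1 / (x / c f) = c f / x := by
          field_simp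
        rw [e3, e4] at h2
        have h3 : c f / x ≤ δ := by
          rw [div_le_iff₀ hx0]
          exact hcx f hf
        have h4 : 1 - c f / p ≤ θ := by
          have h5 : 1 / (1 + θ) ≤ c f / p := by
            rw [div_le_div_iff₀ hθ1 hp0]
            linarith
          have h6 : 1 - 1 / (1 + θ) ≤ θ := by
            rw [sub_le_iff_le_add, ← sub_le_iff_le_add', le_div_iff₀ hθ1]
            nlinarith
          linarith
        linarith
      have hB2 : |Bv b (x / c f)| ≤ 1 := Bv_abs_le b hb1 _ (by positivity)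
      have hw2 : |(1 : ℝ) / p / LP - 1 / c f / L| ≤ θ * (1 / c f / L) := by
        have hcf1 : (0 : ℝ) < 1 / c f := by positivity
        rw [abs_le]
        constructor
        · have h2 : 1 / c f / (1 + θ) / L ≤ 1 / p / LP := by
            refine (div_le_div_of_nonneg_right (hp2 f hf p hp) hL.le).trans ?_
            exact div_le_div_of_nonneg_left (by positivity) hLP0 hLP1
          have h3 : (1 - θ) * (1 / c f / L) ≤ 1 / c f / (1 + θ) / L := by
            have e5 : 1 / c f / (1 + θ) / L = (1 / (1 + θ)) * (1 / c f / L) := by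
              field_simp
            rw [e5]
            apply mul_le_mul_of_nonneg_right _ (by positivity)
            rw [le_div_iff₀ hθ1]
            nlinarith
          linarith
        · have h2 : 1 / p / LP ≤ 1 / c f / (L / (1 + θ)) := by
            refine (div_le_div_of_nonneg_right (hp1 f hf p hp) hLP0.le).trans ?_
            exact div_le_div_of_nonneg_left (by positivity) (div_pos hL hθ1) hLP2
          have e5 : 1 / c f / (L / (1 + θ)) = (1 + θ) * (1 / c f / L) := by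
            field_simp
          rw [e5] at h2
          linarith
      have h7 : |1 / (p : ℝ) / LP * (Bv b (x / p) - Bv b (x / c f))| ≤
          1 / p / LP * (2 * θ + δ) := by
        rw [abs_mul, abs_of_nonneg hw]
        exact mul_le_mul_of_nonneg_left hB1 hw
      have h8 : |((1 : ℝ) / p / LP - 1 / c f / L) * Bv b (x / c f)| ≤ θ * (1 / c f / L) := by
        rw [abs_mul]
        calc _ ≤ θ * (1 / c f / L) * 1 :=
              mul_le_mul hw2 hB2 (abs_nonneg _) (by positivity)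
          _ = _ := mul_one _
      linarith
    refine (Finset.sum_le_sum h1).trans (le_of_eq ?_)
    have e6 : ∀ f ∈ I, ∑ p ∈ A f, ((1 : ℝ) / p / LP * (2 * θ + δ) + θ * (1 / c f / L)) =
        (∑ p ∈ A f, (1 : ℝ) / p) * ((2 * θ + δ) / LP) + θ / L * ((n f : ℝ) / c f) := by
      intro f hf
      rw [Finset.sum_add_distrib, ← hn f hf, Finset.sum_mul]
      congr 1
      · refine Finset.sum_congr rfl fun p _ => ?_
        ring
      · ring
    rw [Finset.sum_congr rfl e6, Finset.sum_add_distrib, ← Finset.sum_mul, ← hsumP, ← hLP,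
      ← Finset.mul_sum, ← hLdef]
    field_simp
    ring
  have h9 := abs_sub_le (Bv a x) ((∑ p ∈ P, (1 : ℝ) / p * Bv b (x / p)) / LP)
    ((∑ f ∈ I, (n f : ℝ) / c f * Bv b (x / c f)) / L)
  linarith

/-- Dilation invariance from two families of windows. -/
theorem dilate (a : ℕ → ℝ) (ha : ∀ ℓ, |a ℓ| ≤ 1) (I : Finset ℕ) (c : ℕ → ℝ)
    (A A' : ℕ → Finset ℕ) (n : ℕ → ℕ) (θ δ κ : ℝ) (hθ : 0 ≤ θ) (hκ : 1 ≤ κ)
    (hc : ∀ f ∈ I, 0 < c f)
    (hA : ∀ f ∈ I, ∀ p ∈ A f, p.Prime ∧ c f ≤ p ∧ (p : ℝ) ≤ c f * (1 + θ))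
    (hA' : ∀ f ∈ I, ∀ p ∈ A' f, p.Prime ∧ κ * c f ≤ p ∧ (p : ℝ) ≤ κ * c f * (1 + θ))
    (hcard : ∀ f ∈ I, (A f).card = n f) (hcard' : ∀ f ∈ I, (A' f).card = n f)
    (hd : ∀ f ∈ I, ∀ g ∈ I, f ≠ g → Disjoint (A f) (A g))
    (hd' : ∀ f ∈ I, ∀ g ∈ I, f ≠ g → Disjoint (A' f) (A' g))
    (hL : 0 < ∑ f ∈ I, (n f : ℝ) / c f) (x : ℝ) (hx : ((∑ f ∈ I, n f : ℕ) : ℝ) ≤ x) (hx0 : 0 < x)
    (hcx : ∀ f ∈ I, c f ≤ δ * x) :
    |Bv a (κ * x) - Bv a x| ≤ 2 * √(3 * (1 + θ) * κ / ∑ f ∈ I, (n f : ℝ) / c f) +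
      2 * (3 * θ + δ) := by
  have hκ0 : 0 < κ := by linarith
  have h1 := tk_group a ha I c A n θ δ hθ hc hA hcard hd hL x hx hx0 hcx
  have e1 : ∑ f ∈ I, (n f : ℝ) / (κ * c f) = (∑ f ∈ I, (n f : ℝ) / c f) / κ := by
    rw [Finset.sum_div]
    refine Finset.sum_congr rfl fun f _ => ?_
    rw [div_div, mul_comm]
  have h2 := tk_group a ha I (fun f => κ * c f) A' n θ δ hθ
    (fun f hf => mul_pos hκ0 (hc f hf)) hA' hcard' hd' (by rw [e1]; positivity) (κ * x)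
    (hx.trans (by nlinarith)) (by positivity) (fun f hf => by
      have := mul_le_mul_of_nonneg_left (hcx f hf) hκ0.le
      calc κ * c f ≤ κ * (δ * x) := this
        _ = δ * (κ * x) := by ring)
  have e2 : (∑ f ∈ I, (n f : ℝ) / (κ * c f) * Bv (fun ℓ => a (ℓ + 1)) (κ * x / (κ * c f))) /
      ∑ f ∈ I, (n f : ℝ) / (κ * c f) =
      (∑ f ∈ I, (n f : ℝ) / c f * Bv (fun ℓ => a (ℓ + 1)) (x / c f)) /
      ∑ f ∈ I, (n f : ℝ) / c f := by
    have e3 : ∑ f ∈ I, (n f : ℝ) / (κ * c f) * Bv (fun ℓ => a (ℓ + 1)) (κ * x / (κ * c f)) =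
        (∑ f ∈ I, (n f : ℝ) / c f * Bv (fun ℓ => a (ℓ + 1)) (x / c f)) / κ := by
      rw [Finset.sum_div]
      refine Finset.sum_congr rfl fun f _ => ?_
      rw [mul_div_mul_left _ _ hκ0.ne']
      rw [← div_div, div_right_comm]
      ring
    rw [e1, e3]
    rw [div_div_div_cancel_right₀ hκ0.ne']
  rw [e2, e1] at h2
  have e4 : 3 * (1 + θ) / ((∑ f ∈ I, (n f : ℝ) / c f) / κ) =
      3 * (1 + θ) * κ / ∑ f ∈ I, (n f : ℝ) / c f := by
    field_simp
  rw [e4] at h2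
  have h3 : √(3 * (1 + θ) / ∑ f ∈ I, (n f : ℝ) / c f) ≤
      √(3 * (1 + θ) * κ / ∑ f ∈ I, (n f : ℝ) / c f) := by
    apply Real.sqrt_le_sqrt
    apply div_le_div_of_nonneg_right _ hL.le
    nlinarith
  have h4 := abs_sub_le (Bv a (κ * x))
    ((∑ f ∈ I, (n f : ℝ) / c f * Bv (fun ℓ => a (ℓ + 1)) (x / c f)) /
      ∑ f ∈ I, (n f : ℝ) / c f) (Bv a x)
  rw [abs_sub_comm ((∑ f ∈ I, (n f : ℝ) / c f * Bv (fun ℓ => a (ℓ + 1)) (x / c f)) /
      ∑ f ∈ I, (n f : ℝ) / c f) (Bv a x)] at h4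
  linarith

end Helper13.Om
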