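import Mathlib
import Pool.Agent.Helper13.Om.BT

set_option autoImplicit false

/-! The Brun-Titchmarsh inequality in short intervals. -/

namespace Helper13.Om

open Finset

/-- The constant in the inequality. -/
noncomputable def Cs : ℝ := 320 * Real.exp (Kt 1) + 4

lemma Cs_pos : 0 < Cs := by
  unfold Cs
  positivity

theorem bt_short (e : ℕ) (he : 1 ≤ e) (X Y : ℕ) (hX : 2 ^ e ≤ X) (hY : 2 ^ e ≤ Y) :
    (((Finset.Ico X (X + Y)).filter Nat.Prime).card : ℝ) ≤ Cs * Y / e := by
  classical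
  have heR : (0 : ℝ) < e := by exact_mod_cast he
  set E' := e / 160 with hE'
  set P' := (2 ^ (E' + 1)).primesBelow with hP'
  have hP'p : ∀ p ∈ P', p.Prime := fun p hp => Nat.prime_of_mem_primesBelow hp
  have hP'lt : ∀ p ∈ P', p < 2 ^ (E' + 1) := fun p hp => Nat.lt_of_mem_primesBelow hp
  set Z : ℕ → Finset ℕ := fun r => {(r - (X - 1) % r) % r} with hZ
  have h := sieve_upper P' ∅ (Finset.disjoint_empty_left _) hP'p (by simp) 1
    (fun p hp => (hP'p p hp).one_lt) E' (by
      intro p hp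
      have h1 := hP'lt p hp
      have h2 := Nat.log_lt_of_lt_pow (hP'p p hp).pos.ne' h1
      omega) Z (by
      intro p hp
      simp only [hZ]
      refine ⟨?_, by simp⟩
      intro x hx
      rw [Finset.mem_singleton.mp hx, Finset.mem_range]
      exact Nat.mod_lt _ (hP'p p hp).pos) (by simp) 1 le_rfl Y
  have hE'e : E' + 1 ≤ e := by omega
  have hX1 : 1 ≤ X := le_trans Nat.one_le_two_pow hX
  have hcount : ((Finset.Ico X (X + Y)).filter Nat.Prime).card ≤
      ((Finset.Icc 1 Y).filter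
        (fun m => (∀ r ∈ (∅ : Finset ℕ), m % r ∈ Z r) ∧ ∀ r ∈ P', m % r ∉ Z r)).card := by
    apply Finset.card_le_card_of_injOn (fun p => p + 1 - X)
    · intro p hp
      rw [Finset.mem_coe, Finset.mem_filter, Finset.mem_Ico] at hp
      obtain ⟨⟨h1, h2⟩, h3⟩ := hp
      rw [Finset.mem_coe, Finset.mem_filter, Finset.mem_Icc]
      refine ⟨⟨?_, ?_⟩, by simp, ?_⟩
      · show 1 ≤ p + 1 - X
        omega
      · show p + 1 - X ≤ Y
        omega
      intro r hr
      show ¬ ((p + 1 - X) % r ∈ Z r)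
      simp only [hZ]
      rw [Finset.mem_singleton]
      intro h5
      have hr0 := (hP'p r hr).pos
      have h6 : r ∣ p := by
        have e1 : p = (p + 1 - X) + (X - 1) := by omega
        rw [e1]
        apply Nat.dvd_of_mod_eq_zero
        rw [Nat.add_mod, h5]
        have hlt := Nat.mod_lt (X - 1) hr0
        rcases Nat.eq_zero_or_pos ((X - 1) % r) with h0 | h0
        · rw [h0]
          simp
        · rw [Nat.mod_eq_of_lt (show r - (X - 1) % r < r by omega)]
          rw [Nat.sub_add_cancel hlt.le, Nat.mod_self]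
      have h7 : r = p := (Nat.prime_dvd_prime_iff_eq (hP'p r hr) h3).mp h6
      have h8 := hP'lt r hr
      have h9 : 2 ^ (E' + 1) ≤ 2 ^ e := Nat.pow_le_pow_right (by norm_num) hE'e
      omega
    · intro p hp q hq hpq
      rw [Finset.mem_coe, Finset.mem_filter, Finset.mem_Ico] at hp hq
      simp only at hpq
      omega
  have hcountR : (((Finset.Ico X (X + Y)).filter Nat.Prime).card : ℝ) ≤
      (((Finset.Icc 1 Y).filter
        (fun m => (∀ r ∈ (∅ : Finset ℕ), m % r ∈ Z r) ∧ ∀ r ∈ P', m % r ∉ Z r)).card : ℝ) := by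
    exact_mod_cast hcount
  refine hcountR.trans (h.trans ?_)
  have e3 : ∏ r ∈ P', (1 - ((Z r).card : ℝ) / r) = ∏ r ∈ P', (1 - 1 / (r : ℝ)) := by
    refine Finset.prod_congr rfl fun r hr => ?_
    simp only [hZ]
    simp
  rw [Finset.prod_empty, Finset.prod_empty, e3, one_mul, one_mul]
  have hmer := mertens_prod (2 ^ (E' + 1)) (by
    calc 2 = 2 ^ 1 := by norm_num
      _ ≤ 2 ^ (E' + 1) := Nat.pow_le_pow_right (by norm_num) (by omega))
  have hlog2 : (1 : ℝ) / 2 ≤ Real.log 2 := by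
    have := Real.log_two_gt_d9
    linarith
  have hlogE : (e : ℝ) / 320 ≤ Real.log ((2 ^ (E' + 1) : ℕ) : ℝ) := by
    push_cast
    rw [Real.log_pow]
    have h1 : e ≤ 160 * (E' + 1) := by omega
    have h2 : (e : ℝ) ≤ 160 * (E' + 1) := by exact_mod_cast h1
    push_cast
    have h3 : (0 : ℝ) ≤ (E' : ℝ) + 1 := by positivity
    nlinarith
  have hprod2 : ∏ r ∈ P', (1 - 1 / (r : ℝ)) ≤ 320 / e := by
    refine hmer.trans ?_
    rw [div_le_div_iff₀ (by linarith [div_pos heR (show (0 : ℝ) < 320 by norm_num)]) heR]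
    linarith
  have herr : (2 : ℝ) ^ (20 * E' * (1 + 1)) ≤ 4 * Y / e := by
    set n := e / 4 with hn
    have hen : e ≤ 4 * 2 ^ n := by
      have h1 : n + 1 ≤ 2 ^ n := Nat.lt_two_pow_self
      omega
    have hu : 20 * E' * (1 + 1) + n ≤ e := by omega
    have henR : (e : ℝ) ≤ 4 * 2 ^ n := by exact_mod_cast hen
    have hYR : (2 : ℝ) ^ e ≤ Y := by exact_mod_cast hY
    rw [le_div_iff₀ heR]
    calc (2 : ℝ) ^ (20 * E' * (1 + 1)) * e ≤ 2 ^ (20 * E' * (1 + 1)) * (4 * 2 ^ n) := by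
          gcongr
      _ = 4 * 2 ^ (20 * E' * (1 + 1) + n) := by
          rw [pow_add]
          ring
      _ ≤ 4 * 2 ^ e := by
          have := pow_le_pow_right₀ (show (1 : ℝ) ≤ 2 by norm_num) hu
          linarith
      _ ≤ 4 * Y := by linarith
  have hmain : (Y : ℝ) * (∏ r ∈ P', (1 - 1 / (r : ℝ))) * Real.exp (Kt 1 / (1 : ℕ)) ≤
      320 * Real.exp (Kt 1) * Y / e := by
    push_cast
    rw [div_one]
    have h1 : (Y : ℝ) * (∏ r ∈ P', (1 - 1 / (r : ℝ))) ≤ Y * (320 / e) := by
      gcongr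
    have h2 := mul_le_mul_of_nonneg_right h1 (Real.exp_pos (Kt 1)).le
    refine h2.trans (le_of_eq ?_)
    ring
  have e6 : Cs * Y / e = 320 * Real.exp (Kt 1) * Y / e + 4 * Y / e := by
    unfold Cs
    ring
  rw [e6]
  linarith

end Helper13.Om
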