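import Mathlib
import Pool.Agent.Helper13.Om.RichB
import Pool.Agent.Helper13.Om.Short

set_option autoImplicit false

/-! Windows rich in primes. -/

namespace Helper13.Om

open Finset

/-- primes in the `h`-th of `4^s` windows of `[4^f, 4^(f+1))` -/
def Win (s f h : ℕ) : Finset ℕ :=
  (Finset.Ico (4 ^ (f - s) * (4 ^ s + 3 * h)) (4 ^ (f - s) * (4 ^ s + 3 * h) +
    3 * 4 ^ (f - s))).filter Nat.Prime

lemma mem_Win (s f h p : ℕ) : p ∈ Win s f h ↔ (4 ^ (f - s) * (4 ^ s + 3 * h) ≤ p ∧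
    p < 4 ^ (f - s) * (4 ^ s + 3 * h) + 3 * 4 ^ (f - s)) ∧ p.Prime := by
  unfold Win
  rw [Finset.mem_filter, Finset.mem_Ico]

lemma win_card_le (s f h : ℕ) (hf : 2 * s + 2 ≤ f) :
    ((Win s f h).card : ℝ) ≤ 3 * Cs * (4 ^ (f - s) / f) := by
  have h1 := bt_short (2 * (f - s)) (by omega) (4 ^ (f - s) * (4 ^ s + 3 * h)) (3 * 4 ^ (f - s))
    (by
      have e1 : 2 ^ (2 * (f - s)) = 4 ^ (f - s) * 1 := by
        rw [pow_mul, mul_one]
        norm_num
      rw [e1]
      apply Nat.mul_le_mul_left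
      have : 1 ≤ 4 ^ s := Nat.one_le_pow _ _ (by norm_num)
      omega)
    (by
      have e1 : 2 ^ (2 * (f - s)) = 4 ^ (f - s) := by
        rw [pow_mul]
        norm_num
      rw [e1]
      omega)
  unfold Win
  refine h1.trans ?_
  have hfR : (0 : ℝ) < f := by
    have : 0 < f := by omega
    exact_mod_cast this
  have h2 : (f : ℝ) ≤ ((2 * (f - s) : ℕ) : ℝ) := by
    exact_mod_cast (show f ≤ 2 * (f - s) by omega)
  have hCs := Cs_pos
  push_cast at h2 ⊢
  calc Cs * (3 * 4 ^ (f - s)) / (2 * ((f - s : ℕ) : ℝ)) ≤ Cs * (3 * 4 ^ (f - s)) / f := by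
        apply div_le_div_of_nonneg_left (by positivity) hfR h2
    _ = 3 * Cs * (4 ^ (f - s) / f) := by ring

lemma win_cover (s f : ℕ) (hf : s ≤ f) (p : ℕ) (hp : p.Prime) (h1 : 4 ^ f ≤ p)
    (h2 : p < 4 ^ (f + 1)) : ∃ h ∈ Finset.range (4 ^ s), p ∈ Win s f h := by
  set d := 4 ^ (f - s) with hd
  have hd0 : 0 < d := by positivity
  have hds : d * 4 ^ s = 4 ^ f := by
    rw [hd, ← pow_add]
    congr 1
    omega
  set q := p / d with hq
  have hq1 : 4 ^ s ≤ q := by
    rw [hq, Nat.le_div_iff_mul_le hd0, mul_comm, hds]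
    exact h1
  have hq2 : q < 4 ^ s * 4 := by
    rw [hq, Nat.div_lt_iff_lt_mul hd0]
    calc p < 4 ^ (f + 1) := h2
      _ = 4 ^ s * 4 * d := by
        rw [pow_succ, ← hds]
        ring
  have hmod : d * q ≤ p ∧ p < d * q + d := by
    have h3 := Nat.div_add_mod p d
    have h4 := Nat.mod_lt p hd0
    constructor
    · rw [← hq] at h3
      omega
    · rw [← hq] at h3
      omega
  refine ⟨(q - 4 ^ s) / 3, ?_, ?_⟩
  · rw [Finset.mem_range, Nat.div_lt_iff_lt_mul (by norm_num)]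
    omega
  · rw [mem_Win, ← hd]
    refine ⟨⟨?_, ?_⟩, hp⟩
    · have h5 : 4 ^ s + 3 * ((q - 4 ^ s) / 3) ≤ q := by omega
      exact (Nat.mul_le_mul_left d h5).trans hmod.1
    · have h5 : q + 1 ≤ 4 ^ s + 3 * ((q - 4 ^ s) / 3) + 3 := by omega
      have h6 := Nat.mul_le_mul_left d h5
      have e1 : d * (q + 1) = d * q + d := by ring
      have e2 : d * (4 ^ s + 3 * ((q - 4 ^ s) / 3) + 3) =
        d * (4 ^ s + 3 * ((q - 4 ^ s) / 3)) + 3 * d := by ring
      omega

lemma win_sum (s f : ℕ) (hs : s ≤ f) (hf : 7 ≤ f) :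
    (4 : ℝ) ^ s * (4 ^ (f - s) / f) / 4 ≤ ∑ h ∈ Finset.range (4 ^ s), ((Win s f h).card : ℝ) := by
  classical
  have h1 := shell_pair_card (2 * f) (by omega)
  have h2 : shell (2 * f) ∪ shell (2 * f + 1) ⊆
      (Finset.range (4 ^ s)).biUnion (fun h => Win s f h) := by
    intro p hp
    rw [Finset.mem_biUnion]
    have e1 : 2 ^ (2 * f) = 4 ^ f := by rw [pow_mul]; norm_num
    have e2 : 2 ^ (2 * f + 1) = 2 * 4 ^ f := by rw [pow_succ, e1]; ring
    have e3 : 2 ^ (2 * f + 1 + 1) = 4 ^ (f + 1) := by rw [pow_succ, e2, pow_succ]; ring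
    rcases Finset.mem_union.mp hp with hp | hp
    · rw [mem_shell, e1, e2] at hp
      refine win_cover s f hs p hp.2 hp.1.1 ?_
      rw [pow_succ]
      omega
    · rw [mem_shell, e2, e3] at hp
      refine win_cover s f hs p hp.2 ?_ hp.1.2
      omega
  have h3 : Disjoint (shell (2 * f)) (shell (2 * f + 1)) := by
    rw [Finset.disjoint_left]
    intro p hp hp'
    rw [mem_shell] at hp hp'
    omega
  have h4 : (shell (2 * f)).card + (shell (2 * f + 1)).card ≤
      ∑ h ∈ Finset.range (4 ^ s), (Win s f h).card := by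
    rw [← Finset.card_union_of_disjoint h3]
    exact (Finset.card_le_card h2).trans Finset.card_biUnion_le
  have h5 : ((shell (2 * f)).card : ℝ) + (shell (2 * f + 1)).card ≤
      ∑ h ∈ Finset.range (4 ^ s), ((Win s f h).card : ℝ) := by exact_mod_cast h4
  refine le_trans ?_ (h1.trans h5)
  have hfR : (7 : ℝ) ≤ f := by exact_mod_cast hf
  have e4 : (4 : ℝ) ^ s * (4 ^ (f - s) / f) / 4 = 2 ^ (2 * f) / (4 * f) := by
    have e5 : (4 : ℝ) ^ s * 4 ^ (f - s) = 2 ^ (2 * f) := by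
      rw [← pow_add, pow_mul]
      norm_num
      omega
    rw [← e5]
    field_simp
  rw [e4]
  push_cast
  apply div_le_div_of_nonneg_left (by positivity) (by positivity)
  linarith

/-- the set of rich windows -/
noncomputable def Rich (s f : ℕ) : Finset ℕ := by
  classical
  exact (Finset.range (4 ^ s)).filter (fun h => (4 : ℝ) ^ (f - s) / f / 8 ≤ (Win s f h).card)

lemma mem_Rich (s f h : ℕ) : h ∈ Rich s f ↔ h < 4 ^ s ∧
    (4 : ℝ) ^ (f - s) / f / 8 ≤ (Win s f h).card := by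
  classical
  unfold Rich
  rw [Finset.mem_filter, Finset.mem_range]

lemma rich_card (s f : ℕ) (hs : 2 * s + 2 ≤ f) (hf : 7 ≤ f) :
    (4 : ℝ) ^ s / (24 * Cs) ≤ (Rich s f).card := by
  classical
  have h1 := win_sum s f (by omega) hf
  set u : ℝ := 4 ^ (f - s) / f with hu
  have hfR : (7 : ℝ) ≤ f := by exact_mod_cast hf
  have hu0 : 0 < u := by positivity
  have hCs := Cs_pos
  have h2 : ∑ h ∈ Finset.range (4 ^ s), ((Win s f h).card : ℝ) ≤
      (Rich s f).card * (3 * Cs * u) + 4 ^ s * (u / 8) := by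
    rw [← Finset.sum_filter_add_sum_filter_not (Finset.range (4 ^ s))
      (fun h => (4 : ℝ) ^ (f - s) / f / 8 ≤ (Win s f h).card)]
    apply add_le_add
    · have h3 : ∑ h ∈ (Finset.range (4 ^ s)).filter
          (fun h => (4 : ℝ) ^ (f - s) / f / 8 ≤ (Win s f h).card), ((Win s f h).card : ℝ) ≤
          ∑ h ∈ (Finset.range (4 ^ s)).filter
          (fun h => (4 : ℝ) ^ (f - s) / f / 8 ≤ (Win s f h).card), 3 * Cs * u :=
        Finset.sum_le_sum fun h _ => win_card_le s f h hs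
      rw [Finset.sum_const, nsmul_eq_mul] at h3
      refine h3.trans (le_of_eq ?_)
      congr 2
    · have h3 : ∑ h ∈ (Finset.range (4 ^ s)).filter
          (fun h => ¬ (4 : ℝ) ^ (f - s) / f / 8 ≤ (Win s f h).card), ((Win s f h).card : ℝ) ≤
          ∑ h ∈ (Finset.range (4 ^ s)).filter
          (fun h => ¬ (4 : ℝ) ^ (f - s) / f / 8 ≤ (Win s f h).card), u / 8 := by
        refine Finset.sum_le_sum fun h hh => ?_
        rw [Finset.mem_filter, not_le] at hh
        exact hh.2.le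
      refine h3.trans ?_
      rw [Finset.sum_const, nsmul_eq_mul]
      apply mul_le_mul_of_nonneg_right _ (by positivity)
      have h4 := Finset.card_filter_le (Finset.range (4 ^ s))
        (fun h => ¬ (4 : ℝ) ^ (f - s) / f / 8 ≤ (Win s f h).card)
      rw [Finset.card_range] at h4
      exact_mod_cast h4
  have h5 : (4 : ℝ) ^ s * u / 8 ≤ (Rich s f).card * (3 * Cs * u) := by
    have e1 : (4 : ℝ) ^ s * u / 4 = 4 ^ s * (u / 8) + 4 ^ s * u / 8 := by ring
    linarith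
  rw [div_le_iff₀ (by positivity)]
  have h6 : (4 : ℝ) ^ s * u ≤ ((Rich s f).card * (24 * Cs)) * u := by
    have e2 : ((Rich s f).card * (24 * Cs)) * u = 8 * ((Rich s f).card * (3 * Cs * u)) := by ring
    rw [e2]
    linarith
  exact le_of_mul_le_mul_right h6 hu0

lemma rich_pair (g s f : ℕ) (hgs : g ≤ s) (hbig : 48 * Cs ≤ 4 ^ (s - g)) (hs : 2 * s + 2 ≤ f)
    (hf : 7 ≤ f) :
    ∃ h1 h2 : ℕ, h1 ∈ Rich s f ∧ h2 ∈ Rich s f ∧ h1 ≤ h2 ∧ h2 - h1 ≤ 4 ^ (s - g) ∧
      (4 : ℝ) ^ (s - g) / (48 * Cs) ≤ ((h2 - h1 : ℕ) : ℝ) := by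
  classical
  have hCs := Cs_pos
  have hR := rich_card s f hs hf
  set m := 4 ^ (s - g) with hm
  have hm0 : 0 < m := by positivity
  have hmg : m * 4 ^ g = 4 ^ s := by
    rw [hm, ← pow_add]
    congr 1
    omega
  have hmaps : ∀ h ∈ Rich s f, h / m ∈ Finset.range (4 ^ g) := by
    intro h hh
    rw [Finset.mem_range, Nat.div_lt_iff_lt_mul hm0, mul_comm, hmg]
    exact ((mem_Rich s f h).mp hh).1
  have hsum : ((Rich s f).card : ℝ) = ∑ j ∈ Finset.range (4 ^ g),
      ((((Rich s f).filter (fun h => h / m = j)).card : ℕ) : ℝ) := by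
    have := Finset.card_eq_sum_card_fiberwise hmaps
    exact_mod_cast this
  have hex : ∃ j ∈ Finset.range (4 ^ g), (m : ℝ) / (24 * Cs) ≤
      ((((Rich s f).filter (fun h => h / m = j)).card : ℕ) : ℝ) := by
    apply Finset.exists_le_of_sum_le
    · exact ⟨0, Finset.mem_range.mpr (by positivity)⟩
    · rw [← hsum, Finset.sum_const, Finset.card_range, nsmul_eq_mul]
      refine le_trans (le_of_eq ?_) hR
      have e1 : ((4 : ℝ)) ^ s = (m : ℝ) * 4 ^ g := by exact_mod_cast hmg.symm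
      rw [e1]
      push_cast
      ring
  obtain ⟨j, _, hj⟩ := hex
  set S := (Rich s f).filter (fun h => h / m = j) with hS
  have hbig' : 2 ≤ (m : ℝ) / (24 * Cs) := by
    rw [le_div_iff₀ (by positivity)]
    have : ((m : ℕ) : ℝ) = 4 ^ (s - g) := by rw [hm]; push_cast; ring
    rw [this]
    linarith
  have hne : S.Nonempty := by
    rw [← Finset.card_pos]
    have : (0 : ℝ) < (S.card : ℝ) := by linarith
    exact_mod_cast this
  have hmin := S.min'_mem hne
  have hmax := S.max'_mem hne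
  have hle : S.min' hne ≤ S.max' hne := S.min'_le _ hmax
  replace hmin := Finset.mem_filter.mp hmin
  replace hmax := Finset.mem_filter.mp hmax
  refine ⟨S.min' hne, S.max' hne, hmin.1, hmax.1, hle, ?_, ?_⟩
  · have h1 := Nat.div_add_mod (S.min' hne) m
    have h2 := Nat.div_add_mod (S.max' hne) m
    rw [hmin.2] at h1
    rw [hmax.2] at h2
    have h3 := Nat.mod_lt (S.max' hne) hm0
    omega
  · have h1 : S ⊆ Finset.Icc (S.min' hne) (S.max' hne) := by
      intro x hx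
      rw [Finset.mem_Icc]
      exact ⟨S.min'_le x hx, S.le_max' x hx⟩
    have h2 := Finset.card_le_card h1
    rw [Nat.card_Icc] at h2
    have h3 : S.card ≤ (S.max' hne - S.min' hne) + 1 := by omega
    have h4 : (S.card : ℝ) ≤ ((S.max' hne - S.min' hne : ℕ) : ℝ) + 1 := by exact_mod_cast h3
    have e1 : (4 : ℝ) ^ (s - g) / (48 * Cs) = (m : ℝ) / (24 * Cs) / 2 := by
      rw [hm]
      push_cast
      field_simp
      norm_num
    rw [e1]
    linarith

/-- divergence of the harmonic series and the pigeonhole principle -/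
lemma pigeon (Q F₀ : ℕ) (φ : ℕ → ℕ × ℕ) (hφ : ∀ f, F₀ ≤ f → (φ f).1 < Q ∧ (φ f).2 < Q) (T : ℝ) :
    ∃ z : ℕ × ℕ, ∃ I : Finset ℕ, (∀ f ∈ I, F₀ ≤ f ∧ φ f = z) ∧ T ≤ ∑ f ∈ I, (1 : ℝ) / f := by
  classical
  set F₁ := F₀ + 1 with hF₁
  obtain ⟨m, hm⟩ := exists_nat_gt (2 * (Q * Q * |T|))
  have h1 := harm_lower F₁ m (by omega)
  set J := Finset.Ico F₁ (F₁ * 2 ^ m) with hJ
  have hmaps : ∀ f ∈ J, φ f ∈ (Finset.range Q) ×ˢ (Finset.range Q) := by
    intro f hf
    rw [hJ, Finset.mem_Ico] at hf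
    rw [Finset.mem_product, Finset.mem_range, Finset.mem_range]
    exact hφ f (by omega)
  have hQ : 0 < Q := by
    have := (hφ F₀ le_rfl).1
    omega
  have hsum : ∑ f ∈ J, (1 : ℝ) / f = ∑ z ∈ (Finset.range Q) ×ˢ (Finset.range Q),
      ∑ f ∈ J.filter (fun f => φ f = z), (1 : ℝ) / f :=
    (Finset.sum_fiberwise_of_maps_to hmaps _).symm
  have hex : ∃ z ∈ (Finset.range Q) ×ˢ (Finset.range Q), |T| ≤
      ∑ f ∈ J.filter (fun f => φ f = z), (1 : ℝ) / f := by
    apply Finset.exists_le_of_sum_le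
    · exact ⟨(0, 0), by simp [hQ]⟩
    · rw [← hsum, Finset.sum_const, Finset.card_product, Finset.card_range, nsmul_eq_mul]
      push_cast
      linarith
  obtain ⟨z, _, hz⟩ := hex
  refine ⟨z, J.filter (fun f => φ f = z), ?_, (le_abs_self T).trans hz⟩
  intro f hf
  rw [Finset.mem_filter, hJ, Finset.mem_Ico] at hf
  exact ⟨by omega, hf.2⟩

end Helper13.Om
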