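import Mathlib
import Pool.Agent.Helper13.Om.RichC

set_option autoImplicit false

/-! Dilation invariance and shift invariance of the law of `Omega` (Richter's theorem). -/

namespace Helper13.Om

open Finset

theorem dilation_exists (g : ℕ) (δ : ℝ) (hδ : 0 < δ) :
    ∃ κ x₀ : ℝ, 1 + 1 / (64 * Cs * 4 ^ g) ≤ κ ∧ κ ≤ 1 + 3 / 4 ^ g ∧ 0 < x₀ ∧
      ∀ x ≥ x₀, ∀ a : ℕ → ℝ, (∀ ℓ, |a ℓ| ≤ 1) → |Bv a (κ * x) - Bv a x| ≤ δ := by
  classical
  have hCs := Cs_pos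
  obtain ⟨t, ht⟩ := pow_unbounded_of_one_lt (48 * Cs + 72 / δ) (show (1 : ℝ) < 4 by norm_num)
  have h72 : (0 : ℝ) < 72 / δ := by positivity
  set s := g + t with hs
  have hst : s - g = t := by omega
  have hsg : g ≤ s := by omega
  have h4s : (4 : ℝ) ^ t ≤ 4 ^ s := pow_le_pow_right₀ (by norm_num) (by omega)
  have h4s' : 72 / δ ≤ 4 ^ s := by linarith
  have h4s1 : (1 : ℝ) ≤ 4 ^ s := one_le_pow₀ (by norm_num)
  set F₀ := 2 * s + 9 with hF₀
  have hpairs : ∀ f, F₀ ≤ f → ∃ z : ℕ × ℕ, z.1 ∈ Rich s f ∧ z.2 ∈ Rich s f ∧ z.1 ≤ z.2 ∧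
      z.2 - z.1 ≤ 4 ^ (s - g) ∧ (4 : ℝ) ^ (s - g) / (48 * Cs) ≤ ((z.2 - z.1 : ℕ) : ℝ) := by
    intro f hf
    obtain ⟨h1, h2, h3⟩ := rich_pair g s f hsg (by rw [hst]; linarith) (by omega) (by omega)
    exact ⟨(h1, h2), h3⟩
  choose! φ hφ using hpairs
  obtain ⟨⟨h1, h2⟩, I, hI, hT⟩ := pigeon (4 ^ s) F₀ φ (by
    intro f hf
    obtain ⟨a1, a2, _⟩ := hφ f hf
    exact ⟨((mem_Rich s f _).mp a1).1, ((mem_Rich s f _).mp a2).1⟩)
    (32 * 4 ^ s * (768 / δ ^ 2))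
  -- properties of the pair
  have hprop : ∀ f ∈ I, h1 ∈ Rich s f ∧ h2 ∈ Rich s f ∧ h1 ≤ h2 ∧
      h2 - h1 ≤ 4 ^ (s - g) ∧ (4 : ℝ) ^ (s - g) / (48 * Cs) ≤ ((h2 - h1 : ℕ) : ℝ) := by
    intro f hf
    obtain ⟨b1, b2⟩ := hI f hf
    have := hφ f b1
    rw [b2] at this
    exact this
  have hT0 : (0 : ℝ) < 32 * 4 ^ s * (768 / δ ^ 2) := by positivity
  have hIne : I.Nonempty := by
    rw [Finset.nonempty_iff_ne_empty]
    rintro rfl
    rw [Finset.sum_empty] at hT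
    linarith
  obtain ⟨f₀, hf₀⟩ := hIne
  obtain ⟨c1, c2, c3, c4, c5⟩ := hprop f₀ hf₀
  have hh1 := ((mem_Rich s f₀ _).mp c1).1
  have hh2 := ((mem_Rich s f₀ _).mp c2).1
  have hh1R : (h1 : ℝ) ≤ 4 ^ s := by exact_mod_cast hh1.le
  have hh12 : (h1 : ℝ) ≤ h2 := by exact_mod_cast c3
  have hsub : ((h2 - h1 : ℕ) : ℝ) = h2 - h1 := by rw [Nat.cast_sub c3]
  set D : ℝ := 4 ^ s + 3 * h1 with hD
  have hh10 : (0 : ℝ) ≤ h1 := Nat.cast_nonneg _
  have hD0 : 0 < D := by linarith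
  have hDs : (4 : ℝ) ^ s ≤ D := by linarith
  have hDs' : D ≤ 4 * 4 ^ s := by linarith
  set κ : ℝ := (4 ^ s + 3 * h2) / D with hκ
  have hκD : κ * D = 4 ^ s + 3 * h2 := div_mul_cancel₀ _ hD0.ne'
  have hκ1 : κ = 1 + 3 * (h2 - h1) / D := by
    rw [hκ, hD]
    field_simp
    ring
  have hpow : (4 : ℝ) ^ (s - g) * 4 ^ g = 4 ^ s := by
    rw [← pow_add]
    congr 1
    omega
  have h4g : (0 : ℝ) < 4 ^ g := by positivity
  have hκlow : 1 + 1 / (64 * Cs * 4 ^ g) ≤ κ := by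
    rw [hκ1]
    have e1 : 1 / (64 * Cs * 4 ^ g) ≤ 3 * (h2 - h1) / D := by
      rw [hsub] at c5
      rw [div_le_iff₀ (by positivity)] at c5
      rw [div_le_div_iff₀ (by positivity) hD0]
      have e2 : (4 : ℝ) ^ s ≤ (h2 - h1) * (48 * Cs) * 4 ^ g := by
        rw [← hpow]
        exact mul_le_mul_of_nonneg_right c5 h4g.le
      calc 1 * D ≤ 4 * 4 ^ s := by linarith
        _ ≤ 4 * ((h2 - h1) * (48 * Cs) * 4 ^ g) := by linarith
        _ = 3 * (h2 - h1) * (64 * Cs * 4 ^ g) := by ring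
    linarith
  have hκup : κ ≤ 1 + 3 / 4 ^ g := by
    rw [hκ1]
    have e1 : 3 * (h2 - h1) / D ≤ 3 / 4 ^ g := by
      have c4R : ((h2 - h1 : ℕ) : ℝ) ≤ 4 ^ (s - g) := by exact_mod_cast c4
      rw [hsub] at c4R
      rw [div_le_div_iff₀ hD0 h4g]
      calc 3 * ((h2 : ℝ) - h1) * 4 ^ g ≤ 3 * 4 ^ (s - g) * 4 ^ g := by gcongr
        _ = 3 * 4 ^ s := by rw [mul_assoc, hpow]
        _ ≤ 3 * D := by linarith
    linarith
  have hκ1' : 1 ≤ κ := by
    have : (0 : ℝ) < 1 / (64 * Cs * 4 ^ g) := by positivity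
    linarith
  have hκ4 : κ ≤ 4 := by
    have : (3 : ℝ) / 4 ^ g ≤ 3 := by
      apply div_le_self (by norm_num)
      exact one_le_pow₀ (by norm_num)
    linarith
  -- the families
  set c : ℕ → ℝ := fun f => 4 ^ (f - s) * D with hc
  set n : ℕ → ℕ := fun f => ⌈(4 : ℝ) ^ (f - s) / f / 8⌉₊ with hn
  have hA : ∀ f ∈ I, ∃ B ⊆ Win s f h1, B.card = n f := by
    intro f hf
    apply Finset.exists_subset_card_eq
    rw [hn, Nat.ceil_le]
    exact ((mem_Rich s f _).mp (hprop f hf).1).2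
  have hA' : ∀ f ∈ I, ∃ B ⊆ Win s f h2, B.card = n f := by
    intro f hf
    apply Finset.exists_subset_card_eq
    rw [hn, Nat.ceil_le]
    exact ((mem_Rich s f _).mp (hprop f hf).2.1).2
  choose! A hAs hAc using hA
  choose! A' hAs' hAc' using hA'
  set θ : ℝ := 3 / 4 ^ s with hθ
  have hθ0 : 0 ≤ θ := by positivity
  have hcpos : ∀ f ∈ I, 0 < c f := fun f _ => by
    show (0 : ℝ) < 4 ^ (f - s) * D
    positivity
  have hwin : ∀ f h : ℕ, ∀ p ∈ Win s f h, p.Prime ∧ (4 : ℝ) ^ (f - s) * (4 ^ s + 3 * h) ≤ p ∧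
      (p : ℝ) ≤ 4 ^ (f - s) * (4 ^ s + 3 * h) * (1 + θ) := by
    intro f h p hp
    obtain ⟨⟨b1, b2⟩, b3⟩ := (mem_Win s f h p).mp hp
    refine ⟨b3, by exact_mod_cast b1, ?_⟩
    have b4 : (p : ℝ) ≤ 4 ^ (f - s) * (4 ^ s + 3 * h) + 3 * 4 ^ (f - s) := by
      exact_mod_cast b2.le
    refine b4.trans ?_
    have hh : (0 : ℝ) ≤ h := Nat.cast_nonneg h
    have b5 : (3 : ℝ) ≤ (4 ^ s + 3 * h) * θ := by
      rw [hθ]
      calc (3 : ℝ) = 4 ^ s * (3 / 4 ^ s) := by field_simp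
        _ ≤ (4 ^ s + 3 * h) * (3 / 4 ^ s) := by
          apply mul_le_mul_of_nonneg_right _ (by positivity)
          linarith
    have b6 : (0 : ℝ) < 4 ^ (f - s) := by positivity
    nlinarith
  have hdisj : ∀ h h' : ℕ, h < 4 ^ s → h' < 4 ^ s → ∀ f ∈ I, ∀ f' ∈ I, f ≠ f' →
      Disjoint (Win s f h) (Win s f' h') := by
    intro h h' hh hh' f hf f' hf' hne
    have key : ∀ (u v : ℕ), u ∈ I → v ∈ I → u < v → ∀ (k k' : ℕ), k < 4 ^ s → k' < 4 ^ s →
        ∀ p ∈ Win s u k, p ∉ Win s v k' := by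
      intro u v hu hv huv k k' hk hk' p hp hp'
      rw [mem_Win] at hp hp'
      have d1 := (hI u hu).1
      have d2 : 4 ^ (u - s) * 4 ^ s = 4 ^ u := by
        rw [← pow_add]
        congr 1
        omega
      have d3 : 4 ^ (v - s) * 4 ^ s = 4 ^ v := by
        rw [← pow_add]
        congr 1
        omega
      have d4 : 4 * 4 ^ u ≤ 4 ^ v := by
        calc 4 * 4 ^ u = 4 ^ (u + 1) := by rw [pow_succ]; ring
          _ ≤ 4 ^ v := Nat.pow_le_pow_right (by norm_num) huv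
      have d5 : p < 4 ^ (u - s) * (4 ^ s + 3 * k + 3) := by
        have := hp.1.2
        calc p < 4 ^ (u - s) * (4 ^ s + 3 * k) + 3 * 4 ^ (u - s) := this
          _ = 4 ^ (u - s) * (4 ^ s + 3 * k + 3) := by ring
      have d6 : 4 ^ (u - s) * (4 ^ s + 3 * k + 3) ≤ 4 ^ (u - s) * (4 * 4 ^ s) :=
        Nat.mul_le_mul_left _ (by omega)
      have d7 : 4 ^ (u - s) * (4 * 4 ^ s) = 4 * 4 ^ u := by
        rw [← d2]
        ring
      have d8 : 4 ^ v ≤ p := by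
        have := hp'.1.1
        calc 4 ^ v = 4 ^ (v - s) * 4 ^ s := d3.symm
          _ ≤ 4 ^ (v - s) * (4 ^ s + 3 * k') := Nat.mul_le_mul_left _ (by omega)
          _ ≤ p := this
      omega
    rw [Finset.disjoint_left]
    intro p hp hp'
    rcases Nat.lt_or_gt_of_ne hne with hlt | hlt
    · exact key f f' hf hf' hlt h h' hh hh' p hp hp'
    · exact key f' f hf' hf hlt h' h hh' hh p hp' hp
  have hsumL : 768 / δ ^ 2 ≤ ∑ f ∈ I, (n f : ℝ) / c f := by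
    have e1 : ∀ f ∈ I, 1 / (32 * 4 ^ s) * ((1 : ℝ) / f) ≤ (n f : ℝ) / c f := by
      intro f hf
      have hf1 : 0 < f := by
        have := (hI f hf).1
        omega
      have hfR : (0 : ℝ) < f := by exact_mod_cast hf1
      have e2 : (4 : ℝ) ^ (f - s) / f / 8 ≤ n f := Nat.le_ceil _
      have e3 : (0 : ℝ) < 4 ^ (f - s) := by positivity
      rw [le_div_iff₀ (hcpos f hf)]
      refine le_trans ?_ e2
      show 1 / (32 * 4 ^ s) * ((1 : ℝ) / f) * (4 ^ (f - s) * D) ≤ _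
      calc 1 / (32 * 4 ^ s) * ((1 : ℝ) / f) * (4 ^ (f - s) * D) ≤
          1 / (32 * 4 ^ s) * ((1 : ℝ) / f) * (4 ^ (f - s) * (4 * 4 ^ s)) := by gcongr
        _ = 4 ^ (f - s) / f / 8 := by
          field_simp
          norm_num
    have e4 := Finset.sum_le_sum e1
    rw [← Finset.mul_sum] at e4
    refine le_trans ?_ e4
    have e5 := mul_le_mul_of_nonneg_left hT (show (0 : ℝ) ≤ 1 / (32 * 4 ^ s) by positivity)
    refine le_trans (le_of_eq ?_) e5
    field_simp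
  have hLpos : 0 < ∑ f ∈ I, (n f : ℝ) / c f := lt_of_lt_of_le (by positivity) hsumL
  refine ⟨κ, 1 + ((∑ f ∈ I, n f : ℕ) : ℝ) + (∑ f ∈ I, c f) / (δ / 8), hκlow, hκup, ?_, ?_⟩
  · have e1 : (0 : ℝ) ≤ ((∑ f ∈ I, n f : ℕ) : ℝ) := Nat.cast_nonneg _
    have e2 : (0 : ℝ) ≤ (∑ f ∈ I, c f) / (δ / 8) :=
      div_nonneg (Finset.sum_nonneg fun f hf => (hcpos f hf).le) (by positivity)
    linarith
  · intro x hx a ha
    have e1 : (0 : ℝ) ≤ ((∑ f ∈ I, n f : ℕ) : ℝ) := Nat.cast_nonneg _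
    have e2 : (0 : ℝ) ≤ (∑ f ∈ I, c f) / (δ / 8) :=
      div_nonneg (Finset.sum_nonneg fun f hf => (hcpos f hf).le) (by positivity)
    have hx0 : 0 < x := by linarith
    have hmain := dilate a ha I c A A' n θ (δ / 8) κ hθ0 hκ1' hcpos
      (fun f hf p hp => hwin f h1 p (hAs f hf hp))
      (fun f hf p hp => by
        have e3 := hwin f h2 p (hAs' f hf hp)
        have e4 : κ * c f = 4 ^ (f - s) * (4 ^ s + 3 * h2) := by
          show κ * (4 ^ (f - s) * D) = _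
          rw [← hκD]
          ring
        rw [e4]
        exact e3)
      hAc hAc'
      (fun f hf f' hf' hne => Finset.disjoint_of_subset_left (hAs f hf)
        (Finset.disjoint_of_subset_right (hAs f' hf') (hdisj h1 h1 hh1 hh1 f hf f' hf' hne)))
      (fun f hf f' hf' hne => Finset.disjoint_of_subset_left (hAs' f hf)
        (Finset.disjoint_of_subset_right (hAs' f' hf') (hdisj h2 h2 hh2 hh2 f hf f' hf' hne)))
      hLpos x (by linarith) hx0 (by
        intro f hf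
        have e3 : c f ≤ ∑ f ∈ I, c f :=
          Finset.single_le_sum (fun i hi => (hcpos i hi).le) hf
        have e4 : (∑ f ∈ I, c f) / (δ / 8) ≤ x := by linarith
        rw [div_le_iff₀ (by positivity)] at e4
        linarith)
    refine hmain.trans ?_
    have e5 : √(3 * (1 + θ) * κ / ∑ f ∈ I, (n f : ℝ) / c f) ≤ δ / 4 := by
      rw [show δ / 4 = √((δ / 4) ^ 2) from (Real.sqrt_sq (by positivity)).symm]
      apply Real.sqrt_le_sqrt
      rw [div_le_iff₀ hLpos]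
      have e6 : θ ≤ 3 := by
        rw [hθ]
        exact div_le_self (by norm_num) h4s1
      have e7 : 3 * (1 + θ) * κ ≤ 48 := by nlinarith
      have e8 : (δ / 4) ^ 2 * (768 / δ ^ 2) = 48 := by
        field_simp
        norm_num
      have e9 := mul_le_mul_of_nonneg_left hsumL (show 0 ≤ (δ / 4) ^ 2 by positivity)
      linarith
    have e10 : 6 * θ ≤ δ / 4 := by
      rw [hθ]
      rw [div_le_iff₀ hδ] at h4s'
      have : (6 : ℝ) * (3 / 4 ^ s) = 18 / 4 ^ s := by ring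
      rw [this, div_le_iff₀ (by positivity)]
      linarith
    linarith

/-- Dilation invariance of the law of `Omega`. -/
theorem dilation_full (M₀ ε : ℝ) (hM : 1 ≤ M₀) (hε : 0 < ε) :
    ∃ x₁ : ℝ, 0 < x₁ ∧ ∀ x ≥ x₁, ∀ y, x / M₀ ≤ y → y ≤ x → ∀ a : ℕ → ℝ, (∀ ℓ, |a ℓ| ≤ 1) →
      |Bv a x - Bv a y| ≤ ε := by
  have hCs := Cs_pos
  obtain ⟨g, hg⟩ := pow_unbounded_of_one_lt (24 / ε) (show (1 : ℝ) < 4 by norm_num)
  have h4g : (0 : ℝ) < 4 ^ g := by positivity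
  set η : ℝ := 1 / (64 * Cs * 4 ^ g) with hη
  have hη0 : 0 < η := by positivity
  obtain ⟨m₀, hm₀⟩ := exists_nat_ge ((M₀ - 1) / η)
  set δ : ℝ := ε / (4 * (m₀ + 1)) with hδ
  have hδ0 : 0 < δ := by positivity
  obtain ⟨κ, x₀, hκ1, hκ2, hx₀, hκ⟩ := dilation_exists g δ hδ0
  rw [← hη] at hκ1
  have hκgt : 1 < κ := by linarith
  have hκ0 : 0 < κ := by linarith
  refine ⟨M₀ * x₀ + 4 / ε, by positivity, ?_⟩
  intro x hx y hy1 hy2 a ha
  have hM0 : 0 < M₀ := by linarith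
  have h4ε : 0 < 4 / ε := by positivity
  have hMx : 0 < M₀ * x₀ := by positivity
  have hx0 : 0 < x := by linarith
  have hyx : x₀ ≤ y := by
    refine le_trans ?_ hy1
    rw [le_div_iff₀ hM0]
    linarith
  have hy0 : 0 < y := by linarith
  have hxy1 : 1 ≤ x / y := (one_le_div hy0).mpr hy2
  obtain ⟨m, hm1, hm2⟩ := exists_nat_pow_near hxy1 hκgt
  have hm3 : κ ^ m * y ≤ x := by
    rw [le_div_iff₀ hy0] at hm1
    exact hm1
  have hm4 : x < κ ^ (m + 1) * y := by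
    rw [div_lt_iff₀ hy0] at hm2
    exact hm2
  -- the number of steps
  have hmm : (m : ℝ) ≤ m₀ := by
    have e1 : 1 + (m : ℝ) * η ≤ (1 + η) ^ m := one_add_mul_le_pow (by linarith) m
    have e2 : (1 + η) ^ m ≤ κ ^ m := pow_le_pow_left₀ (by linarith) hκ1 m
    have e3 : κ ^ m ≤ M₀ := by
      refine hm1.trans ?_
      rw [div_le_iff₀ hy0]
      rw [div_le_iff₀ hM0] at hy1
      linarith
    refine le_trans ?_ hm₀
    rw [le_div_iff₀ hη0]
    linarith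
  have hstep : ∀ j : ℕ, |Bv a (κ ^ j * y) - Bv a y| ≤ j * δ := by
    intro j
    induction j with
    | zero => simp
    | succ j ih =>
      have e1 : κ ^ (j + 1) * y = κ * (κ ^ j * y) := by
        rw [pow_succ]
        ring
      have e2 : x₀ ≤ κ ^ j * y := by
        have : 1 ≤ κ ^ j := one_le_pow₀ hκgt.le
        nlinarith
      have e3 := hκ (κ ^ j * y) e2 a ha
      rw [e1]
      have e4 := abs_sub_le (Bv a (κ * (κ ^ j * y))) (Bv a (κ ^ j * y)) (Bv a y)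
      push_cast
      linarith
  have h1 := hstep m
  have hpos : 0 < κ ^ m * y := by positivity
  have h2 := Bv_lip a ha x (κ ^ m * y) hpos hm3
  have h3 : 1 - κ ^ m * y / x ≤ 3 / 4 ^ g := by
    have e1 : 1 / κ ≤ κ ^ m * y / x := by
      rw [div_le_div_iff₀ hκ0 hx0]
      rw [pow_succ] at hm4
      nlinarith
    have e2 : 2 - κ ≤ 1 / κ := by
      rw [le_div_iff₀ hκ0]
      nlinarith [sq_nonneg (κ - 1)]
    linarith
  have h4 : 3 / 4 ^ g ≤ ε / 8 := by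
    rw [div_le_iff₀ h4g]
    have := hg.le
    rw [div_le_iff₀ hε] at this
    linarith
  have h5 : 1 / x ≤ ε / 4 := by
    rw [div_le_div_iff₀ hx0 (by norm_num)]
    have e1 : 4 / ε ≤ x := by linarith
    rw [div_le_iff₀ hε] at e1
    linarith
  have h6 : (m : ℝ) * δ ≤ ε / 4 := by
    rw [hδ]
    calc (m : ℝ) * (ε / (4 * (m₀ + 1))) ≤ (m₀ + 1) * (ε / (4 * (m₀ + 1))) := by
          apply mul_le_mul_of_nonneg_right _ (by positivity)
          linarith
      _ = ε / 4 := by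
          field_simp
  have h7 := abs_sub_le (Bv a x) (Bv a (κ ^ m * y)) (Bv a y)
  linarith

lemma exists_primes (T : ℝ) : ∃ P : Finset ℕ, (∀ p ∈ P, p.Prime) ∧ T ≤ ∑ p ∈ P, (1 : ℝ) / p := by
  classical
  by_contra hcon
  push Not at hcon
  apply not_summable_one_div_on_primes
  apply summable_of_sum_le (c := T)
  · intro n
    apply Set.indicator_nonneg
    intro n _
    positivity
  · intro u
    have h := hcon (u.filter Nat.Prime) (fun p hp => (Finset.mem_filter.mp hp).2)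
    refine le_trans (le_of_eq ?_) h.le
    rw [Finset.sum_filter]
    refine Finset.sum_congr rfl fun n _ => ?_
    rw [Set.indicator_apply]
    rfl

/-- **Shift invariance of the law of `Omega`**, uniformly in the test function. -/
theorem shift_inv (ε : ℝ) (hε : 0 < ε) :
    ∃ x₂ : ℝ, 0 < x₂ ∧ ∀ x ≥ x₂, ∀ a : ℕ → ℝ, (∀ ℓ, |a ℓ| ≤ 1) →
      |Bv a x - Bv (fun ℓ => a (ℓ + 1)) x| ≤ ε := by
  classical
  obtain ⟨P, hP, hL⟩ := exists_primes (12 / ε ^ 2)
  have h12 : 0 < 12 / ε ^ 2 := by positivity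
  have hL0 : 0 < ∑ p ∈ P, (1 : ℝ) / p := by linarith
  obtain ⟨x₁, hx₁, hdil⟩ := dilation_full (1 + ∑ p ∈ P, (p : ℝ)) (ε / 2) (by
    have : (0 : ℝ) ≤ ∑ p ∈ P, (p : ℝ) := Finset.sum_nonneg fun p _ => Nat.cast_nonneg p
    linarith) (by positivity)
  refine ⟨x₁ + P.card, by positivity, ?_⟩
  intro x hx a ha
  have hcard0 : (0 : ℝ) ≤ P.card := Nat.cast_nonneg _
  have hx0 : 0 < x := by linarith
  have h1 := Bv_tk a ha P hP hL0 x (by linarith) hx0
  set L : ℝ := ∑ p ∈ P, (1 : ℝ) / p with hLdef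
  have h2 : √(3 / L) ≤ ε / 2 := by
    rw [show ε / 2 = √((ε / 2) ^ 2) from (Real.sqrt_sq (by positivity)).symm]
    apply Real.sqrt_le_sqrt
    rw [div_le_iff₀ hL0]
    have e1 := mul_le_mul_of_nonneg_left hL (show 0 ≤ (ε / 2) ^ 2 by positivity)
    have e2 : (ε / 2) ^ 2 * (12 / ε ^ 2) = 3 := by
      field_simp
      norm_num
    linarith
  set b : ℕ → ℝ := fun ℓ => a (ℓ + 1) with hb
  have hb1 : ∀ ℓ, |b ℓ| ≤ 1 := fun ℓ => ha _
  have h3 : |(∑ p ∈ P, (1 : ℝ) / p * Bv b (x / p)) / L - Bv b x| ≤ ε / 2 := by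
    have e1 : (∑ p ∈ P, (1 : ℝ) / p * Bv b (x / p)) / L - Bv b x =
        (∑ p ∈ P, (1 : ℝ) / p * (Bv b (x / p) - Bv b x)) / L := by
      have e2 : ∑ p ∈ P, (1 : ℝ) / p * (Bv b (x / p) - Bv b x) =
          ∑ p ∈ P, (1 : ℝ) / p * Bv b (x / p) - L * Bv b x := by
        rw [hLdef, Finset.sum_mul, ← Finset.sum_sub_distrib]
        refine Finset.sum_congr rfl fun p _ => ?_
        ring
      rw [e2]
      field_simp
    rw [e1, abs_div, abs_of_pos hL0, div_le_iff₀ hL0]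
    refine (Finset.abs_sum_le_sum_abs _ _).trans ?_
    rw [hLdef, Finset.mul_sum]
    refine Finset.sum_le_sum fun p hp => ?_
    have hp' := hP p hp
    have hp0 : (0 : ℝ) < p := by exact_mod_cast hp'.pos
    have hp1 : (1 : ℝ) ≤ p := by exact_mod_cast hp'.one_lt.le
    rw [abs_mul, abs_of_nonneg (by positivity), mul_comm]
    apply mul_le_mul_of_nonneg_right _ (by positivity)
    rw [abs_sub_comm]
    apply hdil x (by linarith) (x / p) _ _ b hb1
    · apply div_le_div_of_nonneg_left hx0.le hp0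
      have : (p : ℝ) ≤ ∑ q ∈ P, (q : ℝ) :=
        Finset.single_le_sum (fun q _ => Nat.cast_nonneg q) hp
      linarith
    · exact div_le_self hx0.le hp1
  have h4 := abs_sub_le (Bv a x) ((∑ p ∈ P, (1 : ℝ) / p * Bv b (x / p)) / L) (Bv b x)
  linarith

end Helper13.Om
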