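import Mathlib
import Pool.Agent.Helper13.Om.RichD
import Pool.Agent.Helper13.Om.Reduction

set_option autoImplicit false

/-! Consequences of the shift invariance of the law of `Omega`. -/

namespace Helper13.Om

open Finset Filter

/-- expectation of a function of `k` independent copies of `Omega` -/
noncomputable def Ep (k N : ℕ) (a : (Fin k → ℕ) → ℝ) : ℝ :=
  1 / (N : ℝ) ^ k * ∑ m ∈ Fintype.piFinset (fun _ : Fin k => Finset.Icc 1 N),
      a (fun i => ArithmeticFunction.cardFactors (m i))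

/-- expectation of a function of `Omega` at `k` consecutive integers -/
noncomputable def Em (k N : ℕ) (a : (Fin k → ℕ) → ℝ) : ℝ :=
  1 / (N : ℝ) * ∑ n ∈ Finset.Icc 1 N, a (fun i => ArithmeticFunction.cardFactors (n + i))

lemma Lam_eq (k N : ℕ) (a : (Fin k → ℕ) → ℝ) : Lam k N a = Em k N a - Ep k N a := rfl

lemma Bv_nat (a : ℕ → ℝ) (N : ℕ) :
    Bv a (N : ℝ) = 1 / (N : ℝ) * ∑ n ∈ Finset.Icc 1 N, a (ArithmeticFunction.cardFactors n) := by
  unfold Bv
  rw [Nat.floor_natCast]
  ring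

/-- `N` is a scale at which the law of `Omega` is `r`-invariant under the unit shift -/
def ShiftInv (N : ℕ) (r : ℝ) : Prop :=
  ∀ a : ℕ → ℝ, (∀ ℓ, |a ℓ| ≤ 1) → |Bv a (N : ℝ) - Bv (fun ℓ => a (ℓ + 1)) (N : ℝ)| ≤ r

lemma shiftInv_eventually (r : ℝ) (hr : 0 < r) : ∃ N₀ : ℕ, ∀ N ≥ N₀, ShiftInv N r := by
  obtain ⟨x₂, _, h⟩ := shift_inv r hr
  obtain ⟨N₀, hN₀⟩ := exists_nat_ge x₂
  refine ⟨N₀, fun N hN a ha => h N ?_ a ha⟩
  have : (N₀ : ℝ) ≤ N := by exact_mod_cast hN
  exact hN₀.trans this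

lemma resample_sum (k N : ℕ) (i : Fin k) (G : (Fin k → ℕ) → ℝ) :
    ∑ m ∈ Fintype.piFinset (fun _ : Fin k => Finset.Icc 1 N), ∑ t ∈ Finset.Icc 1 N,
      G (Function.update m i t) =
    N * ∑ m ∈ Fintype.piFinset (fun _ : Fin k => Finset.Icc 1 N), G m := by
  classical
  have h1 : ∑ m ∈ Fintype.piFinset (fun _ : Fin k => Finset.Icc 1 N), ∑ t ∈ Finset.Icc 1 N,
      G (Function.update m i t) =
      ∑ z ∈ (Fintype.piFinset (fun _ : Fin k => Finset.Icc 1 N)) ×ˢ (Finset.Icc 1 N),
        G (Function.update z.1 i z.2) := by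
    rw [Finset.sum_product]
  have h2 : (N : ℝ) * ∑ m ∈ Fintype.piFinset (fun _ : Fin k => Finset.Icc 1 N), G m =
      ∑ z ∈ (Fintype.piFinset (fun _ : Fin k => Finset.Icc 1 N)) ×ˢ (Finset.Icc 1 N), G z.1 := by
    rw [Finset.sum_product, Finset.mul_sum]
    refine Finset.sum_congr rfl fun m _ => ?_
    show (N : ℝ) * G m = ∑ _y ∈ Finset.Icc 1 N, G m
    rw [Finset.sum_const, Nat.card_Icc, nsmul_eq_mul, Nat.add_sub_cancel]
  rw [h1, h2]
  refine Finset.sum_nbij' (fun z => (Function.update z.1 i z.2, z.1 i))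
    (fun z => (Function.update z.1 i z.2, z.1 i)) ?_ ?_ ?_ ?_ ?_
  · intro z hz
    rw [Finset.mem_product, Fintype.mem_piFinset] at hz ⊢
    refine ⟨fun j => ?_, hz.1 i⟩
    by_cases hj : j = i
    · subst hj
      simpa using hz.2
    · simpa [Function.update_of_ne hj] using hz.1 j
  · intro z hz
    rw [Finset.mem_product, Fintype.mem_piFinset] at hz ⊢
    refine ⟨fun j => ?_, hz.1 i⟩
    by_cases hj : j = i
    · subst hj
      simpa using hz.2
    · simpa [Function.update_of_ne hj] using hz.1 j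
  · intro z _
    simp
  · intro z _
    simp
  · intro z _
    rfl

lemma Ep_shift (k N : ℕ) (hN : 1 ≤ N) (r : ℝ) (hr : ShiftInv N r) (i : Fin k)
    (a : (Fin k → ℕ) → ℝ) (ha : ∀ ℓ, |a ℓ| ≤ 1) :
    |Ep k N (fun ℓ => a (ℓ + ev k i)) - Ep k N a| ≤ r := by
  classical
  have hNR : (0 : ℝ) < N := by exact_mod_cast hN
  have h0 : 0 ≤ r := le_trans (abs_nonneg _) (hr (fun _ => 0) (fun _ => by simp))
  set Om : (Fin k → ℕ) → (Fin k → ℕ) := fun m j => ArithmeticFunction.cardFactors (m j) with hOm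
  set G : (Fin k → ℕ) → ℝ := fun m => a (Om m + ev k i) - a (Om m) with hG
  have e1 : Ep k N (fun ℓ => a (ℓ + ev k i)) - Ep k N a =
      1 / (N : ℝ) ^ k * ∑ m ∈ Fintype.piFinset (fun _ : Fin k => Finset.Icc 1 N), G m := by
    unfold Ep
    rw [← mul_sub, ← Finset.sum_sub_distrib]
  have e2 := resample_sum k N i G
  have h1 : ∀ m ∈ Fintype.piFinset (fun _ : Fin k => Finset.Icc 1 N),
      |∑ t ∈ Finset.Icc 1 N, G (Function.update m i t)| ≤ N * r := by
    intro m _
    set b : ℕ → ℝ := fun ℓ => a (Function.update (Om m) i ℓ) with hb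
    have h2 := hr b (fun ℓ => ha _)
    rw [Bv_nat, Bv_nat, ← mul_sub, ← Finset.sum_sub_distrib, abs_mul,
      abs_of_pos (by positivity : (0 : ℝ) < 1 / N), one_div_mul_eq_div, div_le_iff₀ hNR] at h2
    have e3 : ∑ t ∈ Finset.Icc 1 N, G (Function.update m i t) =
        -∑ t ∈ Finset.Icc 1 N, (b (ArithmeticFunction.cardFactors t) -
          b (ArithmeticFunction.cardFactors t + 1)) := by
      rw [← Finset.sum_neg_distrib]
      refine Finset.sum_congr rfl fun t _ => ?_
      simp only [hG, hb]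
      have e4 : Om (Function.update m i t) =
          Function.update (Om m) i (ArithmeticFunction.cardFactors t) := by
        funext j
        simp only [hOm]
        by_cases hj : j = i
        · subst hj
          simp
        · rw [Function.update_of_ne hj, Function.update_of_ne hj]
      have e5 : Function.update (Om m) i (ArithmeticFunction.cardFactors t) + ev k i =
          Function.update (Om m) i (ArithmeticFunction.cardFactors t + 1) := by
        funext j
        rw [Pi.add_apply]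
        unfold ev
        by_cases hj : j = i
        · subst hj
          simp
        · rw [Function.update_of_ne hj, Function.update_of_ne hj, Pi.single_eq_of_ne hj, add_zero]
      rw [e4, e5]
      ring
    rw [e3, abs_neg]
    linarith
  have h3 : |(N : ℝ) * ∑ m ∈ Fintype.piFinset (fun _ : Fin k => Finset.Icc 1 N), G m| ≤
      N ^ k * (N * r) := by
    rw [← e2]
    refine (Finset.abs_sum_le_sum_abs _ _).trans ?_
    refine (Finset.sum_le_card_nsmul _ _ _ h1).trans (le_of_eq ?_)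
    rw [Fintype.card_piFinset, nsmul_eq_mul]
    simp
  rw [abs_mul, abs_of_pos hNR] at h3
  rw [e1, abs_mul, abs_of_pos (by positivity), one_div_mul_eq_div, div_le_iff₀ (by positivity)]
  have h4 : (N : ℝ) * |∑ m ∈ Fintype.piFinset (fun _ : Fin k => Finset.Icc 1 N), G m| ≤
      N * (r * N ^ k) := by
    calc _ ≤ (N : ℝ) ^ k * (N * r) := h3
      _ = N * (r * N ^ k) := by ring
  exact le_of_mul_le_mul_left h4 hNR

/-- several shifts -/
lemma Ep_shifts (k N : ℕ) (hN : 1 ≤ N) (r : ℝ) (hr : ShiftInv N r) (n : ℕ) :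
    ∀ (u : Fin k → ℕ), ∑ i, u i = n → ∀ (a : (Fin k → ℕ) → ℝ), (∀ ℓ, |a ℓ| ≤ 1) →
      |Ep k N (fun ℓ => a (ℓ + u)) - Ep k N a| ≤ n * r := by
  classical
  induction n with
  | zero =>
    intro u hu a _
    have h0 : u = 0 := by
      funext i
      have := (Finset.sum_eq_zero_iff_of_nonneg (fun i _ => Nat.zero_le (u i))).mp hu i
        (Finset.mem_univ i)
      simpa using this
    rw [h0]
    simp
  | succ n ih =>
    intro u hu a ha
    have hex : ∃ i, u i ≠ 0 := by
      by_contra hcon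
      push Not at hcon
      rw [Finset.sum_eq_zero (fun i _ => hcon i)] at hu
      omega
    obtain ⟨i, hi⟩ := hex
    set v : Fin k → ℕ := Function.update u i (u i - 1) with hv
    have huv : u = v + ev k i := by
      funext j
      rw [Pi.add_apply, hv]
      unfold ev
      by_cases hj : j = i
      · subst hj
        rw [Function.update_self, Pi.single_eq_same]
        omega
      · rw [Function.update_of_ne hj, Pi.single_eq_of_ne hj, add_zero]
    have hsv : ∑ j, v j = n := by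
      have h1 : ∑ j, u j = ∑ j, v j + ∑ j, ev k i j := by
        rw [← Finset.sum_add_distrib]
        exact Finset.sum_congr rfl fun j _ => congrFun huv j
      have h2 : ∑ j, ev k i j = 1 := by
        unfold ev
        simp
      omega
    have h1 := ih v hsv a ha
    have h2 := Ep_shift k N hN r hr i (fun ℓ => a (ℓ + v)) (fun ℓ => ha _)
    have e1 : (fun ℓ => a (ℓ + u)) = (fun ℓ => (fun ℓ => a (ℓ + v)) (ℓ + ev k i)) := by
      funext ℓ
      simp only
      congr 1
      rw [huv]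
      abel
    rw [e1]
    have h3 := abs_sub_le (Ep k N (fun ℓ => (fun ℓ => a (ℓ + v)) (ℓ + ev k i)))
      (Ep k N (fun ℓ => a (ℓ + v))) (Ep k N a)
    push_cast
    linarith

/-! ### total variation -/

lemma Ep_eq_tsum (k N : ℕ) (a : (Fin k → ℕ) → ℝ) : Ep k N a = ∑' ℓ, piN k N ℓ * a ℓ := by
  unfold Ep
  rw [pi_apply, tsum_eq_sum]
  intro ℓ hℓ
  rw [piN_zero k N ℓ hℓ, zero_mul]

lemma Em_eq_tsum (k N : ℕ) (a : (Fin k → ℕ) → ℝ) : Em k N a = ∑' ℓ, muN k N ℓ * a ℓ := by
  unfold Em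
  rw [mu_apply, tsum_eq_sum]
  intro ℓ hℓ
  rw [muN_zero k N ℓ hℓ, zero_mul]

lemma pi_mul_summable (k N : ℕ) (a : (Fin k → ℕ) → ℝ) :
    Summable (fun ℓ => piN k N ℓ * a ℓ) :=
  summable_of_ne_finset_zero (s := Bx k N) (fun ℓ hℓ => by rw [piN_zero k N ℓ hℓ, zero_mul])

lemma mu_mul_summable (k N : ℕ) (a : (Fin k → ℕ) → ℝ) :
    Summable (fun ℓ => muN k N ℓ * a ℓ) :=
  summable_of_ne_finset_zero (s := Bx k N) (fun ℓ hℓ => by rw [muN_zero k N ℓ hℓ, zero_mul])

/-- shift defect of the product law -/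
noncomputable def Tpi (k N : ℕ) (i : Fin k) : ℝ :=
  ∑' ℓ : Fin k → ℕ, |piN k N (ℓ + ev k i) - piN k N ℓ|

/-- shift defect of the joint law -/
noncomputable def Tmu (k N : ℕ) (i : Fin k) : ℝ :=
  ∑' ℓ : Fin k → ℕ, |muN k N (ℓ + ev k i) - muN k N ℓ|

lemma pi_summable (k N : ℕ) : Summable (fun ℓ : Fin k → ℕ => piN k N ℓ) :=
  summable_of_ne_finset_zero (s := Bx k N) (fun ℓ hℓ => piN_zero k N ℓ hℓ)

lemma mu_summable (k N : ℕ) : Summable (fun ℓ : Fin k → ℕ => muN k N ℓ) :=
  summable_of_ne_finset_zero (s := Bx k N) (fun ℓ hℓ => muN_zero k N ℓ hℓ)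

lemma Tpi_summable (k N : ℕ) (i : Fin k) :
    Summable (fun ℓ : Fin k → ℕ => |piN k N (ℓ + ev k i) - piN k N ℓ|) :=
  (((pi_summable k N).comp_injective (add_left_injective (ev k i))).sub (pi_summable k N)).abs

lemma Tmu_summable (k N : ℕ) (i : Fin k) :
    Summable (fun ℓ : Fin k → ℕ => |muN k N (ℓ + ev k i) - muN k N ℓ|) :=
  (((mu_summable k N).comp_injective (add_left_injective (ev k i))).sub (mu_summable k N)).abs

/-- The product law is asymptotically shift invariant. -/
lemma Tpi_le (k N : ℕ) (hN : 1 ≤ N) (r : ℝ) (hr : ShiftInv N r) (i : Fin k) :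
    Tpi k N i ≤ r := by
  classical
  set a : (Fin k → ℕ) → ℝ := fun ℓ => if ℓ i = 0 then 0 else
    (if piN k N (Function.update ℓ i (ℓ i - 1)) ≤ piN k N ℓ then 1 else -1) with ha
  have ha1 : ∀ ℓ, |a ℓ| ≤ 1 := by
    intro ℓ
    simp only [ha]
    split_ifs <;> norm_num
  have hup : ∀ ℓ : Fin k → ℕ, Function.update (ℓ + ev k i) i ((ℓ + ev k i) i - 1) = ℓ := by
    intro ℓ
    funext j
    unfold ev
    by_cases hj : j = i
    · subst hj
      simp
    · rw [Function.update_of_ne hj, Pi.add_apply, Pi.single_eq_of_ne hj, add_zero]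
  have hae : ∀ ℓ, |piN k N (ℓ + ev k i) - piN k N ℓ| =
      piN k N (ℓ + ev k i) * a (ℓ + ev k i) - piN k N ℓ * a (ℓ + ev k i) := by
    intro ℓ
    have h1 : (ℓ + ev k i) i ≠ 0 := by
      unfold ev
      simp
    simp only [ha]
    rw [if_neg h1, hup]
    split_ifs with h
    · rw [abs_of_nonneg (by linarith)]
      ring
    · rw [abs_of_neg (by linarith [not_le.mp h])]
      ring
  have hs : Summable (fun ℓ => piN k N (ℓ + ev k i) * a (ℓ + ev k i)) :=
    (pi_mul_summable k N a).comp_injective (add_left_injective (ev k i))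
  have e1 : Tpi k N i = Ep k N a - Ep k N (fun ℓ => a (ℓ + ev k i)) := by
    unfold Tpi
    rw [tsum_congr hae, hs.tsum_sub (pi_mul_summable k N _), Ep_eq_tsum, Ep_eq_tsum]
    congr 1
    apply (add_left_injective (ev k i)).tsum_eq (f := fun ℓ => piN k N ℓ * a ℓ)
    intro ℓ hℓ
    rw [Function.mem_support] at hℓ
    have h1 : ℓ i ≠ 0 := by
      intro h0
      apply hℓ
      simp only [ha]
      rw [if_pos h0, mul_zero]
    refine ⟨Function.update ℓ i (ℓ i - 1), ?_⟩
    funext j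
    simp only [Pi.add_apply]
    unfold ev
    by_cases hj : j = i
    · subst hj
      rw [Function.update_self, Pi.single_eq_same]
      omega
    · rw [Function.update_of_ne hj, Pi.single_eq_of_ne hj, add_zero]
  rw [e1]
  have h := Ep_shift k N hN r hr i a ha1
  rw [abs_sub_comm] at h
  exact (le_abs_self _).trans h

lemma Tpi_tendsto (k : ℕ) (i : Fin k) : Tendsto (fun N => Tpi k N i) atTop (nhds 0) := by
  rw [Metric.tendsto_atTop]
  intro ε hε
  obtain ⟨N₀, h⟩ := shiftInv_eventually (ε / 2) (by positivity)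
  refine ⟨N₀ + 1, fun N hN => ?_⟩
  have h1 := Tpi_le k N (by omega) (ε / 2) (h N (by omega)) i
  have h0 : 0 ≤ Tpi k N i := tsum_nonneg fun ℓ => abs_nonneg _
  rw [Real.dist_eq, sub_zero, abs_of_nonneg h0]
  linarith

lemma Tdef_le (k N : ℕ) (i : Fin k) : Tdef k N i ≤ Tmu k N i + Tpi k N i := by
  unfold Tdef Tmu Tpi
  rw [← (Tmu_summable k N i).tsum_add (Tpi_summable k N i)]
  refine (Tdef_summable k N i).tsum_le_tsum (fun ℓ => ?_)
    ((Tmu_summable k N i).add (Tpi_summable k N i))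
  unfold sigmaN
  have e1 : muN k N (ℓ + ev k i) - piN k N (ℓ + ev k i) - (muN k N ℓ - piN k N ℓ) =
      (muN k N (ℓ + ev k i) - muN k N ℓ) - (piN k N (ℓ + ev k i) - piN k N ℓ) := by ring
  rw [e1]
  exact abs_sub _ _

lemma Tmu_le (k N : ℕ) (i : Fin k) : Tmu k N i ≤ Tdef k N i + Tpi k N i := by
  unfold Tdef Tmu Tpi
  rw [← (Tdef_summable k N i).tsum_add (Tpi_summable k N i)]
  refine (Tmu_summable k N i).tsum_le_tsum (fun ℓ => ?_)
    ((Tdef_summable k N i).add (Tpi_summable k N i))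
  unfold sigmaN
  have e1 : muN k N (ℓ + ev k i) - muN k N ℓ =
      (muN k N (ℓ + ev k i) - piN k N (ℓ + ev k i) - (muN k N ℓ - piN k N ℓ)) +
      (piN k N (ℓ + ev k i) - piN k N ℓ) := by ring
  rw [e1]
  exact abs_add_le _ _

/-- **Reduction of the problem to the shift invariance of the joint law.** -/
theorem reduction_mu (k : ℕ) (i₀ : Fin k) :
    Tendsto (fun N => DN k N) atTop (nhds 0) ↔
      ∀ i, i ≠ i₀ → Tendsto (fun N => Tmu k N i) atTop (nhds 0) := by
  rw [reduction k i₀]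
  constructor
  · intro h i hi
    have h1 := (h i hi).add (Tpi_tendsto k i)
    rw [add_zero] at h1
    exact squeeze_zero (fun N => tsum_nonneg fun ℓ => abs_nonneg _) (fun N => Tmu_le k N i) h1
  · intro h i hi
    have h1 := (h i hi).add (Tpi_tendsto k i)
    rw [add_zero] at h1
    exact squeeze_zero (fun N => tsum_nonneg fun ℓ => abs_nonneg _) (fun N => Tdef_le k N i) h1

end Helper13.Om
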