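import Mathlib
import Pool.Agent.Helper13.Om.Noise

set_option autoImplicit false

/-! Asymptotic independence after adding bounded noise to all but one coordinate. -/

namespace Helper13.Om

open Finset Filter

/-- the set of noise vectors: `u i₀ = 0` and `u i < H` for the other `i` -/
def noiseSet (k H : ℕ) (i₀ : Fin k) : Finset (Fin k → ℕ) :=
  Fintype.piFinset (fun i => if i = i₀ then {0} else Finset.range H)

lemma mem_noiseSet (k H : ℕ) (i₀ : Fin k) (u : Fin k → ℕ) :
    u ∈ noiseSet k H i₀ ↔ u i₀ = 0 ∧ ∀ i, i ≠ i₀ → u i < H := by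
  unfold noiseSet
  rw [Fintype.mem_piFinset]
  constructor
  · intro h
    refine ⟨by simpa using h i₀, fun i hi => ?_⟩
    have := h i
    rw [if_neg hi, Finset.mem_range] at this
    exact this
  · rintro ⟨h1, h2⟩ i
    by_cases hi : i = i₀
    · rw [if_pos hi, hi, h1]
      exact Finset.mem_singleton_self 0
    · rw [if_neg hi, Finset.mem_range]
      exact h2 i hi

lemma noiseSet_card_pos (k H : ℕ) (hH : 1 ≤ H) (i₀ : Fin k) : 0 < (noiseSet k H i₀).card := by
  rw [Finset.card_pos]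
  exact ⟨fun _ => 0, (mem_noiseSet k H i₀ _).mpr ⟨rfl, fun _ _ => hH⟩⟩

lemma noiseSet_slice (k H : ℕ) (i₀ i : Fin k) (hi : i ≠ i₀) :
    H * ((noiseSet k H i₀).filter (fun u => u i = 0)).card ≤ (noiseSet k H i₀).card := by
  classical
  have h1 : (noiseSet k H i₀).filter (fun u => u i = 0) ⊆
      Fintype.piFinset (fun j => if j = i then {0} else (if j = i₀ then {0} else Finset.range H)) := by
    intro u hu
    rw [Finset.mem_filter] at hu
    rw [Fintype.mem_piFinset]
    intro j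
    by_cases hj : j = i
    · rw [if_pos hj, hj, hu.2]
      exact Finset.mem_singleton_self 0
    · rw [if_neg hj]
      have := hu.1
      unfold noiseSet at this
      rw [Fintype.mem_piFinset] at this
      exact this j
  have h2 := Finset.card_le_card h1
  refine (Nat.mul_le_mul_left H h2).trans (le_of_eq ?_)
  unfold noiseSet
  rw [Fintype.card_piFinset, Fintype.card_piFinset,
    ← Finset.mul_prod_erase Finset.univ _ (Finset.mem_univ i),
    ← Finset.mul_prod_erase Finset.univ (fun a => (if a = i₀ then ({0} : Finset ℕ)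
      else Finset.range H).card) (Finset.mem_univ i)]
  rw [if_pos rfl, if_neg hi, Finset.card_singleton, Finset.card_range, one_mul]
  congr 1
  refine Finset.prod_congr rfl fun j hj => ?_
  rw [if_neg (Finset.ne_of_mem_erase hj)]

/-- average over the noise -/
noncomputable def nz (k H : ℕ) (i₀ : Fin k) (a : (Fin k → ℕ) → ℝ) (ℓ : Fin k → ℕ) : ℝ :=
  1 / ((noiseSet k H i₀).card : ℝ) * ∑ u ∈ noiseSet k H i₀, a (ℓ + u)

lemma nz_abs_le (k H : ℕ) (hH : 1 ≤ H) (i₀ : Fin k) (a : (Fin k → ℕ) → ℝ) (ha : ∀ ℓ, |a ℓ| ≤ 1)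
    (ℓ : Fin k → ℕ) : |nz k H i₀ a ℓ| ≤ 1 := by
  have hc : (0 : ℝ) < (noiseSet k H i₀).card := by exact_mod_cast noiseSet_card_pos k H hH i₀
  unfold nz
  rw [abs_mul, abs_of_pos (by positivity), one_div_mul_eq_div, div_le_one hc]
  refine (Finset.abs_sum_le_sum_abs _ _).trans ?_
  refine (Finset.sum_le_card_nsmul _ _ 1 (fun u _ => ha _)).trans (le_of_eq ?_)
  rw [nsmul_eq_mul, mul_one]

lemma nz_slow (k H : ℕ) (hH : 1 ≤ H) (i₀ i : Fin k) (hi : i ≠ i₀) (a : (Fin k → ℕ) → ℝ)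
    (ha : ∀ ℓ, |a ℓ| ≤ 1) (ℓ : Fin k → ℕ) :
    |nz k H i₀ a (ℓ + ev k i) - nz k H i₀ a ℓ| ≤ 2 / H := by
  classical
  have hc : (0 : ℝ) < (noiseSet k H i₀).card := by exact_mod_cast noiseSet_card_pos k H hH i₀
  have hHR : (0 : ℝ) < H := by exact_mod_cast hH
  set V := noiseSet k H i₀ with hV
  set V' := V.image (fun u => u + ev k i) with hV'
  set f : (Fin k → ℕ) → ℝ := fun u => a (ℓ + u) with hf
  have hinj : Set.InjOn (fun u : Fin k → ℕ => u + ev k i) V := fun x _ y _ hxy =>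
    add_left_injective (ev k i) hxy
  have e1 : ∑ u ∈ V, a (ℓ + ev k i + u) = ∑ u ∈ V', f u := by
    rw [hV', Finset.sum_image hinj]
    refine Finset.sum_congr rfl fun u _ => ?_
    simp only [hf]
    congr 1
    abel
  have hcard : (V' \ V).card = (V \ V').card := by
    have h1 : V'.card = V.card := Finset.card_image_of_injOn hinj
    have h2 := Finset.card_sdiff_add_card_inter V' V
    have h3 := Finset.card_sdiff_add_card_inter V V'
    rw [Finset.inter_comm] at h3
    omega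
  have hsub : V \ V' ⊆ V.filter (fun u => u i = 0) := by
    intro u hu
    rw [Finset.mem_sdiff] at hu
    rw [Finset.mem_filter]
    refine ⟨hu.1, ?_⟩
    by_contra h0
    apply hu.2
    rw [hV', Finset.mem_image]
    refine ⟨Function.update u i (u i - 1), ?_, ?_⟩
    · rw [hV, mem_noiseSet] at hu ⊢
      refine ⟨?_, ?_⟩
      · rw [Function.update_of_ne (Ne.symm hi)]
        exact hu.1.1
      · intro j hj
        by_cases hji : j = i
        · rw [hji, Function.update_self]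
          have := hu.1.2 i hi
          omega
        · rw [Function.update_of_ne hji]
          exact hu.1.2 j hj
    · funext j
      simp only [Pi.add_apply]
      unfold ev
      by_cases hj : j = i
      · rw [hj, Function.update_self, Pi.single_eq_same]
        omega
      · rw [Function.update_of_ne hj, Pi.single_eq_of_ne hj, add_zero]
  have hle : (H : ℝ) * ((V \ V').card : ℝ) ≤ V.card := by
    have h1 := noiseSet_slice k H i₀ i hi
    have h2 := Finset.card_le_card hsub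
    have h3 : H * (V \ V').card ≤ V.card := (Nat.mul_le_mul_left H h2).trans h1
    exact_mod_cast h3
  have hbd : ∀ W : Finset (Fin k → ℕ), |∑ u ∈ W, f u| ≤ W.card := by
    intro W
    refine (Finset.abs_sum_le_sum_abs _ _).trans ?_
    refine (Finset.sum_le_card_nsmul _ _ 1 (fun u _ => ha _)).trans (le_of_eq ?_)
    rw [nsmul_eq_mul, mul_one]
  have e2 : nz k H i₀ a (ℓ + ev k i) - nz k H i₀ a ℓ =
      1 / (V.card : ℝ) * (∑ u ∈ V' \ V, f u - ∑ u ∈ V \ V', f u) := by
    unfold nz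
    rw [← hV, e1, Finset.sum_sdiff_sub_sum_sdiff, mul_sub]
  rw [e2, abs_mul, abs_of_pos (by positivity), one_div_mul_eq_div, div_le_div_iff₀ hc hHR]
  have h1 := abs_sub (∑ u ∈ V' \ V, f u) (∑ u ∈ V \ V', f u)
  have h2 := hbd (V' \ V)
  have h3 := hbd (V \ V')
  rw [hcard] at h2
  nlinarith

/-- joint law with noise -/
noncomputable def muH (k N H : ℕ) (i₀ : Fin k) (ℓ : Fin k → ℕ) : ℝ :=
  1 / ((N : ℝ) * ((noiseSet k H i₀).card : ℝ)) *
    ((((Finset.Icc 1 N) ×ˢ (noiseSet k H i₀)).filter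
      (fun z => ∀ i : Fin k, ArithmeticFunction.cardFactors (z.1 + (i : ℕ)) + z.2 i = ℓ i)).card : ℝ)

/-- the box containing the support -/
def BxH (k N H : ℕ) : Finset (Fin k → ℕ) :=
  Fintype.piFinset (fun _ : Fin k => Finset.range (N + k + 1 + H))

lemma muH_maps (k N H : ℕ) (i₀ : Fin k) :
    ∀ z ∈ (Finset.Icc 1 N) ×ˢ (noiseSet k H i₀),
      (fun i : Fin k => ArithmeticFunction.cardFactors (z.1 + i) + z.2 i) ∈ BxH k N H := by
  intro z hz
  rw [Finset.mem_product, Finset.mem_Icc, mem_noiseSet] at hz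
  unfold BxH
  rw [Fintype.mem_piFinset]
  intro i
  rw [Finset.mem_range]
  have h1 := Omega_le (z.1 + i)
  have h2 := i.2
  by_cases hi : i = i₀
  · rw [hi, hz.2.1]
    rw [hi] at h1 h2
    omega
  · have h3 := hz.2.2 i hi
    omega

lemma muH_zero (k N H : ℕ) (i₀ : Fin k) (ℓ : Fin k → ℕ) (h : ℓ ∉ BxH k N H) :
    muH k N H i₀ ℓ = 0 := by
  unfold muH
  have : ((Finset.Icc 1 N) ×ˢ (noiseSet k H i₀)).filter
      (fun z => ∀ i : Fin k, ArithmeticFunction.cardFactors (z.1 + (i : ℕ)) + z.2 i = ℓ i) = ∅ := by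
    rw [Finset.filter_eq_empty_iff]
    intro z hz hcon
    apply h
    have h1 := muH_maps k N H i₀ z hz
    have h2 : (fun i : Fin k => ArithmeticFunction.cardFactors (z.1 + i) + z.2 i) = ℓ :=
      funext hcon
    rwa [h2] at h1
  rw [this]
  simp

lemma muH_apply (k N H : ℕ) (hN : 1 ≤ N) (hH : 1 ≤ H) (i₀ : Fin k) (a : (Fin k → ℕ) → ℝ) :
    Em k N (nz k H i₀ a) = ∑' ℓ, muH k N H i₀ ℓ * a ℓ := by
  classical
  have hc : (0 : ℝ) < (noiseSet k H i₀).card := by exact_mod_cast noiseSet_card_pos k H hH i₀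
  have hNR : (0 : ℝ) < N := by exact_mod_cast hN
  rw [tsum_eq_sum (s := BxH k N H) (fun ℓ hℓ => by rw [muH_zero k N H i₀ ℓ hℓ, zero_mul])]
  have e1 : Em k N (nz k H i₀ a) = 1 / ((N : ℝ) * ((noiseSet k H i₀).card : ℝ)) *
      ∑ z ∈ (Finset.Icc 1 N) ×ˢ (noiseSet k H i₀),
        a (fun i => ArithmeticFunction.cardFactors (z.1 + i) + z.2 i) := by
    unfold Em nz
    rw [Finset.sum_product, ← Finset.mul_sum, ← mul_assoc]
    congr 1
    rw [one_div_mul_one_div]
  rw [e1, ← Finset.sum_fiberwise_of_maps_to (muH_maps k N H i₀), Finset.mul_sum]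
  refine Finset.sum_congr rfl fun ℓ _ => ?_
  unfold muH
  have e2 : ∑ z ∈ ((Finset.Icc 1 N) ×ˢ (noiseSet k H i₀)).filter
      (fun z => (fun i : Fin k => ArithmeticFunction.cardFactors (z.1 + i) + z.2 i) = ℓ),
      a (fun i => ArithmeticFunction.cardFactors (z.1 + i) + z.2 i) =
      ∑ z ∈ ((Finset.Icc 1 N) ×ˢ (noiseSet k H i₀)).filter
      (fun z => ∀ i : Fin k, ArithmeticFunction.cardFactors (z.1 + (i : ℕ)) + z.2 i = ℓ i),
      a ℓ := by
    apply Finset.sum_congr
    · ext z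
      simp only [Finset.mem_filter]
      rw [funext_iff]
    · intro z hz
      rw [Finset.mem_filter] at hz
      congr 1
      exact funext hz.2
  rw [e2, Finset.sum_const, nsmul_eq_mul]
  ring

lemma muH_mul_summable (k N H : ℕ) (i₀ : Fin k) (a : (Fin k → ℕ) → ℝ) :
    Summable (fun ℓ => muH k N H i₀ ℓ * a ℓ) :=
  summable_of_ne_finset_zero (s := BxH k N H)
    (fun ℓ hℓ => by rw [muH_zero k N H i₀ ℓ hℓ, zero_mul])

lemma Ep_sum' {J : Type} (s : Finset J) (k N : ℕ) (c : ℝ) (b : J → (Fin k → ℕ) → ℝ) :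
    Ep k N (fun ℓ => c * ∑ j ∈ s, b j ℓ) = c * ∑ j ∈ s, Ep k N (b j) := by
  unfold Ep
  rw [← Finset.mul_sum, Finset.sum_comm, ← Finset.mul_sum]
  ring

/-- **Independence after bounded noise.** -/
theorem noise (k : ℕ) (i₀ : Fin k) (ε : ℝ) (hε : 0 < ε) :
    ∃ H₀ : ℕ, ∀ H ≥ H₀, ∃ N₀ : ℕ, ∀ N ≥ N₀,
      ∑' ℓ : Fin k → ℕ, |muH k N H i₀ ℓ - piN k N ℓ| ≤ ε := by
  classical
  obtain ⟨δ, hδ, N₁, hN₁⟩ := main_slow k i₀ (ε / 2) (by positivity)
  obtain ⟨H₀, hH₀⟩ := exists_nat_gt (2 / δ)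
  refine ⟨H₀ + 1, fun H hH => ?_⟩
  have hH1 : 1 ≤ H := by omega
  have hHR : (0 : ℝ) < H := by exact_mod_cast hH1
  have hHδ : 2 / (H : ℝ) ≤ δ := by
    have h1 : (H₀ : ℝ) ≤ H := by
      have : H₀ ≤ H := by omega
      exact_mod_cast this
    rw [div_le_iff₀ hHR]
    rw [div_lt_iff₀ hδ] at hH₀
    nlinarith
  set r : ℝ := ε / (2 * (k * H + 1)) with hr
  have hr0 : 0 < r := by positivity
  obtain ⟨N₂, hN₂⟩ := shiftInv_eventually r hr0
  refine ⟨N₁ + N₂ + 1, fun N hN => ?_⟩
  have hN1 : 1 ≤ N := by omega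
  have hsh := hN₂ N (by omega)
  set a : (Fin k → ℕ) → ℝ := fun ℓ => if piN k N ℓ ≤ muH k N H i₀ ℓ then 1 else -1 with ha
  have ha1 : ∀ ℓ, |a ℓ| ≤ 1 := by
    intro ℓ
    simp only [ha]
    split_ifs <;> norm_num
  have e1 : ∀ ℓ, |muH k N H i₀ ℓ - piN k N ℓ| = muH k N H i₀ ℓ * a ℓ - piN k N ℓ * a ℓ := by
    intro ℓ
    simp only [ha]
    split_ifs with h
    · rw [abs_of_nonneg (by linarith)]
      ring
    · rw [abs_of_neg (by linarith [not_le.mp h])]
      ring
  rw [tsum_congr e1, (muH_mul_summable k N H i₀ a).tsum_sub (pi_mul_summable k N a),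
    ← muH_apply k N H hN1 hH1 i₀ a, ← Ep_eq_tsum]
  have hslow : SlowVar k i₀ δ (nz k H i₀ a) := by
    intro s i hi
    have h1 := nz_slow k H hH1 i₀ i hi a ha1 s
    have h2 : s + ev k i = Function.update s i (s i + 1) := by
      funext j
      rw [Pi.add_apply]
      unfold ev
      by_cases hj : j = i
      · rw [hj, Function.update_self, Pi.single_eq_same]
      · rw [Function.update_of_ne hj, Pi.single_eq_of_ne hj, add_zero]
    rw [h2] at h1
    exact h1.trans hHδ
  have h1 : |Em k N (nz k H i₀ a) - Ep k N (nz k H i₀ a)| ≤ ε / 2 :=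
    hN₁ N (by omega) (nz k H i₀ a) (nz_abs_le k H hH1 i₀ a ha1) hslow
  have hc : (0 : ℝ) < (noiseSet k H i₀).card := by exact_mod_cast noiseSet_card_pos k H hH1 i₀
  have h2 : |Ep k N (nz k H i₀ a) - Ep k N a| ≤ ε / 2 := by
    have e2 : Ep k N (nz k H i₀ a) - Ep k N a =
        1 / ((noiseSet k H i₀).card : ℝ) * ∑ u ∈ noiseSet k H i₀,
          (Ep k N (fun ℓ => a (ℓ + u)) - Ep k N a) := by
      have e3 : Ep k N (nz k H i₀ a) = 1 / ((noiseSet k H i₀).card : ℝ) *
          ∑ u ∈ noiseSet k H i₀, Ep k N (fun ℓ => a (ℓ + u)) :=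
        Ep_sum' (noiseSet k H i₀) k N _ (fun u ℓ => a (ℓ + u))
      rw [e3, Finset.sum_sub_distrib, Finset.sum_const, nsmul_eq_mul]
      field_simp
    rw [e2, abs_mul, abs_of_pos (by positivity), one_div_mul_eq_div, div_le_iff₀ hc]
    refine (Finset.abs_sum_le_sum_abs _ _).trans ?_
    have h3 : ∀ u ∈ noiseSet k H i₀, |Ep k N (fun ℓ => a (ℓ + u)) - Ep k N a| ≤ ε / 2 := by
      intro u hu
      have h4 := Ep_shifts k N hN1 r hsh (∑ i, u i) u rfl a ha1
      refine h4.trans ?_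
      have h5 : ∑ i, u i ≤ k * H := by
        have h6 : ∀ i ∈ (Finset.univ : Finset (Fin k)), u i ≤ H := by
          intro i _
          rw [mem_noiseSet] at hu
          by_cases hi : i = i₀
          · rw [hi, hu.1]
            exact Nat.zero_le _
          · exact (hu.2 i hi).le
        refine (Finset.sum_le_card_nsmul _ _ H h6).trans (le_of_eq ?_)
        rw [Finset.card_univ, Fintype.card_fin, smul_eq_mul]
      have h7 : ((∑ i, u i : ℕ) : ℝ) ≤ k * H := by exact_mod_cast h5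
      calc ((∑ i, u i : ℕ) : ℝ) * r ≤ (k * H) * r := mul_le_mul_of_nonneg_right h7 hr0.le
        _ ≤ (k * H + 1) * r := by
          apply mul_le_mul_of_nonneg_right _ hr0.le
          linarith
        _ = ε / 2 := by
          rw [hr]
          field_simp
    refine (Finset.sum_le_card_nsmul _ _ _ h3).trans (le_of_eq ?_)
    rw [nsmul_eq_mul, mul_comm]
  have h3 := le_abs_self (Em k N (nz k H i₀ a) - Ep k N (nz k H i₀ a))
  have h4 := le_abs_self (Ep k N (nz k H i₀ a) - Ep k N a)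
  linarith

end Helper13.Om
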